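import Pool.Agent.Helper25.KG.C5
import Pool.Agent.Helper25.S1T.Zpp1H_p0
import Pool.Agent.Helper25.S1T.Zpp1H_p1
import Pool.Agent.Helper25.S1T.Zpp1H_p2

set_option autoImplicit false
set_option linter.all false

namespace Helper25.S1T.Zpp1H

open Helper25.KG Helper11.CT

noncomputable def t9 : Tre :=
  .Q [0,0,0,0,0,-1,0,0,0,0,0,1] (.ed false [1,-1,0,0,1] .k) t7 t8

theorem ok9 : chk5 K KFs t9 r17 = true :=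
  chk5_Q (e' := [0,0,0,0,0,1,0,0,0,0,0,-1]) (by decide +kernel) (by decide +kernel) ok7 ok8

noncomputable def t10 : Tre :=
  .Q [0,0,0,0,0,0,1,1,1,-1,1,1] (.p true [0,0,1] [1,0,0,0,-1] (⟨0,[(31,0)]⟩,⟨0,[(30,0)]⟩) .k 2 (⟨0,
  [(24,0)]⟩,⟨0,[(25,0)]⟩) .k (.r 0 ⟨0,[(3,0),(1,0)]⟩ ⟨1,[(1,0),(6,0),(14,0),(3,0),(13,0)]⟩)) t6 t9

theorem ok10 : chk5 K KFs t10 r16 = true :=
  chk5_Q (e' := [0,0,0,0,0,0,-1,-1,-1,1,-1,-1]) (by decide +kernel) (by decide +kernel) ok6 ok9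

noncomputable def t11 : Tre :=
  .Q [0,1,0,0,-1,0,-1,-1,1,0,-1,1] (.p false [0,0,1] [0,0,0,0,1] (⟨0,[(30,0)]⟩,⟨0,[(29,0)]⟩) .k 2
  (⟨0,[(24,0)]⟩,⟨0,[(23,0)]⟩) .k (.r (-1) ⟨0,[(2,0),(1,0),(35,0)]⟩ ⟨4,[(7,1),(18,2),(0,2),(6,0)]⟩))
  t5 t10

theorem ok11 : chk5 K KFs t11 l15 = true :=
  chk5_Q (e' := [0,-1,0,0,1,0,1,1,-1,0,1,-1]) (by decide +kernel) (by decide +kernel) ok5 ok10

noncomputable def t13 : Tre :=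
  .Q [0,-1,1,0,1,0,1,0,-1,0,1,-1] (.p true [0,0,1] [0,0,0,0,1] (⟨0,[(29,0)]⟩,⟨0,[(28,0)]⟩) .k 2 (⟨0,
  [(23,0)]⟩,⟨0,[(22,0)]⟩) .k (.r (-1) ⟨0,[(1,0),(1,0),(35,0)]⟩ ⟨4,[(6,1),(18,2),(0,2),(6,0)]⟩)) t11
  t12

theorem ok13 : chk5 K KFs t13 l14 = true :=
  chk5_Q (e' := [0,1,-1,0,-1,0,-1,0,1,0,-1,1]) (by decide +kernel) (by decide +kernel) ok11 ok12

noncomputable def t15 : Tre :=
  .Q [0,0,-1,0,0,0,1,0,1,-1,1,1] (.p true [0,0,1] [1,0,0,0,-1] (⟨0,[(28,0)]⟩,⟨0,[(27,0)]⟩) .k 2 (⟨0,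
  [(21,0)]⟩,⟨0,[(22,0)]⟩) .k (.r 0 ⟨0,[(0,0),(1,0)]⟩ ⟨3,[(1,1),(5,1),(17,1),(3,0),(7,1),(0,0)]⟩))
  t13 t14

theorem ok15 : chk5 K KFs t15 r13 = true :=
  chk5_Q (e' := [0,0,1,0,0,0,-1,0,-1,1,-1,-1]) (by decide +kernel) (by decide +kernel) ok13 ok14

noncomputable def t16 : Tre :=
  .I [0,-1,2,1] t4 t15

theorem ok16 : chk5 K KFs t16 l12 = true :=
  chk5_I (e' := [1,1,-2,-1]) (by decide +kernel) (by decide +kernel) ok4 ok15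

noncomputable def t19 : Tre :=
  .Q [0,1,0,-1,0,0,0,1,0,1] (.pp false [-1,1]) t17 t18

theorem ok19 : chk5 K KFs t19 r12 = true :=
  chk5_Q (e' := [0,-1,0,1,0,0,0,-1,0,-1]) (by decide +kernel) (by decide +kernel) ok17 ok18

noncomputable def t20 : Tre :=
  .Q [0,0,0,-1,0,0,-1,-1,0,1,-1] (.p false [0,0,1] [1] (⟨0,[(26,0)]⟩,⟨0,[(25,0)]⟩) .k 1 (⟨0,[]⟩,⟨0,
  []⟩) .k .k) t16 t19

theorem ok20 : chk5 K KFs t20 l11 = true :=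
  chk5_Q (e' := [0,0,0,1,0,0,1,1,0,-1,1]) (by decide +kernel) (by decide +kernel) ok16 ok19

noncomputable def t22 : Tre :=
  .I [0,0,2,1,0,0,0,1] t20 t21

theorem ok22 : chk5 K KFs t22 l10 = true :=
  chk5_I (e' := [1,0,-2,-1,0,0,0,-1]) (by decide +kernel) (by decide +kernel) ok20 ok21

noncomputable def t24 : Tre :=
  .Q [0,0,0,0,0,0,0,0,1,-1,0,1] (.p true [0,0,0,0,1] [1] (⟨0,[(18,0)]⟩,⟨0,[(17,0)]⟩) .k 1 (⟨0,[]⟩,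
  ⟨0,[]⟩) .k .k) t22 t23

theorem ok24 : chk5 K KFs t24 l9 = true :=
  chk5_Q (e' := [0,0,0,0,0,0,0,0,-1,1,0,-1]) (by decide +kernel) (by decide +kernel) ok22 ok23

noncomputable def t26 : Tre :=
  .Q [0,-1,0,0,1,0,0,0,-1,1,0,-1] (.p false [0,0,0,0,1] [1] (⟨0,[(17,0)]⟩,⟨0,[(16,0)]⟩) .k 1 (⟨0,
  []⟩,⟨0,[]⟩) .k .k) t24 t25

theorem ok26 : chk5 K KFs t26 l8 = true :=
  chk5_Q (e' := [0,1,0,0,-1,0,0,0,1,-1,0,1]) (by decide +kernel) (by decide +kernel) ok24 ok25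

noncomputable def t28 : Tre :=
  .I [0,0,-1,0,0,0,0,-1] t26 t27

theorem ok28 : chk5 K KFs t28 r7 = true :=
  chk5_I (e' := [1,0,1,0,0,0,0,1]) (by decide +kernel) (by decide +kernel) ok26 ok27

noncomputable def t29 : Tre :=
  .Q [0,0,0,-1,0,0,0,0,0,1] (.pp false [-1,1]) t3 t28

theorem ok29 : chk5 K KFs t29 l6 = true :=
  chk5_Q (e' := [0,0,0,1,0,0,0,0,0,-1]) (by decide +kernel) (by decide +kernel) ok3 ok28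

theorem cl0 : Clo5 K KFs HH l32 :=
  .w [-1,0,0,0,0,4,0,0,0,0,-4,-4] (e' := [2,0,0,0,0,-4,0,0,0,0,4,4]) (by decide +kernel) (.t t38
  ok38) (.t t39 ok39)

theorem cl1 : Clo5 K KFs HH l36 :=
  .w [-1,0,0,0,0,4,0,0,0,0,-4,-4] (e' := [2,0,0,0,0,-4,0,0,0,0,4,4]) (by decide +kernel) (.t t41
  ok41) (.t t42 ok42)

theorem cl2 : Clo5 K KFs HH r35 :=
  .q [0,0,-2,0,1,0,0,0,-1,0,0,-1] (e' := [0,0,2,0,-1,0,0,0,1,0,0,1]) (.p false [0,0,0,0,1] [] (⟨0,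
  [(30,0)]⟩,⟨0,[(29,0)]⟩) .k 0 (⟨0,[]⟩,⟨0,[]⟩) .k .k) (by decide +kernel) (by decide +kernel) cl1
  (.t t43 ok43)

theorem cl3 : Clo5 K KFs HH l34 :=
  .q [0,0,1,0,-1,0,-2,0,1,1,-2,1] (e' := [0,0,-1,0,1,0,2,0,-1,-1,2,-1]) (.p false [0,0,1] [1,0,-1,0,
  1] (⟨0,[(35,0)]⟩,⟨0,[(34,0)]⟩) .k 2 (⟨7,[(2,0),(18,3),(3,3),(3,3)]⟩,⟨0,[(5,0)]⟩) .k (.x (-1) ⟨0,
  [(4,0),(16,0),(7,0)]⟩ ⟨227,[(1,23),(0,18),(2,303),(1,23),(5,59),(1,155),(6,59),(1,75),(8,335),(11,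
  11)]⟩)) (by decide +kernel) (by decide +kernel) (.t t40 ok40) cl2

theorem cl4 : Clo5 K KFs HH r32 :=
  .q [0,-2,0,1,2,0,1,1,-1,-1,1,-1] (e' := [0,2,0,-1,-2,0,-1,-1,1,1,-1,1]) (.p false [1,0,-1,0,1] []
  (⟨7,[(1,0),(18,3),(3,3),(3,3)]⟩,⟨0,[(4,0)]⟩) .k 0 (⟨0,[]⟩,⟨0,[]⟩) .k (.r 0 ⟨43,[(1,2),(1,11),(3,
  11),(0,7),(1,7),(19,35),(7,3)]⟩ ⟨3,[(13,0),(1,0),(5,0),(7,1),(2,1),(11,3)]⟩)) (by decide +kernel)
  (by decide +kernel) cl3 (.t t44 ok44)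

theorem cl5 : Clo5 K KFs HH l31 :=
  .q [0,-1,0,0,2,0,-1,-1,-2,0,-1,-2] (e' := [0,1,0,0,-2,0,1,1,2,0,1,2]) (.p false [0,0,1] [0,1,0,0,
  -2] (⟨0,[(33,0)]⟩,⟨0,[(32,0)]⟩) .k 2 (⟨0,[(1,0),(1,0),(2,0),(13,0)]⟩,⟨0,[(27,1),(7,0)]⟩) (.r (-1)
  ⟨1,[(30,0),(0,0),(9,1),(1,1)]⟩ ⟨3,[(9,0),(27,1),(2,2)]⟩) (.r 0 ⟨7,[(12,0),(1,0),(5,0),(7,5),(2,5),
  (5,3)]⟩ ⟨15,[(0,0),(1,3),(3,3),(0,3),(1,3),(8,11),(24,15)]⟩)) (by decide +kernel)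
  (by decide +kernel) cl0 cl4

theorem cl6 : Clo5 K KFs HH l30 :=
  .w [-1,0,0,0,0,-4,0,0,0,4,4,4] (e' := [2,0,0,0,0,4,0,0,0,-4,-4,-4]) (by decide +kernel) cl5 (.t
  t45 ok45)

theorem cl7 : Clo5 K KFs HH r29 :=
  .q [0,0,0,0,1,0,0,0,-1,-1,0,-1] (e' := [0,0,0,0,-1,0,0,0,1,1,0,1]) (.p false [1,-1,0,0,1] [] (⟨0,
  [(25,0),(7,0)]⟩,⟨0,[(1,0),(19,0)]⟩) (.r 0 ⟨0,[(37,0)]⟩ ⟨1,[(22,0),(0,0),(4,0),(0,0),(9,1),(1,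
  0)]⟩) 0 (⟨0,[]⟩,⟨0,[]⟩) .k .k) (by decide +kernel) (by decide +kernel) cl6 (.t t46 ok46)

theorem cl8 : Clo5 K KFs HH l28 :=
  .q [0,0,0,0,-1,0,-2,0,1,1,-2,1] (e' := [0,0,0,0,1,0,2,0,-1,-1,2,-1]) (.p false [0,0,1] [1,0,-1,0,
  1] (⟨0,[(30,0)]⟩,⟨0,[(29,0)]⟩) .k 2 (⟨0,[(24,0),(4,0)]⟩,⟨0,[(0,0)]⟩) .k (.i 1 ⟨0,[(0,0),(29,0)]⟩
  ⟨0,[(16,0),(7,0)]⟩)) (by decide +kernel) (by decide +kernel) (.t t37 ok37) cl7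

theorem cl9 : Clo5 K KFs HH r27 :=
  .q [0,0,0,0,0,0,0,0,0,0,1,-1] (e' := [0,0,0,0,0,0,0,0,0,0,-1,1]) (.ed true [1,0,-1,0,1] (.r 0 ⟨0,
  [(17,0),(7,0)]⟩ ⟨3,[(8,0),(1,0),(5,0),(7,1),(2,1),(11,3)]⟩)) (by decide +kernel)
  (by decide +kernel) cl8 (.t t47 ok47)

theorem cl10 : Clo5 K KFs HH r26 :=
  .i [0,0,1,0,-1,1,1,0,1] (e' := [1,0,-1,0,1,-1,-1,0,-1]) (by decide +kernel) (by decide +kernel)
  (.t t36 ok36) cl9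

theorem cl11 : Clo5 K KFs HH r25 :=
  .q [0,0,0,0,1,0,1,1,-1,0,1,-1] (e' := [0,0,0,0,-1,0,-1,-1,1,0,-1,1]) (.p true [0,0,1] [0,0,0,0,1]
  (⟨0,[(27,0)]⟩,⟨0,[(26,0)]⟩) .k 2 (⟨0,[(21,0)]⟩,⟨0,[(20,0)]⟩) .k (.r (-1) ⟨3,[(6,0),(1,0),(5,0),(7,
  1),(2,1),(11,3)]⟩ ⟨0,[(15,0),(7,0)]⟩)) (by decide +kernel) (by decide +kernel) (.t t35 ok35) cl10

theorem cl12 : Clo5 K KFs HH l24 :=
  .i [0,0,-1,0,1,-1,-1,0,-1] (e' := [1,0,1,0,-1,1,1,0,1]) (by decide +kernel) (by decide +kernel)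
  (.t t34 ok34) cl11

theorem cl13 : Clo5 K KFs HH r23 :=
  .i [1,-1,1,1,0,0,0,-1] (e' := [0,1,-1,-1,0,0,0,1]) (by decide +kernel) (by decide +kernel) cl12
  (.t t48 ok48)

theorem cl14 : Clo5 K KFs HH r22 :=
  .q [0,0,0,-1,0,0,0,0,0,1] (e' := [0,0,0,1,0,0,0,0,0,-1]) (.pp false [-1,1]) (by decide +kernel)
  (by decide +kernel) (.t t33 ok33) cl13

theorem cl15 : Clo5 K KFs HH r21 :=
  .i [0,-1,2,1] (e' := [1,1,-2,-1]) (by decide +kernel) (by decide +kernel) (.t t32 ok32) cl14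

theorem cl16 : Clo5 K KFs HH r20 :=
  .q [0,0,0,-1,0,0,1,1,0,1,1] (e' := [0,0,0,1,0,0,-1,-1,0,-1,-1]) (.p true [1,-1,1] [] (⟨0,[(22,0),
  (1,0)]⟩,⟨0,[(12,0)]⟩) .k 0 (⟨0,[]⟩,⟨0,[]⟩) .k .k) (by decide +kernel) (by decide +kernel) (.t t31
  ok31) cl15

theorem cl17 : Clo5 K KFs HH r6 :=
  .q [0,0,2,0,-1,0,1,0,0,1,1] (e' := [0,0,-2,0,1,0,-1,0,0,-1,-1]) (.p true [1,-1,1] [] (⟨0,[(21,0),
  (1,0)]⟩,⟨0,[(11,0)]⟩) .k 0 (⟨0,[]⟩,⟨0,[]⟩) .k .k) (by decide +kernel) (by decide +kernel) (.t t30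
  ok30) cl16

theorem cl18 : Clo5 K KFs HH r5 :=
  .i [0,-1,1,1,0,0,0,-1] (e' := [1,1,-1,-1,0,0,0,1]) (by decide +kernel) (by decide +kernel) (.t
  t29 ok29) cl17

theorem cl19 : Clo5 K KFs HH r4 :=
  .q [0,0,1,0,0,0,0,0,-1,0,0,-1] (e' := [0,0,-1,0,0,0,0,0,1,0,0,1]) (.p false [0,0,0,0,1] [] (⟨0,
  [(13,0)]⟩,⟨0,[(12,0)]⟩) .k 0 (⟨0,[]⟩,⟨0,[]⟩) .k .k) (by decide +kernel) (by decide +kernel) (.t
  t2 ok2) cl18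

theorem cl20 : Clo5 K KFs HH l3 :=
  .q [0,-1,0,-1,0,0,-1,-1,0,1,-1] (e' := [0,1,0,1,0,0,1,1,0,-1,1]) (.p false [0,0,1] [1] (⟨0,[(18,
  0)]⟩,⟨0,[(17,0)]⟩) .k 1 (⟨0,[]⟩,⟨0,[]⟩) .k .k) (by decide +kernel) (by decide +kernel) (.t t1
  ok1) cl19

theorem cl21 : Clo5 K KFs HH l2 :=
  .i [1,0,-1,-1,1,0,0,1] (e' := [0,0,1,1,-1,0,0,-1]) (by decide +kernel) (by decide +kernel) cl20
  (.t t49 ok49)

theorem cl22 : Clo5 K KFs HH r1 :=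
  .q [0,1,0,1,0,0,0,0,0,-1] (e' := [0,-1,0,-1,0,0,0,0,0,1]) (.pp true [-1,1]) (by decide +kernel)
  (by decide +kernel) cl21 (.t t50 ok50)

theorem cl23 : Clo5 K KFs HH l0 :=
  .q [0,0,1,0,-1,0,0,0,1,0,0,1] (e' := [0,0,-1,0,1,0,0,0,-1,0,0,-1]) (.p true [0,0,0,0,1] [] (⟨0,
  [(9,0)]⟩,⟨0,[(8,0)]⟩) .k 0 (⟨0,[]⟩,⟨0,[]⟩) .k .k) (by decide +kernel) (by decide +kernel) (.t t0
  ok0) cl22

noncomputable def t61 : Tre :=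
  .I [1,2,0,1,-1] t59 t60

theorem ok61 : chk5 K KFs t61 r50 = true :=
  chk5_I (e' := [0,-2,0,-1,1]) (by decide +kernel) (by decide +kernel) ok59 ok60

noncomputable def t62 : Tre :=
  .Q [0,0,0,-1,0,0,1,1,0,1,1] (.p true [1,-1,1] [] (⟨0,[(27,0),(1,0)]⟩,⟨0,[(17,0)]⟩) .k 0 (⟨0,[]⟩,
  ⟨0,[]⟩) .k .k) t58 t61

theorem ok62 : chk5 K KFs t62 l49 = true :=
  chk5_Q (e' := [0,0,0,1,0,0,-1,-1,0,-1,-1]) (by decide +kernel) (by decide +kernel) ok58 ok61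

noncomputable def t64 : Tre :=
  .Q [0,-1,0,0,1,0,0,0,-1,1,0,-1] (.p false [0,0,0,0,1] [1] (⟨0,[(20,0)]⟩,⟨0,[(19,0)]⟩) .k 1 (⟨0,
  []⟩,⟨0,[]⟩) .k .k) t62 t63

theorem ok64 : chk5 K KFs t64 l48 = true :=
  chk5_Q (e' := [0,1,0,0,-1,0,0,0,1,-1,0,1]) (by decide +kernel) (by decide +kernel) ok62 ok63

noncomputable def t66 : Tre :=
  .Q [0,0,-1,0,0,0,-1,0,1,0,-1,1] (.p false [0,0,1] [0,0,0,0,1] (⟨0,[(25,0)]⟩,⟨0,[(24,0)]⟩) .k 2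
  (⟨0,[(19,0)]⟩,⟨0,[(18,0)]⟩) .k (.r (-1) ⟨7,[(1,0),(4,0),(5,2),(7,5),(2,3),(2,0),(8,6)]⟩ ⟨1,[(4,0),
  (3,0),(23,0)]⟩)) t64 t65

theorem ok66 : chk5 K KFs t66 r47 = true :=
  chk5_Q (e' := [0,0,1,0,0,0,1,0,-1,0,1,-1]) (by decide +kernel) (by decide +kernel) ok64 ok65

noncomputable def t67 : Tre :=
  .Q [0,0,0,-1,0,0,0,1,0,1] (.pp false [-1,1]) t57 t66

theorem ok67 : chk5 K KFs t67 r46 = true :=
  chk5_Q (e' := [0,0,0,1,0,0,0,-1,0,-1]) (by decide +kernel) (by decide +kernel) ok57 ok66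

noncomputable def t68 : Tre :=
  .Q [0,1,0,-1,0,0,-1,-1,0,1,-1] (.p false [0,0,1] [1] (⟨0,[(23,0)]⟩,⟨0,[(22,0)]⟩) .k 1 (⟨0,[]⟩,⟨0,
  []⟩) .k .k) t56 t67

theorem ok68 : chk5 K KFs t68 l45 = true :=
  chk5_Q (e' := [0,-1,0,1,0,0,1,1,0,-1,1]) (by decide +kernel) (by decide +kernel) ok56 ok67

noncomputable def t72 : Tre :=
  .Q [0,-1,0,0,1,0,0,0,-1,0,0,-1] (.p false [0,0,0,0,1] [] (⟨0,[(18,0)]⟩,⟨0,[(17,0)]⟩) .k 0 (⟨0,[]⟩,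
  ⟨0,[]⟩) .k .k) t70 t71

theorem ok72 : chk5 K KFs t72 r52 = true :=
  chk5_Q (e' := [0,1,0,0,-1,0,0,0,1,0,0,1]) (by decide +kernel) (by decide +kernel) ok70 ok71

noncomputable def t73 : Tre :=
  .Q [0,0,0,-1,0,0,1,1,-1,1,1,-1] (.p true [1,-1,1] [0,0,0,0,1] (⟨0,[(23,0),(1,0)]⟩,⟨0,[(13,0)]⟩)
  .k 2 (⟨0,[(17,0)]⟩,⟨0,[(16,0)]⟩) .k (.r (-1) ⟨3,[(8,1),(1,1),(7,1),(2,1),(2,0),(8,2)]⟩ ⟨1,[(2,0),
  (3,0),(23,0)]⟩)) t69 t72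

theorem ok73 : chk5 K KFs t73 r45 = true :=
  chk5_Q (e' := [0,0,0,1,0,0,-1,-1,1,-1,-1,1]) (by decide +kernel) (by decide +kernel) ok69 ok72

noncomputable def t74 : Tre :=
  .I [0,-1,2,1] t68 t73

theorem ok74 : chk5 K KFs t74 r44 = true :=
  chk5_I (e' := [1,1,-2,-1]) (by decide +kernel) (by decide +kernel) ok68 ok73

noncomputable def t75 : Tre :=
  .I [0,-1,2,1,0,0,0,-1] t55 t74

theorem ok75 : chk5 K KFs t75 r43 = true :=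
  chk5_I (e' := [1,1,-2,-1,0,0,0,1]) (by decide +kernel) (by decide +kernel) ok55 ok74

noncomputable def t76 : Tre :=
  .I [1,-1,1,0,0,0,0,1] t54 t75

theorem ok76 : chk5 K KFs t76 r42 = true :=
  chk5_I (e' := [0,1,-1,0,0,0,0,-1]) (by decide +kernel) (by decide +kernel) ok54 ok75

noncomputable def t77 : Tre :=
  .Q [0,0,0,-1,0,0,0,0,0,1] (.pp false [-1,1]) t53 t76

theorem ok77 : chk5 K KFs t77 l41 = true :=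
  chk5_Q (e' := [0,0,0,1,0,0,0,0,0,-1]) (by decide +kernel) (by decide +kernel) ok53 ok76

noncomputable def t79 : Tre :=
  .I [1,1,-1,-1,0,0,0,1] t77 t78

theorem ok79 : chk5 K KFs t79 r40 = true :=
  chk5_I (e' := [0,-1,1,1,0,0,0,-1]) (by decide +kernel) (by decide +kernel) ok77 ok78

noncomputable def t80 : Tre :=
  .Q [0,-1,0,-1,0,0,1,1,0,1,1] (.p true [1,-1,1] [] (⟨0,[(17,0),(1,0)]⟩,⟨0,[(7,0)]⟩) .k 0 (⟨0,[]⟩,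
  ⟨0,[]⟩) .k .k) t52 t79

theorem ok80 : chk5 K KFs t80 l39 = true :=
  chk5_Q (e' := [0,1,0,1,0,0,-1,-1,0,-1,-1]) (by decide +kernel) (by decide +kernel) ok52 ok79

noncomputable def t82 : Tre :=
  .I [0,0,1,1,0,0,0,-1] t80 t81

theorem ok82 : chk5 K KFs t82 r38 = true :=
  chk5_I (e' := [1,0,-1,-1,0,0,0,1]) (by decide +kernel) (by decide +kernel) ok80 ok81

noncomputable def t83 : Tre :=
  .Q [0,0,1,0,-1,0,0,0,1,0,0,1] (.p true [0,0,0,0,1] [] (⟨0,[(9,0)]⟩,⟨0,[(8,0)]⟩) .k 0 (⟨0,[]⟩,⟨0,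
  []⟩) .k .k) t51 t82

theorem ok83 : chk5 K KFs t83 r0 = true :=
  chk5_Q (e' := [0,0,-1,0,1,0,0,0,-1,0,0,-1]) (by decide +kernel) (by decide +kernel) ok51 ok82

theorem cl24 : Clo5 K KFs HH base :=
  .q [0,0,0,0,0,0,-1,-1,0,0,-1] (e' := [0,0,0,0,0,0,1,1,0,0,1]) (.p false [0,0,1] [] (⟨0,[(14,0)]⟩,
  ⟨0,[(13,0)]⟩) .k 0 (⟨0,[]⟩,⟨0,[]⟩) .k .k) (by decide +kernel) (by decide +kernel) cl23 (.t t83
  ok83)

open Helper25.KW Helper55.KE in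
theorem closed {p a b c J l q : ℤ} {D dl : ℝ} {Cl : ℤ → ℤ → ℤ → ℤ → ℝ → Prop}
    (W : World p a b c J 1 l q D dl Cl) (hA : Aux p a b 1 D Cl) (g : G0 p a b c J D)
    {N X R : ℤ} {I : ℝ} (hk : KCl p l Cl N X R I) (kz : KF a b D (X + (1 : ℤ) * I) (X + (1 : ℤ) * I + R) I)
    {Ne Xe : ℤ} {Ie : ℝ} (he : EFac p 1 D Cl (a) Ne Xe Ie)
    (hE : KZ p a b l 1 Cl (fun X R I => Zp 1 X R I ∧ Zy b 1 D X R I) N
      (fun _ _ I => I) I)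
    (hN0 : KNo p a b l 1 Cl (fun X R I => Zx 1 X R I ∧ Zy b 1 D X R I))
    (hN1 : KNo p a b l 1 Cl (fun X R I => ZiD D J X R I ∧ Zy b 1 D X R I))
    (h0 : 1 ≤ (c : ℝ))
    (h1 : 1 ≤ (a : ℝ) - (b : ℝ) - (c : ℝ))
    (h2 : 0 < 2 * (b : ℝ) - D)
    (h3 : 1 ≤ 2 * (a : ℝ) - (b : ℝ))
    (h4 : 0 < (J : ℝ) - I)
    (h5 : 0 < (J : ℝ) - D + I)
    (h6 : 0 < (X : ℝ) + I)
    (h7 : 0 < -(b : ℝ) - (X : ℝ) + D - I)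
    (h8 : 0 < D - 2 * I) : False := by
  have g1 := g.a2
  have g2 := g.b2
  have g3 := g.pa
  have g4 := g.pb
  have g5 := g.J1
  have g6 := g.JD
  have g7 := g.D2
  have g8 := g.ca
  have g9 := g.ca'
  have k1 := kz.I0
  have k2 := kz.ID
  have k3 := kz.z1
  have k4 := kz.z2
  have k5 := kz.s1
  have k6 := kz.s2
  have e1 := he.I0
  have e2 := he.ID
  have e3 := he.x0
  have e4 := he.xp
  have hkf : ∀ M : ℤ, ∀ kf ∈ KFs, KOk4 p l Cl 1 (xv [1, a, b, c, p, J, X, R, Xe] [D, I, Ie]) N M kf := by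
    intro M
    have hA1 : evg (xv [1, a, b, c, p, J, X, R, Xe] [D, I, Ie]) [0, 1] = a := by
      simp only [evg_cons, evg_nil, xv, List.map_cons, List.map_nil, List.cons_append, List.nil_append]
      push_cast
      ring
    have hB1 : evg (xv [1, a, b, c, p, J, X, R, Xe] [D, I, Ie]) [0, 0, 1] = b := by
      simp only [evg_cons, evg_nil, xv, List.map_cons, List.map_nil, List.cons_append, List.nil_append]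
      push_cast
      ring
    simp only [KFs, List.forall_mem_cons]
    refine ⟨kok4_ex hA1 hB1 M hE ?_ ?_, kok4_no hA1 hB1 N M hN0 ?_, kok4_no hA1 hB1 N M hN1 ?_, fun _ h => absurd h (by simp)⟩
    · intro X' R' I' hg
      simp only [evg_cons, evg_nil, xv, List.map_cons, List.map_nil, List.cons_append, List.nil_append] at hg ⊢
      push_cast at hg ⊢
      linarith
    · intro X' R' I' _ hg
      simp only [List.forall_mem_cons, List.not_mem_nil, false_imp_iff, implies_true, and_true,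
        evg_cons, evg_nil, xv, List.map_cons, List.map_nil, List.cons_append, List.nil_append] at hg
      push_cast at hg
      simp only [Zx, Zp, Zs, Zsp, Zi, ZiD, Zy]
      push_cast
      refine ⟨?_, ?_⟩ <;> linarith [hg.1, hg.2.1, hg.2.2]
    · intro X' R' I' _ hg
      simp only [List.forall_mem_cons, List.not_mem_nil, false_imp_iff, implies_true, and_true,
        evg_cons, evg_nil, xv, List.map_cons, List.map_nil, List.cons_append, List.nil_append] at hg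
      push_cast at hg
      simp only [Zx, Zp, Zs, Zsp, Zi, ZiD, Zy]
      push_cast
      refine ⟨?_, ?_⟩ <;> linarith [hg.1, hg.2]
    · intro X' R' I' _ hg
      simp only [List.forall_mem_cons, List.not_mem_nil, false_imp_iff, implies_true, and_true,
        evg_cons, evg_nil, xv, List.map_cons, List.map_nil, List.cons_append, List.nil_append] at hg
      push_cast at hg
      simp only [Zx, Zp, Zs, Zsp, Zi, ZiD, Zy]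
      push_cast
      refine ⟨?_, ?_⟩ <;> linarith [hg.1, hg.2]
  push_cast at *
  refine closed5 (val_E W.toBase hk he (row := [0,1]) (by simp) (by simp) []) hA W rfl (Nk := N)
    (fun kf _ _ => ⟨_, rfl⟩) (fun _ _ _ => rfl) (hkf _) (H := HH) ?_ cl24 ?_
  · intro Q hQ
    exact absurd hQ (by simp [HH])
  · simp only [base, List.forall_mem_cons, List.not_mem_nil, false_imp_iff, implies_true,
      and_true, hld, xv, evg_cons, evg_nil, List.map_cons, List.map_nil, List.cons_append,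
      List.nil_append, if_true, if_false, Bool.false_eq_true]
    push_cast
    refine ⟨?_, ?_, ?_, ?_, ?_, ?_, ?_, ?_, ?_, ?_, ?_, ?_, ?_, ?_, ?_, ?_, ?_, ?_, ?_, ?_, ?_, ?_, ?_, ?_, ?_, ?_, ?_⟩ <;> linarith

end Helper25.S1T.Zpp1H
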