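import Pool.Agent.Helper25.KG.C3
import Pool.Agent.Helper25.KG.Cfg3

set_option autoImplicit false
set_option linter.all false

namespace Helper25.S1T.Zpp1Hg

open Helper25.KG Helper11.CT

noncomputable def K : Cls :=
  dK 1

noncomputable def KFs : List KF3 :=
  [(1, (0, 0, -1, [0,0,0,0,0,0,0,0,0,1]) :: (bx3 ++ [(1, 0, 0, []), (0, 0, -2, [0,0,0,0,0,0,0,0,1])])),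
    (0, bx3 ++ [(-1, 0, 0, [])]),
    (0, bx3 ++ [(0, 0, -1, [0,0,0,0,0,-1,0,0,1])])]

noncomputable def base : List Con :=
  [(false,[0,0,0,0,0,0,0,0,1,-2]),
  (false,[0,0,0,0,0,0,1,0,0,1]),
  (false,[0,0,0,0,0,1,0,0,-1,1]),
  (false,[0,0,0,0,0,1,0,0,0,-1]),
  (false,[0,1,0,0,0,0,1,1,0,1]),
  (false,[0,1,0,0,0,0,-1,-1,0,-1]),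
  (false,[0,0,1,0,0,0,1,0,0,1]),
  (false,[0,0,1,0,0,0,-1,0,0,-1]),
  (false,[0,0,0,0,0,0,0,0,1,-1]),
  (false,[0,0,0,0,0,0,0,0,0,1]),
  (false,[0,0,0,0,1,0,0,0,-2]),
  (false,[0,0,0,0,0,-1,0,0,1]),
  (true,[0,0,0,0,0,1]),
  (true,[0,2,-1]),
  (false,[0,0,-2,0,0,0,0,0,1]),
  (true,[0,1,-1,-1]),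
  (true,[0,1,0,-1]),
  (true,[0,0,0,1]),
  (true,[0,0,-2,0,1]),
  (true,[0,-2,0,0,1]),
  (true,[-1,0,1]),
  (true,[-1,1])]

noncomputable def t0 : Tre :=
  (.Q [0,0,0,1,0,0,-1,-1,0,-1] (.p false [0,0,1] [] (⟨0,[(9,0)]⟩,⟨0,[(8,0)]⟩) .k 0 (⟨0,[]⟩,⟨0,[]⟩)
  .k .k) (.I [0,-1,1,1,0,0,0,-1] (.Q [0,0,0,-1,-1,0,-2,-2,1,-2] (.p false [0,0,1] [1,0,-1] (⟨0,[(11,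
  0)]⟩,⟨0,[(10,0)]⟩) .k 2 (⟨0,[(10,0)]⟩,⟨0,[(11,0)]⟩) .k (.i 1 ⟨0,[(11,1)]⟩ ⟨0,[(2,0)]⟩)) (.I [1,1,
  0,0,-1,0,0,-1] (.R ⟨0,false,false,false,[0,1,-1],[0,1],[0,0,1],(⟨0,[(7,0)]⟩,⟨0,[(13,0),(1,0)]⟩),
  (⟨0,[(16,0)]⟩,⟨0,[(15,0)]⟩),⟨0,[(13,0)]⟩,.k,.k,.k,.k,.k,.k,⟨false,1,⟨1,[(20,1),(1,0),(0,0)]⟩,⟨0,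
  [(21,0)]⟩⟩,⟨true,0,⟨0,[(5,0)]⟩,⟨0,[(11,0)]⟩⟩,⟨true,1,⟨0,[(8,0),(2,0),(7,0),(3,0)]⟩,⟨0,[(0,0),(20,
  0)]⟩⟩,⟨false,1,⟨0,[(8,0),(14,0)]⟩,⟨7,[(1,1),(1,1),(5,1),(4,0),(8,0)]⟩⟩,⟨false,0,⟨0,[]⟩,⟨0,[]⟩⟩,
  ⟨false,0,⟨0,[]⟩,⟨0,[]⟩⟩,[.a ⟨true,0,⟨0,[(21,0)]⟩,⟨0,[(1,0),(6,1),(14,0)]⟩⟩ ⟨true,0,⟨1,[(10,0),(0,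
  0)]⟩,⟨0,[]⟩⟩ ⟨false,0,⟨0,[(5,0),(15,0)]⟩,⟨1,[(11,1),(7,1),(2,0),(0,0)]⟩⟩,.o ⟨false,1,⟨1,[(14,0),
  (6,1),(1,0)]⟩,⟨0,[(20,0)]⟩⟩,.o ⟨false,1,⟨0,[(11,0),(2,0),(3,0)]⟩,⟨0,[(10,0)]⟩⟩,.o ⟨false,1,⟨1,
  [(11,1),(2,0),(7,0)]⟩,⟨0,[(5,0)]⟩⟩]⟩) (.Q [0,-1,-1,-1,1,0,-1,0,0,-1] (.p false [0,0,1] [] (⟨0,
  [(13,0)]⟩,⟨0,[(12,0)]⟩) .k 0 (⟨0,[]⟩,⟨0,[]⟩) .k .k) (.R ⟨0,false,false,true,[0,1,-1],[0,1],[1,1],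
  (⟨0,[(8,0)]⟩,⟨0,[(14,0),(1,0)]⟩),(⟨0,[(17,0)]⟩,⟨0,[(16,0)]⟩),⟨0,[(14,0)]⟩,.k,.k,.k,.k,.k,.k,
  ⟨false,1,⟨1,[(0,0),(5,0),(13,0),(2,0)]⟩,⟨1,[(11,0),(0,0),(9,1)]⟩⟩,⟨true,0,⟨0,[(6,0)]⟩,⟨0,[(12,
  0)]⟩⟩,⟨false,1,⟨0,[(1,0),(18,0)]⟩,⟨0,[(3,0)]⟩⟩,⟨true,0,⟨0,[(9,0)]⟩,⟨7,[(2,1),(1,1),(5,1),(4,0),(8,
  0)]⟩⟩,⟨false,0,⟨0,[]⟩,⟨0,[]⟩⟩,⟨false,0,⟨0,[]⟩,⟨0,[]⟩⟩,[.e ⟨false,0,⟨0,[(20,0),(1,0)]⟩,⟨5,[(1,1),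
  (8,1),(0,1),(11,0),(0,2)]⟩⟩ ⟨false,0,⟨1,[(6,0),(4,0),(6,0),(3,1)]⟩,⟨0,[(0,0)]⟩⟩,.a ⟨true,0,⟨0,
  [(22,0)]⟩,⟨0,[(1,0),(0,0),(3,0),(2,0)]⟩⟩ ⟨true,0,⟨0,[]⟩,⟨1,[(11,0),(0,0)]⟩⟩ ⟨false,0,⟨0,[(6,0),
  (15,0)]⟩,⟨3,[(0,2),(0,0),(8,0),(7,0),(2,0)]⟩⟩,.o ⟨false,1,⟨0,[(12,0),(2,0),(3,0)]⟩,⟨0,[(11,0)]⟩⟩,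
  .o ⟨false,1,⟨3,[(0,0),(0,0),(2,0),(7,1),(2,1),(2,0)]⟩,⟨0,[(6,0)]⟩⟩]⟩) (.R ⟨0,false,false,true,[0,
  1,-1],[0,1],[1,1],(⟨0,[(8,0)]⟩,⟨0,[(14,0),(1,0)]⟩),(⟨0,[(17,0)]⟩,⟨0,[(16,0)]⟩),⟨0,[(14,0)]⟩,.k,.k,
  .k,.k,.k,.k,⟨false,1,⟨1,[(20,1),(2,0),(0,0)]⟩,⟨3,[(0,1),(0,1),(2,1),(6,0),(0,0)]⟩⟩,⟨true,0,⟨0,[(6,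
  0)]⟩,⟨0,[(12,0)]⟩⟩,⟨false,1,⟨0,[(1,0),(18,0)]⟩,⟨0,[(3,0)]⟩⟩,⟨true,0,⟨0,[(9,0)]⟩,⟨7,[(2,1),(1,1),
  (5,1),(4,0),(8,0)]⟩⟩,⟨false,0,⟨0,[]⟩,⟨0,[]⟩⟩,⟨false,0,⟨0,[]⟩,⟨0,[]⟩⟩,[.o ⟨false,0,⟨0,[(0,0),(11,
  0),(2,0),(3,0)]⟩,⟨0,[(21,0),(2,0)]⟩⟩,.a ⟨true,0,⟨0,[(22,0)]⟩,⟨0,[(1,0),(0,0),(3,0),(2,0)]⟩⟩ ⟨true,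
  0,⟨0,[]⟩,⟨1,[(11,0),(0,0)]⟩⟩ ⟨false,0,⟨0,[(6,0),(15,0)]⟩,⟨5,[(1,3),(0,1),(9,1),(2,0),(4,1),(0,1),
  (1,2)]⟩⟩,.o ⟨false,1,⟨0,[(12,0),(2,0),(3,0)]⟩,⟨0,[(11,0)]⟩⟩,.o ⟨false,1,⟨1,[(12,1),(2,0),(7,0)]⟩,
  ⟨0,[(6,0)]⟩⟩]⟩))) (.I [1,0,-1,0,0,0,0,-1] (.Q [0,0,-1,-1,0,0,-1,-2,0,-1] (.p false [0,0,1] [] (⟨0,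
  [(13,0)]⟩,⟨0,[(12,0)]⟩) .k 0 (⟨0,[]⟩,⟨0,[]⟩) .k .k) (.Q [0,0,0,-1,0,0,-2,0,1,-2] (.p false [0,0,
  1] [1,0,-1] (⟨0,[(14,0)]⟩,⟨0,[(13,0)]⟩) .k 2 (⟨0,[(13,0)]⟩,⟨0,[(14,0)]⟩) .k (.i 1 ⟨0,[(14,1)]⟩ ⟨0,
  [(5,0)]⟩)) (.I [1,-1,-2,-1,1] (.R ⟨0,false,false,true,[0,1,-1],[0,1],[1,1],(⟨0,[(10,0)]⟩,⟨0,[(16,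
  0),(1,0)]⟩),(⟨0,[(19,0)]⟩,⟨0,[(18,0)]⟩),⟨0,[(16,0)]⟩,.k,.k,.k,.k,.k,.k,⟨false,1,⟨1,[(0,0),(22,0),
  (1,0)]⟩,⟨1,[(13,0),(0,0),(9,1)]⟩⟩,⟨true,0,⟨0,[(8,0)]⟩,⟨0,[(14,0)]⟩⟩,⟨false,1,⟨1,[(0,0),(0,0),(2,
  0),(18,0)]⟩,⟨0,[(5,0)]⟩⟩,⟨true,0,⟨0,[(11,0)]⟩,⟨2,[(2,0),(3,0),(7,0)]⟩⟩,⟨false,0,⟨0,[]⟩,⟨0,[]⟩⟩,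
  ⟨false,0,⟨0,[]⟩,⟨0,[]⟩⟩,[.e ⟨false,0,⟨0,[(22,0),(1,0)]⟩,⟨5,[(1,0),(2,0),(7,1),(0,1),(11,0),(0,
  3)]⟩⟩ ⟨false,0,⟨1,[(8,0),(4,0),(6,0),(3,1)]⟩,⟨3,[(0,1),(0,1),(15,0),(8,0)]⟩⟩,.a ⟨true,0,⟨0,[(24,
  0)]⟩,⟨0,[(1,0),(6,1)]⟩⟩ ⟨true,0,⟨0,[]⟩,⟨1,[(13,0),(0,0)]⟩⟩ ⟨false,0,⟨0,[(8,0),(15,0)]⟩,⟨3,[(1,1),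
  (15,0),(5,1),(1,1),(0,0)]⟩⟩,.o ⟨false,1,⟨1,[(1,0),(15,1),(3,0),(2,0)]⟩,⟨0,[(13,0)]⟩⟩,.o ⟨false,1,
  ⟨7,[(1,3),(2,1),(1,1),(5,1),(4,4),(8,0)]⟩,⟨0,[(8,0)]⟩⟩]⟩) (.R ⟨0,false,false,true,[0,1,-1],[0,1],
  [1,1],(⟨0,[(10,0)]⟩,⟨0,[(16,0),(1,0)]⟩),(⟨0,[(19,0)]⟩,⟨0,[(18,0)]⟩),⟨0,[(16,0)]⟩,.k,.k,.k,.k,.k,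
  .k,⟨false,1,⟨1,[(22,1),(2,0),(0,0)]⟩,⟨9,[(0,2),(0,1),(2,2),(0,2),(0,2),(6,0),(4,0),(0,0)]⟩⟩,⟨true,
  0,⟨0,[(8,0)]⟩,⟨0,[(14,0)]⟩⟩,⟨false,1,⟨1,[(1,0),(2,0),(17,1),(3,0)]⟩,⟨0,[(5,0)]⟩⟩,⟨true,0,⟨0,[(11,
  0)]⟩,⟨2,[(2,0),(3,0),(7,0)]⟩⟩,⟨false,0,⟨0,[]⟩,⟨0,[]⟩⟩,⟨false,0,⟨0,[]⟩,⟨0,[]⟩⟩,[.o ⟨false,0,⟨0,[(0,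
  0),(16,0),(3,0)]⟩,⟨0,[(23,0),(2,0)]⟩⟩,.a ⟨true,0,⟨0,[(24,0)]⟩,⟨0,[(1,0),(6,1)]⟩⟩ ⟨true,0,⟨0,[]⟩,
  ⟨1,[(13,0),(0,0)]⟩⟩ ⟨false,0,⟨0,[(8,0),(15,0)]⟩,⟨3,[(1,1),(15,0),(5,1),(1,1),(0,0)]⟩⟩,.o ⟨false,1,
  ⟨1,[(1,0),(15,1),(3,0),(2,0)]⟩,⟨0,[(13,0)]⟩⟩,.o ⟨false,1,⟨7,[(1,3),(2,1),(1,1),(5,1),(4,4),(8,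
  0)]⟩,⟨0,[(8,0)]⟩⟩]⟩)) (.Q [0,1,0,-1,-1,0,-1,-1,1,-1] (.p false [0,0,1] [1] (⟨0,[(15,0)]⟩,⟨0,[(14,
  0)]⟩) .k 1 (⟨0,[]⟩,⟨0,[]⟩) .k .k) (.I [1,-1,-1,-1,0,0,0,-2] (.R ⟨0,false,false,true,[1,0,-1],[2,
  -1,-1],[0,1,0,-1,0,0,0,-1],(⟨0,[(16,0)]⟩,⟨0,[(17,0)]⟩),(⟨0,[(16,0),(2,0)]⟩,⟨0,[(10,0)]⟩),⟨0,[(10,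
  0)]⟩,.k,.k,.k,.k,.k,.k,⟨true,0,⟨1,[(14,0),(0,0)]⟩,⟨0,[]⟩⟩,⟨false,0,⟨0,[(19,0),(0,0)]⟩,⟨1,[(18,0),
  (7,0)]⟩⟩,⟨true,0,⟨0,[(24,0)]⟩,⟨0,[(25,0)]⟩⟩,⟨false,0,⟨0,[(1,0),(10,0),(14,0)]⟩,⟨1,[(18,0),(6,1),
  (1,0)]⟩⟩,⟨false,0,⟨0,[]⟩,⟨0,[]⟩⟩,⟨false,0,⟨0,[]⟩,⟨0,[]⟩⟩,[.o ⟨false,(-1),⟨0,[(1,0)]⟩,⟨7,[(5,5),(1,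
  1),(5,1),(4,4),(8,4)]⟩⟩,.e ⟨false,0,⟨1,[(0,0),(22,0)]⟩,⟨5,[(5,3),(1,1),(7,5),(3,2),(0,2),(1,0),(3,
  1)]⟩⟩ ⟨false,0,⟨2,[(1,0),(1,0),(10,1),(7,1),(1,0),(2,0)]⟩,⟨1,[(5,0),(9,1),(2,0),(3,0),(2,0)]⟩⟩,.a
  ⟨true,0,⟨1,[(15,1),(3,0),(0,0),(1,0)]⟩,⟨0,[(9,0)]⟩⟩ ⟨false,0,⟨3,[(0,1),(13,0),(0,0),(8,1)]⟩,⟨1,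
  [(5,0),(9,1),(6,0),(2,0),(1,0)]⟩⟩ ⟨true,(-1),⟨0,[(1,0),(7,0)]⟩,⟨1,[(5,0),(9,1),(2,0),(3,0),(2,
  0)]⟩⟩,.o ⟨false,0,⟨0,[(15,0)]⟩,⟨9,[(0,1),(1,1),(2,1),(8,1),(3,2),(5,1),(1,4)]⟩⟩]⟩) (.R ⟨0,false,
  false,false,[0,1,-1],[0,1],[1],(⟨0,[(11,0)]⟩,⟨0,[(17,0),(1,0)]⟩),(⟨0,[(20,0)]⟩,⟨0,[(19,0)]⟩),⟨0,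
  [(17,0)]⟩,.k,.k,.k,.k,.k,.k,⟨false,1,⟨1,[(23,1),(2,0),(0,0)]⟩,⟨2,[(0,0),(5,0),(0,0),(6,0)]⟩⟩,
  ⟨true,0,⟨0,[(9,0)]⟩,⟨0,[(15,0)]⟩⟩,⟨true,1,⟨1,[(0,0),(22,2),(3,1)]⟩,⟨0,[(1,0),(0,0),(12,0),(9,
  0)]⟩⟩,⟨false,1,⟨0,[(12,0),(14,0)]⟩,⟨2,[(3,0),(3,0),(7,0)]⟩⟩,⟨false,0,⟨0,[]⟩,⟨0,[]⟩⟩,⟨false,0,⟨0,
  []⟩,⟨0,[]⟩⟩,[.a ⟨true,0,⟨0,[(25,0)]⟩,⟨0,[(1,0),(10,0),(14,0)]⟩⟩ ⟨true,0,⟨0,[]⟩,⟨1,[(14,0),(0,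
  0)]⟩⟩ ⟨false,0,⟨3,[(2,0),(11,1),(7,0),(2,2)]⟩,⟨1,[(15,1),(7,1),(2,0),(0,0)]⟩⟩,.o ⟨false,1,⟨1,[(18,
  0),(6,1),(1,0)]⟩,⟨0,[(24,0)]⟩⟩,.o ⟨false,1,⟨0,[(15,0),(2,0),(3,0)]⟩,⟨0,[(14,0)]⟩⟩,.o ⟨false,1,⟨1,
  [(15,1),(2,0),(7,0)]⟩,⟨0,[(9,0)]⟩⟩]⟩)) (.Q [0,-1,0,0,1,0,2,2,-1,2] (.p true [0,0,1] [1,0,-1] (⟨0,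
  [(16,0)]⟩,⟨0,[(15,0)]⟩) .k 2 (⟨0,[(15,0)]⟩,⟨0,[(16,0)]⟩) .k (.i 1 ⟨0,[(16,1)]⟩ ⟨0,[(7,0)]⟩)) (.R
  ⟨0,false,false,true,[1,0,-2],[1,0,-1],[1],(⟨0,[(8,0)]⟩,⟨0,[(17,1)]⟩),(⟨0,[(16,0)]⟩,⟨0,[(17,0)]⟩),
  ⟨0,[(10,0),(6,0)]⟩,.k,.k,(.r 0 ⟨0,[(3,0),(5,0)]⟩ ⟨1,[(5,1),(9,3),(3,0),(0,0),(1,0)]⟩),.k,.k,.k,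
  ⟨false,1,⟨3,[(0,1),(14,3),(2,0),(3,3),(4,0)]⟩,⟨4,[(4,1),(8,2),(0,2),(6,0)]⟩⟩,⟨true,0,⟨0,[(9,0)]⟩,
  ⟨0,[(15,0)]⟩⟩,⟨false,1,⟨0,[(0,0),(14,1),(6,0)]⟩,⟨2,[(3,0),(0,1),(1,0),(6,0),(0,1)]⟩⟩,⟨true,0,⟨0,
  [(12,0)]⟩,⟨2,[(3,0),(3,0),(7,0)]⟩⟩,⟨false,0,⟨0,[]⟩,⟨0,[]⟩⟩,⟨false,0,⟨0,[]⟩,⟨0,[]⟩⟩,[.o ⟨false,0,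
  ⟨0,[(13,0)]⟩,⟨3,[(0,1),(17,0),(8,0)]⟩⟩,.o ⟨false,0,⟨2,[(3,0),(3,0),(7,0)]⟩,⟨3,[(5,1),(12,0),(5,1),
  (2,0)]⟩⟩,.a ⟨true,0,⟨0,[(15,1),(6,0)]⟩,⟨0,[(9,1)]⟩⟩ ⟨true,0,⟨0,[]⟩,⟨0,[(29,0)]⟩⟩ ⟨false,0,⟨0,[(4,
  0),(9,0)]⟩,⟨3,[(0,1),(14,7),(2,0),(3,3),(4,0)]⟩⟩,.e ⟨false,1,⟨1,[(26,0),(0,0)]⟩,⟨1,[(14,0),(0,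
  0)]⟩⟩ ⟨false,0,⟨0,[(4,0),(4,0)]⟩,⟨5,[(0,1),(11,1),(2,11),(6,1),(3,0),(0,2)]⟩⟩]⟩) (.Q [0,0,0,0,-1,
  0,-2,-2,1,-2] (.p false [0,0,1] [1,0,-1] (⟨0,[(17,0)]⟩,⟨0,[(16,0)]⟩) .k 2 (⟨0,[(16,0)]⟩,⟨0,[(17,
  0)]⟩) .k (.i 1 ⟨0,[(17,1)]⟩ ⟨0,[(8,0)]⟩)) (.I [0,-1,0,0,0,0,0,-1] (.Q [0,-1,0,-1,0,0,-1,-1,1,-1]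
  (.p false [0,0,1] [1] (⟨0,[(19,0)]⟩,⟨0,[(18,0)]⟩) .k 1 (⟨0,[]⟩,⟨0,[]⟩) .k .k) (.R ⟨0,false,false,
  true,[1,-1],[0,0,1],[1],(⟨0,[(22,0)]⟩,⟨0,[(23,0)]⟩),(⟨0,[(20,0)]⟩,⟨0,[(19,0)]⟩),⟨0,[(13,0),(0,
  0)]⟩,.k,.k,(.r (-1) ⟨0,[(26,1),(3,0)]⟩ ⟨0,[(17,0),(0,0),(9,1)]⟩),.k,.k,.k,⟨true,0,⟨0,[(1,0)]⟩,⟨0,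
  [(15,0),(2,0)]⟩⟩,⟨false,1,⟨3,[(5,1),(15,1),(3,1),(0,1),(2,0),(0,0)]⟩,⟨0,[(18,0),(3,0),(0,0)]⟩⟩,
  ⟨true,0,⟨1,[(17,0),(0,0),(9,1)]⟩,⟨0,[(26,0)]⟩⟩,⟨false,1,⟨7,[(8,5),(1,1),(5,1),(4,0),(8,0)]⟩,⟨0,
  [(0,0)]⟩⟩,⟨false,0,⟨0,[]⟩,⟨0,[]⟩⟩,⟨false,0,⟨0,[]⟩,⟨0,[]⟩⟩,[.a ⟨true,0,⟨0,[(15,0)]⟩,⟨1,[(2,0),(19,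
  0),(0,0),(6,0)]⟩⟩ ⟨true,0,⟨0,[]⟩,⟨1,[(17,0),(0,0)]⟩⟩ ⟨false,1,⟨0,[(15,0),(5,0),(3,0)]⟩,⟨1,[(0,0),
  (8,0),(8,0),(3,0),(0,0)]⟩⟩,.o ⟨false,1,⟨3,[(8,1),(12,0),(5,1),(2,0)]⟩,⟨4,[(0,0),(1,0),(7,0),(5,0),
  (4,0)]⟩⟩,.o ⟨false,0,⟨1,[(17,0),(0,0)]⟩,⟨1,[(21,0),(7,0)]⟩⟩,.o ⟨false,0,⟨0,[(17,0),(0,0)]⟩,⟨0,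
  [(21,0),(3,0)]⟩⟩]⟩) (.Q [0,-1,0,-1,-1,0,-3,-3,2,-3] (.p false [0,0,1] [2,-1,-2] (⟨0,[(20,0)]⟩,⟨0,
  [(19,0)]⟩) .k 2 (⟨0,[(11,0),(10,0)]⟩,⟨0,[(13,0),(6,0)]⟩) (.r 0 ⟨0,[(6,0),(5,0)]⟩ ⟨1,[(8,1),(9,3),
  (3,0),(0,0),(1,0)]⟩) (.r (-2) ⟨0,[(8,0),(6,0),(2,2),(6,0),(0,0),(3,0)]⟩ ⟨0,[(1,0),(0,0),(2,0),(21,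
  0)]⟩)) (.R ⟨0,false,false,true,[-1,1,1],[-1,1,2],[1,1],(⟨0,[(14,0)]⟩,⟨0,[(20,0),(2,0)]⟩),(⟨0,[(14,
  0),(6,0)]⟩,⟨0,[(12,0),(10,0)]⟩),⟨0,[(20,0)]⟩,.k,(.r (-1) ⟨1,[(9,1),(9,3),(3,0),(0,0),(1,0)]⟩ ⟨0,
  [(7,0),(5,0)]⟩),.k,.k,.k,.k,⟨false,0,⟨2,[(2,1),(3,0),(0,1),(18,0),(0,1)]⟩,⟨1,[(9,1),(9,3),(3,0),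
  (0,0),(1,0)]⟩⟩,⟨true,0,⟨0,[(13,0)]⟩,⟨0,[(19,0)]⟩⟩,⟨false,0,⟨0,[(2,0),(24,0)]⟩,⟨1,[(9,0),(9,1),(3,
  0),(0,0),(4,0),(1,0)]⟩⟩,⟨true,0,⟨0,[(16,0)]⟩,⟨4,[(0,0),(10,0),(5,0),(4,0)]⟩⟩,⟨false,0,⟨0,[]⟩,⟨0,
  []⟩⟩,⟨false,0,⟨0,[]⟩,⟨0,[]⟩⟩,[.o ⟨false,1,⟨2,[(1,1),(7,1),(12,0),(5,0)]⟩,⟨9,[(0,5),(16,1),(4,0),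
  (5,3),(2,4)]⟩⟩,.a ⟨true,1,⟨0,[(9,0)]⟩,⟨0,[(0,0),(15,0)]⟩⟩ ⟨true,0,⟨0,[]⟩,⟨1,[(18,0),(0,0)]⟩⟩
  ⟨false,1,⟨1,[(9,1),(9,1),(3,0),(0,0),(1,0)]⟩,⟨0,[(7,0)]⟩⟩,.o ⟨false,1,⟨1,[(1,0),(0,1),(2,0),(16,
  0),(4,1)]⟩,⟨0,[(19,0),(3,0),(0,0)]⟩⟩,.o ⟨false,1,⟨0,[(13,0),(8,0)]⟩,⟨1,[(19,1),(3,0),(0,0),(1,
  0)]⟩⟩]⟩) (.Q [0,-1,0,0,1,0,2,1,-1,2] (.p true [0,0,1] [1,0,-1] (⟨0,[(21,0)]⟩,⟨0,[(20,0)]⟩) .k 2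
  (⟨0,[(20,0)]⟩,⟨0,[(21,0)]⟩) .k (.i 1 ⟨0,[(21,1)]⟩ ⟨0,[(12,0)]⟩)) (.R ⟨0,false,false,false,[1,0,
  -1],[0,0,1],[0,0,1,0,0,0,0,1],(⟨0,[(21,0)]⟩,⟨0,[(22,0)]⟩),(⟨0,[(22,0)]⟩,⟨0,[(21,0)]⟩),⟨0,[(15,
  0)]⟩,.k,.k,.k,.k,.k,.k,⟨true,0,⟨1,[(19,0),(0,0)]⟩,⟨0,[]⟩⟩,⟨false,1,⟨2,[(0,1),(6,0),(0,0),(10,0),
  (6,0),(4,0)]⟩,⟨0,[(20,1),(6,0)]⟩⟩,⟨true,1,⟨0,[(0,0),(16,0),(2,2),(6,0)]⟩,⟨0,[(4,0),(2,0),(20,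
  0)]⟩⟩,⟨false,2,⟨0,[(10,0),(18,0),(2,0)]⟩,⟨0,[(4,0)]⟩⟩,⟨false,0,⟨0,[]⟩,⟨0,[]⟩⟩,⟨false,0,⟨0,[]⟩,⟨0,
  []⟩⟩,[.o ⟨false,1,⟨3,[(10,1),(12,0),(5,1),(2,0)]⟩,⟨5,[(4,1),(13,1),(4,0),(8,0)]⟩⟩,.a ⟨true,1,⟨0,
  [(17,0),(14,0)]⟩,⟨0,[(4,0),(12,0)]⟩⟩ ⟨false,1,⟨0,[(0,0),(19,1),(6,0)]⟩,⟨4,[(9,3),(8,0),(0,0),(6,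
  1)]⟩⟩ ⟨true,1,⟨0,[(0,0)]⟩,⟨0,[(4,0),(12,0),(2,0)]⟩⟩,.e ⟨false,1,⟨0,[(17,0),(2,0),(11,0)]⟩,⟨0,[(9,
  0)]⟩⟩ ⟨false,1,⟨0,[(0,0)]⟩,⟨3,[(5,1),(14,3),(3,0),(0,0),(1,0),(3,0),(0,0)]⟩⟩,.o ⟨false,0,⟨0,[(20,
  0)]⟩,⟨11,[(0,3),(6,1),(0,1),(10,1),(3,2),(2,1),(4,4)]⟩⟩]⟩) (.I [1,1,0,0,-1,0,0,-1] (.Q [0,0,0,0,1,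
  0,1,2,0,1] (.p true [0,0,1] [] (⟨0,[(23,0)]⟩,⟨0,[(22,0)]⟩) .k 0 (⟨0,[]⟩,⟨0,[]⟩) .k .k) (.R ⟨0,
  false,false,false,[1,0,-1],[1,0,-2],[1,0,1],(⟨0,[(23,0)]⟩,⟨0,[(24,0)]⟩),(⟨0,[(15,0)]⟩,⟨0,[(24,
  1)]⟩),⟨0,[(17,0)]⟩,.k,.k,.k,.k,.k,.k,⟨true,1,⟨0,[(0,0),(21,0)]⟩,⟨0,[(1,0),(3,0)]⟩⟩,⟨false,1,⟨0,
  [(22,0),(10,0)]⟩,⟨0,[(16,0)]⟩⟩,⟨false,1,⟨3,[(0,1),(20,0),(0,2),(11,1)]⟩,⟨6,[(9,1),(0,2),(3,0),(14,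
  1)]⟩⟩,⟨true,0,⟨5,[(6,1),(13,1),(4,0),(8,0)]⟩,⟨0,[(19,0)]⟩⟩,⟨false,0,⟨0,[]⟩,⟨0,[]⟩⟩,⟨false,0,⟨0,
  []⟩,⟨0,[]⟩⟩,[.e ⟨false,0,⟨0,[]⟩,⟨4,[(0,0),(19,1),(0,0),(11,2),(0,0)]⟩⟩ ⟨false,0,⟨1,[(10,0),(0,0),
  (2,0)]⟩,⟨0,[(0,0)]⟩⟩,.o ⟨false,0,⟨1,[(6,1),(18,0),(8,0)]⟩,⟨13,[(0,4),(2,5),(17,4),(3,0),(2,0),(2,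
  5),(1,1)]⟩⟩,.a ⟨true,0,⟨0,[(0,0),(5,0)]⟩,⟨0,[(16,0)]⟩⟩ ⟨true,0,⟨1,[(21,0),(0,0)]⟩,⟨17,[(1,0),(0,
  0),(1,1),(20,1),(2,5),(0,4),(0,1)]⟩⟩ ⟨false,0,⟨5,[(5,1),(0,1),(3,1),(2,1),(11,0),(8,0)]⟩,⟨0,[(0,
  0)]⟩⟩,.o ⟨false,0,⟨0,[(22,0)]⟩,⟨6,[(3,1),(5,0),(0,2),(10,1),(3,0),(7,2),(0,0)]⟩⟩]⟩) (.R ⟨0,false,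
  false,false,[0,0,1],[0,0,2],[1,1],(⟨0,[(24,0)]⟩,⟨0,[(23,0)]⟩),(⟨0,[(24,1)]⟩,⟨0,[(15,0)]⟩),⟨0,[(18,
  0)]⟩,.k,.k,.k,.k,.k,.k,⟨false,(-1),⟨0,[(1,0),(9,0)]⟩,⟨0,[(12,0),(9,1),(6,0),(1,0),(2,0)]⟩⟩,⟨true,
  0,⟨0,[(16,0)]⟩,⟨0,[(22,0)]⟩⟩,⟨true,(-1),⟨0,[(1,0)]⟩,⟨1,[(19,1),(2,1),(10,0),(0,0)]⟩⟩,⟨false,1,⟨0,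
  [(19,0),(14,0)]⟩,⟨5,[(6,1),(13,1),(4,0),(8,0)]⟩⟩,⟨false,0,⟨0,[]⟩,⟨0,[]⟩⟩,⟨false,0,⟨0,[]⟩,⟨0,[]⟩⟩,
  [.e ⟨false,0,⟨22,[(0,0),(1,0),(1,2),(20,1),(2,7),(0,5),(0,2)]⟩,⟨0,[(34,0),(1,0)]⟩⟩ ⟨false,2,⟨0,
  [(19,1),(2,0),(10,0),(0,0)]⟩,⟨0,[(0,0)]⟩⟩,.o ⟨false,2,⟨0,[(12,0),(18,0),(2,0)]⟩,⟨4,[(0,1),(0,0),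
  (0,2),(4,0),(17,1)]⟩⟩,.e ⟨false,0,⟨0,[]⟩,⟨0,[(34,0),(1,0)]⟩⟩ ⟨false,2,⟨1,[(19,3),(2,1),(10,0),(0,
  2)]⟩,⟨0,[(0,0)]⟩⟩,.a ⟨true,0,⟨0,[(21,0)]⟩,⟨0,[(22,0),(6,0)]⟩⟩ ⟨true,0,⟨22,[(0,0),(1,0),(1,2),(20,
  1),(2,7),(0,5),(0,2)]⟩,⟨1,[(21,0),(0,0)]⟩⟩ ⟨false,2,⟨0,[(12,0),(9,0),(6,0),(1,0),(2,0)]⟩,⟨1,[(0,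
  1),(20,0),(0,0)]⟩⟩]⟩)) (.R ⟨0,false,false,false,[1,0,-1],[0,0,1],[0,0,1,0,0,0,0,1],(⟨0,[(22,0)]⟩,
  ⟨0,[(23,0)]⟩),(⟨0,[(23,0)]⟩,⟨0,[(22,0)]⟩),⟨0,[(16,0)]⟩,.k,.k,.k,.k,.k,.k,⟨true,0,⟨1,[(20,0),(0,
  0)]⟩,⟨0,[]⟩⟩,⟨false,1,⟨4,[(2,1),(5,0),(0,2),(5,2),(4,1),(11,1),(0,0)]⟩,⟨0,[(0,0),(0,0)]⟩⟩,⟨true,1,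
  ⟨0,[(0,0),(17,0),(2,0)]⟩,⟨0,[(5,0),(2,0),(20,0)]⟩⟩,⟨false,2,⟨0,[(11,0),(18,0),(2,0)]⟩,⟨0,[(5,
  0)]⟩⟩,⟨false,0,⟨0,[]⟩,⟨0,[]⟩⟩,⟨false,0,⟨0,[]⟩,⟨0,[]⟩⟩,[.o ⟨false,1,⟨3,[(11,1),(12,0),(5,1),(2,
  0)]⟩,⟨5,[(5,1),(13,1),(4,0),(8,0)]⟩⟩,.e ⟨false,1,⟨0,[(0,0)]⟩,⟨4,[(10,3),(8,0),(0,0),(6,1)]⟩⟩
  ⟨false,2,⟨7,[(2,3),(6,1),(5,1),(4,3),(9,1),(1,4),(0,6)]⟩,⟨0,[(1,0)]⟩⟩,.a ⟨true,0,⟨1,[(0,0),(0,0),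
  (23,0),(0,0)]⟩,⟨0,[(15,0)]⟩⟩ ⟨false,1,⟨1,[(0,1),(19,0),(0,0)]⟩,⟨0,[(10,0)]⟩⟩ ⟨true,1,⟨7,[(2,3),(6,
  1),(5,1),(4,3),(9,1),(1,0),(0,2)]⟩,⟨0,[(1,0)]⟩⟩,.o ⟨false,0,⟨0,[(21,0)]⟩,⟨6,[(2,1),(5,0),(0,2),
  (10,1),(3,0),(7,2),(0,0)]⟩⟩]⟩))))) (.R ⟨0,false,false,false,[1,0,-1],[0,0,1],[0,0,1,0,0,0,0,1],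
  (⟨0,[(18,0)]⟩,⟨0,[(19,0)]⟩),(⟨0,[(19,0)]⟩,⟨0,[(18,0)]⟩),⟨0,[(12,0)]⟩,.k,.k,.k,.k,.k,.k,⟨true,0,⟨1,
  [(16,0),(0,0)]⟩,⟨0,[]⟩⟩,⟨false,1,⟨1,[(11,3),(8,0),(7,0)]⟩,⟨0,[(17,1),(6,0)]⟩⟩,⟨true,1,⟨0,[(0,0),
  (13,0),(2,0),(11,0)]⟩,⟨0,[(1,0),(2,0),(20,0)]⟩⟩,⟨false,2,⟨0,[(7,0),(18,0),(2,0)]⟩,⟨0,[(1,0)]⟩⟩,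
  ⟨false,0,⟨0,[]⟩,⟨0,[]⟩⟩,⟨false,0,⟨0,[]⟩,⟨0,[]⟩⟩,[.o ⟨false,1,⟨3,[(7,1),(12,0),(5,1),(2,0)]⟩,⟨5,
  [(1,1),(13,1),(4,0),(8,0)]⟩⟩,.e ⟨false,1,⟨0,[(0,0),(28,0)]⟩,⟨4,[(6,3),(8,0),(0,0),(6,1)]⟩⟩ ⟨false,
  2,⟨3,[(7,1),(3,3),(8,0),(5,1),(1,1),(0,2)]⟩,⟨0,[(0,0),(0,0)]⟩⟩,.a ⟨true,0,⟨1,[(17,1),(3,0),(0,0),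
  (1,0)]⟩,⟨0,[(11,0)]⟩⟩ ⟨false,1,⟨0,[(14,0),(2,0),(11,0)]⟩,⟨0,[(6,0)]⟩⟩ ⟨true,1,⟨3,[(7,1),(3,3),(8,
  0),(5,1),(2,0)]⟩,⟨0,[(0,0),(0,0)]⟩⟩,.o ⟨false,0,⟨0,[(17,0)]⟩,⟨1,[(11,1),(8,0),(7,0)]⟩⟩]⟩)) (.Q [0,
  -1,0,0,0,0,-1,-2,0,-1] (.p false [0,0,1] [] (⟨0,[(18,0)]⟩,⟨0,[(17,0)]⟩) .k 0 (⟨0,[]⟩,⟨0,[]⟩) .k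
  .k) (.R ⟨0,false,false,true,[0,0,1],[0,0,2],[1,1],(⟨0,[(19,0)]⟩,⟨0,[(18,0)]⟩),(⟨0,[(19,1)]⟩,⟨0,
  [(10,0)]⟩),⟨0,[(13,0)]⟩,.k,.k,.k,.k,.k,.k,⟨false,0,⟨5,[(5,0),(0,7),(1,0),(6,0),(0,1)]⟩,⟨0,[(1,0),
  (15,1),(6,0)]⟩⟩,⟨true,0,⟨0,[(11,0)]⟩,⟨0,[(17,0)]⟩⟩,⟨false,0,⟨5,[(5,0),(0,1),(1,0),(6,0),(0,1)]⟩,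
  ⟨1,[(1,0),(15,1),(6,0),(4,0)]⟩⟩,⟨true,0,⟨0,[(14,0)]⟩,⟨2,[(5,0),(3,0),(7,0)]⟩⟩,⟨false,0,⟨0,[]⟩,⟨0,
  []⟩⟩,⟨false,0,⟨0,[]⟩,⟨0,[]⟩⟩,[.e ⟨false,0,⟨0,[(25,0),(1,0)]⟩,⟨0,[(29,0),(1,0)]⟩⟩ ⟨false,1,⟨1,[(1,
  0),(12,1),(2,1),(6,0),(3,0)]⟩,⟨0,[(0,0)]⟩⟩,.o ⟨false,1,⟨0,[(1,0)]⟩,⟨2,[(5,1),(3,1),(7,1)]⟩⟩,.e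
  ⟨false,0,⟨0,[]⟩,⟨0,[(29,0),(1,0)]⟩⟩ ⟨false,1,⟨1,[(1,1),(15,1),(3,0),(0,0),(1,0)]⟩,⟨0,[(0,0)]⟩⟩,.a
  ⟨true,0,⟨0,[(16,0)]⟩,⟨0,[(17,0),(6,0)]⟩⟩ ⟨true,0,⟨0,[(25,0),(1,0)]⟩,⟨1,[(16,0),(0,0)]⟩⟩ ⟨false,1,
  ⟨0,[(1,0),(15,0),(6,0)]⟩,⟨1,[(0,1),(15,0),(0,0)]⟩⟩]⟩) (.I [1,-1,0,0,0,0,0,-2] (.R ⟨0,false,false,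
  true,[0,0,1],[0,0,2],[1,1],(⟨0,[(20,0)]⟩,⟨0,[(19,0)]⟩),(⟨0,[(20,1)]⟩,⟨0,[(11,0)]⟩),⟨0,[(14,0)]⟩,
  .k,.k,.k,.k,.k,.k,⟨false,0,⟨2,[(0,1),(6,1),(16,0)]⟩,⟨1,[(1,1),(16,1),(10,0),(0,0)]⟩⟩,⟨true,0,⟨0,
  [(12,0)]⟩,⟨0,[(18,0)]⟩⟩,⟨false,0,⟨6,[(0,2),(15,0),(0,0),(6,0)]⟩,⟨3,[(1,1),(16,1),(10,0),(0,2)]⟩⟩,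
  ⟨true,0,⟨0,[(15,0)]⟩,⟨2,[(6,0),(3,0),(7,0)]⟩⟩,⟨false,0,⟨0,[]⟩,⟨0,[]⟩⟩,⟨false,0,⟨0,[]⟩,⟨0,[]⟩⟩,[.a
  ⟨true,0,⟨0,[(1,0),(10,0)]⟩,⟨0,[(3,0),(26,0)]⟩⟩ ⟨false,0,⟨8,[(1,1),(1,1),(1,0),(15,1),(2,1),(0,2),
  (0,0)]⟩,⟨0,[(30,0),(1,0)]⟩⟩ ⟨true,0,⟨0,[(1,0)]⟩,⟨0,[(0,0),(17,0)]⟩⟩,.o ⟨false,1,⟨0,[(2,0)]⟩,⟨2,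
  [(6,1),(3,1),(7,1)]⟩⟩,.a ⟨true,0,⟨0,[(12,0)]⟩,⟨1,[(18,1),(3,0),(0,0),(1,0)]⟩⟩ ⟨false,0,⟨0,[]⟩,⟨0,
  [(30,0),(1,0)]⟩⟩ ⟨true,0,⟨0,[(1,0)]⟩,⟨5,[(0,2),(5,0),(3,0),(5,2),(1,0)]⟩⟩,.a ⟨true,0,⟨0,[(17,0)]⟩,
  ⟨0,[(18,0),(6,0)]⟩⟩ ⟨true,0,⟨8,[(1,1),(1,1),(1,0),(15,1),(2,1),(0,2),(0,0)]⟩,⟨1,[(17,0),(0,0)]⟩⟩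
  ⟨false,1,⟨1,[(1,1),(27,0),(0,0)]⟩,⟨0,[(0,0),(17,0)]⟩⟩]⟩) (.Q [0,-1,0,-1,0,0,-3,-2,2,-3] (.p false
  [0,0,1] [2,-1,-2] (⟨0,[(20,0)]⟩,⟨0,[(19,0)]⟩) .k 2 (⟨0,[(11,0),(10,0)]⟩,⟨0,[(13,0),(6,0)]⟩) (.r 0
  ⟨0,[(6,0),(5,0)]⟩ ⟨13,[(0,5),(7,9),(1,3),(7,15),(3,9),(0,9),(5,0),(0,2)]⟩) (.r (-1) ⟨1,[(0,2),(29,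
  1),(1,0)]⟩ ⟨1,[(6,0),(0,1),(1,0),(6,0),(0,1)]⟩)) (.R ⟨0,false,false,true,[-1,1,1],[-1,1,2],[1],
  (⟨0,[(14,0)]⟩,⟨0,[(20,0),(2,0)]⟩),(⟨0,[(14,0),(6,0)]⟩,⟨0,[(12,0),(10,0)]⟩),⟨0,[(20,0)]⟩,.k,(.r
  (-1) ⟨3,[(0,1),(0,2),(7,3),(0,0),(0,0),(6,0),(0,1)]⟩ ⟨0,[(7,0),(5,0)]⟩),.k,.k,.k,.k,⟨false,1,⟨1,
  [(7,1),(5,1),(16,0),(0,0)]⟩,⟨1,[(1,2),(8,0),(0,0),(6,0)]⟩⟩,⟨true,0,⟨0,[(13,0)]⟩,⟨0,[(19,0)]⟩⟩,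
  ⟨false,1,⟨3,[(7,1),(5,1),(14,1),(1,0),(0,2)]⟩,⟨0,[(1,0),(8,0)]⟩⟩,⟨true,0,⟨0,[(16,0)]⟩,⟨2,[(7,0),
  (3,0),(7,0)]⟩⟩,⟨false,0,⟨0,[]⟩,⟨0,[]⟩⟩,⟨false,0,⟨0,[]⟩,⟨0,[]⟩⟩,[.a ⟨true,0,⟨0,[(1,0),(4,0)]⟩,⟨0,
  [(0,0),(12,0)]⟩⟩ ⟨true,0,⟨0,[]⟩,⟨1,[(18,0),(0,0)]⟩⟩ ⟨false,0,⟨0,[(2,0),(26,0)]⟩,⟨7,[(0,1),(6,5),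
  (10,3),(3,1),(7,2),(0,2)]⟩⟩,.o ⟨false,1,⟨1,[(1,1),(4,1),(15,0),(8,0)]⟩,⟨14,[(0,7),(3,0),(2,3),(9,
  3),(0,3),(3,0),(5,2)]⟩⟩,.o ⟨false,1,⟨1,[(1,1),(4,1),(0,1),(14,0),(8,0)]⟩,⟨3,[(0,1),(0,2),(8,0),(0,
  0),(6,2)]⟩⟩,.o ⟨false,1,⟨3,[(3,0),(2,0),(0,0),(10,0),(3,2)]⟩,⟨1,[(0,0),(1,0),(26,0)]⟩⟩]⟩) (.R ⟨0,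
  false,false,true,[1,0,-2],[1,0,-1],[1],(⟨0,[(12,0)]⟩,⟨0,[(21,1)]⟩),(⟨0,[(20,0)]⟩,⟨0,[(21,0)]⟩),⟨0,
  [(14,0),(6,0)]⟩,.k,.k,(.r 0 ⟨0,[(7,0),(5,0)]⟩ ⟨13,[(1,5),(7,9),(1,3),(7,15),(3,9),(0,9),(5,0),(0,
  2)]⟩),.k,.k,.k,⟨false,1,⟨3,[(1,1),(20,0),(3,1),(4,2)]⟩,⟨4,[(8,1),(8,2),(0,2),(6,0)]⟩⟩,⟨true,0,⟨0,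
  [(13,0)]⟩,⟨0,[(19,0)]⟩⟩,⟨false,1,⟨0,[(1,0),(29,0)]⟩,⟨2,[(7,0),(0,1),(1,0),(6,0),(0,1)]⟩⟩,⟨true,0,
  ⟨0,[(16,0)]⟩,⟨2,[(7,0),(3,0),(7,0)]⟩⟩,⟨false,0,⟨0,[]⟩,⟨0,[]⟩⟩,⟨false,0,⟨0,[]⟩,⟨0,[]⟩⟩,[.o ⟨false,
  0,⟨0,[(17,0)]⟩,⟨3,[(0,1),(0,0),(5,0),(11,0),(8,0),(2,3)]⟩⟩,.o ⟨false,0,⟨2,[(7,0),(3,0),(7,0)]⟩,⟨5,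
  [(3,3),(13,1),(4,0),(8,0)]⟩⟩,.a ⟨true,0,⟨0,[(1,0),(2,0),(26,0)]⟩,⟨0,[(13,1)]⟩⟩ ⟨true,0,⟨0,[]⟩,⟨0,
  [(33,0)]⟩⟩ ⟨false,0,⟨0,[(8,0),(9,0)]⟩,⟨2,[(1,2),(5,0),(3,0),(7,0),(11,2)]⟩⟩,.e ⟨false,1,⟨1,[(30,
  0),(0,0)]⟩,⟨1,[(18,0),(0,0)]⟩⟩ ⟨false,0,⟨0,[(8,0),(4,0)]⟩,⟨1,[(1,0),(17,1),(11,1),(1,
  0)]⟩⟩]⟩)))))))) (.Q [0,-1,-1,0,1,0,1,2,0,1] (.p true [0,0,1] [] (⟨0,[(14,0)]⟩,⟨0,[(13,0)]⟩) .k 0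
  (⟨0,[]⟩,⟨0,[]⟩) .k .k) (.R ⟨0,false,false,false,[0,0,1],[0,0,2],[1],(⟨0,[(15,0)]⟩,⟨0,[(14,0)]⟩),
  (⟨0,[(15,1)]⟩,⟨0,[(6,0)]⟩),⟨0,[(9,0)]⟩,.k,.k,.k,.k,.k,.k,⟨false,0,⟨1,[(2,2),(1,0),(17,0)]⟩,⟨0,[(0,
  0),(12,0),(13,0)]⟩⟩,⟨true,0,⟨0,[(7,0)]⟩,⟨0,[(13,0)]⟩⟩,⟨true,0,⟨1,[(2,0),(1,0),(17,0)]⟩,⟨2,[(1,1),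
  (3,0),(7,0),(7,2)]⟩⟩,⟨false,1,⟨1,[(0,0),(11,0),(12,0),(1,0)]⟩,⟨0,[(2,0),(10,0)]⟩⟩,⟨false,0,⟨0,[]⟩,
  ⟨0,[]⟩⟩,⟨false,0,⟨0,[]⟩,⟨0,[]⟩⟩,[.o ⟨false,1,⟨1,[(0,0),(0,0),(5,1),(8,0),(5,0)]⟩,⟨0,[(2,1),(10,
  1)]⟩⟩,.e ⟨false,1,⟨1,[(24,0),(0,0)]⟩,⟨0,[(27,0)]⟩⟩ ⟨false,1,⟨0,[(0,0)]⟩,⟨1,[(2,0),(1,0),(6,1),(10,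
  0)]⟩⟩,.a ⟨true,0,⟨0,[(7,0)]⟩,⟨1,[(13,1),(3,0),(0,0),(1,0)]⟩⟩ ⟨true,0,⟨0,[]⟩,⟨0,[(27,0)]⟩⟩ ⟨false,
  1,⟨1,[(0,1),(11,0),(0,0)]⟩,⟨1,[(2,2),(1,0),(8,1),(8,0)]⟩⟩,.e ⟨false,1,⟨1,[(24,0),(0,0)]⟩,⟨1,[(12,
  0),(0,0)]⟩⟩ ⟨false,1,⟨0,[(0,0)]⟩,⟨0,[(2,0),(1,0),(8,0),(8,0)]⟩⟩]⟩) (.R ⟨0,false,false,false,[0,0,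
  1],[0,0,2],[1],(⟨0,[(15,0)]⟩,⟨0,[(14,0)]⟩),(⟨0,[(15,1)]⟩,⟨0,[(6,0)]⟩),⟨0,[(9,0)]⟩,.k,.k,.k,.k,.k,
  .k,⟨false,0,⟨5,[(0,0),(1,8),(8,0),(0,1),(12,0)]⟩,⟨1,[(1,1),(11,1),(7,1),(2,0),(0,0)]⟩⟩,⟨true,0,⟨0,
  [(7,0)]⟩,⟨0,[(13,0)]⟩⟩,⟨true,0,⟨5,[(0,0),(1,2),(8,0),(0,1),(12,0)]⟩,⟨2,[(1,1),(3,0),(7,0),(7,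
  2)]⟩⟩,⟨false,1,⟨0,[(10,0),(14,0)]⟩,⟨0,[(2,0),(10,0)]⟩⟩,⟨false,0,⟨0,[]⟩,⟨0,[]⟩⟩,⟨false,0,⟨0,[]⟩,⟨0,
  []⟩⟩,[.o ⟨false,1,⟨1,[(1,1),(5,1),(8,0),(4,1),(3,0)]⟩,⟨0,[(2,1),(10,1)]⟩⟩,.a ⟨true,1,⟨0,[(1,0),(5,
  0),(13,0),(3,0)]⟩,⟨0,[(0,0),(12,0),(6,0)]⟩⟩ ⟨false,1,⟨1,[(24,0),(0,0)]⟩,⟨0,[(27,0)]⟩⟩ ⟨true,1,⟨0,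
  [(1,0),(19,0),(3,0)]⟩,⟨0,[(0,0)]⟩⟩,.a ⟨true,0,⟨0,[(7,0)]⟩,⟨1,[(13,1),(3,0),(0,0),(1,0)]⟩⟩ ⟨true,0,
  ⟨0,[]⟩,⟨0,[(27,0)]⟩⟩ ⟨false,1,⟨0,[(1,0),(19,0),(3,0)]⟩,⟨1,[(0,0),(1,0),(8,0),(13,0)]⟩⟩,.a ⟨true,0,
  ⟨0,[(12,0)]⟩,⟨0,[(13,0),(6,0)]⟩⟩ ⟨false,1,⟨1,[(24,0),(0,0)]⟩,⟨1,[(12,0),(0,0)]⟩⟩ ⟨true,1,⟨1,[(1,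
  1),(19,1),(2,0),(0,0)]⟩,⟨0,[(0,0)]⟩⟩]⟩))) (.Q [0,0,1,-1,0,0,1,0,0,1] (.p true [0,0,1] [] (⟨0,[(13,
  0)]⟩,⟨0,[(12,0)]⟩) .k 0 (⟨0,[]⟩,⟨0,[]⟩) .k .k) (.Q [0,0,0,0,0,0,-1,-1,0,-1] (.p false [0,0,1] []
  (⟨0,[(14,0)]⟩,⟨0,[(13,0)]⟩) .k 0 (⟨0,[]⟩,⟨0,[]⟩) .k .k) (.R ⟨0,false,false,true,[1,-1],[1,-1,1],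
  [1,1],(⟨0,[(17,0)]⟩,⟨0,[(18,0)]⟩),(⟨0,[(15,0),(1,0)]⟩,⟨0,[(9,0)]⟩),⟨0,[(8,0),(0,0)]⟩,.k,.k,(.r
  (-1) ⟨0,[(21,1),(3,0)]⟩ ⟨0,[(2,0),(2,0),(6,0),(10,0)]⟩),.k,.k,.k,⟨false,0,⟨0,[(5,0),(1,0)]⟩,⟨1,
  [(2,1),(18,1),(2,0),(0,0)]⟩⟩,⟨true,0,⟨0,[(7,0)]⟩,⟨0,[(13,0)]⟩⟩,⟨false,0,⟨1,[(2,0),(2,0),(6,0),(10,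
  0)]⟩,⟨0,[(21,0),(3,0)]⟩⟩,⟨true,0,⟨0,[(10,0)]⟩,⟨0,[(0,0)]⟩⟩,⟨false,0,⟨0,[]⟩,⟨0,[]⟩⟩,⟨false,0,⟨0,
  []⟩,⟨0,[]⟩⟩,[.o ⟨false,0,⟨0,[(2,0),(4,0),(13,0)]⟩,⟨1,[(5,1),(10,0),(8,0)]⟩⟩,.a ⟨true,0,⟨0,[(1,0),
  (0,0),(17,0)]⟩,⟨0,[(5,0)]⟩⟩ ⟨true,0,⟨0,[]⟩,⟨1,[(12,0),(0,0)]⟩⟩ ⟨false,1,⟨1,[(2,1),(4,1),(8,0),(3,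
  1),(0,1),(3,0)]⟩,⟨1,[(5,1),(6,0),(0,0)]⟩⟩,.o ⟨false,0,⟨1,[(12,0),(0,0)]⟩,⟨1,[(16,0),(7,0)]⟩⟩,.o
  ⟨false,0,⟨0,[(12,0),(0,0)]⟩,⟨0,[(16,0),(3,0)]⟩⟩]⟩) (.R ⟨2,true,false,true,[0,1],[0,0,1],[0,0,1,1],
  (⟨0,[]⟩,⟨0,[]⟩),(⟨0,[(15,0)]⟩,⟨0,[(14,0)]⟩),⟨0,[]⟩,.k,.k,.k,.k,.k,.k,⟨true,0,⟨0,[(4,0)]⟩,⟨0,[(2,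
  0),(18,0)]⟩⟩,⟨false,0,⟨0,[(7,0)]⟩,⟨0,[(13,0),(10,0)]⟩⟩,⟨false,1,⟨0,[(25,0),(1,0)]⟩,⟨0,[]⟩⟩,⟨true,
  0,⟨0,[(0,0),(21,0)]⟩,⟨0,[(5,0)]⟩⟩,⟨true,0,⟨0,[(23,0)]⟩,⟨0,[(22,0)]⟩⟩,⟨false,0,⟨0,[(0,0)]⟩,⟨0,[(11,
  0),(13,0)]⟩⟩,[]⟩)) (.R ⟨0,false,false,false,[0,0,1],[0,1],[1,1],(⟨0,[(14,0)]⟩,⟨0,[(13,0)]⟩),(⟨0,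
  [(17,0)]⟩,⟨0,[(16,0)]⟩),⟨0,[(8,0)]⟩,.k,.k,.k,.k,.k,.k,⟨true,0,⟨0,[(20,0)]⟩,⟨0,[(1,0),(1,0)]⟩⟩,
  ⟨false,1,⟨3,[(0,1),(11,1),(7,1),(2,2),(0,0)]⟩,⟨0,[(11,0)]⟩⟩,⟨false,0,⟨0,[(3,0),(16,0)]⟩,⟨1,[(1,1),
  (21,0),(0,0)]⟩⟩,⟨true,0,⟨0,[(4,0)]⟩,⟨0,[(1,0),(4,0),(13,0)]⟩⟩,⟨false,0,⟨0,[]⟩,⟨0,[]⟩⟩,⟨false,0,⟨0,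
  []⟩,⟨0,[]⟩⟩,[.e ⟨false,0,⟨2,[(0,0),(5,0),(11,0),(1,0)]⟩,⟨0,[(24,0),(1,0)]⟩⟩ ⟨false,0,⟨0,[(0,0)]⟩,
  ⟨1,[(11,1),(9,1),(1,0),(0,0)]⟩⟩,.o ⟨false,1,⟨7,[(0,1),(1,1),(0,1),(0,1),(10,2),(8,2)]⟩,⟨0,[(21,
  0)]⟩⟩,.a ⟨true,0,⟨0,[(6,0)]⟩,⟨1,[(12,1),(3,0),(0,0),(1,0)]⟩⟩ ⟨false,0,⟨0,[]⟩,⟨0,[(24,0),(1,0)]⟩⟩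
  ⟨true,0,⟨1,[(0,0),(0,0),(2,0)]⟩,⟨0,[(6,0),(14,0)]⟩⟩,.e ⟨true,0,⟨2,[(0,0),(5,0),(11,0),(1,0)]⟩,⟨1,
  [(11,0),(0,0)]⟩⟩ ⟨true,0,⟨0,[(0,0)]⟩,⟨0,[(11,0),(9,0)]⟩⟩]⟩)))) (.Q [0,0,0,0,0,0,1,1,0,1] (.p true
  [0,0,1] [] (⟨0,[(11,0)]⟩,⟨0,[(10,0)]⟩) .k 0 (⟨0,[]⟩,⟨0,[]⟩) .k .k) (.Q [0,0,0,-1,0,0,0,0,1] (.pp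
  false [-1,1]) (.R ⟨0,false,false,false,[0,1,-1],[0,1],[1],(⟨0,[(7,0)]⟩,⟨0,[(13,0),(1,0)]⟩),(⟨0,
  [(16,0)]⟩,⟨0,[(15,0)]⟩),⟨0,[(13,0)]⟩,.k,.k,.k,.k,.k,.k,⟨false,1,⟨1,[(19,1),(2,0),(0,0)]⟩,⟨1,[(10,
  0),(0,0),(9,1)]⟩⟩,⟨true,0,⟨0,[(5,0)]⟩,⟨0,[(11,0)]⟩⟩,⟨false,1,⟨0,[(2,0),(20,0)]⟩,⟨0,[(3,0),(6,
  0)]⟩⟩,⟨true,0,⟨0,[(1,0)]⟩,⟨0,[(9,0)]⟩⟩,⟨false,0,⟨0,[]⟩,⟨0,[]⟩⟩,⟨false,0,⟨0,[]⟩,⟨0,[]⟩⟩,[.a ⟨true,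
  0,⟨0,[(21,0)]⟩,⟨0,[(0,0)]⟩⟩ ⟨true,0,⟨0,[]⟩,⟨1,[(10,0),(0,0)]⟩⟩ ⟨false,0,⟨0,[(5,0),(15,0)]⟩,⟨1,
  [(11,1),(7,1),(2,0),(0,0)]⟩⟩,.o ⟨false,1,⟨1,[(14,0),(6,1),(1,0)]⟩,⟨0,[(20,0)]⟩⟩,.o ⟨false,1,⟨0,
  [(11,0),(2,0),(3,0)]⟩,⟨0,[(10,0)]⟩⟩,.o ⟨false,1,⟨1,[(11,1),(2,0),(7,0)]⟩,⟨0,[(5,0)]⟩⟩]⟩) (.Q [0,1,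
  1,0,0,0,-1,-2,0,-1] (.p false [0,0,1] [] (⟨0,[(13,0)]⟩,⟨0,[(12,0)]⟩) .k 0 (⟨0,[]⟩,⟨0,[]⟩) .k .k)
  (.Q [0,0,0,0,0,0,2,2,-1,2] (.p true [0,0,1] [1,0,-1] (⟨0,[(14,0)]⟩,⟨0,[(13,0)]⟩) .k 2 (⟨0,[(13,
  0)]⟩,⟨0,[(14,0)]⟩) .k (.i 1 ⟨0,[(14,1)]⟩ ⟨0,[(5,0)]⟩)) (.Q [0,-1,0,0,1,0,-2,-2,0,-2] (.p false [0,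
  0,2] [] (⟨0,[(15,1)]⟩,⟨0,[(6,0)]⟩) .k 0 (⟨0,[]⟩,⟨0,[]⟩) .k (.r 0 ⟨0,[(0,0),(12,1),(6,0)]⟩ ⟨1,[(1,
  1),(5,1),(16,0),(0,0)]⟩)) (.R ⟨0,false,false,true,[0,0,1],[0,0,2],[1,1],(⟨0,[(16,0)]⟩,⟨0,[(15,
  0)]⟩),(⟨0,[(16,1)]⟩,⟨0,[(7,0)]⟩),⟨0,[(10,0)]⟩,.k,.k,.k,.k,.k,.k,⟨false,1,⟨3,[(0,1),(1,1),(5,5),(8,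
  0),(3,1),(3,0)]⟩,⟨0,[(1,0),(12,1),(6,0)]⟩⟩,⟨true,0,⟨0,[(8,0)]⟩,⟨0,[(14,0)]⟩⟩,⟨true,0,⟨9,[(2,4),(0,
  0),(4,4),(11,1),(0,0),(0,0)]⟩,⟨1,[(1,0),(12,1),(6,0)]⟩⟩,⟨false,0,⟨0,[(4,0)]⟩,⟨2,[(0,1),(10,0),(14,
  0)]⟩⟩,⟨false,0,⟨0,[]⟩,⟨0,[]⟩⟩,⟨false,0,⟨0,[]⟩,⟨0,[]⟩⟩,[.o ⟨false,0,⟨6,[(1,6),(0,0),(8,1),(2,0),(5,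
  1)]⟩,⟨0,[(0,0)]⟩⟩,.o ⟨false,0,⟨0,[(1,0)]⟩,⟨6,[(0,6),(1,0),(8,1),(2,0),(5,1)]⟩⟩,.e ⟨false,0,⟨0,[]⟩,
  ⟨2,[(0,0),(10,1),(14,1)]⟩⟩ ⟨false,0,⟨1,[(1,0),(2,1),(9,1),(6,0)]⟩,⟨0,[(0,0),(7,0)]⟩⟩,.a ⟨true,0,
  ⟨0,[(13,0)]⟩,⟨0,[(14,0),(6,0)]⟩⟩ ⟨true,0,⟨4,[(3,0),(16,1),(0,0),(0,0)]⟩,⟨1,[(13,0),(0,0)]⟩⟩
  ⟨false,0,⟨0,[(1,0),(12,0),(6,0)]⟩,⟨0,[(0,0),(12,0)]⟩⟩]⟩) (.Q [0,-1,0,0,0,0,1,2,0,1] (.p true [0,0,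
  1] [] (⟨0,[(16,0)]⟩,⟨0,[(15,0)]⟩) .k 0 (⟨0,[]⟩,⟨0,[]⟩) .k .k) (.R ⟨0,false,false,false,[0,0,1],[0,
  0,2],[1],(⟨0,[(17,0)]⟩,⟨0,[(16,0)]⟩),(⟨0,[(17,1)]⟩,⟨0,[(8,0)]⟩),⟨0,[(11,0)]⟩,.k,.k,.k,.k,.k,.k,
  ⟨false,1,⟨1,[(3,1),(5,1),(8,0),(3,1),(4,0)]⟩,⟨2,[(0,2),(5,0),(0,0),(7,1),(5,0)]⟩⟩,⟨true,0,⟨0,[(9,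
  0)]⟩,⟨0,[(15,0)]⟩⟩,⟨false,1,⟨3,[(3,1),(5,1),(16,0),(0,2)]⟩,⟨5,[(0,2),(5,0),(0,0),(7,1),(5,0)]⟩⟩,
  ⟨true,0,⟨0,[(5,0)]⟩,⟨0,[(13,0)]⟩⟩,⟨false,0,⟨0,[]⟩,⟨0,[]⟩⟩,⟨false,0,⟨0,[]⟩,⟨0,[]⟩⟩,[.o ⟨false,0,⟨0,
  [(2,0)]⟩,⟨0,[(13,1),(13,0)]⟩⟩,.a ⟨true,0,⟨0,[(0,0),(8,0)]⟩,⟨0,[(3,0),(11,0),(6,0)]⟩⟩ ⟨false,1,⟨1,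
  [(26,0),(0,0)]⟩,⟨6,[(3,0),(8,1),(2,0),(5,1)]⟩⟩ ⟨true,0,⟨0,[(0,0)]⟩,⟨0,[(3,0)]⟩⟩,.a ⟨true,0,⟨0,[(9,
  0)]⟩,⟨1,[(15,1),(3,0),(0,0),(1,0)]⟩⟩ ⟨true,0,⟨0,[]⟩,⟨6,[(3,0),(8,1),(2,0),(5,1)]⟩⟩ ⟨false,0,⟨0,
  [(0,0)]⟩,⟨1,[(3,1),(22,0),(0,0)]⟩⟩,.a ⟨true,0,⟨0,[(14,0)]⟩,⟨0,[(15,0),(6,0)]⟩⟩ ⟨false,1,⟨1,[(26,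
  0),(0,0)]⟩,⟨1,[(14,0),(0,0)]⟩⟩ ⟨true,0,⟨11,[(0,9),(1,0),(1,1),(1,1),(14,3),(0,2)]⟩,⟨0,[(3,
  0)]⟩⟩]⟩) (.R ⟨0,false,false,false,[0,0,1],[0,0,2],[1],(⟨0,[(17,0)]⟩,⟨0,[(16,0)]⟩),(⟨0,[(17,1)]⟩,
  ⟨0,[(8,0)]⟩),⟨0,[(11,0)]⟩,.k,.k,.k,.k,.k,.k,⟨false,1,⟨1,[(0,1),(8,1),(16,0),(0,0)]⟩,⟨0,[(2,0),(12,
  1),(6,0)]⟩⟩,⟨true,0,⟨0,[(9,0)]⟩,⟨0,[(15,0)]⟩⟩,⟨false,1,⟨3,[(0,1),(13,1),(11,0),(0,2)]⟩,⟨1,[(2,0),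
  (12,1),(6,0)]⟩⟩,⟨true,0,⟨0,[(5,0)]⟩,⟨0,[(13,0)]⟩⟩,⟨false,0,⟨0,[]⟩,⟨0,[]⟩⟩,⟨false,0,⟨0,[]⟩,⟨0,[]⟩⟩,
  [.o ⟨false,0,⟨0,[(2,0)]⟩,⟨1,[(0,1),(14,1),(10,0),(0,0)]⟩⟩,.e ⟨false,1,⟨1,[(26,0),(0,0)]⟩,⟨6,[(3,
  0),(8,1),(2,0),(5,1)]⟩⟩ ⟨false,1,⟨3,[(2,2),(9,1),(2,3),(6,2),(3,0),(0,2)]⟩,⟨0,[(0,0)]⟩⟩,.e ⟨true,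
  0,⟨0,[]⟩,⟨6,[(3,0),(8,1),(2,0),(5,1)]⟩⟩ ⟨true,0,⟨1,[(2,0),(2,1),(9,1),(6,0)]⟩,⟨0,[(0,0)]⟩⟩,.a
  ⟨true,0,⟨0,[(14,0)]⟩,⟨0,[(15,0),(6,0)]⟩⟩ ⟨false,1,⟨1,[(26,0),(0,0)]⟩,⟨1,[(14,0),(0,0)]⟩⟩ ⟨true,0,
  ⟨0,[(2,0),(12,0),(6,0)]⟩,⟨0,[(3,0)]⟩⟩]⟩))) (.I [1,0,0,0,0,0,0,-1] (.Q [0,0,0,0,0,0,1,2,0,1] (.p
  true [0,0,1] [] (⟨0,[(16,0)]⟩,⟨0,[(15,0)]⟩) .k 0 (⟨0,[]⟩,⟨0,[]⟩) .k .k) (.R ⟨0,false,false,false,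
  [0,0,1],[0,0,2],[1,1],(⟨0,[(17,0)]⟩,⟨0,[(16,0)]⟩),(⟨0,[(17,1)]⟩,⟨0,[(8,0)]⟩),⟨0,[(11,0)]⟩,.k,.k,
  .k,.k,.k,.k,⟨false,0,⟨4,[(1,9),(2,0),(16,1),(0,0),(0,0)]⟩,⟨1,[(0,1),(14,1),(10,0),(0,0)]⟩⟩,⟨true,
  0,⟨0,[(9,0)]⟩,⟨0,[(15,0)]⟩⟩,⟨false,0,⟨0,[(1,0)]⟩,⟨2,[(0,0),(11,0),(2,1),(10,0),(0,1)]⟩⟩,⟨true,0,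
  ⟨0,[(5,0)]⟩,⟨0,[(13,0)]⟩⟩,⟨false,0,⟨0,[]⟩,⟨0,[]⟩⟩,⟨false,0,⟨0,[]⟩,⟨0,[]⟩⟩,[.a ⟨true,0,⟨0,[(0,0),
  (8,0)]⟩,⟨0,[(2,0)]⟩⟩ ⟨false,0,⟨4,[(4,0),(16,1),(0,0),(0,0)]⟩,⟨4,[(3,0),(8,1),(2,0),(10,0),(0,
  3)]⟩⟩ ⟨true,0,⟨0,[(0,0)]⟩,⟨0,[(1,1),(13,0)]⟩⟩,.o ⟨false,1,⟨1,[(0,1),(8,1),(8,0),(8,0)]⟩,⟨2,[(2,1),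
  (0,0),(0,1),(10,0),(7,1)]⟩⟩,.a ⟨true,0,⟨0,[(9,0)]⟩,⟨0,[(0,0),(1,0)]⟩⟩ ⟨false,0,⟨0,[]⟩,⟨4,[(3,0),
  (8,1),(2,0),(10,0),(0,3)]⟩⟩ ⟨true,0,⟨0,[(0,0)]⟩,⟨5,[(1,1),(0,0),(0,3),(0,1),(17,0),(0,1)]⟩⟩,.a
  ⟨true,0,⟨0,[(14,0)]⟩,⟨0,[(15,0),(6,0)]⟩⟩ ⟨true,0,⟨4,[(4,0),(16,1),(0,0),(0,0)]⟩,⟨1,[(14,0),(0,
  0)]⟩⟩ ⟨false,1,⟨1,[(0,1),(25,0),(0,0)]⟩,⟨0,[(1,1),(13,0)]⟩⟩]⟩) (.R ⟨0,false,false,false,[0,0,1],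
  [0,0,2],[1,1],(⟨0,[(17,0)]⟩,⟨0,[(16,0)]⟩),(⟨0,[(17,1)]⟩,⟨0,[(8,0)]⟩),⟨0,[(11,0)]⟩,.k,.k,.k,.k,.k,
  .k,⟨false,0,⟨4,[(0,4),(3,0),(4,4),(11,1),(0,0),(0,0)]⟩,⟨0,[(5,0),(0,0),(8,0),(9,0),(1,0)]⟩⟩,⟨true,
  0,⟨0,[(9,0)]⟩,⟨0,[(15,0)]⟩⟩,⟨false,0,⟨0,[(1,0)]⟩,⟨1,[(6,0),(5,0),(2,0),(9,0),(1,1)]⟩⟩,⟨true,0,⟨0,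
  [(5,0)]⟩,⟨0,[(13,0)]⟩⟩,⟨false,0,⟨0,[]⟩,⟨0,[]⟩⟩,⟨false,0,⟨0,[]⟩,⟨0,[]⟩⟩,[.e ⟨false,0,⟨4,[(4,0),(16,
  1),(0,0),(0,0)]⟩,⟨4,[(3,0),(8,1),(2,0),(10,0),(0,3)]⟩⟩ ⟨false,1,⟨0,[(6,0),(5,0),(12,0),(1,0)]⟩,⟨0,
  [(0,0)]⟩⟩,.o ⟨false,1,⟨1,[(5,3),(12,0),(8,0)]⟩,⟨3,[(0,1),(1,0),(1,0),(1,0),(6,2),(1,0)]⟩⟩,.e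
  ⟨false,0,⟨0,[]⟩,⟨4,[(3,0),(8,1),(2,0),(10,0),(0,3)]⟩⟩ ⟨false,1,⟨1,[(5,1),(0,0),(5,0),(2,0),(9,0),
  (1,1)]⟩,⟨0,[(0,0)]⟩⟩,.a ⟨true,0,⟨0,[(14,0)]⟩,⟨0,[(15,0),(6,0)]⟩⟩ ⟨true,0,⟨4,[(4,0),(16,1),(0,0),
  (0,0)]⟩,⟨1,[(14,0),(0,0)]⟩⟩ ⟨false,1,⟨0,[(5,0),(0,0),(18,0),(1,0)]⟩,⟨1,[(0,1),(13,0),(0,0)]⟩⟩]⟩))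
  (.R ⟨0,false,false,false,[1,0,-1],[0,0,1],[0,0,1,0,0,0,0,1],(⟨0,[(15,0)]⟩,⟨0,[(16,0)]⟩),(⟨0,[(16,
  0)]⟩,⟨0,[(15,0)]⟩),⟨0,[(9,0)]⟩,.k,.k,.k,.k,.k,.k,⟨true,0,⟨1,[(13,0),(0,0)]⟩,⟨0,[]⟩⟩,⟨false,1,⟨1,
  [(8,3),(8,0),(7,0)]⟩,⟨0,[(14,1),(6,0)]⟩⟩,⟨true,0,⟨0,[(0,0),(3,0),(9,0)]⟩,⟨0,[(1,0),(1,0),(4,1),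
  (13,0)]⟩⟩,⟨false,1,⟨1,[(4,3),(12,0),(8,0)]⟩,⟨0,[(1,0)]⟩⟩,⟨false,0,⟨0,[]⟩,⟨0,[]⟩⟩,⟨false,0,⟨0,[]⟩,
  ⟨0,[]⟩⟩,[.e ⟨false,0,⟨0,[(0,0)]⟩,⟨3,[(2,1),(5,1),(16,2),(0,0)]⟩⟩ ⟨false,1,⟨1,[(4,1),(3,1),(8,0),
  (7,0)]⟩,⟨1,[(1,0),(12,1),(6,0)]⟩⟩,.o ⟨false,1,⟨1,[(4,1),(12,0),(8,0)]⟩,⟨0,[(12,0)]⟩⟩,.a ⟨true,0,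
  ⟨1,[(14,1),(3,0),(0,0),(1,0)]⟩,⟨0,[(8,0)]⟩⟩ ⟨true,0,⟨0,[(4,0),(9,0)]⟩,⟨1,[(2,0),(0,0),(4,0),(12,
  0),(0,0)]⟩⟩ ⟨false,1,⟨1,[(4,1),(3,1),(8,0),(8,0)]⟩,⟨1,[(1,0),(12,1),(6,0)]⟩⟩,.o ⟨false,0,⟨0,[(14,
  0)]⟩,⟨1,[(8,1),(8,0),(7,0)]⟩⟩]⟩))) (.R ⟨0,false,false,false,[0,0,1],[0,0,2],[1],(⟨0,[(14,0)]⟩,⟨0,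
  [(13,0)]⟩),(⟨0,[(14,1)]⟩,⟨0,[(5,0)]⟩),⟨0,[(8,0)]⟩,.k,.k,.k,.k,.k,.k,⟨false,1,⟨0,[(4,0),(1,1),(3,
  0),(9,0),(3,0)]⟩,⟨6,[(0,5),(8,1),(2,7),(5,1)]⟩⟩,⟨true,0,⟨0,[(6,0)]⟩,⟨0,[(12,0)]⟩⟩,⟨false,1,⟨0,[(6,
  0),(3,0),(13,0)]⟩,⟨6,[(0,2),(8,0),(2,3),(5,0)]⟩⟩,⟨true,0,⟨0,[(2,0)]⟩,⟨0,[(10,0)]⟩⟩,⟨false,0,⟨0,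
  []⟩,⟨0,[]⟩⟩,⟨false,0,⟨0,[]⟩,⟨0,[]⟩⟩,[.o ⟨false,0,⟨0,[(0,0),(0,0),(9,0),(9,0)]⟩,⟨0,[(10,1),(13,
  0)]⟩⟩,.e ⟨false,1,⟨1,[(23,0),(0,0)]⟩,⟨0,[(26,0)]⟩⟩ ⟨false,0,⟨0,[(0,0)]⟩,⟨1,[(10,3),(0,1),(11,0),
  (0,0)]⟩⟩,.a ⟨true,0,⟨0,[(6,0)]⟩,⟨1,[(12,1),(3,0),(0,0),(1,0)]⟩⟩ ⟨true,0,⟨0,[]⟩,⟨0,[(26,0)]⟩⟩
  ⟨false,0,⟨1,[(0,1),(10,0),(0,0)]⟩,⟨0,[(6,0),(3,1),(13,0)]⟩⟩,.e ⟨false,1,⟨1,[(23,0),(0,0)]⟩,⟨1,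
  [(11,0),(0,0)]⟩⟩ ⟨false,0,⟨0,[(0,0)]⟩,⟨0,[(10,1),(0,0),(12,0)]⟩⟩]⟩))) (.Q [0,0,0,-1,0,0,1,1,1,1]
  (.p true [1,-1,1] [] (⟨0,[(12,0),(1,0)]⟩,⟨0,[(6,0)]⟩) .k 0 (⟨0,[]⟩,⟨0,[]⟩) .k .k) (.R ⟨0,false,
  false,true,[1,-1],[1,-1,1],[1,1],(⟨0,[(15,0)]⟩,⟨0,[(16,0)]⟩),(⟨0,[(13,0),(1,0)]⟩,⟨0,[(7,0)]⟩),⟨0,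
  [(6,0),(0,0)]⟩,.k,.k,(.r (-1) ⟨0,[(19,1),(3,0)]⟩ ⟨0,[(10,0),(0,0),(9,1)]⟩),.k,.k,.k,⟨false,0,⟨0,
  [(3,0),(1,0)]⟩,⟨3,[(0,1),(1,1),(8,1),(2,0),(7,1),(0,0)]⟩⟩,⟨true,0,⟨0,[(5,0)]⟩,⟨0,[(11,0)]⟩⟩,
  ⟨false,0,⟨1,[(10,0),(0,0),(9,1)]⟩,⟨0,[(19,0),(3,0)]⟩⟩,⟨true,0,⟨0,[(8,0)]⟩,⟨0,[(1,0)]⟩⟩,⟨false,0,
  ⟨0,[]⟩,⟨0,[]⟩⟩,⟨false,0,⟨0,[]⟩,⟨0,[]⟩⟩,[.o ⟨false,0,⟨0,[(2,0),(7,0)]⟩,⟨1,[(3,1),(10,0),(8,0)]⟩⟩,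
  .a ⟨true,0,⟨0,[(0,0)]⟩,⟨0,[(3,0)]⟩⟩ ⟨true,0,⟨0,[]⟩,⟨1,[(10,0),(0,0)]⟩⟩ ⟨false,1,⟨0,[(0,0),(13,0),
  (3,0)]⟩,⟨1,[(3,1),(6,0),(0,0)]⟩⟩,.o ⟨false,0,⟨1,[(10,0),(0,0)]⟩,⟨1,[(14,0),(7,0)]⟩⟩,.o ⟨false,0,
  ⟨0,[(10,0),(0,0)]⟩,⟨0,[(14,0),(3,0)]⟩⟩]⟩) (.Q [0,-1,-1,0,1,0,1,2,0,1] (.p true [0,0,1] [] (⟨0,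
  [(13,0)]⟩,⟨0,[(12,0)]⟩) .k 0 (⟨0,[]⟩,⟨0,[]⟩) .k .k) (.R ⟨0,false,false,false,[0,0,1],[0,0,2],[0,0,
  1],(⟨0,[(14,0)]⟩,⟨0,[(13,0)]⟩),(⟨0,[(14,1)]⟩,⟨0,[(5,0)]⟩),⟨0,[(8,0)]⟩,.k,.k,.k,.k,.k,.k,⟨false,0,
  ⟨0,[(2,1),(3,1)]⟩,⟨2,[(0,2),(2,0),(0,0),(7,1),(5,0)]⟩⟩,⟨true,0,⟨0,[(6,0)]⟩,⟨0,[(12,0)]⟩⟩,⟨true,0,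
  ⟨0,[(2,0),(8,0)]⟩,⟨0,[(3,0),(18,0)]⟩⟩,⟨false,1,⟨1,[(0,0),(10,0),(12,0),(1,0)]⟩,⟨0,[(2,0)]⟩⟩,
  ⟨false,0,⟨0,[]⟩,⟨0,[]⟩⟩,⟨false,0,⟨0,[]⟩,⟨0,[]⟩⟩,[.o ⟨false,1,⟨0,[(0,0),(0,0),(1,0),(7,1)]⟩,⟨0,[(2,
  1)]⟩⟩,.e ⟨false,1,⟨0,[(24,0),(1,0)]⟩,⟨4,[(1,0),(1,0),(2,0),(11,1),(0,0)]⟩⟩ ⟨false,1,⟨0,[(0,0)]⟩,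
  ⟨0,[(2,0),(3,0),(3,0)]⟩⟩,.a ⟨true,0,⟨0,[(6,0)]⟩,⟨1,[(12,1),(3,0),(0,0),(1,0)]⟩⟩ ⟨true,0,⟨1,[(11,
  0),(0,0)]⟩,⟨4,[(1,0),(1,0),(2,0),(11,1),(0,0)]⟩⟩ ⟨false,1,⟨1,[(0,1),(10,0),(0,0)]⟩,⟨0,[(2,1),(3,
  0)]⟩⟩,.e ⟨false,1,⟨0,[(24,0),(1,0)]⟩,⟨0,[]⟩⟩ ⟨false,1,⟨0,[(0,0)]⟩,⟨0,[(2,1),(8,0)]⟩⟩]⟩) (.Q [0,-1,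
  0,-1,0,0,-1,-1,1,-1] (.p false [0,0,1] [1] (⟨0,[(14,0)]⟩,⟨0,[(13,0)]⟩) .k 1 (⟨0,[]⟩,⟨0,[]⟩) .k
  .k) (.R ⟨0,false,false,true,[1,0,-1],[0,1],[1,1,1,1],(⟨0,[(14,0)]⟩,⟨0,[(15,0)]⟩),(⟨0,[(18,0)]⟩,⟨0,
  [(17,0)]⟩),⟨0,[(8,0)]⟩,.k,.k,.k,.k,.k,.k,⟨true,0,⟨0,[]⟩,⟨1,[(12,0),(0,0)]⟩⟩,⟨false,1,⟨0,[(7,0),(8,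
  0),(3,0)]⟩,⟨0,[(13,0),(3,0),(0,0)]⟩⟩,⟨true,0,⟨0,[(10,0),(2,0),(9,0)]⟩,⟨0,[(0,0),(1,0),(1,0),(2,
  1)]⟩⟩,⟨false,1,⟨1,[(10,1),(5,0),(6,1),(1,0)]⟩,⟨0,[(0,0)]⟩⟩,⟨false,0,⟨0,[]⟩,⟨0,[]⟩⟩,⟨false,0,⟨0,
  []⟩,⟨0,[]⟩⟩,[.o ⟨false,0,⟨0,[(2,0),(7,0)]⟩,⟨0,[(22,0),(2,0)]⟩⟩,.e ⟨false,0,⟨0,[(23,0)]⟩,⟨1,[(22,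
  1),(1,0),(0,0)]⟩⟩ ⟨false,1,⟨1,[(7,1),(8,0),(6,1),(0,0)]⟩,⟨3,[(0,2),(3,0),(5,1),(2,2),(6,0)]⟩⟩,.a
  ⟨true,0,⟨1,[(13,1),(3,0),(0,0),(1,0)]⟩,⟨0,[(7,0)]⟩⟩ ⟨false,0,⟨1,[(12,0),(0,0),(9,1)]⟩,⟨0,[(21,0),
  (3,0)]⟩⟩ ⟨true,0,⟨0,[(2,0),(4,0),(2,0)]⟩,⟨3,[(0,2),(3,0),(5,1),(2,2),(6,0)]⟩⟩,.o ⟨false,0,⟨0,[(13,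
  0)]⟩,⟨1,[(7,1),(8,0),(7,0)]⟩⟩]⟩) (.Q [0,-1,0,0,0,0,-1,-2,0,-1] (.p false [0,0,1] [] (⟨0,[(15,0)]⟩,
  ⟨0,[(14,0)]⟩) .k 0 (⟨0,[]⟩,⟨0,[]⟩) .k .k) (.R ⟨0,false,false,true,[0,0,1],[0,0,2],[1,1],(⟨0,[(16,
  0)]⟩,⟨0,[(15,0)]⟩),(⟨0,[(16,1)]⟩,⟨0,[(7,0)]⟩),⟨0,[(10,0)]⟩,.k,.k,.k,.k,.k,.k,⟨false,0,⟨8,[(0,4),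
  (1,2),(0,1),(4,9),(12,1),(0,1),(2,2)]⟩,⟨1,[(1,0),(3,0),(5,1),(2,2),(6,0),(4,1)]⟩⟩,⟨true,0,⟨0,[(8,
  0)]⟩,⟨0,[(14,0)]⟩⟩,⟨false,0,⟨3,[(0,0),(1,0),(5,0),(4,0),(11,0)]⟩,⟨3,[(1,0),(3,0),(5,1),(2,2),(6,
  0),(4,3)]⟩⟩,⟨true,0,⟨0,[(11,0)]⟩,⟨0,[(4,0)]⟩⟩,⟨false,0,⟨0,[]⟩,⟨0,[]⟩⟩,⟨false,0,⟨0,[]⟩,⟨0,[]⟩⟩,[.e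
  ⟨false,0,⟨8,[(1,0),(1,0),(16,2),(0,1),(0,1)]⟩,⟨0,[(26,0),(1,0)]⟩⟩ ⟨false,1,⟨3,[(1,0),(3,0),(5,5),
  (2,2),(6,0),(3,1),(0,1)]⟩,⟨0,[(0,0)]⟩⟩,.o ⟨false,1,⟨0,[(1,0),(3,0),(7,0),(12,0)]⟩,⟨0,[(4,1)]⟩⟩,.e
  ⟨false,0,⟨0,[]⟩,⟨0,[(26,0),(1,0)]⟩⟩ ⟨false,1,⟨3,[(1,0),(3,0),(5,5),(2,2),(6,0),(4,3)]⟩,⟨0,[(0,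
  0)]⟩⟩,.a ⟨true,0,⟨0,[(13,0)]⟩,⟨0,[(14,0),(6,0)]⟩⟩ ⟨true,0,⟨8,[(1,0),(1,0),(16,2),(0,1),(0,1)]⟩,⟨1,
  [(13,0),(0,0)]⟩⟩ ⟨false,1,⟨1,[(1,0),(3,0),(5,1),(2,0),(6,0),(4,1)]⟩,⟨0,[(2,0),(23,0)]⟩⟩]⟩) (.R ⟨0,
  false,false,true,[0,0,1],[0,0,2],[1,1],(⟨0,[(16,0)]⟩,⟨0,[(15,0)]⟩),(⟨0,[(16,1)]⟩,⟨0,[(7,0)]⟩),⟨0,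
  [(10,0)]⟩,.k,.k,.k,.k,.k,.k,⟨false,0,⟨1,[(2,1),(5,1),(8,0),(3,1),(4,0)]⟩,⟨1,[(0,1),(13,1),(10,0),
  (0,0)]⟩⟩,⟨true,0,⟨0,[(8,0)]⟩,⟨0,[(14,0)]⟩⟩,⟨false,0,⟨3,[(2,1),(5,1),(16,0),(0,0)]⟩,⟨3,[(0,1),(13,
  1),(10,0),(0,2)]⟩⟩,⟨true,0,⟨0,[(11,0)]⟩,⟨0,[(4,0)]⟩⟩,⟨false,0,⟨0,[]⟩,⟨0,[]⟩⟩,⟨false,0,⟨0,[]⟩,⟨0,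
  []⟩⟩,[.a ⟨true,0,⟨0,[(0,0),(7,0)]⟩,⟨0,[(2,0),(11,0),(6,0),(4,0)]⟩⟩ ⟨false,0,⟨8,[(1,0),(1,0),(16,
  2),(0,1),(0,1)]⟩,⟨0,[(26,0),(1,0)]⟩⟩ ⟨true,0,⟨0,[(0,0)]⟩,⟨0,[(2,0),(23,0)]⟩⟩,.o ⟨false,1,⟨1,[(0,
  1),(7,1),(8,0),(8,0)]⟩,⟨0,[(4,1)]⟩⟩,.a ⟨true,0,⟨0,[(8,0)]⟩,⟨1,[(14,1),(3,0),(0,0),(1,0)]⟩⟩ ⟨false,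
  0,⟨0,[]⟩,⟨0,[(26,0),(1,0)]⟩⟩ ⟨true,0,⟨0,[(0,0)]⟩,⟨1,[(2,1),(22,0),(0,0)]⟩⟩,.a ⟨true,0,⟨0,[(13,
  0)]⟩,⟨0,[(14,0),(6,0)]⟩⟩ ⟨true,0,⟨8,[(1,0),(1,0),(16,2),(0,1),(0,1)]⟩,⟨1,[(13,0),(0,0)]⟩⟩ ⟨false,
  1,⟨1,[(0,1),(24,0),(0,0)]⟩,⟨0,[(2,0),(23,0)]⟩⟩]⟩))))))) (.Q [0,-1,0,-1,0,0,1,1,1,1] (.p true [1,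
  -1,1] [] (⟨0,[(10,0),(1,0)]⟩,⟨0,[(4,0)]⟩) .k 0 (⟨0,[]⟩,⟨0,[]⟩) .k .k) (.R ⟨0,false,false,false,[1,
  -1],[1,-1,1],[1,1],(⟨0,[(13,0)]⟩,⟨0,[(14,0)]⟩),(⟨0,[(11,0),(1,0)]⟩,⟨0,[(5,0)]⟩),⟨0,[(4,0),(0,0)]⟩,
  .k,.k,(.r (-1) ⟨0,[(17,1),(3,0)]⟩ ⟨0,[(8,0),(0,0),(9,1)]⟩),.k,.k,.k,⟨false,0,⟨0,[(3,0),(3,0),(11,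
  0)]⟩,⟨1,[(1,1),(7,1),(2,0),(3,1),(4,0)]⟩⟩,⟨true,0,⟨0,[(3,0)]⟩,⟨0,[(9,0)]⟩⟩,⟨false,0,⟨1,[(8,0),(0,
  0),(9,1)]⟩,⟨0,[(17,0),(3,0)]⟩⟩,⟨true,0,⟨0,[(1,0),(17,0)]⟩,⟨0,[(7,0)]⟩⟩,⟨false,0,⟨0,[]⟩,⟨0,[]⟩⟩,
  ⟨false,0,⟨0,[]⟩,⟨0,[]⟩⟩,[.o ⟨false,0,⟨0,[(1,0)]⟩,⟨1,[(7,1),(4,0),(6,1),(1,0)]⟩⟩,.a ⟨true,0,⟨0,[(0,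
  0)]⟩,⟨0,[(7,0),(11,0)]⟩⟩ ⟨true,0,⟨0,[]⟩,⟨1,[(8,0),(0,0)]⟩⟩ ⟨false,1,⟨1,[(1,1),(10,0),(3,1),(4,
  0)]⟩,⟨1,[(7,1),(0,0),(0,0),(9,1)]⟩⟩,.o ⟨false,0,⟨1,[(8,0),(0,0)]⟩,⟨1,[(12,0),(7,0)]⟩⟩,.o ⟨false,0,
  ⟨0,[(8,0),(0,0)]⟩,⟨0,[(12,0),(3,0)]⟩⟩]⟩) (.Q [0,-1,-1,0,0,0,1,2,0,1] (.p true [0,0,1] [] (⟨0,[(11,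
  0)]⟩,⟨0,[(10,0)]⟩) .k 0 (⟨0,[]⟩,⟨0,[]⟩) .k .k) (.R ⟨0,false,false,false,[0,0,1],[0,0,2],[0,0,1],
  (⟨0,[(12,0)]⟩,⟨0,[(11,0)]⟩),(⟨0,[(12,1)]⟩,⟨0,[(3,0)]⟩),⟨0,[(6,0)]⟩,.k,.k,.k,.k,.k,.k,⟨false,1,⟨0,
  [(4,1),(3,1),(13,0)]⟩,⟨12,[(0,13),(0,1),(8,11),(5,4),(0,1),(0,1)]⟩⟩,⟨true,0,⟨0,[(4,0)]⟩,⟨0,[(10,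
  0)]⟩⟩,⟨false,1,⟨0,[(8,0),(0,0),(12,0)]⟩,⟨12,[(0,7),(0,2),(8,4),(5,0),(0,2),(0,2)]⟩⟩,⟨true,0,⟨2,
  [(0,0),(6,0),(1,0)]⟩,⟨0,[(8,0)]⟩⟩,⟨false,0,⟨0,[]⟩,⟨0,[]⟩⟩,⟨false,0,⟨0,[]⟩,⟨0,[]⟩⟩,[.o ⟨false,0,⟨0,
  [(0,0),(0,0),(0,0),(6,0)]⟩,⟨0,[(8,1),(13,0)]⟩⟩,.e ⟨false,1,⟨0,[(22,0),(1,0)]⟩,⟨10,[(0,0),(0,1),(2,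
  0),(11,3),(0,1),(0,1)]⟩⟩ ⟨false,0,⟨0,[(0,0)]⟩,⟨1,[(8,3),(0,1),(11,0),(0,0)]⟩⟩,.a ⟨true,0,⟨0,[(4,
  0)]⟩,⟨1,[(10,1),(3,0),(0,0),(1,0)]⟩⟩ ⟨true,0,⟨1,[(9,0),(0,0)]⟩,⟨10,[(0,0),(0,1),(2,0),(11,3),(0,
  1),(0,1)]⟩⟩ ⟨false,0,⟨1,[(0,1),(8,0),(0,0)]⟩,⟨0,[(4,0),(3,1),(13,0)]⟩⟩,.e ⟨false,1,⟨0,[(22,0),(1,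
  0)]⟩,⟨0,[]⟩⟩ ⟨false,0,⟨0,[(0,0)]⟩,⟨0,[(8,1),(0,0),(12,0)]⟩⟩]⟩) (.I [0,0,1,0,0,0,0,-1] (.R ⟨0,
  false,false,false,[0,1,-1],[0,1],[1],(⟨0,[(7,0)]⟩,⟨0,[(13,0),(1,0)]⟩),(⟨0,[(16,0)]⟩,⟨0,[(15,0)]⟩),
  ⟨0,[(13,0)]⟩,.k,.k,.k,.k,.k,.k,⟨false,1,⟨1,[(19,1),(2,0),(0,0)]⟩,⟨1,[(10,0),(0,0),(9,1)]⟩⟩,⟨true,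
  0,⟨0,[(5,0)]⟩,⟨0,[(11,0)]⟩⟩,⟨false,1,⟨1,[(3,1),(7,1),(2,0),(3,1),(4,0)]⟩,⟨0,[(0,0),(20,0)]⟩⟩,
  ⟨true,0,⟨0,[(3,0),(17,0)]⟩,⟨0,[(9,0)]⟩⟩,⟨false,0,⟨0,[]⟩,⟨0,[]⟩⟩,⟨false,0,⟨0,[]⟩,⟨0,[]⟩⟩,[.a ⟨true,
  0,⟨0,[(21,0)]⟩,⟨0,[(0,0),(2,0),(7,0),(6,0)]⟩⟩ ⟨true,0,⟨0,[]⟩,⟨1,[(10,0),(0,0)]⟩⟩ ⟨false,0,⟨0,[(5,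
  0),(15,0)]⟩,⟨1,[(11,1),(7,1),(2,0),(0,0)]⟩⟩,.o ⟨false,1,⟨1,[(14,0),(6,1),(1,0)]⟩,⟨0,[(20,0)]⟩⟩,.o
  ⟨false,1,⟨0,[(11,0),(2,0),(3,0)]⟩,⟨0,[(10,0)]⟩⟩,.o ⟨false,1,⟨1,[(11,1),(2,0),(7,0)]⟩,⟨0,[(5,
  0)]⟩⟩]⟩) (.Q [0,0,0,0,0,0,2,2,-1,2] (.p true [0,0,1] [1,0,-1] (⟨0,[(13,0)]⟩,⟨0,[(12,0)]⟩) .k 2
  (⟨0,[(12,0)]⟩,⟨0,[(13,0)]⟩) .k (.r 0 ⟨0,[(0,1),(9,0),(0,0)]⟩ ⟨1,[(1,1),(3,1),(16,0),(0,0)]⟩)) (.Q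
  [0,1,0,0,0,0,-1,-2,0,-1] (.p false [0,0,1] [] (⟨0,[(14,0)]⟩,⟨0,[(13,0)]⟩) .k 0 (⟨0,[]⟩,⟨0,[]⟩) .k
  .k) (.R ⟨0,false,false,false,[0,0,1],[0,0,2],[0,0,1],(⟨0,[(15,0)]⟩,⟨0,[(14,0)]⟩),(⟨0,[(15,1)]⟩,⟨0,
  [(6,0)]⟩),⟨0,[(9,0)]⟩,.k,.k,.k,.k,.k,.k,⟨false,1,⟨1,[(0,1),(11,1),(11,0),(0,0)]⟩,⟨3,[(1,0),(0,5),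
  (10,1),(3,0),(0,0)]⟩⟩,⟨true,0,⟨0,[(7,0)]⟩,⟨0,[(13,0)]⟩⟩,⟨false,1,⟨2,[(3,1),(6,0),(1,0),(12,2)]⟩,
  ⟨0,[(2,0)]⟩⟩,⟨true,0,⟨1,[(1,0),(15,0),(0,0)]⟩,⟨0,[(11,0)]⟩⟩,⟨false,0,⟨0,[]⟩,⟨0,[]⟩⟩,⟨false,0,⟨0,
  []⟩,⟨0,[]⟩⟩,[.o ⟨false,0,⟨0,[(1,0)]⟩,⟨1,[(0,1),(12,1),(10,0),(0,0)]⟩⟩,.e ⟨false,1,⟨4,[(3,0),(6,1),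
  (2,0),(10,0),(0,3)]⟩,⟨11,[(1,0),(2,1),(14,3),(0,2),(0,1)]⟩⟩ ⟨false,1,⟨0,[(2,0),(7,0),(14,0)]⟩,⟨0,
  [(0,0)]⟩⟩,.e ⟨true,0,⟨1,[(12,0),(0,0)]⟩,⟨11,[(1,0),(2,1),(14,3),(0,2),(0,1)]⟩⟩ ⟨true,0,⟨3,[(1,2),
  (0,1),(10,1),(3,2),(0,2)]⟩,⟨0,[(0,0)]⟩⟩,.a ⟨true,0,⟨0,[(12,0)]⟩,⟨0,[(13,0),(6,0)]⟩⟩ ⟨false,1,⟨4,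
  [(3,0),(6,1),(2,0),(10,0),(0,3)]⟩,⟨0,[]⟩⟩ ⟨true,0,⟨1,[(1,0),(0,1),(14,0),(0,0)]⟩,⟨0,[(3,0)]⟩⟩]⟩)
  (.R ⟨0,false,false,false,[0,0,1],[0,0,2],[0,0,1],(⟨0,[(15,0)]⟩,⟨0,[(14,0)]⟩),(⟨0,[(15,1)]⟩,⟨0,[(6,
  0)]⟩),⟨0,[(9,0)]⟩,.k,.k,.k,.k,.k,.k,⟨false,1,⟨1,[(3,1),(3,1),(16,0),(0,0)]⟩,⟨4,[(0,0),(1,6),(7,0),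
  (2,1)]⟩⟩,⟨true,0,⟨0,[(7,0)]⟩,⟨0,[(13,0)]⟩⟩,⟨false,1,⟨2,[(3,1),(6,0),(1,0),(12,2)]⟩,⟨0,[(2,0)]⟩⟩,
  ⟨true,0,⟨2,[(0,0),(6,0),(2,0)]⟩,⟨0,[(11,0)]⟩⟩,⟨false,0,⟨0,[]⟩,⟨0,[]⟩⟩,⟨false,0,⟨0,[]⟩,⟨0,[]⟩⟩,[.o
  ⟨false,0,⟨0,[(1,0)]⟩,⟨0,[(11,1),(13,0)]⟩⟩,.a ⟨true,0,⟨0,[(0,0),(6,0)]⟩,⟨0,[(3,0),(9,0),(6,0)]⟩⟩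
  ⟨false,1,⟨4,[(3,0),(6,1),(2,0),(10,0),(0,3)]⟩,⟨11,[(1,0),(2,1),(14,3),(0,2),(0,1)]⟩⟩ ⟨true,0,⟨0,
  [(0,0)]⟩,⟨0,[(3,0)]⟩⟩,.a ⟨true,0,⟨0,[(7,0)]⟩,⟨1,[(13,1),(3,0),(0,0),(1,0)]⟩⟩ ⟨true,0,⟨1,[(12,0),
  (0,0)]⟩,⟨11,[(1,0),(2,1),(14,3),(0,2),(0,1)]⟩⟩ ⟨false,0,⟨0,[(0,0)]⟩,⟨1,[(3,1),(20,0),(0,0)]⟩⟩,.a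
  ⟨true,0,⟨0,[(12,0)]⟩,⟨0,[(13,0),(6,0)]⟩⟩ ⟨false,1,⟨4,[(3,0),(6,1),(2,0),(10,0),(0,3)]⟩,⟨0,[]⟩⟩
  ⟨true,0,⟨5,[(0,1),(0,0),(0,3),(7,1),(9,0)]⟩,⟨0,[(3,0)]⟩⟩]⟩)) (.R ⟨0,false,false,false,[1,0,-1],[0,
  0,1],[1,0,0,0,0,0,0,1],(⟨0,[(13,0)]⟩,⟨0,[(14,0)]⟩),(⟨0,[(14,0)]⟩,⟨0,[(13,0)]⟩),⟨0,[(7,0)]⟩,.k,.k,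
  .k,.k,.k,.k,⟨true,0,⟨0,[]⟩,⟨1,[(11,0),(0,0)]⟩⟩,⟨false,1,⟨1,[(6,3),(8,0),(7,0)]⟩,⟨0,[(12,1),(6,
  0)]⟩⟩,⟨true,0,⟨0,[(1,1),(9,0),(0,0)]⟩,⟨0,[(0,0),(2,0),(0,0),(1,1)]⟩⟩,⟨false,1,⟨1,[(1,3),(9,3),(3,
  0),(8,0)]⟩,⟨0,[(0,0)]⟩⟩,⟨false,0,⟨0,[]⟩,⟨0,[]⟩⟩,⟨false,0,⟨0,[]⟩,⟨0,[]⟩⟩,[.e ⟨false,0,⟨0,[(1,0)]⟩,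
  ⟨5,[(2,3),(6,1),(1,1),(11,2),(0,2)]⟩⟩ ⟨false,1,⟨3,[(1,1),(4,5),(2,1),(5,1),(7,0),(0,0)]⟩,⟨1,[(0,
  0),(11,1),(6,0)]⟩⟩,.o ⟨false,1,⟨1,[(1,1),(9,1),(3,0),(8,0)]⟩,⟨0,[(10,0)]⟩⟩,.a ⟨true,0,⟨1,[(12,1),
  (3,0),(0,0),(1,0)]⟩,⟨0,[(6,0)]⟩⟩ ⟨true,0,⟨1,[(1,1),(9,0),(0,0)]⟩,⟨10,[(2,4),(0,0),(2,5),(11,1),(0,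
  0),(0,0)]⟩⟩ ⟨false,1,⟨1,[(1,1),(4,1),(4,1),(3,0),(8,0)]⟩,⟨1,[(0,0),(11,1),(6,0)]⟩⟩,.o ⟨false,0,⟨0,
  [(12,0)]⟩,⟨1,[(6,1),(8,0),(7,0)]⟩⟩]⟩))))))

theorem ok0 : chk3 K KFs t0 base = true := by decide +kernel

open Helper25.KW Helper55.KE in
theorem closed {p a b c J l q : ℤ} {D dl : ℝ} {Cl : ℤ → ℤ → ℤ → ℤ → ℝ → Prop}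
    (W : World p a b c J 1 l q D dl Cl) (g : G0 p a b c J D)
    {N X R : ℤ} {I : ℝ} (hk : KCl p l Cl N X R I) (kz : KF a b D (X + (1 : ℤ) * I) (X + (1 : ℤ) * I + R) I)
    (hE : KZ p a b l 1 Cl (fun X R I => Zp 1 X R I) N
      (fun _ _ I => I) I)
    (hN0 : KNo p a b l 1 Cl (fun X R I => Zx 1 X R I))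
    (hN1 : KNo p a b l 1 Cl (fun X R I => ZiD D J X R I))
    (h0 : 1 ≤ (c : ℝ))
    (h1 : 1 ≤ (a : ℝ) - (b : ℝ) - (c : ℝ))
    (h2 : 0 < -2 * (b : ℝ) + D)
    (h3 : 1 ≤ 2 * (a : ℝ) - (b : ℝ))
    (h4 : 0 < (J : ℝ) - I)
    (h5 : 0 < (J : ℝ) - D + I)
    (h6 : 0 < (X : ℝ) + I)
    (h7 : 0 < D - 2 * I) : False := by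
  have g1 := g.a2
  have g2 := g.b2
  have g3 := g.pa
  have g4 := g.pb
  have g5 := g.J1
  have g6 := g.JD
  have g7 := g.D2
  have g8 := g.ca
  have g9 := g.ca'
  have k1 := kz.I0
  have k2 := kz.ID
  have k3 := kz.z1
  have k4 := kz.z2
  have k5 := kz.s1
  have k6 := kz.s2
  have hkf : ∀ kf ∈ KFs, KOk3 p l Cl 1 (xv [1, a, b, c, p, J, X, R] [D, I]) N kf := by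
    have hA1 : evg (xv [1, a, b, c, p, J, X, R] [D, I]) [0, 1] = a := by
      simp only [evg_cons, evg_nil, xv, List.map_cons, List.map_nil, List.cons_append, List.nil_append]
      push_cast
      ring
    have hB1 : evg (xv [1, a, b, c, p, J, X, R] [D, I]) [0, 0, 1] = b := by
      simp only [evg_cons, evg_nil, xv, List.map_cons, List.map_nil, List.cons_append, List.nil_append]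
      push_cast
      ring
    simp only [KFs, List.forall_mem_cons]
    refine ⟨kok3_ex hA1 hB1 hE ?_ ?_, kok3_no hA1 hB1 N hN0 ?_, kok3_no hA1 hB1 N hN1 ?_, fun _ h => absurd h (by simp)⟩
    · intro X' R' I' hg
      simp only [evg_cons, evg_nil, xv, List.map_cons, List.map_nil, List.cons_append, List.nil_append] at hg ⊢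
      push_cast at hg ⊢
      linarith
    · intro X' R' I' _ hg
      simp only [List.forall_mem_cons, List.not_mem_nil, false_imp_iff, implies_true, and_true,
        evg_cons, evg_nil, xv, List.map_cons, List.map_nil, List.cons_append, List.nil_append] at hg
      push_cast at hg
      simp only [Zx, Zp, Zs, Zsp, Zi, ZiD, Zy]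
      push_cast
      linarith [hg.1, hg.2]
    · intro X' R' I' _ hg
      simp only [List.forall_mem_cons, List.not_mem_nil, false_imp_iff, implies_true, and_true,
        evg_cons, evg_nil, xv, List.map_cons, List.map_nil, List.cons_append, List.nil_append] at hg
      push_cast at hg
      simp only [Zx, Zp, Zs, Zsp, Zi, ZiD, Zy]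
      push_cast
      linarith
    · intro X' R' I' _ hg
      simp only [List.forall_mem_cons, List.not_mem_nil, false_imp_iff, implies_true, and_true,
        evg_cons, evg_nil, xv, List.map_cons, List.map_nil, List.cons_append, List.nil_append] at hg
      push_cast at hg
      simp only [Zx, Zp, Zs, Zsp, Zi, ZiD, Zy]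
      push_cast
      linarith
  push_cast at *
  refine sound3 (val_K W.toBase hk []) W rfl (Nk := N)
    (fun kf _ _ => ⟨_, rfl⟩) hkf ok0 ?_
  · simp only [base, List.forall_mem_cons, List.not_mem_nil, false_imp_iff, implies_true,
      and_true, hld, xv, evg_cons, evg_nil, List.map_cons, List.map_nil, List.cons_append,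
      List.nil_append, if_true, if_false, Bool.false_eq_true]
    push_cast
    refine ⟨?_, ?_, ?_, ?_, ?_, ?_, ?_, ?_, ?_, ?_, ?_, ?_, ?_, ?_, ?_, ?_, ?_, ?_, ?_, ?_, ?_, ?_⟩ <;> linarith

end Helper25.S1T.Zpp1Hg
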