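import Pool.Agent.Helper25.KG.C4
import Pool.Agent.Helper25.KG.C4s
import Pool.Agent.Helper25.KG.C4d

set_option autoImplicit false
set_option linter.all false

namespace Helper25.S1T.Zpp1SM1

open Helper25.KG Helper11.CT

noncomputable def K : Cls :=
  dV 1

noncomputable def KFs : List KF3 :=
  [(3, bx3 ++ []),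
    (0, bx3 ++ [(-1, 0, 0, [])]),
    (4, (-1, 0, 0, [0, 0, 1]) :: (1, 0, 0, [0, 0, 1]) :: [(1, 0, 0, []), (0, 0, -1, [0,0,0,0,0,0,0,0,0,0,0,0,1])])]

noncomputable def base : List Con :=
  [(true,[0,0,1,1,0,0,0,1]),
  (true,[0,1,-1,0,0,0,0,-1]),
  (false,[0,0,0,0,0,0,-1,-1,0,0,0,-1]),
  (false,[0,0,0,0,0,0,1,0,0,0,0,1]),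
  (false,[0,-1,0,0,1,0,0,0,-1,-1,0,0,-1]),
  (false,[0,-1,0,0,0,0,0,0,1,1,0,0,1]),
  (false,[0,0,1,0,0,0,0,0,0,-1,0,0,-1]),
  (false,[0,0,0,0,0,0,0,0,0,1,0,0,1]),
  (false,[0,0,0,0,0,1,0,0,0,0,-1,1]),
  (false,[0,0,0,0,0,-1,0,0,0,0,0,1]),
  (false,[0,0,0,0,0,0,0,0,0,0,1,0,-1]),
  (false,[0,0,0,0,0,0,0,0,0,0,0,0,1]),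
  (false,[0,1,0,0,0,0,1,1,0,0,0,1]),
  (false,[0,1,0,0,0,0,-1,-1,0,0,0,-1]),
  (false,[0,0,1,0,0,0,1,0,0,0,0,1]),
  (false,[0,0,1,0,0,0,-1,0,0,0,0,-1]),
  (false,[0,0,0,0,0,0,0,0,0,0,1,-1]),
  (false,[0,0,0,0,0,0,0,0,0,0,0,1]),
  (false,[0,0,0,0,1,0,0,0,0,0,-2]),
  (false,[0,0,0,0,0,-1,0,0,0,0,1]),
  (true,[0,0,0,0,0,1]),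
  (true,[0,2,-1]),
  (false,[0,0,-2,0,0,0,0,0,0,0,1]),
  (true,[0,1,-1,-1]),
  (true,[0,1,0,-1]),
  (true,[0,0,0,1]),
  (true,[0,0,-2,0,1]),
  (true,[0,-2,0,0,1]),
  (true,[-1,0,1]),
  (true,[-1,1])]

noncomputable def t0 : Tre :=
  (.I [1,-1,0,1,0,0,0,-1] (.Q [0,-1,0,1,1,0,0,1,0,0,-1] (.pp true [-1,1]) (.Q [0,0,2,0,-1,0,-1,0,0,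
  0,2,-1] (.p false [-1,1,1] [1] (⟨0,[(10,0)]⟩,⟨0,[(18,0),(2,0)]⟩) .k 1 (⟨0,[]⟩,⟨0,[]⟩) .k .k) (.R
  ⟨0,false,false,true,[1,0,-1],[2,-1,-1],[1,1,-1,-1,0,0,0,-1],(⟨0,[(19,0)]⟩,⟨0,[(20,0)]⟩),(⟨0,[(19,
  0),(2,0)]⟩,⟨0,[(11,0)]⟩),⟨0,[(11,0)]⟩,.k,.k,.k,.k,.k,.k,⟨true,0,⟨0,[]⟩,⟨1,[(17,0),(0,0)]⟩⟩,⟨false,
  0,⟨4,[(0,1),(16,1),(7,0),(3,1)]⟩,⟨1,[(21,0),(7,0)]⟩⟩,⟨true,0,⟨0,[(26,0)]⟩,⟨2,[(2,0),(0,1),(12,0),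
  (0,0)]⟩⟩,⟨false,0,⟨1,[(0,0),(5,0),(19,1),(3,0)]⟩,⟨9,[(1,5),(0,3),(13,1),(0,1),(3,1),(7,0),(0,
  0)]⟩⟩,⟨false,0,⟨0,[]⟩,⟨0,[]⟩⟩,⟨false,0,⟨0,[]⟩,⟨0,[]⟩⟩,[.e ⟨false,0,⟨0,[(2,0),(23,1)]⟩,⟨0,[(3,0),
  (26,0),(1,0)]⟩⟩ ⟨false,0,⟨4,[(0,0),(1,2),(1,1),(12,0),(7,2),(1,7),(2,0)]⟩,⟨0,[(1,0)]⟩⟩,.e ⟨false,
  1,⟨0,[(4,0),(21,0),(3,0)]⟩,⟨0,[(3,0)]⟩⟩ ⟨false,0,⟨1,[(0,0),(1,1),(3,0),(19,3),(3,0)]⟩,⟨0,[(1,0),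
  (30,0)]⟩⟩,.a ⟨true,0,⟨2,[(0,0),(17,1),(6,0),(3,0)]⟩,⟨0,[(6,0)]⟩⟩ ⟨true,0,⟨0,[(2,0),(23,0),(0,0)]⟩,
  ⟨0,[(3,0)]⟩⟩ ⟨false,0,⟨1,[(0,0),(1,1),(14,0),(8,2),(0,0),(2,0)]⟩,⟨0,[(1,0)]⟩⟩,.o ⟨false,0,⟨0,[(18,
  0)]⟩,⟨1,[(6,1),(14,0),(7,0)]⟩⟩]⟩) (.Q [0,-1,0,0,1,0,1,1,0,0,-1,1] (.p true [0,0,1] [1] (⟨0,[(20,
  0)]⟩,⟨0,[(19,0)]⟩) .k 1 (⟨0,[]⟩,⟨0,[]⟩) .k .k) (.S ⟨1,0,[0,0,0,0,0,0,0,1],[0,0,1],[1],(⟨0,[(21,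
  0)]⟩,⟨0,[(20,0)]⟩),⟨0,[(13,0)]⟩,.k,.k,⟨true,0,⟨0,[(3,0),(24,0)]⟩,⟨0,[(4,0),(22,0)]⟩⟩,⟨false,1,⟨0,
  [(31,0),(1,0)]⟩,⟨0,[]⟩⟩,⟨false,0,⟨0,[(3,0)]⟩,⟨1,[(0,0),(3,0),(14,0),(6,0),(1,2),(2,0)]⟩⟩,⟨true,0,
  ⟨0,[(29,0)]⟩,⟨0,[(28,0)]⟩⟩,[.o ⟨false,1,⟨1,[(16,1),(5,0),(8,0)]⟩,⟨0,[(6,0)]⟩⟩,.o ⟨false,1,⟨0,[(0,
  0)]⟩,⟨0,[(17,0)]⟩⟩,.a ⟨true,0,⟨0,[(7,0)]⟩,⟨1,[(19,1),(3,0),(0,0),(1,0)]⟩⟩ ⟨true,0,⟨0,[]⟩,⟨0,[(33,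
  0)]⟩⟩ ⟨false,1,⟨1,[(0,0),(3,0),(14,0),(6,0),(1,0),(2,0)]⟩,⟨0,[(3,0),(24,0)]⟩⟩,.e ⟨false,1,⟨1,[(30,
  0),(0,0)]⟩,⟨1,[(18,0),(0,0)]⟩⟩ ⟨false,1,⟨0,[(0,0),(18,0),(6,0)]⟩,⟨0,[(6,0),(11,0)]⟩⟩]⟩) (.R ⟨2,
  true,false,true,[0,1],[1,0,-1],[1,1,0,0,0,0,0,-1],(⟨0,[]⟩,⟨0,[]⟩),(⟨0,[(20,0)]⟩,⟨0,[(21,0)]⟩),⟨0,
  []⟩,.k,.k,.k,.k,.k,.k,⟨true,0,⟨0,[]⟩,⟨1,[(18,0),(0,0)]⟩⟩,⟨false,0,⟨1,[(19,1),(3,0),(0,0),(1,0)]⟩,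
  ⟨5,[(1,1),(16,3),(3,0),(7,2)]⟩⟩,⟨true,0,⟨0,[(3,0),(23,0),(0,0)]⟩,⟨0,[(4,0)]⟩⟩,⟨false,0,⟨0,[(0,0),
  (27,0),(2,0)]⟩,⟨0,[(2,0),(4,0)]⟩⟩,⟨false,0,⟨0,[(3,0),(23,0)]⟩,⟨0,[(4,0),(23,0),(2,0)]⟩⟩,⟨true,
  (-1),⟨0,[(0,0)]⟩,⟨1,[(16,1),(5,0),(8,0)]⟩⟩,[]⟩))) (.Q [0,0,1,0,-1,0,-1,0,0,0,2,-1] (.p false [-1,
  1,1] [1] (⟨0,[(10,0)]⟩,⟨0,[(18,0),(2,0)]⟩) .k 1 (⟨0,[]⟩,⟨0,[]⟩) .k .k) (.K ⟨0,[2,-1,-1],(-1),(-1),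
  (⟨0,[(19,0),(2,0)]⟩,⟨0,[(11,0)]⟩),.k,(.r (-1) ⟨3,[(1,1),(2,1),(16,0),(4,5),(3,4)]⟩ ⟨2,[(2,0),(0,
  4),(12,0),(0,0)]⟩),.k,(.r 0 ⟨1,[(1,2),(0,0),(18,1),(3,0),(4,0)]⟩ ⟨1,[(3,3),(23,1),(1,0),(0,0)]⟩),
  .k,[⟨0,[(6,0),(14,0)]⟩,⟨1,[(0,1),(16,0),(0,0)]⟩,⟨0,[(15,0),(5,0),(6,0)]⟩,⟨2,[(0,1),(0,1),(3,0),
  (21,0),(1,0)]⟩]⟩) (.Q [0,0,2,0,-1,0,-1,0,0,0,2,-1] (.p false [-1,1,1] [1] (⟨0,[(11,0)]⟩,⟨0,[(19,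
  0),(2,0)]⟩) .k 1 (⟨0,[]⟩,⟨0,[]⟩) .k .k) (.K ⟨1,[2,-1,-1],(-1),(-1),(⟨0,[(20,0),(2,0)]⟩,⟨0,[(12,
  0)]⟩),.k,(.r (-1) ⟨2,[(1,0),(0,1),(3,0),(20,2),(0,0),(1,0),(0,2)]⟩ ⟨2,[(3,0),(0,4),(12,0),(0,
  0)]⟩),.k,.k,.k,[⟨1,[(1,0),(16,0),(3,0)]⟩,⟨0,[(0,0)]⟩,⟨3,[(1,2),(2,3),(13,0),(3,0),(2,1)]⟩,⟨1,[(0,
  0),(1,0),(3,0),(19,0),(1,0)]⟩,⟨0,[(1,0)]⟩]⟩) (.R ⟨2,true,false,false,[0,1],[1,0,-1],[0,0,1,1],(⟨0,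
  []⟩,⟨0,[]⟩),(⟨0,[(20,0)]⟩,⟨0,[(21,0)]⟩),⟨0,[]⟩,.k,.k,.k,.k,.k,.k,⟨true,0,⟨0,[(4,0)]⟩,⟨1,[(2,1),
  (19,0),(8,0)]⟩⟩,⟨false,0,⟨1,[(19,1),(3,0),(0,0),(1,0)]⟩,⟨1,[(1,0),(16,0),(11,0)]⟩⟩,⟨false,1,⟨0,
  [(31,0),(1,0)]⟩,⟨0,[]⟩⟩,⟨true,0,⟨2,[(2,1),(14,0),(1,1),(6,0),(1,0),(2,1)]⟩,⟨0,[(0,0),(1,0),(1,
  1)]⟩⟩,⟨true,0,⟨0,[(29,0)]⟩,⟨0,[(28,0)]⟩⟩,⟨false,0,⟨1,[(2,0),(0,0),(15,1),(6,0),(4,0)]⟩,⟨1,[(16,1),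
  (5,0),(8,0)]⟩⟩,[]⟩)))) (.Q [0,0,0,1,1,0,1,1,0,0,-2,1] (.p true [-1,1,1] [1] (⟨0,[(9,0)]⟩,⟨0,[(17,
  0),(2,0)]⟩) .k 1 (⟨0,[]⟩,⟨0,[]⟩) .k .k) (.I [0,-1,1,1,0,0,0,-1] (.I [1,-1,1,0,0,0,0,-1] (.I [1,0,
  1,0,0,0,0,1] (.R ⟨0,false,false,false,[1,0,-1],[0,1],[0,1],(⟨0,[(21,0)]⟩,⟨0,[(22,0)]⟩),(⟨0,[(25,
  0)]⟩,⟨0,[(24,0)]⟩),⟨0,[(13,0)]⟩,.k,.k,.k,.k,.k,.k,⟨true,0,⟨0,[(28,0)]⟩,⟨0,[(0,0),(1,0)]⟩⟩,⟨false,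
  1,⟨0,[(8,0),(14,0),(3,0)]⟩,⟨0,[(20,0),(3,0),(0,0)]⟩⟩,⟨true,0,⟨0,[(4,0),(25,0)]⟩,⟨1,[(1,0),(4,
  0)]⟩⟩,⟨false,1,⟨0,[(0,0),(0,0),(1,0),(23,0)]⟩,⟨0,[(1,0),(18,0),(6,0),(1,0)]⟩⟩,⟨false,0,⟨0,[]⟩,⟨0,
  []⟩⟩,⟨false,0,⟨0,[]⟩,⟨0,[]⟩⟩,[.e ⟨false,0,⟨0,[(28,0),(1,0)]⟩,⟨0,[(32,0),(1,0)]⟩⟩ ⟨false,1,⟨2,[(2,
  0),(0,1),(2,0),(12,0),(7,0),(3,0)]⟩,⟨0,[(1,0),(2,0),(15,0),(6,0)]⟩⟩,.o ⟨false,1,⟨1,[(3,0),(3,0),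
  (22,0),(1,0)]⟩,⟨0,[(29,0)]⟩⟩,.a ⟨true,0,⟨1,[(20,1),(3,0),(0,0),(1,0)]⟩,⟨0,[(8,0)]⟩⟩ ⟨true,0,⟨0,
  [(34,0)]⟩,⟨0,[]⟩⟩ ⟨false,1,⟨3,[(2,1),(0,1),(4,1),(22,0),(0,0)]⟩,⟨0,[(1,0),(2,0),(15,0),(6,0)]⟩⟩,
  .o ⟨false,0,⟨0,[(20,0)]⟩,⟨1,[(8,1),(14,0),(7,0)]⟩⟩]⟩) (.I [1,-1,-1,-1,1,0,0,1] (.S ⟨1,0,[0,0,0,0,
  0,0,0,1],[0,0,1],[1,1,0,-1,0,0,0,1],(⟨0,[(23,0)]⟩,⟨0,[(22,0)]⟩),⟨0,[(15,0)]⟩,.k,.k,⟨true,0,⟨0,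
  [(30,0)]⟩,⟨0,[(31,0)]⟩⟩,⟨false,1,⟨0,[(33,0),(1,0)]⟩,⟨0,[]⟩⟩,⟨false,0,⟨0,[]⟩,⟨0,[(33,0),(1,0)]⟩⟩,
  ⟨true,0,⟨0,[(31,0)]⟩,⟨0,[(30,0)]⟩⟩,[.o ⟨false,1,⟨1,[(0,0),(3,0),(15,0),(14,0)]⟩,⟨0,[(8,0)]⟩⟩,.e
  ⟨false,1,⟨0,[(0,0),(34,0)]⟩,⟨1,[(3,0),(3,0),(23,0)]⟩⟩ ⟨false,1,⟨4,[(0,2),(3,0),(1,1),(1,0),(19,1),
  (4,0)]⟩,⟨1,[(7,0),(11,0),(0,0)]⟩⟩,.a ⟨true,0,⟨0,[(9,0)]⟩,⟨1,[(21,1),(3,0),(0,0),(1,0)]⟩⟩ ⟨true,0,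
  ⟨0,[(5,0)]⟩,⟨1,[(3,0),(3,0),(23,0)]⟩⟩ ⟨false,1,⟨1,[(0,0),(5,0),(26,0),(1,0)]⟩,⟨1,[(2,0),(4,0)]⟩⟩,
  .e ⟨false,1,⟨0,[(0,0),(34,0)]⟩,⟨0,[(3,0)]⟩⟩ ⟨false,1,⟨4,[(0,2),(3,0),(1,1),(1,0),(19,1),(4,0)]⟩,
  ⟨1,[(2,0),(16,0),(0,0)]⟩⟩]⟩) (.S ⟨1,0,[0,1,0,0,0,0,0,1],[0,0,1],[1,0,0,-1,0,0,0,1],(⟨0,[(23,0)]⟩,
  ⟨0,[(22,0)]⟩),⟨0,[(15,0)]⟩,.k,.k,⟨false,1,⟨0,[(30,0),(2,0)]⟩,⟨0,[(31,0)]⟩⟩,⟨true,0,⟨0,[(35,0)]⟩,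
  ⟨0,[]⟩⟩,⟨true,0,⟨0,[]⟩,⟨0,[(35,0)]⟩⟩,⟨false,0,⟨0,[(31,0)]⟩,⟨0,[(30,0),(2,0)]⟩⟩,[.a ⟨true,0,⟨0,
  [(18,0)]⟩,⟨0,[(2,0),(18,0),(6,0)]⟩⟩ ⟨false,1,⟨1,[(5,1),(26,0),(0,0)]⟩,⟨1,[(0,0),(2,0),(28,0)]⟩⟩
  ⟨true,0,⟨7,[(0,0),(3,0),(0,4),(0,2),(14,0),(5,0),(0,1)]⟩,⟨0,[(2,0)]⟩⟩,.o ⟨false,1,⟨1,[(4,0),(13,
  0),(11,0),(2,0)]⟩,⟨0,[(8,0)]⟩⟩,.a ⟨true,0,⟨0,[(9,0)]⟩,⟨1,[(21,1),(3,0),(0,0),(1,0)]⟩⟩ ⟨false,1,⟨0,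
  [(5,0),(27,0)]⟩,⟨1,[(0,0),(2,0),(28,0)]⟩⟩ ⟨true,0,⟨7,[(0,0),(3,0),(0,4),(0,2),(14,0),(5,0),(0,
  1)]⟩,⟨1,[(2,0),(4,0)]⟩⟩,.a ⟨true,0,⟨0,[(20,0)]⟩,⟨0,[(21,0),(6,0)]⟩⟩ ⟨true,1,⟨1,[(5,1),(26,0),(0,
  0)]⟩,⟨0,[(0,0)]⟩⟩ ⟨false,1,⟨3,[(5,1),(0,1),(25,2),(0,0)]⟩,⟨0,[(2,0)]⟩⟩]⟩))) (.S ⟨1,0,[0,0,0,0,0,0,
  0,1],[0,0,1],[1,1,0,-1,0,0,0,1],(⟨0,[(21,0)]⟩,⟨0,[(20,0)]⟩),⟨0,[(13,0)]⟩,.k,.k,⟨true,0,⟨0,[(28,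
  0)]⟩,⟨0,[(29,0)]⟩⟩,⟨false,1,⟨0,[(31,0),(1,0)]⟩,⟨0,[]⟩⟩,⟨false,0,⟨0,[]⟩,⟨0,[(31,0),(1,0)]⟩⟩,⟨true,
  0,⟨0,[(29,0)]⟩,⟨0,[(28,0)]⟩⟩,[.o ⟨false,1,⟨1,[(2,0),(13,0),(11,0),(2,0)]⟩,⟨0,[(6,0)]⟩⟩,.e ⟨false,
  1,⟨1,[(3,1),(26,0),(0,0)]⟩,⟨1,[(1,0),(3,0),(23,0)]⟩⟩ ⟨false,1,⟨0,[(0,0),(30,0)]⟩,⟨1,[(5,0),(11,0),
  (0,0)]⟩⟩,.a ⟨true,0,⟨0,[(7,0)]⟩,⟨1,[(19,1),(3,0),(0,0),(1,0)]⟩⟩ ⟨true,0,⟨0,[(3,0)]⟩,⟨1,[(1,0),(3,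
  0),(23,0)]⟩⟩ ⟨false,1,⟨3,[(3,1),(0,1),(25,0),(0,2)]⟩,⟨0,[(6,0),(0,0)]⟩⟩,.e ⟨false,1,⟨1,[(3,1),(26,
  0),(0,0)]⟩,⟨0,[(1,0)]⟩⟩ ⟨false,1,⟨0,[(0,0),(30,0)]⟩,⟨0,[(6,0),(11,0)]⟩⟩]⟩)) (.Q [0,0,0,-1,0,0,-1,
  0,0,0,1,-1] (.p false [0,0,1] [1] (⟨0,[(20,0)]⟩,⟨0,[(19,0)]⟩) .k 1 (⟨0,[]⟩,⟨0,[]⟩) .k .k) (.Q [0,
  -1,0,1,1,0,1,1,0,0,-1,1] (.p true [0,0,1] [1] (⟨0,[(21,0)]⟩,⟨0,[(20,0)]⟩) .k 1 (⟨0,[]⟩,⟨0,[]⟩) .k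
  .k) (.R ⟨0,false,false,false,[1,0,-1],[0,1],[1,0,1,1],(⟨0,[(21,0)]⟩,⟨0,[(22,0)]⟩),(⟨0,[(25,0)]⟩,
  ⟨0,[(24,0)]⟩),⟨0,[(13,0)]⟩,.k,.k,.k,.k,.k,.k,⟨true,0,⟨0,[]⟩,⟨1,[(19,0),(0,0)]⟩⟩,⟨false,1,⟨0,[(8,
  0),(14,0),(3,0)]⟩,⟨0,[(20,0),(3,0),(0,0)]⟩⟩,⟨true,0,⟨0,[(5,0)]⟩,⟨0,[(7,0),(0,0),(19,0)]⟩⟩,⟨false,
  1,⟨0,[(0,0)]⟩,⟨0,[(1,0),(5,0),(0,0)]⟩⟩,⟨false,0,⟨0,[]⟩,⟨0,[]⟩⟩,⟨false,0,⟨0,[]⟩,⟨0,[]⟩⟩,[.e ⟨false,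
  0,⟨0,[(30,0)]⟩,⟨1,[(29,1),(1,0),(0,0)]⟩⟩ ⟨false,1,⟨0,[(0,0),(5,0)]⟩,⟨0,[(1,0)]⟩⟩,.o ⟨false,1,⟨0,
  [(0,0),(6,0)]⟩,⟨0,[(29,0)]⟩⟩,.a ⟨true,0,⟨0,[(1,0),(28,0)]⟩,⟨0,[(8,0)]⟩⟩ ⟨true,0,⟨1,[(5,0),(1,0),
  (11,0),(10,0)]⟩,⟨0,[(28,0)]⟩⟩ ⟨false,1,⟨0,[(0,0),(6,0),(0,0)]⟩,⟨0,[(1,0)]⟩⟩,.o ⟨false,0,⟨0,[(20,
  0)]⟩,⟨1,[(8,1),(14,0),(7,0)]⟩⟩]⟩) (.R ⟨0,false,false,true,[1,0,-1],[2,-1,-1],[0,1,0,-1,0,0,0,-1],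
  (⟨0,[(21,0)]⟩,⟨0,[(22,0)]⟩),(⟨0,[(21,0),(2,0)]⟩,⟨0,[(13,0)]⟩),⟨0,[(13,0)]⟩,.k,.k,.k,.k,.k,.k,
  ⟨true,0,⟨1,[(19,0),(0,0)]⟩,⟨0,[]⟩⟩,⟨false,0,⟨0,[(24,0),(0,0)]⟩,⟨1,[(23,0),(7,0)]⟩⟩,⟨true,0,⟨0,
  [(29,0)]⟩,⟨0,[(30,0)]⟩⟩,⟨false,0,⟨0,[(1,0),(6,0)]⟩,⟨1,[(3,0),(3,0),(22,0),(1,0)]⟩⟩,⟨false,0,⟨0,
  []⟩,⟨0,[]⟩⟩,⟨false,0,⟨0,[]⟩,⟨0,[]⟩⟩,[.o ⟨false,(-1),⟨0,[(0,0)]⟩,⟨0,[(3,0),(28,0),(1,0)]⟩⟩,.o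
  ⟨false,0,⟨3,[(0,1),(0,1),(4,0),(11,0),(0,0),(12,1)]⟩,⟨0,[(3,0)]⟩⟩,.a ⟨true,0,⟨0,[(1,0),(28,0)]⟩,
  ⟨0,[(8,0)]⟩⟩ ⟨false,0,⟨1,[(0,1),(7,1),(14,0),(8,0)]⟩,⟨1,[(5,1),(25,0),(0,0)]⟩⟩ ⟨true,(-1),⟨0,[(0,
  0),(7,0)]⟩,⟨1,[(3,0),(1,0),(14,0),(10,0)]⟩⟩,.o ⟨false,0,⟨0,[(20,0)]⟩,⟨1,[(8,1),(14,0),(7,
  0)]⟩⟩]⟩)) (.Q [0,0,0,-1,0,0,0,0,0,0,1] (.pp false [-1,1]) (.R ⟨0,false,false,false,[1,0,-1],[0,1],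
  [1,0,1,1],(⟨0,[(21,0)]⟩,⟨0,[(22,0)]⟩),(⟨0,[(25,0)]⟩,⟨0,[(24,0)]⟩),⟨0,[(13,0)]⟩,.k,.k,.k,.k,.k,.k,
  ⟨true,0,⟨0,[]⟩,⟨1,[(19,0),(0,0)]⟩⟩,⟨false,1,⟨0,[(8,0),(14,0),(3,0)]⟩,⟨0,[(20,0),(3,0),(0,0)]⟩⟩,
  ⟨true,0,⟨0,[(5,0)]⟩,⟨0,[(7,0),(0,0),(19,0)]⟩⟩,⟨false,1,⟨8,[(1,3),(0,0),(0,2),(1,2),(11,1),(9,0),
  (4,5)]⟩,⟨0,[(0,0),(6,0)]⟩⟩,⟨false,0,⟨0,[]⟩,⟨0,[]⟩⟩,⟨false,0,⟨0,[]⟩,⟨0,[]⟩⟩,[.a ⟨true,0,⟨0,[(30,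
  0)]⟩,⟨0,[(0,0)]⟩⟩ ⟨false,0,⟨0,[(30,0)]⟩,⟨1,[(29,1),(1,0),(0,0)]⟩⟩ ⟨true,0,⟨0,[(1,0)]⟩,⟨0,[(0,0),
  (19,0)]⟩⟩,.o ⟨false,1,⟨1,[(3,0),(3,0),(22,0),(1,0)]⟩,⟨0,[(29,0)]⟩⟩,.e ⟨true,0,⟨1,[(5,0),(1,0),(11,
  0),(10,0)]⟩,⟨0,[(28,0)]⟩⟩ ⟨true,0,⟨0,[(1,0)]⟩,⟨3,[(0,2),(3,0),(13,0),(1,2),(5,0),(0,0)]⟩⟩,.o
  ⟨false,0,⟨0,[(20,0)]⟩,⟨1,[(8,1),(14,0),(7,0)]⟩⟩]⟩) (.I [0,-1,2,1] (.R ⟨1,false,false,false,[0,0,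
  1],[0,1],[1,1],(⟨0,[(23,0)]⟩,⟨0,[(22,0)]⟩),(⟨0,[(26,0)]⟩,⟨0,[(25,0)]⟩),⟨0,[(15,0)]⟩,.k,.k,.k,.k,
  (.r (-1) ⟨0,[(3,0),(25,0),(3,0)]⟩ ⟨2,[(0,4),(6,2),(19,0),(3,0)]⟩),.k,⟨true,0,⟨0,[(29,0)]⟩,⟨0,[(0,
  0)]⟩⟩,⟨false,1,⟨1,[(21,1),(2,0),(3,1),(3,0)]⟩,⟨0,[(20,0)]⟩⟩,⟨false,0,⟨0,[(8,0),(0,0)]⟩,⟨3,[(5,1),
  (0,1),(25,0),(0,2)]⟩⟩,⟨true,0,⟨0,[(8,0),(22,0)]⟩,⟨0,[(3,0),(16,0)]⟩⟩,⟨false,0,⟨2,[(0,1),(1,0),(4,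
  1),(0,0),(19,0)]⟩,⟨0,[(5,0),(27,0)]⟩⟩,⟨false,0,⟨0,[(0,0),(0,0),(6,0),(19,0)]⟩,⟨0,[(3,0),(16,0),(9,
  0),(2,0)]⟩⟩,[.o ⟨false,0,⟨0,[(1,0)]⟩,⟨0,[(30,0),(2,0),(1,0)]⟩⟩,.o ⟨false,1,⟨1,[(4,0),(3,0),(22,0),
  (1,0)]⟩,⟨0,[(30,0)]⟩⟩,.a ⟨true,0,⟨0,[(9,0)]⟩,⟨1,[(21,1),(3,0),(0,0),(1,0)]⟩⟩ ⟨false,0,⟨0,[]⟩,⟨0,
  [(33,0),(1,0)]⟩⟩ ⟨true,0,⟨1,[(1,0),(4,0),(1,0),(12,0),(6,0)]⟩,⟨0,[(20,0),(8,0)]⟩⟩,.e ⟨true,0,⟨5,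
  [(1,0),(1,0),(3,0),(19,1),(0,0)]⟩,⟨1,[(0,0),(29,0)]⟩⟩ ⟨true,0,⟨0,[(1,0),(19,0),(6,0)]⟩,⟨0,[(20,0),
  (9,0)]⟩⟩]⟩) (.Q [0,0,0,0,0,0,0,0,0,0,0,1,-1] (.ed true [1,0,-1,0,1] .k) (.R ⟨0,false,false,false,
  [1,0,-1],[1,0,-1,0,1],[1,0,0,0,0,0,0,-1],(⟨0,[(23,0)]⟩,⟨0,[(24,0)]⟩),(⟨0,[(18,0),(4,0)]⟩,⟨0,[(0,
  0)]⟩),⟨0,[(15,0)]⟩,.k,.k,.k,.k,.k,.k,⟨false,1,⟨6,[(1,0),(0,0),(8,6),(2,6),(13,2),(0,0)]⟩,⟨6,[(1,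
  0),(0,0),(9,6),(0,6),(14,2),(0,0)]⟩⟩,⟨true,0,⟨0,[(14,0)]⟩,⟨0,[(13,0)]⟩⟩,⟨true,0,⟨0,[]⟩,⟨0,[(36,
  0)]⟩⟩,⟨false,0,⟨0,[(12,0)]⟩,⟨0,[(11,0),(24,0)]⟩⟩,⟨false,0,⟨0,[]⟩,⟨0,[]⟩⟩,⟨false,0,⟨0,[]⟩,⟨0,[]⟩⟩,
  [.o ⟨false,0,⟨0,[(12,0),(7,0)]⟩,⟨0,[(3,0),(2,0),(4,0)]⟩⟩,.o ⟨false,0,⟨0,[(9,0),(2,0)]⟩,⟨0,[(2,0),
  (8,0),(7,0),(11,0)]⟩⟩,.a ⟨true,0,⟨1,[(22,1),(3,0),(0,0),(1,0)]⟩,⟨0,[(10,0)]⟩⟩ ⟨true,0,⟨0,[(9,0),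
  (0,0)]⟩,⟨3,[(4,0),(1,0),(0,1),(20,0)]⟩⟩ ⟨false,0,⟨0,[(9,0),(0,0),(1,0)]⟩,⟨3,[(4,0),(1,0),(0,1),(3,
  3),(16,0)]⟩⟩,.o ⟨false,0,⟨0,[(22,0)]⟩,⟨1,[(10,1),(14,0),(7,0)]⟩⟩]⟩) (.Q [0,0,0,0,0,0,1,0,0,-1,0,1,
  -1] (.p false [0,0,-1,0,1] [] (⟨0,[(0,0)]⟩,⟨0,[(17,0),(6,0)]⟩) .k 0 (⟨0,[]⟩,⟨0,[]⟩) .k .k) (.R ⟨0,
  false,false,true,[0,0,-1,0,1],[0,0,0,0,1],[0,1],(⟨0,[(1,0)]⟩,⟨0,[(18,0),(6,0)]⟩),(⟨0,[(19,0)]⟩,⟨0,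
  [(18,0)]⟩),⟨0,[(16,0),(1,0)]⟩,.k,.k,(.r 0 ⟨1,[(0,1),(1,0),(7,1),(2,1),(18,0)]⟩ ⟨0,[(8,0),(3,0),(2,
  0),(21,0)]⟩),.k,.k,.k,⟨false,1,⟨6,[(2,0),(0,0),(8,6),(2,6),(13,2),(0,0)]⟩,⟨6,[(2,0),(0,0),(9,6),
  (0,6),(14,2),(0,0)]⟩⟩,⟨true,0,⟨0,[(11,0)]⟩,⟨0,[(23,0)]⟩⟩,⟨false,1,⟨3,[(5,0),(1,0),(0,1),(3,3),(2,
  3),(13,0)]⟩,⟨0,[(0,0),(9,0),(2,0)]⟩⟩,⟨true,0,⟨0,[(20,0)]⟩,⟨0,[(10,0)]⟩⟩,⟨false,0,⟨0,[]⟩,⟨0,[]⟩⟩,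
  ⟨false,0,⟨0,[]⟩,⟨0,[]⟩⟩,[.o ⟨false,0,⟨0,[(3,0),(9,0),(18,0),(4,0)]⟩,⟨0,[(12,0)]⟩⟩,.o ⟨false,0,⟨0,
  [(3,0),(9,0),(18,0)]⟩,⟨0,[(12,0),(24,0)]⟩⟩,.o ⟨false,1,⟨1,[(15,1),(7,1),(2,0),(7,0)]⟩,⟨0,[(0,
  0)]⟩⟩,.a ⟨true,0,⟨0,[(15,0),(7,0)]⟩,⟨1,[(0,1),(26,0),(0,0),(1,0)]⟩⟩ ⟨true,0,⟨6,[(2,0),(0,0),(25,
  2),(0,0)]⟩,⟨1,[(22,0),(0,0)]⟩⟩ ⟨false,0,⟨6,[(0,6),(1,0),(0,0),(9,6),(15,2),(0,0)]⟩,⟨0,[(12,0),(2,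
  0),(7,0)]⟩⟩]⟩) (.K ⟨2,[0,0,-1,0,1],0,(-1),(⟨0,[(1,0)]⟩,⟨0,[(18,0),(6,0)]⟩),.k,(.r 0 ⟨0,[(2,0),(7,
  0),(0,0),(1,0),(0,0)]⟩ ⟨0,[(8,0),(3,0),(2,0),(21,0)]⟩),(.r 0 ⟨1,[(9,0),(3,1),(0,1),(6,0),(0,0),
  (10,1)]⟩ ⟨0,[(5,0),(6,0),(2,0)]⟩),(.r 0 ⟨0,[(9,0),(0,0),(0,0),(1,0),(0,0)]⟩ ⟨0,[(5,0),(2,0),(3,0),
  (2,0)]⟩),.k,[⟨0,[(11,0),(2,0)]⟩,⟨1,[(0,1),(21,0),(0,0)]⟩,⟨0,[(0,0)]⟩,⟨0,[(25,0)]⟩]⟩))))))) (.R ⟨0,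
  false,false,false,[-1,1,1],[0,1],[1,0,1,1],(⟨0,[(10,0)]⟩,⟨0,[(18,0),(2,0)]⟩),(⟨0,[(22,0)]⟩,⟨0,
  [(21,0)]⟩),⟨0,[(18,0)]⟩,.k,.k,.k,.k,.k,.k,⟨true,0,⟨0,[]⟩,⟨1,[(16,0),(0,0)]⟩⟩,⟨false,0,⟨0,[(17,0),
  (6,0)]⟩,⟨1,[(16,1),(3,0),(7,0)]⟩⟩,⟨true,0,⟨0,[(4,0),(0,0)]⟩,⟨0,[(1,0),(25,0)]⟩⟩,⟨false,0,⟨1,[(0,
  0),(3,0),(22,0),(1,0)]⟩,⟨1,[(14,1),(5,0),(8,0)]⟩⟩,⟨false,0,⟨0,[]⟩,⟨0,[]⟩⟩,⟨false,0,⟨0,[]⟩,⟨0,[]⟩⟩,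
  [.e ⟨false,0,⟨0,[(27,0)]⟩,⟨1,[(26,1),(1,0),(0,0)]⟩⟩ ⟨false,0,⟨3,[(0,0),(1,3),(1,0),(10,1),(8,1),
  (2,0),(1,0)]⟩,⟨1,[(5,1),(14,0),(4,1),(3,0)]⟩⟩,.o ⟨false,1,⟨1,[(20,0),(6,1),(1,0)]⟩,⟨0,[(26,0)]⟩⟩,
  .a ⟨true,1,⟨1,[(5,1),(14,0),(7,0)]⟩,⟨0,[(0,0),(1,0)]⟩⟩ ⟨true,0,⟨1,[(2,0),(1,0),(11,0),(10,0)]⟩,⟨0,
  [(25,0)]⟩⟩ ⟨false,0,⟨1,[(0,0),(1,1),(1,0),(22,0),(1,0)]⟩,⟨1,[(5,1),(14,0),(4,1),(3,0)]⟩⟩,.o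
  ⟨false,1,⟨0,[(5,0),(14,0)]⟩,⟨1,[(0,0),(1,0),(14,0),(10,0)]⟩⟩]⟩)))

theorem ok0 : chk4 K KFs t0 base = true := by decide +kernel

open Helper25.KW Helper55.KE in
theorem closed {p a b c J l q : ℤ} {D dl : ℝ} {Cl : ℤ → ℤ → ℤ → ℤ → ℝ → Prop}
    (W : World p a b c J 1 l q D dl Cl) (g : G0 p a b c J D)
    {N X R : ℤ} {I : ℝ} (hk : KCl p l Cl N X R I) (kz : KF a b D (X + (1 : ℤ) * I) (X + (1 : ℤ) * I + R) I)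
    {Nw Xw Rw : ℤ} {Iw : ℝ} (hw : KCl p l Cl Nw Xw Rw Iw) (hne : N ≠ Nw)
    (hU : KU p a b l 1 Cl (fun _ _ _ => True) N)
    (hN0 : KNo p a b l 1 Cl (fun X R I => Zx 1 X R I))
    (hW0 : StN p b l 1 Cl (fun X' R' I' => 0 < ((X' : ℝ) + (1 : ℤ) * I') ∧ 0 < (-1) * I' + (Iw)) N Nw)
    (h0 : 1 ≤ (c : ℝ))
    (h1 : 1 ≤ (a : ℝ) - (b : ℝ) - (c : ℝ))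
    (h2 : 0 < -2 * (b : ℝ) + D)
    (h3 : 1 ≤ 2 * (a : ℝ) - (b : ℝ))
    (h4 : 0 < Iw)
    (h5 : 0 < D - Iw)
    (h6 : 0 < -(J : ℝ) + I)
    (h7 : 0 < (J : ℝ) - D + I)
    (h8 : 0 < (Xw : ℝ) + Iw)
    (h9 : 0 < (b : ℝ) - (Xw : ℝ) - Iw)
    (h10 : 0 < -(a : ℝ) + (Rw : ℝ) + (Xw : ℝ) + Iw)
    (h11 : 0 < -(a : ℝ) + (p : ℝ) - (Rw : ℝ) - (Xw : ℝ) - Iw)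
    (h12 : 0 < (X : ℝ) + I)
    (h13 : 0 < -(X : ℝ) - (R : ℝ) - I)
    (h14 : 1 ≤ (a : ℝ) - (b : ℝ) - (R : ℝ))
    (h15 : 1 ≤ (b : ℝ) + (c : ℝ) + (R : ℝ)) : False := by
  have g1 := g.a2
  have g2 := g.b2
  have g3 := g.pa
  have g4 := g.pb
  have g5 := g.J1
  have g6 := g.JD
  have g7 := g.D2
  have g8 := g.ca
  have g9 := g.ca'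
  have k1 := kz.I0
  have k2 := kz.ID
  have k3 := kz.z1
  have k4 := kz.z2
  have k5 := kz.s1
  have k6 := kz.s2
  have hkf : ∀ kf ∈ KFs, KOk4 p l Cl 1 (xv [1, a, b, c, p, J, X, R, Rw, Xw] [D, I, Iw]) N Nw kf := by
    have hA1 : evg (xv [1, a, b, c, p, J, X, R, Rw, Xw] [D, I, Iw]) [0, 1] = a := by
      simp only [evg_cons, evg_nil, xv, List.map_cons, List.map_nil, List.cons_append, List.nil_append]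
      push_cast
      ring
    have hB1 : evg (xv [1, a, b, c, p, J, X, R, Rw, Xw] [D, I, Iw]) [0, 0, 1] = b := by
      simp only [evg_cons, evg_nil, xv, List.map_cons, List.map_nil, List.cons_append, List.nil_append]
      push_cast
      ring
    simp only [KFs, List.forall_mem_cons]
    refine ⟨kok4_u hA1 hB1 Nw hU ?_, kok4_no hA1 hB1 N Nw hN0 ?_, kok4_st hB1 hW0 ?_, fun _ h => absurd h (by simp)⟩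
    · intro _ _ _ _ _
      trivial
    · intro X' R' I' _ hg
      simp only [List.forall_mem_cons, List.not_mem_nil, false_imp_iff, implies_true, and_true,
        evg_cons, evg_nil, xv, List.map_cons, List.map_nil, List.cons_append, List.nil_append] at hg
      push_cast at hg
      simp only [Zx, Zp, Zs, Zsp, Zi, ZiD, Zy]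
      push_cast
      linarith
    · intro X' R' I' hg
      simp only [List.forall_mem_cons, List.not_mem_nil, false_imp_iff, implies_true, and_true,
        evg_cons, evg_nil, xv, List.map_cons, List.map_nil, List.cons_append, List.nil_append] at hg
      push_cast at hg ⊢
      refine ⟨?_, ?_⟩ <;> linarith [hg.1, hg.2]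
  push_cast at *
  refine sound4 (val_V W.toBase hk hw hne []) W rfl (Nk := N)
    (fun kf _ _ => ⟨_, rfl⟩) (Nw := Nw) (fun _ _ _ => by simp [NN]) hkf ok0 ?_
  · simp only [base, List.forall_mem_cons, List.not_mem_nil, false_imp_iff, implies_true,
      and_true, hld, xv, evg_cons, evg_nil, List.map_cons, List.map_nil, List.cons_append,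
      List.nil_append, if_true, if_false, Bool.false_eq_true]
    push_cast
    refine ⟨?_, ?_, ?_, ?_, ?_, ?_, ?_, ?_, ?_, ?_, ?_, ?_, ?_, ?_, ?_, ?_, ?_, ?_, ?_, ?_, ?_, ?_, ?_, ?_, ?_, ?_, ?_, ?_, ?_, ?_⟩ <;> linarith

end Helper25.S1T.Zpp1SM1
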