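import Pool.Agent.Helper25.KG.C4
import Pool.Agent.Helper25.KG.C4s
import Pool.Agent.Helper25.KG.C4d

set_option autoImplicit false
set_option linter.all false

namespace Helper25.S1T.Zpp1SM3

open Helper25.KG Helper11.CT

noncomputable def K : Cls :=
  dV 1

noncomputable def KFs : List KF3 :=
  [(3, bx3 ++ []),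
    (0, bx3 ++ [(-1, 0, 0, [])]),
    (4, (-1, 0, 0, [0, 0, 1]) :: (1, 0, 0, [0, 0, 1]) :: [(1, 0, 0, []), (0, 0, -1, [0,0,0,0,0,0,0,0,0,0,0,0,1])])]

noncomputable def base : List Con :=
  [(true,[0,0,2,1,0,0,0,1]),
  (true,[0,0,-1,-1,0,0,0,-1]),
  (true,[0,1,-1,0,0,0,0,-1]),
  (false,[0,0,0,0,0,0,-1,-1,0,0,0,-1]),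
  (false,[0,0,0,0,0,0,1,0,0,0,0,1]),
  (false,[0,-1,0,0,1,0,0,0,-1,-1,0,0,-1]),
  (false,[0,-1,0,0,0,0,0,0,1,1,0,0,1]),
  (false,[0,0,1,0,0,0,0,0,0,-1,0,0,-1]),
  (false,[0,0,0,0,0,0,0,0,0,1,0,0,1]),
  (false,[0,0,0,0,0,1,0,0,0,0,-1,1]),
  (false,[0,0,0,0,0,-1,0,0,0,0,0,1]),
  (false,[0,0,0,0,0,0,0,0,0,0,1,0,-1]),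
  (false,[0,0,0,0,0,0,0,0,0,0,0,0,1]),
  (false,[0,1,0,0,0,0,1,1,0,0,0,1]),
  (false,[0,1,0,0,0,0,-1,-1,0,0,0,-1]),
  (false,[0,0,1,0,0,0,1,0,0,0,0,1]),
  (false,[0,0,1,0,0,0,-1,0,0,0,0,-1]),
  (false,[0,0,0,0,0,0,0,0,0,0,1,-1]),
  (false,[0,0,0,0,0,0,0,0,0,0,0,1]),
  (false,[0,0,0,0,1,0,0,0,0,0,-2]),
  (false,[0,0,0,0,0,-1,0,0,0,0,1]),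
  (true,[0,0,0,0,0,1]),
  (true,[0,2,-1]),
  (false,[0,0,-2,0,0,0,0,0,0,0,1]),
  (true,[0,1,-1,-1]),
  (true,[0,1,0,-1]),
  (true,[0,0,0,1]),
  (true,[0,0,-2,0,1]),
  (true,[0,-2,0,0,1]),
  (true,[-1,0,1]),
  (true,[-1,1])]

noncomputable def t0 : Tre :=
  (.Q [0,0,2,0,-1,0,-1,0,0,0,2,-1] (.p false [-1,1,1] [1] (⟨0,[(9,0)]⟩,⟨0,[(17,0),(2,0)]⟩) .k 1 (⟨0,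
  []⟩,⟨0,[]⟩) .k .k) (.K ⟨0,[2,-1,-1],(-1),(-1),(⟨0,[(18,0),(2,0)]⟩,⟨0,[(10,0)]⟩),.k,(.r (-1) ⟨1,
  [(2,1),(23,1),(1,0),(0,0)]⟩ ⟨0,[(1,0),(25,0)]⟩),.k,(.r 0 ⟨1,[(2,2),(1,0),(11,0),(10,0)]⟩ ⟨1,[(1,
  1),(12,1),(2,1),(2,0),(3,1),(4,0)]⟩),.k,[⟨0,[(5,0),(14,0)]⟩,⟨0,[(0,0)]⟩,⟨0,[(14,0),(5,0),(6,0)]⟩,
  ⟨0,[(0,0),(1,0),(22,0),(1,0)]⟩]⟩) (.I [1,-1,0,0,0,0,0,-1] (.Q [0,0,0,-1,0,0,0,0,0,0,1] (.pp false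
  [-1,1]) (.R ⟨0,false,false,true,[-1,1,1],[0,0,1],[0,1,1,0,0,0,0,1],(⟨0,[(12,0)]⟩,⟨0,[(20,0),(2,
  0)]⟩),(⟨0,[(21,0)]⟩,⟨0,[(20,0)]⟩),⟨0,[(20,0)]⟩,.k,.k,.k,.k,.k,.k,⟨true,0,⟨1,[(18,0),(0,0)]⟩,⟨0,
  []⟩⟩,⟨false,0,⟨0,[(23,0),(0,0)]⟩,⟨1,[(22,0),(7,0)]⟩⟩,⟨true,0,⟨0,[(28,0)]⟩,⟨0,[(29,0)]⟩⟩,⟨false,0,
  ⟨0,[(0,0)]⟩,⟨1,[(22,0),(6,1),(1,0)]⟩⟩,⟨false,0,⟨0,[]⟩,⟨0,[]⟩⟩,⟨false,0,⟨0,[]⟩,⟨0,[]⟩⟩,[.a ⟨true,0,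
  ⟨0,[(16,0)]⟩,⟨2,[(0,0),(0,2),(1,0),(2,0),(12,1),(6,1)]⟩⟩ ⟨true,0,⟨0,[(16,0),(2,0)]⟩,⟨0,[(1,0)]⟩⟩
  ⟨false,0,⟨0,[(3,0),(22,0),(1,0)]⟩,⟨1,[(1,0),(0,0),(14,0),(13,0)]⟩⟩,.o ⟨false,1,⟨1,[(16,1),(5,0),
  (8,0)]⟩,⟨0,[(6,0)]⟩⟩,.o ⟨false,1,⟨2,[(2,1),(15,0),(3,0)]⟩,⟨2,[(0,1),(2,1),(2,1),(12,0),(6,0)]⟩⟩,
  .o ⟨false,1,⟨2,[(2,0),(15,1),(3,1)]⟩,⟨2,[(0,0),(2,0),(2,0),(12,1),(6,1)]⟩⟩]⟩) (.R ⟨0,false,false,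
  false,[1,0,-1],[0,1],[1,0,0,0,0,0,0,-1],(⟨0,[(20,0)]⟩,⟨0,[(21,0)]⟩),(⟨0,[(24,0)]⟩,⟨0,[(23,0)]⟩),
  ⟨0,[(12,0)]⟩,.k,.k,.k,.k,.k,.k,⟨true,0,⟨0,[(4,0)]⟩,⟨0,[(3,0)]⟩⟩,⟨false,1,⟨1,[(2,0),(4,0),(22,0)]⟩,
  ⟨0,[(19,0),(3,0),(0,0)]⟩⟩,⟨true,0,⟨0,[]⟩,⟨7,[(3,0),(13,0),(0,0),(6,2),(2,0)]⟩⟩,⟨false,1,⟨0,[(0,0),
  (15,0),(14,0)]⟩,⟨0,[(4,0),(14,0),(3,0),(0,0)]⟩⟩,⟨false,0,⟨0,[]⟩,⟨0,[]⟩⟩,⟨false,0,⟨0,[]⟩,⟨0,[]⟩⟩,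
  [.o ⟨false,0,⟨0,[(0,0)]⟩,⟨9,[(3,1),(13,1),(0,1),(9,11),(1,2),(0,6)]⟩⟩,.o ⟨false,1,⟨1,[(22,0),(6,
  1),(1,0)]⟩,⟨0,[(28,0)]⟩⟩,.a ⟨true,0,⟨1,[(19,1),(3,0),(0,0),(1,0)]⟩,⟨0,[(7,0)]⟩⟩ ⟨false,0,⟨0,[(1,
  0)]⟩,⟨1,[(16,1),(2,1),(10,0),(0,0)]⟩⟩ ⟨true,0,⟨0,[(0,0),(6,0)]⟩,⟨1,[(19,1),(3,0),(0,0),(1,0),(1,
  1)]⟩⟩,.o ⟨false,0,⟨0,[(19,0)]⟩,⟨5,[(2,1),(15,3),(3,0),(7,2)]⟩⟩]⟩)) (.Q [0,-1,0,0,1,0,1,1,0,0,-1,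
  1] (.p true [0,0,1] [1] (⟨0,[(20,0)]⟩,⟨0,[(19,0)]⟩) .k 1 (⟨0,[]⟩,⟨0,[]⟩) .k .k) (.I [0,0,-1,-1,1,
  0,0,2] (.Q [0,0,0,-1,0,0,-1,0,0,0,1,-1] (.p false [0,0,1] [1] (⟨0,[(22,0)]⟩,⟨0,[(21,0)]⟩) .k 1
  (⟨0,[]⟩,⟨0,[]⟩) .k .k) (.R ⟨0,false,false,false,[1,0,-1],[0,1],[1,0,0,0,0,0,0,-1],(⟨0,[(22,0)]⟩,
  ⟨0,[(23,0)]⟩),(⟨0,[(26,0)]⟩,⟨0,[(25,0)]⟩),⟨0,[(14,0)]⟩,.k,.k,.k,.k,.k,.k,⟨true,0,⟨0,[(6,0)]⟩,⟨0,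
  [(5,0)]⟩⟩,⟨false,1,⟨1,[(4,0),(4,0),(22,0)]⟩,⟨1,[(0,0),(4,0),(2,0),(16,0),(0,0)]⟩⟩,⟨true,0,⟨0,[]⟩,
  ⟨7,[(5,0),(13,0),(0,0),(6,2),(2,0)]⟩⟩,⟨false,1,⟨0,[(2,0),(28,0)]⟩,⟨4,[(0,3),(5,0),(1,3),(11,2),(7,
  0)]⟩⟩,⟨false,0,⟨0,[]⟩,⟨0,[]⟩⟩,⟨false,0,⟨0,[]⟩,⟨0,[]⟩⟩,[.e ⟨false,0,⟨0,[(6,0),(24,0)]⟩,⟨17,[(1,7),
  (3,7),(13,5),(0,5),(11,6),(0,2)]⟩⟩ ⟨false,1,⟨5,[(4,1),(15,3),(3,0),(6,5),(0,2)]⟩,⟨0,[(0,0)]⟩⟩,.o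
  ⟨false,1,⟨1,[(24,0),(6,1),(1,0)]⟩,⟨0,[(30,0)]⟩⟩,.a ⟨true,0,⟨1,[(0,0),(4,0),(2,0),(19,0)]⟩,⟨0,[(9,
  0)]⟩⟩ ⟨true,0,⟨1,[(6,0),(1,0),(11,0),(10,0)]⟩,⟨0,[(3,0)]⟩⟩ ⟨false,1,⟨5,[(4,1),(15,3),(3,0),(6,5),
  (1,2)]⟩,⟨0,[(0,0)]⟩⟩,.o ⟨false,0,⟨0,[(21,0)]⟩,⟨5,[(4,1),(15,3),(3,0),(7,2)]⟩⟩]⟩) (.I [0,-1,0,1,0,
  0,0,-1] (.S ⟨1,0,[0,0,0,0,0,0,0,1],[0,0,1],[1],(⟨0,[(24,0)]⟩,⟨0,[(23,0)]⟩),⟨0,[(16,0)]⟩,.k,.k,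
  ⟨true,0,⟨2,[(0,0),(6,0),(12,0),(0,0)]⟩,⟨0,[(4,0)]⟩⟩,⟨false,1,⟨8,[(2,0),(3,0),(13,2),(0,2),(11,1),
  (0,5)]⟩,⟨0,[]⟩⟩,⟨false,0,⟨0,[(0,0)]⟩,⟨6,[(2,3),(3,0),(13,1),(0,1),(9,3),(2,2)]⟩⟩,⟨true,0,⟨0,[(32,
  0)]⟩,⟨0,[(31,0)]⟩⟩,[.o ⟨false,1,⟨8,[(2,0),(0,2),(2,0),(12,2),(1,2),(3,2),(7,1)]⟩,⟨0,[(9,0)]⟩⟩,.o
  ⟨false,1,⟨0,[(3,0)]⟩,⟨0,[(20,0)]⟩⟩,.a ⟨true,0,⟨0,[(10,0)]⟩,⟨1,[(22,1),(3,0),(0,0),(1,0)]⟩⟩ ⟨true,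
  0,⟨0,[]⟩,⟨7,[(6,0),(13,0),(0,0),(6,2),(2,0)]⟩⟩ ⟨false,1,⟨5,[(2,1),(3,1),(26,0),(0,2)]⟩,⟨2,[(0,0),
  (6,0),(12,0),(0,0)]⟩⟩,.e ⟨false,1,⟨1,[(33,0),(0,0)]⟩,⟨1,[(21,0),(0,0)]⟩⟩ ⟨false,1,⟨0,[(0,0),(1,
  0)]⟩,⟨0,[(9,0),(11,0)]⟩⟩]⟩) (.Q [0,0,0,-1,0,0,0,0,0,0,1] (.pp false [-1,1]) (.R ⟨0,false,false,
  false,[1,0,-1],[0,1],[1,0,0,0,0,0,0,-1],(⟨0,[(24,0)]⟩,⟨0,[(25,0)]⟩),(⟨0,[(28,0)]⟩,⟨0,[(27,0)]⟩),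
  ⟨0,[(16,0)]⟩,.k,.k,.k,.k,.k,.k,⟨true,0,⟨0,[(8,0)]⟩,⟨0,[(7,0)]⟩⟩,⟨false,1,⟨1,[(6,0),(4,0),(22,0)]⟩,
  ⟨2,[(0,1),(6,1),(2,1),(12,0),(6,0)]⟩⟩,⟨true,0,⟨0,[]⟩,⟨7,[(7,0),(13,0),(0,0),(6,2),(2,0)]⟩⟩,⟨false,
  1,⟨0,[(4,0),(28,0)]⟩,⟨0,[(0,0),(9,0)]⟩⟩,⟨false,0,⟨0,[]⟩,⟨0,[]⟩⟩,⟨false,0,⟨0,[]⟩,⟨0,[]⟩⟩,[.a ⟨true,
  0,⟨0,[(33,0)]⟩,⟨0,[(0,0)]⟩⟩ ⟨false,0,⟨4,[(2,1),(5,1),(1,2),(11,0),(7,1)]⟩,⟨17,[(3,7),(3,7),(13,5),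
  (0,5),(11,6),(0,2)]⟩⟩ ⟨true,0,⟨0,[(2,0)]⟩,⟨0,[(0,0),(22,0)]⟩⟩,.o ⟨false,1,⟨1,[(26,0),(6,1),(1,
  0)]⟩,⟨0,[(32,0)]⟩⟩,.e ⟨true,0,⟨4,[(2,0),(5,0),(1,3),(11,2),(7,0)]⟩,⟨0,[(5,0)]⟩⟩ ⟨true,0,⟨0,[(2,
  0)]⟩,⟨3,[(0,2),(0,0),(3,0),(15,1),(1,1),(6,0)]⟩⟩,.o ⟨false,0,⟨0,[(23,0)]⟩,⟨5,[(6,1),(15,3),(3,0),
  (7,2)]⟩⟩]⟩) (.Q [0,-1,0,-1,0,0,-2,-2,0,0,2,-2] (.p false [0,0,1] [2,-1,-1] (⟨0,[(25,0)]⟩,⟨0,[(24,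
  0)]⟩) .k 2 (⟨0,[(24,0),(2,0)]⟩,⟨0,[(16,0)]⟩) .k (.r (-1) ⟨2,[(3,1),(3,1),(26,0)]⟩ ⟨4,[(2,1),(5,1),
  (1,7),(11,5),(7,1)]⟩)) (.R ⟨0,false,false,true,[1,0,-1],[-1,1,1],[1,1],(⟨0,[(25,0)]⟩,⟨0,[(26,
  0)]⟩),(⟨0,[(17,0)]⟩,⟨0,[(25,0),(2,0)]⟩),⟨0,[(17,0)]⟩,.k,.k,.k,(.r 0 ⟨5,[(0,0),(2,1),(5,6),(0,0),
  (0,1),(11,1)]⟩ ⟨2,[(4,0),(3,3),(26,1)]⟩),.k,.k,⟨true,0,⟨0,[(9,0)]⟩,⟨0,[(8,0)]⟩⟩,⟨false,1,⟨0,[(7,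
  0),(4,0)]⟩,⟨3,[(0,2),(5,2),(1,2),(15,1),(6,1)]⟩⟩,⟨true,0,⟨0,[(6,0)]⟩,⟨5,[(0,0),(2,1),(5,0),(0,0),
  (0,1),(11,1)]⟩⟩,⟨false,1,⟨7,[(2,0),(0,10),(0,3),(0,2),(2,1),(12,1),(5,0)]⟩,⟨0,[(0,0)]⟩⟩,⟨false,0,
  ⟨0,[]⟩,⟨0,[]⟩⟩,⟨false,0,⟨0,[]⟩,⟨0,[]⟩⟩,[.o ⟨false,0,⟨0,[(1,0),(0,0),(0,0)]⟩,⟨35,[(0,29),(3,9),(3,
  3),(14,23),(3,11),(7,10),(0,2)]⟩⟩,.o ⟨false,1,⟨0,[(7,0),(0,0)]⟩,⟨1,[(0,0),(32,0)]⟩⟩,.a ⟨true,0,⟨3,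
  [(0,0),(5,0),(1,0),(15,1),(6,1)]⟩,⟨0,[(12,0)]⟩⟩ ⟨false,0,⟨0,[]⟩,⟨35,[(0,5),(3,1),(3,7),(14,11),(3,
  5),(7,12),(0,14)]⟩⟩ ⟨true,0,⟨0,[(2,0),(0,1)]⟩,⟨0,[(0,0),(5,0)]⟩⟩,.o ⟨false,0,⟨0,[(24,0)]⟩,⟨5,[(7,
  1),(15,3),(3,0),(7,2)]⟩⟩]⟩) (.I [1,1,-1,-1,0,0,0,1] (.Q [0,-1,0,0,0,0,-2,-2,0,0,2,-2] (.p false
  [0,0,1] [2,-1,-1] (⟨0,[(27,0)]⟩,⟨0,[(26,0)]⟩) .k 2 (⟨0,[(26,0),(2,0)]⟩,⟨0,[(18,0)]⟩) .k (.r (-1)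
  ⟨2,[(5,1),(3,1),(26,0)]⟩ ⟨4,[(4,1),(5,1),(1,7),(11,5),(7,1)]⟩)) (.R ⟨1,false,false,false,[0,0,1],
  [2,-1,-1],[0,0,1],(⟨0,[(28,0)]⟩,⟨0,[(27,0)]⟩),(⟨0,[(27,0),(2,0)]⟩,⟨0,[(19,0)]⟩),⟨0,[(20,0)]⟩,.k,
  .k,.k,(.r (-1) ⟨2,[(6,0),(3,3),(26,1)]⟩ ⟨5,[(0,0),(4,1),(5,7),(1,0),(10,0),(0,1)]⟩),.k,.k,⟨true,0,
  ⟨0,[(10,0)]⟩,⟨0,[(11,0)]⟩⟩,⟨false,0,⟨2,[(0,1),(0,1),(8,1),(15,1),(6,1)]⟩,⟨0,[(9,0),(15,0)]⟩⟩,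
  ⟨true,0,⟨0,[(13,0),(11,0)]⟩,⟨2,[(1,0),(1,0),(4,1),(24,0)]⟩⟩,⟨true,0,⟨0,[(0,0),(34,0)]⟩,⟨0,[(2,
  0)]⟩⟩,⟨true,0,⟨7,[(0,2),(4,5),(4,1),(2,0),(10,2),(0,3)]⟩,⟨0,[(1,0)]⟩⟩,⟨false,0,⟨0,[(0,0)]⟩,⟨1,[(2,
  0),(4,1),(27,0)]⟩⟩,[.o ⟨false,0,⟨3,[(0,1),(3,1),(6,1),(13,0),(0,0)]⟩,⟨0,[(9,0),(0,0)]⟩⟩,.o ⟨false,
  1,⟨11,[(0,7),(5,1),(18,3),(3,1),(5,9),(1,0),(0,6)]⟩,⟨1,[(2,0),(0,1),(31,0)]⟩⟩,.e ⟨true,0,⟨1,[(25,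
  0),(0,0)]⟩,⟨10,[(1,0),(1,1),(7,0),(20,4),(0,1)]⟩⟩ ⟨true,0,⟨0,[(0,0),(3,0)]⟩,⟨1,[(2,0),(2,1),(29,
  0)]⟩⟩,.a ⟨true,0,⟨0,[(25,0)]⟩,⟨0,[(26,0),(6,0)]⟩⟩ ⟨false,1,⟨14,[(0,2),(5,1),(3,1),(14,5),(3,2),(7,
  3),(0,5)]⟩,⟨0,[]⟩⟩ ⟨true,0,⟨0,[(0,0),(0,0)]⟩,⟨1,[(2,0),(2,1),(19,0),(0,0),(8,0)]⟩⟩]⟩) (.Q [0,0,2,
  0,0,0,1,0,0,0,-1,1] (.p true [0,0,1] [1] (⟨0,[(28,0)]⟩,⟨0,[(27,0)]⟩) .k 1 (⟨0,[]⟩,⟨0,[]⟩) .k .k)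
  (.K ⟨0,[1,1,-1],0,0,(⟨0,[(28,0),(3,0)]⟩,⟨0,[(21,0)]⟩),.k,.k,(.r 0 ⟨2,[(11,0),(2,3),(11,3),(10,
  4)]⟩ ⟨0,[(7,0),(4,0)]⟩),(.r 0 ⟨2,[(6,0),(7,5),(11,4),(7,0),(2,1)]⟩ ⟨0,[(7,0)]⟩),.k,[⟨0,[(0,0)]⟩,
  ⟨1,[(27,1),(3,0),(0,0),(1,0)]⟩,⟨4,[(0,0),(0,1),(3,2),(6,1)]⟩,⟨0,[(25,0),(5,0),(0,0),(4,0)]⟩]⟩)
  (.Q [0,0,0,0,0,-2,0,0,0,0,0,1] (.p true [0,0,1] [] (⟨0,[(29,0)]⟩,⟨0,[(28,0)]⟩) .k 0 (⟨0,[]⟩,⟨0,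
  []⟩) .k .k) (.I [1,1,-2,-2,0,0,0,1] (.Q [0,-1,0,1,0,0,-2,-2,0,0,2,-2] (.p false [0,0,1] [2,-1,-1]
  (⟨0,[(31,0)]⟩,⟨0,[(30,0)]⟩) .k 2 (⟨0,[(30,0),(2,0)]⟩,⟨0,[(22,0)]⟩) .k (.r (-1) ⟨2,[(9,1),(3,1),
  (26,0)]⟩ ⟨4,[(8,1),(5,1),(1,7),(11,5),(7,1)]⟩)) (.R ⟨1,false,false,false,[0,-1,1],[2,-1,-1],[0,0,
  1],(⟨0,[(24,0)]⟩,⟨0,[(31,0),(3,0)]⟩),(⟨0,[(31,0),(2,0)]⟩,⟨0,[(23,0)]⟩),⟨0,[(2,0)]⟩,.k,.k,(.r (-1)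
  ⟨0,[(10,0),(4,0)]⟩ ⟨10,[(0,4),(8,9),(4,6),(2,2),(10,4),(0,7)]⟩),.k,(.r (-1) ⟨0,[(10,0)]⟩ ⟨5,[(0,
  1),(8,3),(6,0),(0,5),(10,0),(0,6)]⟩),.k,⟨true,0,⟨0,[(14,0)]⟩,⟨0,[(15,0)]⟩⟩,⟨false,0,⟨3,[(0,2),(0,
  2),(1,1),(10,2)]⟩,⟨2,[(13,1),(15,3),(3,0)]⟩⟩,⟨true,0,⟨10,[(0,1),(8,3),(4,4),(2,9),(10,1),(0,11)]⟩,
  ⟨10,[(1,5),(1,3),(1,0),(0,1),(29,0)]⟩⟩,⟨true,0,⟨0,[(0,0),(38,0)]⟩,⟨0,[(4,0)]⟩⟩,⟨true,0,⟨10,[(0,4),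
  (8,9),(4,6),(2,2),(10,4),(0,7)]⟩,⟨0,[(1,0)]⟩⟩,⟨false,0,⟨0,[(0,0)]⟩,⟨0,[(4,0),(34,0),(2,0)]⟩⟩,[.o
  ⟨false,0,⟨3,[(0,1),(0,1),(13,1),(13,2),(0,2)]⟩,⟨0,[(13,0),(0,0)]⟩⟩,.o ⟨false,1,⟨1,[(0,0),(38,2),
  (2,1)]⟩,⟨2,[(4,0),(1,0),(0,1),(20,0)]⟩⟩,.e ⟨true,0,⟨1,[(29,0),(0,0)]⟩,⟨21,[(1,0),(1,3),(2,1),(9,
  4),(19,6)]⟩⟩ ⟨true,0,⟨1,[(0,1),(0,1),(27,0),(0,0)]⟩,⟨4,[(4,2),(2,0),(1,2),(4,0),(13,1),(0,2)]⟩⟩,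
  .a ⟨true,0,⟨1,[(29,2),(0,0)]⟩,⟨0,[(3,0)]⟩⟩ ⟨false,1,⟨7,[(0,1),(9,1),(18,3),(3,1),(7,0),(0,2)]⟩,⟨0,
  []⟩⟩ ⟨true,0,⟨0,[(0,0),(0,0)]⟩,⟨4,[(4,2),(2,3),(6,0),(13,1),(0,6),(0,0)]⟩⟩]⟩) (.Q [0,0,0,0,0,0,0,
  0,0,0,0,1,-1] (.ed true [1,0,-1,0,1] .k) (.R ⟨0,false,false,false,[1,0,-1],[1,0,-1,0,1],[0,1],(⟨0,
  [(32,0)]⟩,⟨0,[(33,0)]⟩),(⟨0,[(27,0),(4,0)]⟩,⟨0,[(0,0)]⟩),⟨0,[(24,0)]⟩,.k,.k,.k,.k,.k,.k,⟨false,1,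
  ⟨10,[(4,1),(1,0),(0,0),(5,7),(6,10),(2,10),(13,5)]⟩,⟨4,[(10,1),(5,1),(1,2),(2,4),(0,4),(7,0),(7,
  1)]⟩⟩,⟨true,0,⟨0,[(23,0)]⟩,⟨0,[(22,0)]⟩⟩,⟨true,0,⟨0,[(13,0)]⟩,⟨4,[(10,0),(5,0),(1,3),(11,2),(7,
  0)]⟩⟩,⟨false,0,⟨0,[(21,0)]⟩,⟨7,[(15,0),(4,7),(8,0),(0,0),(6,2),(2,0)]⟩⟩,⟨false,0,⟨0,[]⟩,⟨0,[]⟩⟩,
  ⟨false,0,⟨0,[]⟩,⟨0,[]⟩⟩,[.o ⟨false,0,⟨0,[(21,0),(7,0)]⟩,⟨15,[(5,7),(9,0),(4,15),(8,0),(0,0),(6,2),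
  (2,0)]⟩⟩,.o ⟨false,0,⟨0,[(18,0),(2,0)]⟩,⟨15,[(5,7),(9,2),(4,15),(8,2),(0,2),(6,8),(2,2)]⟩⟩,.a
  ⟨true,0,⟨2,[(4,0),(26,1),(3,1),(0,1)]⟩,⟨0,[(19,0)]⟩⟩ ⟨true,0,⟨7,[(15,0),(13,0),(0,0),(6,2),(2,
  0)]⟩,⟨0,[]⟩⟩ ⟨false,0,⟨4,[(10,0),(5,0),(1,3),(2,4),(8,2),(7,0)]⟩,⟨0,[(13,0),(6,0)]⟩⟩,.o ⟨false,0,
  ⟨0,[(31,0)]⟩,⟨5,[(14,1),(15,3),(3,0),(7,2)]⟩⟩]⟩) (.R ⟨0,false,false,true,[1,0,0,0,-1],[1,0,1,0,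
  -1],[0,1],(⟨0,[(26,0)]⟩,⟨0,[(27,0)]⟩),(⟨0,[(26,0),(6,0)]⟩,⟨0,[(0,0)]⟩),⟨0,[(0,0),(23,0)]⟩,.k,.k,
  .k,.k,.k,.k,⟨false,0,⟨10,[(2,0),(5,3),(7,1),(0,9),(3,10),(0,10),(15,3)]⟩,⟨0,[(13,0),(6,0),(2,
  0)]⟩⟩,⟨true,0,⟨0,[(19,0)]⟩,⟨0,[(31,0)]⟩⟩,⟨false,0,⟨21,[(2,0),(1,3),(2,1),(9,4),(3,21),(0,21),(14,
  6)]⟩,⟨0,[(20,0),(2,0)]⟩⟩,⟨true,0,⟨0,[(28,0)]⟩,⟨0,[(18,0)]⟩⟩,⟨false,0,⟨0,[]⟩,⟨0,[]⟩⟩,⟨false,0,⟨0,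
  []⟩,⟨0,[]⟩⟩,[.o ⟨false,1,⟨5,[(15,0),(4,5),(7,4),(1,0),(6,2),(2,0)]⟩,⟨0,[(8,0),(7,0),(4,0),(9,
  0)]⟩⟩,.o ⟨false,1,⟨0,[(20,0),(7,0)]⟩,⟨2,[(1,0),(6,0),(9,2),(2,2),(7,1)]⟩⟩,.a ⟨true,0,⟨1,[(22,1),
  (12,0),(0,0),(1,0)]⟩,⟨0,[(23,0)]⟩⟩ ⟨true,0,⟨7,[(15,0),(13,0),(0,0),(6,2),(2,0)]⟩,⟨0,[]⟩⟩ ⟨false,1,
  ⟨0,[(20,0),(2,0),(4,0)]⟩,⟨2,[(4,0),(3,0),(7,0),(1,1),(2,2),(0,2)]⟩⟩,.o ⟨false,0,⟨0,[(22,0)]⟩,⟨1,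
  [(23,1),(10,0),(7,0)]⟩⟩]⟩))) (.S ⟨1,0,[0,0,-1,-1,0,0,0,1],[0,-1,1],[0,0,1],(⟨0,[(23,0)]⟩,⟨0,[(30,
  0),(3,0)]⟩),⟨0,[(1,0)]⟩,.k,(.r (-1) ⟨0,[(9,0),(4,0)]⟩ ⟨13,[(0,12),(12,1),(13,2),(0,2),(6,4)]⟩),
  ⟨true,0,⟨3,[(0,1),(26,1),(0,2),(0,0)]⟩,⟨3,[(2,1),(0,0),(0,2),(9,0)]⟩⟩,⟨false,1,⟨8,[(9,0),(3,0),
  (13,2),(0,2),(11,1),(0,5)]⟩,⟨0,[]⟩⟩,⟨false,0,⟨0,[(0,0)]⟩,⟨0,[(9,0),(4,0)]⟩⟩,⟨true,0,⟨0,[(39,0)]⟩,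
  ⟨0,[(38,0)]⟩⟩,[.o ⟨false,1,⟨0,[(10,0),(27,0)]⟩,⟨2,[(0,0),(1,0),(3,0),(9,0),(10,0)]⟩⟩,.o ⟨false,1,
  ⟨3,[(3,1),(3,1),(6,1),(13,0),(0,0),(11,3)]⟩,⟨0,[(27,0),(11,0)]⟩⟩,.a ⟨true,0,⟨0,[(28,0)]⟩,⟨2,[(2,
  1),(26,0),(3,0),(0,0)]⟩⟩ ⟨true,0,⟨1,[(28,0),(0,0)]⟩,⟨8,[(2,1),(0,0),(11,1),(19,2)]⟩⟩ ⟨false,1,⟨0,
  [(4,0),(36,0)]⟩,⟨3,[(0,1),(14,0),(11,0),(0,0)]⟩⟩,.e ⟨false,1,⟨8,[(9,0),(3,0),(13,2),(0,2),(11,1),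
  (0,5)]⟩,⟨0,[]⟩⟩ ⟨false,1,⟨3,[(2,1),(0,0),(0,2),(9,0),(26,3)]⟩,⟨3,[(0,1),(26,1),(0,2),(0,0)]⟩⟩]⟩))
  (.Q [0,0,0,0,0,0,0,0,0,0,0,1,-1] (.ed true [1,0,-1,0,1] .k) (.R ⟨0,false,false,false,[1,0,-1],[1,
  0,-1,0,1],[0,1],(⟨0,[(30,0)]⟩,⟨0,[(31,0)]⟩),(⟨0,[(25,0),(4,0)]⟩,⟨0,[(0,0)]⟩),⟨0,[(22,0)]⟩,.k,.k,
  .k,.k,.k,.k,⟨false,1,⟨10,[(2,1),(1,0),(0,0),(5,7),(6,10),(2,10),(13,5)]⟩,⟨4,[(8,1),(5,1),(1,2),(2,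
  4),(0,4),(7,0),(7,1)]⟩⟩,⟨true,0,⟨0,[(21,0)]⟩,⟨0,[(20,0)]⟩⟩,⟨true,0,⟨0,[(11,0)]⟩,⟨4,[(8,0),(5,0),
  (1,3),(11,2),(7,0)]⟩⟩,⟨false,0,⟨0,[(19,0)]⟩,⟨7,[(13,0),(4,7),(8,0),(0,0),(6,2),(2,0)]⟩⟩,⟨false,0,
  ⟨0,[]⟩,⟨0,[]⟩⟩,⟨false,0,⟨0,[]⟩,⟨0,[]⟩⟩,[.o ⟨false,0,⟨0,[(19,0),(7,0)]⟩,⟨15,[(3,7),(9,0),(4,15),(8,
  0),(0,0),(6,2),(2,0)]⟩⟩,.o ⟨false,0,⟨0,[(16,0),(2,0)]⟩,⟨15,[(3,7),(9,2),(4,15),(8,2),(0,2),(6,8),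
  (2,2)]⟩⟩,.a ⟨true,0,⟨2,[(1,0),(0,0),(26,1),(1,0),(1,1)]⟩,⟨0,[(17,0)]⟩⟩ ⟨true,0,⟨7,[(13,0),(13,0),
  (0,0),(6,2),(2,0)]⟩,⟨0,[]⟩⟩ ⟨false,0,⟨4,[(8,0),(5,0),(1,3),(2,4),(8,2),(7,0)]⟩,⟨0,[(11,0),(6,
  0)]⟩⟩,.o ⟨false,0,⟨0,[(29,0)]⟩,⟨5,[(12,1),(15,3),(3,0),(7,2)]⟩⟩]⟩) (.R ⟨0,false,false,true,[1,0,0,
  0,-1],[1,0,1,0,-1],[0,1],(⟨0,[(24,0)]⟩,⟨0,[(25,0)]⟩),(⟨0,[(24,0),(6,0)]⟩,⟨0,[(0,0)]⟩),⟨0,[(0,0),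
  (21,0)]⟩,.k,.k,.k,.k,.k,.k,⟨false,0,⟨11,[(2,1),(0,0),(2,2),(7,2),(0,10),(3,11),(0,11),(15,2)]⟩,⟨0,
  [(11,0),(6,0),(2,0)]⟩⟩,⟨true,0,⟨0,[(17,0)]⟩,⟨0,[(29,0)]⟩⟩,⟨false,0,⟨8,[(2,1),(0,0),(11,1),(3,8),
  (0,8),(14,2)]⟩,⟨0,[(18,0),(2,0)]⟩⟩,⟨true,0,⟨0,[(26,0)]⟩,⟨0,[(16,0)]⟩⟩,⟨false,0,⟨0,[]⟩,⟨0,[]⟩⟩,
  ⟨false,0,⟨0,[]⟩,⟨0,[]⟩⟩,[.o ⟨false,1,⟨5,[(13,0),(4,5),(7,4),(1,0),(6,2),(2,0)]⟩,⟨0,[(6,0),(7,0),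
  (4,0),(9,0)]⟩⟩,.o ⟨false,1,⟨0,[(18,0),(7,0)]⟩,⟨1,[(3,0),(12,2),(2,1),(7,0)]⟩⟩,.a ⟨true,0,⟨3,[(1,
  0),(18,3),(10,0),(1,1),(2,1)]⟩,⟨0,[(21,0)]⟩⟩ ⟨true,0,⟨7,[(13,0),(13,0),(0,0),(6,2),(2,0)]⟩,⟨0,
  []⟩⟩ ⟨false,1,⟨0,[(18,0),(2,0),(4,0)]⟩,⟨2,[(2,0),(3,0),(7,0),(1,1),(2,2),(0,2)]⟩⟩,.o ⟨false,0,⟨0,
  [(20,0)]⟩,⟨1,[(21,1),(10,0),(7,0)]⟩⟩]⟩))))) (.S ⟨1,0,[0,0,0,0,0,0,0,1],[0,0,1],[1,1,0,-1,0,0,0,1],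
  (⟨0,[(27,0)]⟩,⟨0,[(26,0)]⟩),⟨0,[(19,0)]⟩,.k,.k,⟨true,0,⟨0,[(34,0)]⟩,⟨0,[(35,0)]⟩⟩,⟨false,1,⟨8,[(5,
  0),(3,0),(13,2),(0,2),(11,1),(0,5)]⟩,⟨0,[]⟩⟩,⟨false,0,⟨0,[]⟩,⟨8,[(5,0),(3,0),(13,2),(0,2),(11,1),
  (0,5)]⟩⟩,⟨true,0,⟨0,[(35,0)]⟩,⟨0,[(34,0)]⟩⟩,[.o ⟨false,1,⟨8,[(5,0),(0,2),(2,0),(12,2),(1,2),(3,2),
  (7,1)]⟩,⟨0,[(12,0)]⟩⟩,.o ⟨false,1,⟨0,[(6,0)]⟩,⟨0,[(23,0)]⟩⟩,.a ⟨true,0,⟨0,[(13,0)]⟩,⟨1,[(25,1),(3,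
  0),(0,0),(1,0)]⟩⟩ ⟨true,0,⟨0,[(3,0)]⟩,⟨1,[(0,0),(10,0),(23,0)]⟩⟩ ⟨false,1,⟨5,[(5,1),(3,1),(26,0),
  (0,2)]⟩,⟨5,[(0,1),(9,1),(0,0),(11,0),(0,0)]⟩⟩,.e ⟨false,1,⟨3,[(5,1),(28,1),(1,0),(0,0)]⟩,⟨0,[(0,
  0)]⟩⟩ ⟨false,1,⟨3,[(2,0),(2,1),(26,0),(2,0),(1,1)]⟩,⟨0,[(12,0),(11,0)]⟩⟩]⟩)))))) (.S ⟨1,0,[0,0,0,
  0,0,0,0,1],[0,0,1],[1],(⟨0,[(22,0)]⟩,⟨0,[(21,0)]⟩),⟨0,[(14,0)]⟩,.k,.k,⟨true,0,⟨4,[(0,0),(4,0),(0,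
  0),(11,0),(0,0),(12,0)]⟩,⟨0,[(2,0)]⟩⟩,⟨false,1,⟨9,[(4,1),(13,1),(0,1),(9,1),(1,2),(0,6)]⟩,⟨0,[]⟩⟩,
  ⟨false,0,⟨0,[(0,0),(0,0),(18,0),(6,0)]⟩,⟨0,[(2,0),(26,0),(2,0)]⟩⟩,⟨true,0,⟨0,[(30,0)]⟩,⟨0,[(29,
  0)]⟩⟩,[.o ⟨false,1,⟨11,[(1,5),(2,1),(12,3),(1,1),(3,2),(5,1),(1,2)]⟩,⟨0,[(7,0)]⟩⟩,.o ⟨false,1,⟨0,
  [(1,0)]⟩,⟨0,[(18,0)]⟩⟩,.a ⟨true,0,⟨0,[(8,0)]⟩,⟨1,[(20,1),(3,0),(0,0),(1,0)]⟩⟩ ⟨true,0,⟨0,[]⟩,⟨7,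
  [(4,0),(13,0),(0,0),(6,2),(2,0)]⟩⟩ ⟨false,1,⟨0,[(2,0),(29,0)]⟩,⟨4,[(0,0),(4,0),(0,0),(11,0),(0,0),
  (12,0)]⟩⟩,.e ⟨false,1,⟨1,[(31,0),(0,0)]⟩,⟨1,[(19,0),(0,0)]⟩⟩ ⟨false,1,⟨0,[(1,0),(18,0),(6,0)]⟩,⟨0,
  [(7,0),(11,0)]⟩⟩]⟩)) (.Q [0,-1,0,-1,0,0,-1,-1,0,0,1,-1] (.p false [0,0,1] [1] (⟨0,[(21,0)]⟩,⟨0,
  [(20,0)]⟩) .k 1 (⟨0,[]⟩,⟨0,[]⟩) .k .k) (.R ⟨0,false,false,true,[1,0,-1],[0,1],[1,1,1,1],(⟨0,[(21,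
  0)]⟩,⟨0,[(22,0)]⟩),(⟨0,[(25,0)]⟩,⟨0,[(24,0)]⟩),⟨0,[(13,0)]⟩,.k,.k,.k,.k,.k,.k,⟨true,0,⟨0,[]⟩,⟨1,
  [(19,0),(0,0)]⟩⟩,⟨false,1,⟨1,[(3,0),(4,0),(22,0)]⟩,⟨4,[(0,3),(1,0),(1,3),(13,0),(7,0),(0,0)]⟩⟩,
  ⟨true,0,⟨2,[(2,0),(1,1),(21,0),(3,0)]⟩,⟨0,[(5,0)]⟩⟩,⟨false,1,⟨7,[(3,3),(0,5),(12,1),(1,1),(10,1),
  (0,2),(0,0)]⟩,⟨0,[(0,0)]⟩⟩,⟨false,0,⟨0,[]⟩,⟨0,[]⟩⟩,⟨false,0,⟨0,[]⟩,⟨0,[]⟩⟩,[.o ⟨false,0,⟨0,[(1,0),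
  (1,0),(0,0)]⟩,⟨0,[(29,0),(2,0)]⟩⟩,.e ⟨false,0,⟨0,[(30,0)]⟩,⟨1,[(29,1),(1,0),(0,0)]⟩⟩ ⟨false,1,⟨5,
  [(3,1),(15,3),(3,0),(6,5),(0,2)]⟩,⟨0,[(0,0),(1,0)]⟩⟩,.a ⟨true,0,⟨4,[(0,1),(1,0),(1,1),(13,0),(1,
  1),(6,2)]⟩,⟨0,[(8,0)]⟩⟩ ⟨false,0,⟨2,[(4,0),(2,0),(11,0),(10,1)]⟩,⟨0,[(28,0),(3,0)]⟩⟩ ⟨true,0,⟨0,
  [(1,0),(1,0),(0,0),(3,0)]⟩,⟨0,[(0,0),(1,0)]⟩⟩,.o ⟨false,0,⟨0,[(20,0)]⟩,⟨5,[(3,1),(15,3),(3,0),(7,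
  2)]⟩⟩]⟩) (.Q [0,0,0,-1,0,0,-1,0,0,0,1,-1] (.p false [0,0,1] [1] (⟨0,[(22,0)]⟩,⟨0,[(21,0)]⟩) .k 1
  (⟨0,[]⟩,⟨0,[]⟩) .k .k) (.R ⟨0,false,false,false,[1,0,-1],[0,1],[1,0,0,0,0,0,0,-1],(⟨0,[(22,0)]⟩,
  ⟨0,[(23,0)]⟩),(⟨0,[(26,0)]⟩,⟨0,[(25,0)]⟩),⟨0,[(14,0)]⟩,.k,.k,.k,.k,.k,.k,⟨true,0,⟨0,[(6,0)]⟩,⟨0,
  [(5,0)]⟩⟩,⟨false,1,⟨1,[(4,0),(4,0),(22,0)]⟩,⟨3,[(0,1),(1,0),(2,1),(13,0),(5,0),(0,0),(6,0)]⟩⟩,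
  ⟨true,0,⟨0,[]⟩,⟨7,[(5,0),(13,0),(0,0),(6,2),(2,0)]⟩⟩,⟨false,1,⟨0,[(1,0),(31,0)]⟩,⟨2,[(0,1),(1,0),
  (3,0),(12,0),(0,0),(12,0)]⟩⟩,⟨false,0,⟨0,[]⟩,⟨0,[]⟩⟩,⟨false,0,⟨0,[]⟩,⟨0,[]⟩⟩,[.e ⟨false,0,⟨0,[(6,
  0),(24,0)]⟩,⟨1,[(3,0),(1,0),(24,0),(1,0),(0,0)]⟩⟩ ⟨false,1,⟨5,[(4,1),(15,3),(3,0),(6,5),(0,2)]⟩,
  ⟨0,[(0,0)]⟩⟩,.o ⟨false,1,⟨1,[(24,0),(6,1),(1,0)]⟩,⟨0,[(30,0)]⟩⟩,.a ⟨true,0,⟨1,[(0,0),(4,0),(2,0),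
  (19,0)]⟩,⟨0,[(9,0)]⟩⟩ ⟨true,0,⟨1,[(6,0),(1,0),(11,0),(10,0)]⟩,⟨0,[(3,0)]⟩⟩ ⟨false,1,⟨5,[(4,1),(15,
  3),(3,0),(6,5),(1,2)]⟩,⟨0,[(0,0)]⟩⟩,.o ⟨false,0,⟨0,[(21,0)]⟩,⟨5,[(4,1),(15,3),(3,0),(7,2)]⟩⟩]⟩)
  (.I [1,-1,1,0,0,0,0,-1] (.S ⟨1,0,[0,1,0,0,0,0,0,1],[0,0,1],[1,1],(⟨0,[(24,0)]⟩,⟨0,[(23,0)]⟩),⟨0,
  [(16,0)]⟩,.k,.k,⟨false,0,⟨1,[(0,0),(7,0)]⟩,⟨0,[(4,0),(29,0)]⟩⟩,⟨true,0,⟨7,[(6,0),(13,0),(0,0),(6,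
  2),(2,0)]⟩,⟨0,[]⟩⟩,⟨true,(-1),⟨0,[(1,0),(1,0)]⟩,⟨0,[(4,0),(26,0),(2,0)]⟩⟩,⟨false,0,⟨0,[(32,0)]⟩,
  ⟨0,[(31,0),(2,0)]⟩⟩,[.a ⟨true,0,⟨0,[(19,0)]⟩,⟨0,[(3,0),(30,0)]⟩⟩ ⟨false,0,⟨5,[(3,0),(0,0),(0,0),
  (22,1),(0,0)]⟩,⟨9,[(6,1),(13,1),(0,1),(9,1),(1,2),(0,6)]⟩⟩ ⟨true,0,⟨0,[(4,0)]⟩,⟨0,[(0,0)]⟩⟩,.o
  ⟨false,1,⟨1,[(19,1),(5,0),(8,0)]⟩,⟨0,[(9,0)]⟩⟩,.a ⟨true,0,⟨0,[(10,0)]⟩,⟨1,[(22,1),(3,0),(0,0),(1,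
  0)]⟩⟩ ⟨false,0,⟨0,[]⟩,⟨9,[(6,1),(13,1),(0,1),(9,1),(1,2),(0,6)]⟩⟩ ⟨true,0,⟨0,[(4,0)]⟩,⟨1,[(0,0),
  (7,0)]⟩⟩,.a ⟨true,0,⟨0,[(21,0)]⟩,⟨0,[(22,0),(6,0)]⟩⟩ ⟨true,0,⟨5,[(3,0),(0,0),(0,0),(22,1),(0,0)]⟩,
  ⟨1,[(21,0),(0,0)]⟩⟩ ⟨false,1,⟨1,[(4,1),(28,0),(0,0)]⟩,⟨0,[(0,0)]⟩⟩]⟩) (.S ⟨1,0,[0,1,0,0,0,0,0,1],
  [0,0,1],[1,1],(⟨0,[(24,0)]⟩,⟨0,[(23,0)]⟩),⟨0,[(16,0)]⟩,.k,.k,⟨false,0,⟨4,[(1,0),(1,0),(3,0),(0,0),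
  (0,1),(11,1),(12,0)]⟩,⟨0,[(4,0),(29,0)]⟩⟩,⟨true,0,⟨7,[(6,0),(13,0),(0,0),(6,2),(2,0)]⟩,⟨0,[]⟩⟩,
  ⟨true,(-1),⟨0,[(1,0),(1,0)]⟩,⟨0,[(4,0),(26,0),(2,0)]⟩⟩,⟨false,0,⟨0,[(32,0)]⟩,⟨0,[(31,0),(2,0)]⟩⟩,
  [.e ⟨false,0,⟨7,[(0,0),(2,0),(1,0),(22,2),(0,0)]⟩,⟨9,[(6,1),(13,1),(0,1),(9,1),(1,2),(0,6)]⟩⟩
  ⟨false,0,⟨0,[(0,0)]⟩,⟨1,[(8,0),(11,0),(0,0),(12,1)]⟩⟩,.o ⟨false,1,⟨1,[(19,1),(5,0),(8,0)]⟩,⟨0,[(9,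
  0)]⟩⟩,.a ⟨true,0,⟨0,[(10,0)]⟩,⟨1,[(22,1),(3,0),(0,0),(1,0)]⟩⟩ ⟨false,0,⟨0,[]⟩,⟨9,[(6,1),(13,1),(0,
  1),(9,1),(1,2),(0,6)]⟩⟩ ⟨true,0,⟨0,[(4,0)]⟩,⟨4,[(1,0),(1,0),(3,0),(0,0),(0,1),(11,1),(12,0)]⟩⟩,.e
  ⟨true,0,⟨7,[(0,0),(2,0),(1,0),(22,2),(0,0)]⟩,⟨1,[(21,0),(0,0)]⟩⟩ ⟨true,0,⟨0,[(0,0)]⟩,⟨0,[(9,0),
  (11,0)]⟩⟩]⟩)))))))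

theorem ok0 : chk4 K KFs t0 base = true := by decide +kernel

open Helper25.KW Helper55.KE in
theorem closed {p a b c J l q : ℤ} {D dl : ℝ} {Cl : ℤ → ℤ → ℤ → ℤ → ℝ → Prop}
    (W : World p a b c J 1 l q D dl Cl) (g : G0 p a b c J D)
    {N X R : ℤ} {I : ℝ} (hk : KCl p l Cl N X R I) (kz : KF a b D (X + (1 : ℤ) * I) (X + (1 : ℤ) * I + R) I)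
    {Nw Xw Rw : ℤ} {Iw : ℝ} (hw : KCl p l Cl Nw Xw Rw Iw) (hne : N ≠ Nw)
    (hU : KU p a b l 1 Cl (fun _ _ _ => True) N)
    (hN0 : KNo p a b l 1 Cl (fun X R I => Zx 1 X R I))
    (hW0 : StN p b l 1 Cl (fun X' R' I' => 0 < ((X' : ℝ) + (1 : ℤ) * I') ∧ 0 < (-1) * I' + (Iw)) N Nw)
    (h0 : 1 ≤ (c : ℝ))
    (h1 : 1 ≤ (a : ℝ) - (b : ℝ) - (c : ℝ))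
    (h2 : 0 < -2 * (b : ℝ) + D)
    (h3 : 1 ≤ 2 * (a : ℝ) - (b : ℝ))
    (h4 : 0 < Iw)
    (h5 : 0 < D - Iw)
    (h6 : 0 < -(J : ℝ) + I)
    (h7 : 0 < (J : ℝ) - D + I)
    (h8 : 0 < (Xw : ℝ) + Iw)
    (h9 : 0 < (b : ℝ) - (Xw : ℝ) - Iw)
    (h10 : 0 < -(a : ℝ) + (Rw : ℝ) + (Xw : ℝ) + Iw)
    (h11 : 0 < -(a : ℝ) + (p : ℝ) - (Rw : ℝ) - (Xw : ℝ) - Iw)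
    (h12 : 0 < (X : ℝ) + I)
    (h13 : 0 < -(X : ℝ) - (R : ℝ) - I)
    (h14 : 1 ≤ (a : ℝ) - (b : ℝ) - (R : ℝ))
    (h15 : 1 ≤ -(b : ℝ) - (c : ℝ) - (R : ℝ))
    (h16 : 1 ≤ 2 * (b : ℝ) + (c : ℝ) + (R : ℝ)) : False := by
  have g1 := g.a2
  have g2 := g.b2
  have g3 := g.pa
  have g4 := g.pb
  have g5 := g.J1
  have g6 := g.JD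
  have g7 := g.D2
  have g8 := g.ca
  have g9 := g.ca'
  have k1 := kz.I0
  have k2 := kz.ID
  have k3 := kz.z1
  have k4 := kz.z2
  have k5 := kz.s1
  have k6 := kz.s2
  have hkf : ∀ kf ∈ KFs, KOk4 p l Cl 1 (xv [1, a, b, c, p, J, X, R, Rw, Xw] [D, I, Iw]) N Nw kf := by
    have hA1 : evg (xv [1, a, b, c, p, J, X, R, Rw, Xw] [D, I, Iw]) [0, 1] = a := by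
      simp only [evg_cons, evg_nil, xv, List.map_cons, List.map_nil, List.cons_append, List.nil_append]
      push_cast
      ring
    have hB1 : evg (xv [1, a, b, c, p, J, X, R, Rw, Xw] [D, I, Iw]) [0, 0, 1] = b := by
      simp only [evg_cons, evg_nil, xv, List.map_cons, List.map_nil, List.cons_append, List.nil_append]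
      push_cast
      ring
    simp only [KFs, List.forall_mem_cons]
    refine ⟨kok4_u hA1 hB1 Nw hU ?_, kok4_no hA1 hB1 N Nw hN0 ?_, kok4_st hB1 hW0 ?_, fun _ h => absurd h (by simp)⟩
    · intro _ _ _ _ _
      trivial
    · intro X' R' I' _ hg
      simp only [List.forall_mem_cons, List.not_mem_nil, false_imp_iff, implies_true, and_true,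
        evg_cons, evg_nil, xv, List.map_cons, List.map_nil, List.cons_append, List.nil_append] at hg
      push_cast at hg
      simp only [Zx, Zp, Zs, Zsp, Zi, ZiD, Zy]
      push_cast
      linarith
    · intro X' R' I' hg
      simp only [List.forall_mem_cons, List.not_mem_nil, false_imp_iff, implies_true, and_true,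
        evg_cons, evg_nil, xv, List.map_cons, List.map_nil, List.cons_append, List.nil_append] at hg
      push_cast at hg ⊢
      refine ⟨?_, ?_⟩ <;> linarith [hg.1, hg.2]
  push_cast at *
  refine sound4 (val_V W.toBase hk hw hne []) W rfl (Nk := N)
    (fun kf _ _ => ⟨_, rfl⟩) (Nw := Nw) (fun _ _ _ => by simp [NN]) hkf ok0 ?_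
  · simp only [base, List.forall_mem_cons, List.not_mem_nil, false_imp_iff, implies_true,
      and_true, hld, xv, evg_cons, evg_nil, List.map_cons, List.map_nil, List.cons_append,
      List.nil_append, if_true, if_false, Bool.false_eq_true]
    push_cast
    refine ⟨?_, ?_, ?_, ?_, ?_, ?_, ?_, ?_, ?_, ?_, ?_, ?_, ?_, ?_, ?_, ?_, ?_, ?_, ?_, ?_, ?_, ?_, ?_, ?_, ?_, ?_, ?_, ?_, ?_, ?_, ?_⟩ <;> linarith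

end Helper25.S1T.Zpp1SM3
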