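import Pool.Agent.Helper25.KG.C4
import Pool.Agent.Helper25.KG.C4s
import Pool.Agent.Helper25.KG.C4d

set_option autoImplicit false
set_option linter.all false

namespace Helper25.S1T.Zpp1SM4

open Helper25.KG Helper11.CT

noncomputable def K : Cls :=
  dV 1

noncomputable def KFs : List KF3 :=
  [(3, bx3 ++ []),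
    (0, bx3 ++ [(-1, 0, 0, [])]),
    (4, (-1, 0, 0, [0, 0, 1]) :: (1, 0, 0, [0, 0, 1]) :: [(1, 0, 0, []), (0, 0, -1, [0,0,0,0,0,0,0,0,0,0,0,0,1])])]

noncomputable def base : List Con :=
  [(true,[0,1,0,0,0,0,0,1]),
  (true,[1,0,-2,-1,0,0,0,-1]),
  (true,[0,1,-1,0,0,0,0,-1]),
  (false,[0,0,0,0,0,0,-1,-1,0,0,0,-1]),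
  (false,[0,0,0,0,0,0,1,0,0,0,0,1]),
  (false,[0,-1,0,0,1,0,0,0,-1,-1,0,0,-1]),
  (false,[0,-1,0,0,0,0,0,0,1,1,0,0,1]),
  (false,[0,0,1,0,0,0,0,0,0,-1,0,0,-1]),
  (false,[0,0,0,0,0,0,0,0,0,1,0,0,1]),
  (false,[0,0,0,0,0,1,0,0,0,0,-1,1]),
  (false,[0,0,0,0,0,-1,0,0,0,0,0,1]),
  (false,[0,0,0,0,0,0,0,0,0,0,1,0,-1]),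
  (false,[0,0,0,0,0,0,0,0,0,0,0,0,1]),
  (false,[0,1,0,0,0,0,1,1,0,0,0,1]),
  (false,[0,1,0,0,0,0,-1,-1,0,0,0,-1]),
  (false,[0,0,1,0,0,0,1,0,0,0,0,1]),
  (false,[0,0,1,0,0,0,-1,0,0,0,0,-1]),
  (false,[0,0,0,0,0,0,0,0,0,0,1,-1]),
  (false,[0,0,0,0,0,0,0,0,0,0,0,1]),
  (false,[0,0,0,0,1,0,0,0,0,0,-2]),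
  (false,[0,0,0,0,0,-1,0,0,0,0,1]),
  (true,[0,0,0,0,0,1]),
  (true,[0,2,-1]),
  (false,[0,0,-2,0,0,0,0,0,0,0,1]),
  (true,[0,1,-1,-1]),
  (true,[0,1,0,-1]),
  (true,[0,0,0,1]),
  (true,[0,0,-2,0,1]),
  (true,[0,-2,0,0,1]),
  (true,[-1,0,1]),
  (true,[-1,1])]

noncomputable def t0 : Tre :=
  (.Q [0,0,1,0,-1,0,-1,0,0,0,2,-1] (.p false [-1,1,1] [1] (⟨0,[(9,0)]⟩,⟨0,[(17,0),(2,0)]⟩) .k 1 (⟨0,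
  []⟩,⟨0,[]⟩) .k .k) (.R ⟨0,false,false,false,[-1,1,1],[0,1],[1,0,1,1],(⟨0,[(10,0)]⟩,⟨0,[(18,0),(2,
  0)]⟩),(⟨0,[(22,0)]⟩,⟨0,[(21,0)]⟩),⟨0,[(18,0)]⟩,.k,.k,.k,.k,.k,.k,⟨true,0,⟨0,[]⟩,⟨1,[(16,0),(0,
  0)]⟩⟩,⟨false,0,⟨0,[(17,0),(6,0)]⟩,⟨1,[(16,1),(3,0),(7,0)]⟩⟩,⟨true,0,⟨2,[(2,0),(1,1),(11,1),(10,
  0)]⟩,⟨0,[(1,0)]⟩⟩,⟨false,0,⟨5,[(0,2),(1,1),(1,3),(11,0),(10,1),(1,2)]⟩,⟨1,[(14,1),(5,0),(8,0)]⟩⟩,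
  ⟨false,0,⟨0,[]⟩,⟨0,[]⟩⟩,⟨false,0,⟨0,[]⟩,⟨0,[]⟩⟩,[.e ⟨false,0,⟨0,[(27,0)]⟩,⟨1,[(26,1),(1,0),(0,
  0)]⟩⟩ ⟨false,0,⟨1,[(0,0),(16,0),(9,1),(0,0)]⟩,⟨5,[(2,3),(11,3),(1,1),(3,2),(5,1),(2,2)]⟩⟩,.o
  ⟨false,1,⟨1,[(20,0),(6,1),(1,0)]⟩,⟨0,[(26,0)]⟩⟩,.a ⟨true,1,⟨1,[(5,1),(14,0),(7,0)]⟩,⟨0,[(0,0)]⟩⟩
  ⟨true,0,⟨1,[(16,0),(0,0),(9,1)]⟩,⟨0,[(25,0)]⟩⟩ ⟨false,0,⟨1,[(0,0),(16,0),(9,1),(1,0)]⟩,⟨5,[(2,3),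
  (11,3),(1,1),(3,2),(5,1),(2,2)]⟩⟩,.o ⟨false,1,⟨0,[(5,0),(14,0)]⟩,⟨1,[(0,0),(16,0),(10,0)]⟩⟩]⟩)
  (.Q [0,-1,0,1,1,0,1,1,0,0,-1,1] (.p true [0,0,1] [1] (⟨0,[(19,0)]⟩,⟨0,[(18,0)]⟩) .k 1 (⟨0,[]⟩,⟨0,
  []⟩) .k .k) (.Q [0,0,-2,0,1,0,2,0,0,0,-2,2] (.p true [0,0,1] [2,-1,-1] (⟨0,[(20,0)]⟩,⟨0,[(19,
  0)]⟩) .k 2 (⟨0,[(19,0),(2,0)]⟩,⟨0,[(11,0)]⟩) .k (.r (-1) ⟨0,[(2,1),(27,0)]⟩ ⟨2,[(3,1),(1,3),(11,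
  3),(10,1)]⟩)) (.I [0,-1,-1,0,1,0,0,1] (.I [1,-1,0,1,0,0,0,-1] (.S ⟨1,0,[0,0,0,0,0,0,0,1],[0,0,1],
  [1],(⟨0,[(23,0)]⟩,⟨0,[(22,0)]⟩),⟨0,[(15,0)]⟩,.k,.k,⟨true,0,⟨3,[(0,0),(5,0),(1,0),(10,0),(0,1)]⟩,
  ⟨0,[(5,0)]⟩⟩,⟨false,1,⟨0,[(33,0),(1,0)]⟩,⟨0,[]⟩⟩,⟨false,0,⟨0,[(0,0)]⟩,⟨0,[(5,0),(24,0),(2,0)]⟩⟩,
  ⟨true,0,⟨0,[(31,0)]⟩,⟨0,[(30,0)]⟩⟩,[.o ⟨false,1,⟨0,[(3,0),(26,0)]⟩,⟨0,[(8,0)]⟩⟩,.e ⟨false,1,⟨1,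
  [(32,0),(0,0)]⟩,⟨0,[(35,0)]⟩⟩ ⟨false,1,⟨0,[(1,0)]⟩,⟨1,[(7,0),(11,0),(0,0)]⟩⟩,.a ⟨true,0,⟨0,[(9,
  0)]⟩,⟨1,[(21,1),(3,0),(0,0),(1,0)]⟩⟩ ⟨true,0,⟨0,[]⟩,⟨0,[(35,0)]⟩⟩ ⟨false,1,⟨0,[(5,0),(27,0)]⟩,⟨3,
  [(0,0),(5,0),(1,0),(10,0),(0,1)]⟩⟩,.e ⟨false,1,⟨1,[(32,0),(0,0)]⟩,⟨1,[(20,0),(0,0)]⟩⟩ ⟨false,1,⟨0,
  [(1,0)]⟩,⟨0,[(8,0),(11,0)]⟩⟩]⟩) (.I [0,-1,1,1,0,0,0,-1] (.S ⟨1,0,[0,0,0,0,0,0,0,1],[0,0,1],[1,1,0,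
  -1,0,0,0,1],(⟨0,[(24,0)]⟩,⟨0,[(23,0)]⟩),⟨0,[(16,0)]⟩,.k,.k,⟨true,0,⟨0,[(31,0)]⟩,⟨0,[(32,0)]⟩⟩,
  ⟨false,1,⟨0,[(34,0),(1,0)]⟩,⟨0,[]⟩⟩,⟨false,0,⟨0,[]⟩,⟨0,[(34,0),(1,0)]⟩⟩,⟨true,0,⟨0,[(32,0)]⟩,⟨0,
  [(31,0)]⟩⟩,[.o ⟨false,1,⟨0,[(4,0),(26,0)]⟩,⟨0,[(9,0)]⟩⟩,.e ⟨false,1,⟨0,[(2,0),(28,0)]⟩,⟨1,[(0,0),
  (7,0),(23,0)]⟩⟩ ⟨false,1,⟨0,[(2,0)]⟩,⟨1,[(8,0),(11,0),(0,0)]⟩⟩,.a ⟨true,0,⟨0,[(10,0)]⟩,⟨1,[(22,1),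
  (3,0),(0,0),(1,0)]⟩⟩ ⟨true,0,⟨0,[(1,0)]⟩,⟨1,[(0,0),(7,0),(23,0)]⟩⟩ ⟨false,1,⟨0,[(6,0),(27,0)]⟩,⟨2,
  [(0,0),(6,0),(12,0),(0,0)]⟩⟩,.e ⟨false,1,⟨0,[(2,0),(28,0)]⟩,⟨0,[(0,0)]⟩⟩ ⟨false,1,⟨0,[(2,0)]⟩,⟨0,
  [(9,0),(11,0)]⟩⟩]⟩) (.I [0,-1,2,1,0,0,0,-1] (.Q [0,0,0,1,1,0,2,2,0,0,-2,2] (.p true [0,0,1] [2,-1,
  -1] (⟨0,[(25,0)]⟩,⟨0,[(24,0)]⟩) .k 2 (⟨0,[(24,0),(2,0)]⟩,⟨0,[(16,0)]⟩) .k (.r (-1) ⟨0,[(7,1),(27,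
  0)]⟩ ⟨6,[(0,5),(7,3),(0,3),(22,1)]⟩)) (.Q [0,0,0,0,1,0,2,2,0,0,-2,2] (.p true [0,0,1] [2,-1,-1]
  (⟨0,[(26,0)]⟩,⟨0,[(25,0)]⟩) .k 2 (⟨0,[(25,0),(2,0)]⟩,⟨0,[(17,0)]⟩) .k (.r (-1) ⟨0,[(8,1),(27,0)]⟩
  ⟨6,[(1,5),(7,3),(0,3),(22,1)]⟩)) (.Q [0,0,0,0,0,0,0,0,0,0,0,1,-1] (.ed true [1,0,-1,0,1] .k) (.R
  ⟨0,false,false,false,[1,0,-1],[1,0,-1,0,1],[0,1],(⟨0,[(27,0)]⟩,⟨0,[(28,0)]⟩),(⟨0,[(22,0),(4,0)]⟩,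
  ⟨0,[(0,0)]⟩),⟨0,[(19,0)]⟩,.k,.k,.k,.k,.k,.k,⟨false,1,⟨1,[(4,0),(5,0),(4,1),(2,1),(13,0),(3,0)]⟩,
  ⟨4,[(3,0),(7,2),(0,0),(3,4),(0,4),(18,1)]⟩⟩,⟨true,0,⟨0,[(18,0)]⟩,⟨0,[(17,0)]⟩⟩,⟨true,0,⟨0,[(10,
  0)]⟩,⟨6,[(3,2),(7,1),(0,1),(22,0)]⟩⟩,⟨false,0,⟨0,[(16,0)]⟩,⟨0,[(15,0),(24,0)]⟩⟩,⟨false,0,⟨0,[]⟩,
  ⟨0,[]⟩⟩,⟨false,0,⟨0,[]⟩,⟨0,[]⟩⟩,[.e ⟨false,0,⟨4,[(4,0),(6,0),(20,1),(3,1)]⟩,⟨0,[(38,0),(1,0)]⟩⟩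
  ⟨false,0,⟨0,[(12,0),(3,0)]⟩,⟨0,[(10,0),(4,0)]⟩⟩,.e ⟨false,1,⟨1,[(37,0),(0,0),(1,1)]⟩,⟨0,[]⟩⟩
  ⟨false,0,⟨4,[(3,0),(7,2),(0,0),(3,4),(19,1)]⟩,⟨0,[(10,0),(4,0),(24,0)]⟩⟩,.a ⟨true,0,⟨1,[(26,1),(3,
  0),(0,0),(1,0)]⟩,⟨0,[(14,0)]⟩⟩ ⟨true,0,⟨0,[(40,0)]⟩,⟨0,[]⟩⟩ ⟨false,0,⟨6,[(3,2),(7,1),(0,1),(3,6),
  (18,0)]⟩,⟨0,[(10,0),(4,0)]⟩⟩,.o ⟨false,0,⟨0,[(26,0)]⟩,⟨1,[(9,0),(15,0),(11,0)]⟩⟩]⟩) (.R ⟨0,false,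
  false,true,[1,0,0,0,-1],[1,0,1,0,-1],[0,1],(⟨0,[(21,0)]⟩,⟨0,[(22,0)]⟩),(⟨0,[(21,0),(6,0)]⟩,⟨0,[(0,
  0)]⟩),⟨0,[(0,0),(18,0)]⟩,.k,.k,.k,.k,.k,.k,⟨false,0,⟨2,[(11,1),(0,0),(3,2),(0,2),(14,0),(3,1)]⟩,
  ⟨0,[(10,0),(4,0),(2,0)]⟩⟩,⟨true,0,⟨0,[(14,0)]⟩,⟨0,[(26,0)]⟩⟩,⟨false,0,⟨4,[(4,0),(6,0),(4,4),(0,4),
  (14,1),(3,1)]⟩,⟨0,[(15,0),(2,0)]⟩⟩,⟨true,0,⟨0,[(23,0)]⟩,⟨0,[(13,0)]⟩⟩,⟨false,0,⟨0,[]⟩,⟨0,[]⟩⟩,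
  ⟨false,0,⟨0,[]⟩,⟨0,[]⟩⟩,[.e ⟨false,0,⟨4,[(4,0),(6,0),(20,1),(3,1)]⟩,⟨0,[(38,0),(1,0)]⟩⟩ ⟨false,1,
  ⟨4,[(4,0),(6,0),(3,4),(2,4),(4,4),(8,1),(3,1)]⟩,⟨0,[(11,0),(4,0),(0,0),(8,0),(9,0)]⟩⟩,.e ⟨false,1,
  ⟨1,[(37,0),(0,0),(1,1)]⟩,⟨0,[]⟩⟩ ⟨false,1,⟨0,[(4,0),(9,0),(0,0),(2,0),(17,0)]⟩,⟨4,[(4,0),(6,0),(1,
  4),(2,4),(0,4),(14,1),(3,1)]⟩⟩,.a ⟨true,0,⟨1,[(17,1),(12,0),(0,0),(1,0)]⟩,⟨0,[(18,0)]⟩⟩ ⟨true,0,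
  ⟨0,[(40,0)]⟩,⟨0,[]⟩⟩ ⟨false,1,⟨0,[(15,0),(2,0),(4,0)]⟩,⟨0,[(11,0),(4,0),(0,0),(8,0),(9,0)]⟩⟩,.o
  ⟨false,0,⟨0,[(17,0)]⟩,⟨1,[(18,1),(10,0),(7,0)]⟩⟩]⟩)) (.R ⟨0,false,false,false,[-1,1,1],[1,1,-1],
  [1,1],(⟨0,[(18,0)]⟩,⟨0,[(26,0),(2,0)]⟩),(⟨0,[(26,0),(3,0)]⟩,⟨0,[(19,0)]⟩),⟨0,[(26,0)]⟩,.k,.k,.k,
  .k,.k,.k,⟨true,0,⟨0,[(3,0)]⟩,⟨0,[(2,0)]⟩⟩,⟨false,0,⟨0,[(0,0),(4,0),(3,0)]⟩,⟨0,[(8,0),(15,0)]⟩⟩,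
  ⟨false,0,⟨1,[(2,0),(1,0),(5,1)]⟩,⟨0,[(2,0),(2,0),(3,0)]⟩⟩,⟨true,(-1),⟨0,[(0,0)]⟩,⟨0,[(1,0),(32,
  0)]⟩⟩,⟨false,0,⟨0,[]⟩,⟨0,[]⟩⟩,⟨false,0,⟨0,[]⟩,⟨0,[]⟩⟩,[.o ⟨false,0,⟨0,[(12,0),(22,0)]⟩,⟨1,[(4,1),
  (3,0),(15,0),(12,0)]⟩⟩,.a ⟨true,0,⟨0,[(0,0),(6,0)]⟩,⟨0,[(4,0),(8,0)]⟩⟩ ⟨true,0,⟨0,[]⟩,⟨1,[(2,0),
  (1,0)]⟩⟩ ⟨false,0,⟨1,[(0,1),(1,0),(2,1),(3,0),(25,0)]⟩,⟨1,[(4,1),(1,0),(1,0),(15,0)]⟩⟩,.o ⟨false,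
  1,⟨0,[(8,0)]⟩,⟨1,[(0,0),(1,0),(1,0),(4,1),(27,0)]⟩⟩,.o ⟨false,1,⟨1,[(8,0),(15,0),(3,0)]⟩,⟨1,[(0,
  0),(8,1),(27,0)]⟩⟩]⟩)) (.Q [0,1,0,0,1,0,2,2,0,0,-2,2] (.p true [0,0,1] [2,-1,-1] (⟨0,[(26,0)]⟩,⟨0,
  [(25,0)]⟩) .k 2 (⟨0,[(25,0),(2,0)]⟩,⟨0,[(17,0)]⟩) .k (.r (-1) ⟨0,[(8,1),(27,0)]⟩ ⟨6,[(1,5),(7,3),
  (0,3),(22,1)]⟩)) (.R ⟨0,false,false,false,[-1,1,1],[1,1,-1],[1,1],(⟨0,[(18,0)]⟩,⟨0,[(26,0),(2,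
  0)]⟩),(⟨0,[(26,0),(3,0)]⟩,⟨0,[(19,0)]⟩),⟨0,[(26,0)]⟩,.k,.k,.k,.k,.k,.k,⟨true,0,⟨0,[(3,0)]⟩,⟨0,[(2,
  0)]⟩⟩,⟨false,0,⟨0,[(1,0),(3,0),(3,0),(25,0)]⟩,⟨0,[(8,0),(15,0)]⟩⟩,⟨false,0,⟨1,[(2,0),(1,0),(5,
  1)]⟩,⟨0,[(2,0),(2,0),(3,0)]⟩⟩,⟨true,(-1),⟨0,[(1,0),(33,0)]⟩,⟨0,[(0,0)]⟩⟩,⟨false,0,⟨0,[]⟩,⟨0,[]⟩⟩,
  ⟨false,0,⟨0,[]⟩,⟨0,[]⟩⟩,[.o ⟨false,0,⟨0,[(12,0),(22,0)]⟩,⟨1,[(4,1),(3,0),(15,0),(12,0)]⟩⟩,.a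
  ⟨true,0,⟨1,[(1,0),(33,2),(1,0)]⟩,⟨0,[(4,0),(8,0)]⟩⟩ ⟨true,0,⟨0,[]⟩,⟨1,[(2,0),(1,0)]⟩⟩ ⟨false,0,⟨1,
  [(1,1),(0,0),(2,1),(3,0),(25,2)]⟩,⟨1,[(0,0),(3,0),(3,0),(1,0),(13,0)]⟩⟩,.o ⟨false,1,⟨0,[(8,0)]⟩,
  ⟨1,[(1,0),(0,0),(6,2),(27,0)]⟩⟩,.o ⟨false,1,⟨1,[(8,0),(15,0),(3,0)]⟩,⟨3,[(1,1),(0,0),(2,1),(3,2),
  (25,0)]⟩⟩]⟩) (.Q [0,0,0,0,0,0,0,0,0,0,0,1,-1] (.ed true [1,0,-1,0,1] .k) (.R ⟨0,false,false,false,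
  [1,0,-1],[1,0,-1,0,1],[0,1],(⟨0,[(27,0)]⟩,⟨0,[(28,0)]⟩),(⟨0,[(22,0),(4,0)]⟩,⟨0,[(0,0)]⟩),⟨0,[(19,
  0)]⟩,.k,.k,.k,.k,.k,.k,⟨false,1,⟨1,[(4,0),(5,0),(4,1),(2,1),(13,0),(3,0)]⟩,⟨2,[(1,0),(5,0),(4,0),
  (3,2),(0,2)]⟩⟩,⟨true,0,⟨0,[(18,0)]⟩,⟨0,[(17,0)]⟩⟩,⟨true,0,⟨0,[(10,0)]⟩,⟨6,[(3,2),(7,1),(0,1),(22,
  0)]⟩⟩,⟨false,0,⟨0,[(16,0)]⟩,⟨0,[(15,0),(24,0)]⟩⟩,⟨false,0,⟨0,[]⟩,⟨0,[]⟩⟩,⟨false,0,⟨0,[]⟩,⟨0,[]⟩⟩,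
  [.e ⟨false,0,⟨4,[(4,0),(6,0),(20,1),(3,1)]⟩,⟨0,[(38,0),(1,0)]⟩⟩ ⟨false,0,⟨0,[(12,0),(3,0)]⟩,⟨0,
  [(10,0),(4,0)]⟩⟩,.e ⟨false,1,⟨1,[(37,0),(0,0),(1,1)]⟩,⟨0,[]⟩⟩ ⟨false,0,⟨2,[(1,0),(5,0),(4,0),(3,
  2)]⟩,⟨0,[(10,0),(4,0),(24,0)]⟩⟩,.a ⟨true,0,⟨9,[(1,1),(0,2),(0,2),(2,3),(3,8),(26,0)]⟩,⟨0,[(14,
  0)]⟩⟩ ⟨true,0,⟨0,[(40,0)]⟩,⟨0,[]⟩⟩ ⟨false,0,⟨6,[(3,2),(7,1),(0,1),(3,6),(18,0)]⟩,⟨0,[(10,0),(4,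
  0)]⟩⟩,.o ⟨false,0,⟨0,[(26,0)]⟩,⟨1,[(9,0),(15,0),(11,0)]⟩⟩]⟩) (.R ⟨0,false,false,true,[1,0,0,0,-1],
  [1,0,1,0,-1],[0,1],(⟨0,[(21,0)]⟩,⟨0,[(22,0)]⟩),(⟨0,[(21,0),(6,0)]⟩,⟨0,[(0,0)]⟩),⟨0,[(0,0),(18,
  0)]⟩,.k,.k,.k,.k,.k,.k,⟨false,0,⟨2,[(11,1),(0,0),(3,2),(0,2),(14,0),(3,1)]⟩,⟨0,[(10,0),(4,0),(2,
  0)]⟩⟩,⟨true,0,⟨0,[(14,0)]⟩,⟨0,[(26,0)]⟩⟩,⟨false,0,⟨4,[(4,0),(6,0),(4,4),(0,4),(14,1),(3,1)]⟩,⟨0,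
  [(15,0),(2,0)]⟩⟩,⟨true,0,⟨0,[(23,0)]⟩,⟨0,[(13,0)]⟩⟩,⟨false,0,⟨0,[]⟩,⟨0,[]⟩⟩,⟨false,0,⟨0,[]⟩,⟨0,
  []⟩⟩,[.e ⟨false,0,⟨4,[(4,0),(6,0),(20,1),(3,1)]⟩,⟨0,[(38,0),(1,0)]⟩⟩ ⟨false,1,⟨4,[(4,0),(6,0),(3,
  4),(2,4),(4,4),(8,1),(3,1)]⟩,⟨2,[(1,0),(2,0),(6,0),(1,0),(2,2),(0,2),(11,0),(6,1)]⟩⟩,.e ⟨false,1,
  ⟨1,[(37,0),(0,0),(1,1)]⟩,⟨0,[]⟩⟩ ⟨false,1,⟨0,[(4,0),(9,0),(0,0),(2,0),(17,0)]⟩,⟨4,[(4,0),(6,0),(1,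
  4),(2,4),(0,4),(14,1),(3,1)]⟩⟩,.a ⟨true,0,⟨1,[(17,1),(12,0),(0,0),(1,0)]⟩,⟨0,[(18,0)]⟩⟩ ⟨true,0,
  ⟨0,[(40,0)]⟩,⟨0,[]⟩⟩ ⟨false,1,⟨0,[(15,0),(2,0),(4,0)]⟩,⟨2,[(1,0),(2,0),(6,0),(1,0),(2,2),(0,2),
  (11,0),(6,1)]⟩⟩,.o ⟨false,0,⟨0,[(17,0)]⟩,⟨1,[(18,1),(10,0),(7,0)]⟩⟩]⟩)))) (.Q [0,0,2,0,0,0,1,0,0,
  0,-1,1] (.p true [0,0,1] [1] (⟨0,[(25,0)]⟩,⟨0,[(24,0)]⟩) .k 1 (⟨0,[]⟩,⟨0,[]⟩) .k .k) (.K ⟨0,[1,1,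
  -1],0,0,(⟨0,[(25,0),(3,0)]⟩,⟨0,[(18,0)]⟩),.k,.k,(.r 0 ⟨1,[(11,1),(11,2),(0,0),(9,3)]⟩ ⟨0,[(1,0),
  (31,0),(2,0)]⟩),(.r 0 ⟨2,[(9,0),(1,4),(11,4),(10,3)]⟩ ⟨0,[(3,0),(0,0)]⟩),.k,[⟨0,[(0,0)]⟩,⟨1,[(24,
  1),(3,0),(0,0),(1,0)]⟩,⟨0,[(0,0),(0,0)]⟩,⟨0,[(22,0),(5,0),(0,0),(4,0)]⟩]⟩) (.Q [0,1,0,1,0,0,0,0,0,
  0,-1] (.pp true [-1,1]) (.Q [0,-1,0,-1,0,0,-1,-1,0,0,1,-1] (.p false [0,0,1] [1] (⟨0,[(27,0)]⟩,⟨0,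
  [(26,0)]⟩) .k 1 (⟨0,[]⟩,⟨0,[]⟩) .k .k) (.R ⟨0,false,false,true,[1,0,-1],[0,1],[0,1,2,1],(⟨0,[(27,
  0)]⟩,⟨0,[(28,0)]⟩),(⟨0,[(31,0)]⟩,⟨0,[(30,0)]⟩),⟨0,[(19,0)]⟩,.k,.k,.k,.k,.k,.k,⟨true,0,⟨1,[(25,0),
  (0,0)]⟩,⟨0,[]⟩⟩,⟨false,1,⟨1,[(7,0),(29,0)]⟩,⟨0,[(26,0),(3,0),(0,0)]⟩⟩,⟨true,0,⟨0,[(10,0),(14,0),
  (0,0),(9,0)]⟩,⟨0,[(11,0)]⟩⟩,⟨false,1,⟨0,[(8,0),(31,0)]⟩,⟨0,[(0,0)]⟩⟩,⟨false,0,⟨0,[]⟩,⟨0,[]⟩⟩,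
  ⟨false,0,⟨0,[]⟩,⟨0,[]⟩⟩,[.o ⟨false,0,⟨0,[(1,0)]⟩,⟨0,[(35,0),(2,0)]⟩⟩,.e ⟨false,0,⟨1,[(25,0),(0,0),
  (9,1)]⟩,⟨7,[(0,1),(2,1),(3,0),(27,3),(1,4),(0,1)]⟩⟩ ⟨false,1,⟨0,[(8,0),(3,0)]⟩,⟨0,[(0,0),(9,0)]⟩⟩,
  .a ⟨true,0,⟨2,[(2,0),(23,1),(3,1),(0,1)]⟩,⟨0,[(14,0)]⟩⟩ ⟨false,0,⟨0,[(25,0),(0,0),(9,0)]⟩,⟨3,[(0,
  1),(2,1),(3,0),(29,0),(0,1)]⟩⟩ ⟨true,0,⟨0,[(1,0),(12,0)]⟩,⟨0,[(0,0),(9,0)]⟩⟩,.o ⟨false,0,⟨0,[(26,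
  0)]⟩,⟨1,[(9,0),(15,0),(11,0)]⟩⟩]⟩) (.Q [0,0,0,1,1,0,2,2,0,0,-2,2] (.p true [0,0,1] [2,-1,-1] (⟨0,
  [(28,0)]⟩,⟨0,[(27,0)]⟩) .k 2 (⟨0,[(27,0),(2,0)]⟩,⟨0,[(19,0)]⟩) .k (.r (-1) ⟨0,[(10,1),(27,0)]⟩ ⟨2,
  [(11,1),(1,3),(11,3),(10,1)]⟩)) (.I [1,1,1,1,0,0,0,2] (.Q [0,-1,0,-1,0,0,-2,-1,0,0,2,-2] (.p
  false [0,0,1] [2,-1,-1] (⟨0,[(30,0)]⟩,⟨0,[(29,0)]⟩) .k 2 (⟨0,[(29,0),(2,0)]⟩,⟨0,[(21,0)]⟩) .k (.r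
  (-1) ⟨2,[(0,1),(7,1),(28,1),(2,0)]⟩ ⟨2,[(13,1),(1,3),(11,3),(10,1)]⟩)) (.R ⟨0,false,false,true,[1,
  0,-1],[-1,1,1],[1,1,1,1,0,0,0,1],(⟨0,[(30,0)]⟩,⟨0,[(31,0)]⟩),(⟨0,[(22,0)]⟩,⟨0,[(30,0),(2,0)]⟩),⟨0,
  [(22,0)]⟩,.k,.k,.k,(.r 0 ⟨0,[(14,0),(1,0),(11,0)]⟩ ⟨13,[(1,15),(25,3),(0,3),(9,1),(1,2),(0,10)]⟩),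
  .k,.k,⟨true,0,⟨0,[]⟩,⟨1,[(28,0),(0,0)]⟩⟩,⟨false,1,⟨0,[(10,0)]⟩,⟨2,[(0,2),(0,1),(25,0),(0,0),(10,
  0)]⟩⟩,⟨true,0,⟨0,[(1,0)]⟩,⟨0,[(14,0),(1,0),(11,0)]⟩⟩,⟨false,1,⟨0,[(2,0)]⟩,⟨2,[(0,2),(13,0),(1,1),
  (11,1),(10,0)]⟩⟩,⟨false,0,⟨0,[]⟩,⟨0,[]⟩⟩,⟨false,0,⟨0,[]⟩,⟨0,[]⟩⟩,[.e ⟨false,0,⟨5,[(1,2),(2,0),(30,
  0),(0,0),(2,1)]⟩,⟨1,[(0,1),(9,0),(1,0),(15,0)]⟩⟩ ⟨false,1,⟨7,[(2,1),(0,0),(0,1),(5,2),(0,2),(16,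
  1),(6,3)]⟩,⟨0,[(0,0)]⟩⟩,.o ⟨false,1,⟨2,[(2,0),(1,0),(6,0),(20,0)]⟩,⟨5,[(0,2),(13,0),(1,0),(10,0),
  (0,1),(9,1)]⟩⟩,.a ⟨true,0,⟨6,[(0,2),(0,1),(25,0),(8,0),(2,0)]⟩,⟨0,[(17,0)]⟩⟩ ⟨true,0,⟨2,[(1,1),
  (25,0),(0,0),(10,0)]⟩,⟨1,[(14,1),(13,0),(0,0)]⟩⟩ ⟨false,1,⟨5,[(2,1),(1,1),(5,0),(0,1),(0,0),(15,
  2)]⟩,⟨0,[(0,0)]⟩⟩,.o ⟨false,0,⟨0,[(29,0)]⟩,⟨1,[(12,0),(15,0),(11,0)]⟩⟩]⟩) (.Q [0,0,0,0,0,0,0,0,0,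
  0,0,1,-1] (.ed true [1,0,-1,0,1] .k) (.R ⟨0,false,false,false,[1,0,-1],[1,0,-1,0,1],[0,1],(⟨0,
  [(31,0)]⟩,⟨0,[(32,0)]⟩),(⟨0,[(26,0),(4,0)]⟩,⟨0,[(0,0)]⟩),⟨0,[(23,0)]⟩,.k,.k,.k,.k,.k,.k,⟨false,1,
  ⟨2,[(2,0),(4,0),(11,2),(2,2),(13,1)]⟩,⟨2,[(15,1),(1,0),(2,2),(0,2),(7,0),(10,1)]⟩⟩,⟨true,0,⟨0,
  [(22,0)]⟩,⟨0,[(21,0)]⟩⟩,⟨true,0,⟨0,[(14,0)]⟩,⟨2,[(15,0),(1,1),(11,1),(10,0)]⟩⟩,⟨false,0,⟨0,[(20,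
  0)]⟩,⟨0,[(19,0),(24,0)]⟩⟩,⟨false,0,⟨0,[]⟩,⟨0,[]⟩⟩,⟨false,0,⟨0,[]⟩,⟨0,[]⟩⟩,[.o ⟨false,0,⟨0,[(20,0),
  (7,0)]⟩,⟨1,[(1,0),(7,0),(9,1)]⟩⟩,.o ⟨false,0,⟨0,[(17,0),(2,0)]⟩,⟨3,[(1,1),(0,0),(16,3),(16,0),(2,
  2)]⟩⟩,.a ⟨true,0,⟨2,[(6,0),(23,1),(3,1),(0,1)]⟩,⟨0,[(18,0)]⟩⟩ ⟨true,0,⟨0,[(44,0)]⟩,⟨0,[]⟩⟩ ⟨false,
  0,⟨2,[(15,0),(1,1),(2,2),(8,1),(10,0)]⟩,⟨11,[(2,3),(4,0),(1,2),(9,11),(16,1)]⟩⟩,.o ⟨false,0,⟨0,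
  [(30,0)]⟩,⟨1,[(13,0),(15,0),(11,0)]⟩⟩]⟩) (.R ⟨0,false,false,true,[1,0,0,0,-1],[1,0,1,0,-1],[0,1],
  (⟨0,[(25,0)]⟩,⟨0,[(26,0)]⟩),(⟨0,[(25,0),(6,0)]⟩,⟨0,[(0,0)]⟩),⟨0,[(0,0),(22,0)]⟩,.k,.k,.k,.k,.k,.k,
  ⟨false,0,⟨2,[(5,0),(9,0),(0,1),(3,2),(0,2),(15,0)]⟩,⟨11,[(2,3),(4,0),(1,2),(9,11),(2,11),(13,
  1)]⟩⟩,⟨true,0,⟨0,[(18,0)]⟩,⟨0,[(30,0)]⟩⟩,⟨false,0,⟨12,[(5,1),(1,0),(7,0),(4,12),(0,12),(14,4),(0,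
  1)]⟩,⟨0,[(19,0),(2,0)]⟩⟩,⟨true,0,⟨0,[(27,0)]⟩,⟨0,[(17,0)]⟩⟩,⟨false,0,⟨0,[]⟩,⟨0,[]⟩⟩,⟨false,0,⟨0,
  []⟩,⟨0,[]⟩⟩,[.e ⟨false,0,⟨12,[(5,1),(1,0),(7,0),(20,4),(0,1)]⟩,⟨13,[(2,1),(25,3),(0,3),(9,1),(1,
  2),(0,10)]⟩⟩ ⟨false,1,⟨11,[(1,0),(5,0),(11,11),(2,11),(4,9),(8,5),(0,1)]⟩,⟨0,[(15,0),(4,0),(0,0),
  (8,0),(9,0)]⟩⟩,.o ⟨false,1,⟨0,[(19,0),(7,0)]⟩,⟨1,[(1,0),(7,0),(7,3),(2,1)]⟩⟩,.a ⟨true,0,⟨1,[(21,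
  1),(12,0),(0,0),(1,0)]⟩,⟨0,[(22,0)]⟩⟩ ⟨true,0,⟨0,[(44,0)]⟩,⟨0,[]⟩⟩ ⟨false,1,⟨0,[(19,0),(2,0),(4,
  0)]⟩,⟨0,[(15,0),(4,0),(0,0),(8,0),(9,0)]⟩⟩,.o ⟨false,0,⟨0,[(21,0)]⟩,⟨1,[(22,1),(10,0),(7,
  0)]⟩⟩]⟩))) (.Q [0,0,0,0,0,0,0,0,0,0,0,1,-1] (.ed true [1,0,-1,0,1] .k) (.R ⟨0,false,false,false,
  [1,0,-1],[1,0,-1,0,1],[0,1],(⟨0,[(30,0)]⟩,⟨0,[(31,0)]⟩),(⟨0,[(25,0),(4,0)]⟩,⟨0,[(0,0)]⟩),⟨0,[(22,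
  0)]⟩,.k,.k,.k,.k,.k,.k,⟨false,1,⟨7,[(3,0),(1,0),(0,0),(6,5),(4,7),(2,7),(13,3)]⟩,⟨4,[(1,1),(2,0),
  (10,0),(3,4),(0,4),(15,0),(2,0)]⟩⟩,⟨true,0,⟨0,[(21,0)]⟩,⟨0,[(20,0)]⟩⟩,⟨true,0,⟨0,[(13,0)]⟩,⟨2,[(1,
  0),(25,0),(0,0),(10,0)]⟩⟩,⟨false,0,⟨0,[(19,0)]⟩,⟨0,[(18,0),(24,0)]⟩⟩,⟨false,0,⟨0,[]⟩,⟨0,[]⟩⟩,
  ⟨false,0,⟨0,[]⟩,⟨0,[]⟩⟩,[.e ⟨false,0,⟨12,[(4,1),(1,0),(7,0),(20,4),(0,1)]⟩,⟨0,[(41,0),(1,0)]⟩⟩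
  ⟨false,0,⟨0,[(15,0),(3,0)]⟩,⟨0,[(13,0),(4,0)]⟩⟩,.o ⟨false,0,⟨0,[(16,0),(2,0)]⟩,⟨0,[(3,0),(14,0),
  (19,0)]⟩⟩,.a ⟨true,0,⟨2,[(5,0),(23,1),(3,1),(0,1)]⟩,⟨0,[(17,0)]⟩⟩ ⟨true,0,⟨0,[(43,0)]⟩,⟨0,[]⟩⟩
  ⟨false,0,⟨2,[(1,0),(17,2),(7,0),(0,0),(10,0)]⟩,⟨0,[(13,0),(4,0)]⟩⟩,.o ⟨false,0,⟨0,[(29,0)]⟩,⟨1,
  [(12,0),(15,0),(11,0)]⟩⟩]⟩) (.R ⟨0,false,false,true,[1,0,0,0,-1],[1,0,1,0,-1],[0,1],(⟨0,[(24,0)]⟩,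
  ⟨0,[(25,0)]⟩),(⟨0,[(24,0),(6,0)]⟩,⟨0,[(0,0)]⟩),⟨0,[(0,0),(21,0)]⟩,.k,.k,.k,.k,.k,.k,⟨false,0,⟨2,
  [(4,0),(9,0),(0,1),(3,2),(0,2),(15,0)]⟩,⟨0,[(13,0),(4,0),(2,0)]⟩⟩,⟨true,0,⟨0,[(17,0)]⟩,⟨0,[(29,
  0)]⟩⟩,⟨false,0,⟨12,[(4,1),(1,0),(7,0),(4,12),(0,12),(14,4),(0,1)]⟩,⟨0,[(18,0),(2,0)]⟩⟩,⟨true,0,⟨0,
  [(26,0)]⟩,⟨0,[(16,0)]⟩⟩,⟨false,0,⟨0,[]⟩,⟨0,[]⟩⟩,⟨false,0,⟨0,[]⟩,⟨0,[]⟩⟩,[.e ⟨false,0,⟨12,[(4,1),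
  (1,0),(7,0),(20,4),(0,1)]⟩,⟨0,[(41,0),(1,0)]⟩⟩ ⟨false,1,⟨14,[(3,1),(2,0),(7,0),(3,14),(2,14),(4,
  12),(8,6),(0,1)]⟩,⟨1,[(1,0),(2,0),(0,0),(13,1),(0,1),(8,0)]⟩⟩,.o ⟨false,1,⟨0,[(18,0),(7,0)]⟩,⟨1,
  [(1,0),(2,1),(3,0),(7,0),(2,1),(9,0)]⟩⟩,.a ⟨true,0,⟨1,[(20,1),(12,0),(0,0),(1,0)]⟩,⟨0,[(21,0)]⟩⟩
  ⟨true,0,⟨0,[(43,0)]⟩,⟨0,[]⟩⟩ ⟨false,1,⟨0,[(18,0),(2,0),(4,0)]⟩,⟨1,[(1,0),(2,0),(0,0),(13,1),(0,1),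
  (8,0)]⟩⟩,.o ⟨false,0,⟨0,[(20,0)]⟩,⟨1,[(21,1),(10,0),(7,0)]⟩⟩]⟩))) (.Q [0,1,0,0,-1,0,-2,-1,0,0,1,
  -2] (.p false [0,0,1] [1,0,-1] (⟨0,[(29,0)]⟩,⟨0,[(28,0)]⟩) .k 2 (⟨0,[(28,0)]⟩,⟨0,[(29,0)]⟩) .k
  (.r (-1) ⟨0,[(11,1),(27,0)]⟩ ⟨1,[(0,0),(7,0),(5,1),(11,1),(10,0)]⟩)) (.I [0,-1,1,0,1,0,0,2] (.R
  ⟨0,false,false,false,[1,0,-1],[0,0,1],[0,0,1,0,0,0,0,1],(⟨0,[(30,0)]⟩,⟨0,[(31,0)]⟩),(⟨0,[(31,0)]⟩,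
  ⟨0,[(30,0)]⟩),⟨0,[(22,0)]⟩,.k,.k,.k,.k,.k,.k,⟨true,0,⟨1,[(28,0),(0,0)]⟩,⟨0,[]⟩⟩,⟨false,1,⟨1,[(10,
  0),(17,1),(11,0)]⟩,⟨3,[(0,1),(0,3),(38,0),(0,0)]⟩⟩,⟨false,1,⟨0,[(0,0)]⟩,⟨3,[(2,2),(7,2),(5,1),(11,
  1),(10,2)]⟩⟩,⟨true,1,⟨3,[(0,1),(2,0),(2,1),(3,0),(0,0),(16,3)]⟩,⟨0,[(2,0),(1,0)]⟩⟩,⟨false,0,⟨0,
  []⟩,⟨0,[]⟩⟩,⟨false,0,⟨0,[]⟩,⟨0,[]⟩⟩,[.o ⟨false,1,⟨5,[(0,1),(11,1),(13,1),(1,1),(3,0),(7,0)]⟩,⟨0,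
  [(16,0)]⟩⟩,.e ⟨false,1,⟨3,[(0,1),(39,0),(0,0)]⟩,⟨0,[(15,0)]⟩⟩ ⟨false,2,⟨3,[(0,1),(9,1),(17,3),(11,
  2),(0,0)]⟩,⟨0,[(1,0)]⟩⟩,.a ⟨true,0,⟨21,[(0,9),(0,1),(0,8),(32,3),(0,1),(2,8),(0,0)]⟩,⟨0,[(17,
  0)]⟩⟩ ⟨false,1,⟨2,[(0,1),(26,0),(0,0),(12,0)]⟩,⟨1,[(2,0),(7,0),(28,0)]⟩⟩ ⟨true,1,⟨5,[(0,1),(9,1),
  (1,0),(13,1),(1,4),(11,0)]⟩,⟨0,[(1,0)]⟩⟩,.o ⟨false,0,⟨0,[(29,0)]⟩,⟨1,[(12,0),(15,0),(11,0)]⟩⟩]⟩)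
  (.Q [0,0,0,0,0,0,0,0,0,0,0,1,-1] (.ed true [1,0,-1,0,1] .k) (.K ⟨0,[0,0,1,0,-1],0,1,(⟨0,[(0,0)]⟩,
  ⟨0,[(26,0),(4,0)]⟩),.k,(.r (-1) ⟨1,[(7,0),(1,0),(9,1),(2,1)]⟩ ⟨1,[(16,0),(3,1),(0,1),(6,0),(0,0),
  (10,1)]⟩),(.r (-1) ⟨1,[(14,1),(4,1),(2,1),(6,0),(0,0),(9,1)]⟩ ⟨3,[(15,2),(0,0),(3,3),(0,3),(14,0),
  (2,0)]⟩),.k,.k,[⟨0,[(22,0),(7,0)]⟩,⟨0,[(18,0),(2,0)]⟩,⟨1,[(1,0),(0,0),(1,0),(15,1),(9,0),(8,0)]⟩,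
  ⟨0,[(19,0),(7,0),(16,0)]⟩]⟩) (.K ⟨0,[0,0,-1,0,1],0,(-1),(⟨0,[(0,0)]⟩,⟨0,[(25,0),(6,0)]⟩),.k,(.r 0
  ⟨3,[(15,2),(0,0),(3,3),(0,3),(14,0),(2,0)]⟩ ⟨1,[(14,1),(4,1),(2,1),(6,0),(0,0),(9,1)]⟩),(.r 0 ⟨1,
  [(16,0),(3,1),(0,1),(6,0),(0,0),(10,1)]⟩ ⟨1,[(7,0),(1,0),(9,1),(2,1)]⟩),(.r 1 ⟨0,[(1,0),(18,0),(0,
  0)]⟩ ⟨0,[(14,1),(4,0),(2,0),(19,0),(1,0)]⟩),.k,[⟨0,[(18,0),(2,0)]⟩,⟨0,[(22,0),(7,0)]⟩,⟨0,[(19,0),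
  (7,0),(16,0)]⟩,⟨1,[(1,0),(0,0),(1,0),(15,1),(9,0),(8,0)]⟩]⟩))) (.I [0,-1,1,0,1,0,0,2] (.R ⟨0,
  false,false,false,[1,0,-1],[0,0,1],[0,0,1,0,0,0,0,1],(⟨0,[(30,0)]⟩,⟨0,[(31,0)]⟩),(⟨0,[(31,0)]⟩,⟨0,
  [(30,0)]⟩),⟨0,[(22,0)]⟩,.k,.k,.k,.k,.k,.k,⟨true,0,⟨1,[(28,0),(0,0)]⟩,⟨0,[]⟩⟩,⟨false,1,⟨1,[(10,0),
  (17,1),(11,0)]⟩,⟨8,[(0,1),(1,1),(2,4),(7,0),(13,0),(1,7),(9,1)]⟩⟩,⟨false,1,⟨0,[(0,0)]⟩,⟨3,[(2,2),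
  (7,2),(5,1),(11,1),(10,2)]⟩⟩,⟨true,1,⟨5,[(0,1),(0,2),(1,0),(4,0),(1,0),(15,2)]⟩,⟨0,[(2,0),(1,
  0)]⟩⟩,⟨false,0,⟨0,[]⟩,⟨0,[]⟩⟩,⟨false,0,⟨0,[]⟩,⟨0,[]⟩⟩,[.o ⟨false,1,⟨10,[(0,2),(0,4),(26,0),(3,2),
  (2,3)]⟩,⟨0,[(16,0)]⟩⟩,.a ⟨true,1,⟨15,[(0,5),(0,3),(26,7),(7,3),(3,2),(0,2)]⟩,⟨0,[(2,0),(0,0)]⟩⟩
  ⟨false,1,⟨3,[(0,1),(39,0),(0,0)]⟩,⟨0,[(15,0)]⟩⟩ ⟨true,1,⟨0,[(1,0)]⟩,⟨0,[(2,0),(0,0),(25,0)]⟩⟩,.e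
  ⟨false,1,⟨2,[(0,1),(26,0),(0,0),(12,0)]⟩,⟨1,[(2,0),(7,0),(28,0)]⟩⟩ ⟨false,1,⟨0,[(1,0)]⟩,⟨13,[(0,
  1),(1,4),(2,3),(21,7),(1,5),(9,4),(1,2)]⟩⟩,.o ⟨false,0,⟨0,[(29,0)]⟩,⟨1,[(12,0),(15,0),(11,
  0)]⟩⟩]⟩) (.I [0,-1,-1,-1,0,0,0,-2] (.R ⟨0,false,false,true,[1,0,-1],[-1,1,1],[1,1,1,1,0,0,0,1],
  (⟨0,[(31,0)]⟩,⟨0,[(32,0)]⟩),(⟨0,[(23,0)]⟩,⟨0,[(31,0),(2,0)]⟩),⟨0,[(23,0)]⟩,.k,.k,.k,(.r 0 ⟨7,[(0,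
  5),(15,2),(11,0),(0,0),(9,1)]⟩ ⟨1,[(14,3),(14,0),(0,0),(9,1),(1,1)]⟩),.k,.k,⟨true,0,⟨0,[]⟩,⟨1,
  [(29,0),(0,0)]⟩⟩,⟨false,1,⟨0,[(11,0)]⟩,⟨2,[(3,0),(6,0),(3,0),(15,3),(3,3),(0,3),(4,0)]⟩⟩,⟨false,1,
  ⟨1,[(14,3),(14,0),(0,0),(9,1),(1,1)]⟩,⟨0,[(0,0)]⟩⟩,⟨true,1,⟨1,[(4,0),(7,0),(14,1),(5,0)]⟩,⟨0,[(3,
  0)]⟩⟩,⟨false,0,⟨0,[]⟩,⟨0,[]⟩⟩,⟨false,0,⟨0,[]⟩,⟨0,[]⟩⟩,[.e ⟨false,0,⟨0,[(14,0),(25,0)]⟩,⟨13,[(0,5),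
  (27,1),(0,1),(9,7),(1,4),(0,8)]⟩⟩ ⟨false,1,⟨3,[(4,1),(6,0),(0,1),(0,0),(15,0),(6,1)]⟩,⟨0,[(3,0),
  (10,0),(27,0)]⟩⟩,.o ⟨false,1,⟨1,[(4,0),(7,0),(20,0)]⟩,⟨1,[(3,0),(35,0),(2,0),(1,0)]⟩⟩,.a ⟨true,0,
  ⟨2,[(3,0),(6,0),(3,0),(15,0),(3,0),(0,0),(4,0)]⟩,⟨0,[(18,0)]⟩⟩ ⟨true,0,⟨1,[(14,1),(14,0),(0,0),(9,
  1)]⟩,⟨2,[(0,0),(14,0),(23,0)]⟩⟩ ⟨false,1,⟨1,[(4,0),(7,0),(0,0),(15,0)]⟩,⟨0,[(3,0),(10,0),(27,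
  0)]⟩⟩,.o ⟨false,0,⟨0,[(30,0)]⟩,⟨1,[(13,0),(15,0),(11,0)]⟩⟩]⟩) (.I [0,0,-3,0,0,-3,-2] (.I [1,0,0,0,
  1,0,0,5,1] (.I [0,0,1,0,1,1,1,0,0,3] (.Q [0,0,0,0,0,-1,0,0,0,0,1,0,-1] (.ed true [0,1,0,0,1] .k)
  (.K ⟨1,[0,1,0,0,1],0,(-1),(⟨0,[(30,0),(8,0)]⟩,⟨0,[(0,0)]⟩),.k,.k,(.r 0 ⟨2,[(4,0),(19,2),(0,2),(6,
  1),(0,1),(10,4)]⟩ ⟨0,[(13,0),(5,0),(3,0),(2,0)]⟩),.k,.k,[⟨1,[(25,1),(7,0),(0,0)]⟩,⟨0,[(26,0)]⟩,⟨0,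
  [(23,0),(19,0),(4,0)]⟩,⟨0,[(4,0),(0,0),(18,0)]⟩,⟨0,[(25,0)]⟩]⟩) (.R ⟨0,false,false,false,[1,0,0,0,
  -1],[0,1],[1,0,1,1],(⟨0,[(29,0)]⟩,⟨0,[(30,0)]⟩),(⟨0,[(39,0)]⟩,⟨0,[(38,0)]⟩),⟨0,[(0,0)]⟩,.k,.k,.k,
  .k,.k,.k,⟨true,0,⟨0,[]⟩,⟨1,[(33,0),(0,0)]⟩⟩,⟨false,1,⟨3,[(10,1),(6,1),(8,3),(10,0),(7,0)]⟩,⟨0,
  [(25,0),(12,0),(0,0)]⟩⟩,⟨false,0,⟨0,[(24,0),(0,0),(18,0)]⟩,⟨8,[(11,1),(7,1),(3,8),(2,8),(13,0),(2,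
  4)]⟩⟩,⟨true,0,⟨0,[(9,0),(14,0)]⟩,⟨1,[(4,0),(0,0),(1,0),(3,0),(1,0),(9,1),(9,1)]⟩⟩,⟨false,0,⟨0,[]⟩,
  ⟨0,[]⟩⟩,⟨false,0,⟨0,[]⟩,⟨0,[]⟩⟩,[.e ⟨false,0,⟨0,[(44,0)]⟩,⟨1,[(43,1),(1,0),(0,0)]⟩⟩ ⟨false,1,⟨1,
  [(9,0),(6,0),(4,0),(4,1),(18,0)]⟩,⟨1,[(6,0),(0,0),(5,0),(11,1),(15,0)]⟩⟩,.o ⟨false,1,⟨0,[(16,0),
  (4,0)]⟩,⟨0,[(43,0)]⟩⟩,.a ⟨true,0,⟨1,[(25,1),(12,0),(0,0),(1,0)]⟩,⟨0,[(26,0)]⟩⟩ ⟨true,0,⟨1,[(33,0),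
  (0,0),(9,1)]⟩,⟨0,[(42,0)]⟩⟩ ⟨false,1,⟨0,[(16,0),(4,0),(4,0)]⟩,⟨1,[(6,0),(0,0),(5,0),(11,1),(15,
  0)]⟩⟩,.o ⟨false,0,⟨0,[(25,0)]⟩,⟨1,[(26,1),(10,0),(7,0)]⟩⟩]⟩)) (.I [0,-1,2,2,0,0,0,-1] (.Q [0,0,0,
  0,0,-2,0,0,0,0,0,1] (.p true [0,0,1] [] (⟨0,[(36,0)]⟩,⟨0,[(35,0)]⟩) .k 0 (⟨0,[]⟩,⟨0,[]⟩) .k .k)
  (.S ⟨1,0,[0,0,-1,-1,0,0,0,1],[0,-1,1],[0,0,1],(⟨0,[(29,0)]⟩,⟨0,[(36,0),(3,0)]⟩),⟨0,[(0,0)]⟩,.k,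
  (.r (-1) ⟨0,[(12,0),(31,0),(2,0)]⟩ ⟨17,[(1,16),(3,1),(27,4),(0,4),(6,4)]⟩),⟨true,0,⟨3,[(1,1),(31,
  1),(0,2),(0,0)]⟩,⟨0,[(12,0)]⟩⟩,⟨false,1,⟨25,[(3,1),(20,1),(2,1),(5,9),(0,9),(11,4),(0,16)]⟩,⟨0,
  []⟩⟩,⟨false,0,⟨0,[(1,0)]⟩,⟨0,[(12,0),(31,0),(2,0)]⟩⟩,⟨true,0,⟨0,[(45,0)]⟩,⟨0,[(44,0)]⟩⟩,[.o
  ⟨false,1,⟨3,[(7,1),(6,1),(23,0),(5,1),(2,0)]⟩,⟨2,[(1,0),(8,0),(0,0),(10,1)]⟩⟩,.e ⟨false,1,⟨25,[(3,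
  1),(20,1),(2,1),(5,9),(0,9),(11,4),(0,16)]⟩,⟨24,[(6,0),(3,1),(0,1),(0,1),(3,0),(24,9),(0,1)]⟩⟩
  ⟨false,1,⟨0,[(12,0),(34,0)]⟩,⟨1,[(1,0),(31,0),(0,0),(6,0)]⟩⟩,.a ⟨true,0,⟨0,[(34,0)]⟩,⟨28,[(1,0),
  (3,5),(2,7),(2,12),(3,4),(30,2)]⟩⟩ ⟨true,0,⟨1,[(34,0),(0,0)]⟩,⟨24,[(6,0),(3,1),(0,1),(0,1),(3,0),
  (24,9),(0,1)]⟩⟩ ⟨false,1,⟨1,[(12,0),(1,0),(32,1)]⟩,⟨3,[(1,1),(19,0),(11,0),(0,0)]⟩⟩,.e ⟨false,1,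
  ⟨25,[(3,1),(20,1),(2,1),(5,9),(0,9),(11,4),(0,16)]⟩,⟨0,[]⟩⟩ ⟨false,1,⟨0,[(12,0),(34,0)]⟩,⟨3,[(1,
  1),(31,1),(0,2),(0,0)]⟩⟩]⟩) (.I [1,0,1,1,-1,0,0,-3] (.I [1,0,-1,-1,1,0,0,3] (.N [0,-1,3] (-1) ⟨0,
  [(0,0)]⟩ ⟨0,[(1,0)]⟩ (.x (-1) ⟨11,[(1,7),(0,5),(6,11),(1,1),(4,9),(3,2),(15,6),(1,29),(1,4)]⟩ ⟨1,
  [(6,0),(6,0),(16,0),(6,2),(1,2)]⟩)) (.R ⟨0,false,false,false,[1,0,-1],[1,0,0,0,-1],[0,0,1],(⟨0,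
  [(38,0)]⟩,⟨0,[(39,0)]⟩),(⟨0,[(32,0)]⟩,⟨0,[(33,0)]⟩),⟨0,[(30,0)]⟩,.k,.k,.k,.k,.k,.k,⟨false,0,⟨4,
  [(5,0),(2,0),(14,2),(3,3),(0,3)]⟩,⟨24,[(8,0),(3,1),(0,1),(0,1),(3,0),(7,24),(2,24),(13,9),(0,
  1)]⟩⟩,⟨true,0,⟨13,[(2,0),(1,1),(3,3),(0,5),(1,0),(2,0),(10,2),(2,7),(3,5),(5,0)]⟩,⟨0,[(29,0),(7,
  0)]⟩⟩,⟨false,1,⟨3,[(7,1),(28,0),(0,0),(8,1),(2,3)]⟩,⟨15,[(1,3),(11,1),(4,0),(3,3),(25,2)]⟩⟩,⟨true,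
  1,⟨0,[(26,0),(7,0)]⟩,⟨3,[(7,0),(0,2),(1,0),(1,1),(3,1),(10,3),(9,1)]⟩⟩,⟨false,0,⟨0,[]⟩,⟨0,[]⟩⟩,
  ⟨false,0,⟨0,[]⟩,⟨0,[]⟩⟩,[.o ⟨false,1,⟨0,[(26,0),(24,0)]⟩,⟨2,[(8,0),(2,0),(4,0),(10,2),(9,0),(2,
  0)]⟩⟩,.o ⟨false,1,⟨0,[(26,0)]⟩,⟨0,[(12,0),(14,0),(18,0)]⟩⟩,.a ⟨true,0,⟨3,[(7,1),(2,1),(37,0),(0,
  0)]⟩,⟨0,[(25,0)]⟩⟩ ⟨true,0,⟨1,[(36,0),(0,0)]⟩,⟨24,[(8,0),(3,1),(0,1),(0,1),(3,0),(24,9),(0,1)]⟩⟩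
  ⟨false,1,⟨0,[(25,0),(0,0)]⟩,⟨7,[(5,0),(4,0),(1,1),(1,0),(12,6),(1,0),(5,3),(1,1)]⟩⟩,.o ⟨false,0,
  ⟨0,[(37,0)]⟩,⟨1,[(20,0),(15,0),(11,0)]⟩⟩]⟩)) (.I [1,0,2,2,0,0,0,1] (.I [1,0,-2,-2,0,0,0,-1] (.N
  [0,2,1] 0 ⟨0,[(1,0)]⟩ ⟨0,[(0,0)]⟩ (.x (-1) ⟨6,[(0,0),(6,3),(1,2),(0,4),(1,1),(24,2),(1,14),(1,4),
  (0,1)]⟩ ⟨1,[(3,1),(33,0),(0,2),(1,3)]⟩)) (.Q [0,0,0,0,0,-2,0,0,0,0,2,-1] (.p false [-1,1,1] [1]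
  (⟨0,[(31,0)]⟩,⟨0,[(39,0),(2,0)]⟩) .k 1 (⟨0,[]⟩,⟨0,[]⟩) .k .k) (.S ⟨1,0,[0,0,-1,-1,0,0,0,-1],[2,-1,
  -1],[1,1,-1,-2,0,0,0,-1],(⟨1,[(0,0),(3,0),(38,1)]⟩,⟨0,[(32,0)]⟩),⟨0,[(0,0)]⟩,.k,(.x 0 ⟨1,[(4,1),
  (33,0),(0,2),(1,3)]⟩ ⟨45,[(0,48),(3,20),(3,11),(1,7),(0,11),(1,1),(2,1),(3,1),(1,39)]⟩),⟨true,0,
  ⟨0,[(48,0)]⟩,⟨0,[(49,0)]⟩⟩,⟨false,1,⟨11,[(1,1),(35,1),(0,1),(9,3),(1,2),(0,8)]⟩,⟨0,[]⟩⟩,⟨false,0,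
  ⟨0,[]⟩,⟨11,[(1,1),(35,1),(0,1),(9,3),(1,2),(0,8)]⟩⟩,⟨true,0,⟨0,[(49,0)]⟩,⟨0,[(48,0)]⟩⟩,[.o ⟨false,
  0,⟨23,[(1,1),(10,11),(24,1),(0,1),(9,15),(1,2),(0,8)]⟩,⟨1,[(13,0),(7,0),(20,0)]⟩⟩,.a ⟨true,0,⟨81,
  [(1,5),(1,19),(8,73),(25,65),(7,15),(3,12),(0,40)]⟩,⟨0,[(13,0)]⟩⟩ ⟨true,0,⟨0,[(10,0),(0,1),(0,0),
  (3,0),(22,1)]⟩,⟨0,[(1,0)]⟩⟩ ⟨false,1,⟨5,[(24,3),(0,1),(22,1),(1,0),(0,4)]⟩,⟨3,[(1,1),(7,0),(35,0),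
  (2,0)]⟩⟩,.o ⟨false,0,⟨15,[(1,9),(1,1),(8,7),(35,9),(1,0),(0,4)]⟩,⟨0,[(22,0)]⟩⟩,.o ⟨false,0,⟨19,
  [(1,13),(1,1),(8,9),(25,6),(0,6),(8,15),(2,7)]⟩,⟨45,[(0,2),(3,20),(3,11),(1,7),(0,11),(1,1),(2,1),
  (3,1),(1,39)]⟩⟩]⟩) (.I [1,0,-3,-3,1,0,0,2] (.I [1,0,3,3,-1,0,0,-2] (.N [0,-3,2] (-1) ⟨0,[(1,0)]⟩
  ⟨0,[(0,0)]⟩ (.x (-1) ⟨23,[(3,9),(2,35),(32,9),(0,57),(1,11),(1,5),(5,19),(1,2),(0,14)]⟩ ⟨0,[(10,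
  0)]⟩)) (.R ⟨0,false,false,false,[1,0,-1],[1,0,0,0,-1],[0,0,1],(⟨0,[(42,0)]⟩,⟨0,[(43,0)]⟩),(⟨0,
  [(36,0)]⟩,⟨0,[(37,0)]⟩),⟨0,[(34,0)]⟩,.k,.k,.k,.k,.k,.k,⟨false,0,⟨4,[(9,0),(2,0),(14,2),(3,3),(0,
  3)]⟩,⟨24,[(12,0),(3,1),(0,1),(0,1),(3,0),(7,24),(2,24),(13,9),(0,1)]⟩⟩,⟨true,0,⟨13,[(6,0),(1,1),
  (3,3),(0,5),(1,0),(2,0),(10,2),(2,7),(3,5),(5,0)]⟩,⟨0,[(33,0),(7,0)]⟩⟩,⟨false,1,⟨4,[(3,1),(1,0),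
  (34,0),(0,0),(8,2),(2,3)]⟩,⟨4,[(7,0),(4,0),(13,1),(25,0)]⟩⟩,⟨true,1,⟨0,[(30,0),(7,0)]⟩,⟨3,[(11,0),
  (0,2),(1,0),(1,1),(3,1),(10,3),(9,1)]⟩⟩,⟨false,0,⟨0,[]⟩,⟨0,[]⟩⟩,⟨false,0,⟨0,[]⟩,⟨0,[]⟩⟩,[.o
  ⟨false,1,⟨8,[(3,0),(26,8),(8,0),(0,0),(6,2),(2,1)]⟩,⟨2,[(12,0),(2,0),(4,0),(10,2),(9,0),(2,0)]⟩⟩,
  .o ⟨false,1,⟨0,[(30,0)]⟩,⟨0,[(16,0),(14,0),(18,0)]⟩⟩,.a ⟨true,0,⟨47,[(3,17),(1,9),(8,23),(35,1),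
  (1,12),(0,0)]⟩,⟨0,[(29,0)]⟩⟩ ⟨true,0,⟨1,[(40,0),(0,0)]⟩,⟨24,[(12,0),(3,1),(0,1),(0,1),(3,0),(24,
  9),(0,1)]⟩⟩ ⟨false,1,⟨0,[(29,0),(0,0)]⟩,⟨7,[(9,0),(4,0),(1,1),(1,0),(12,6),(1,0),(5,3),(1,1)]⟩⟩,
  .o ⟨false,0,⟨0,[(41,0)]⟩,⟨1,[(24,0),(15,0),(11,0)]⟩⟩]⟩)) (.R ⟨0,false,false,false,[1,0,-1],[1,0,0,
  0,-1],[0,0,1],(⟨0,[(41,0)]⟩,⟨0,[(42,0)]⟩),(⟨0,[(35,0)]⟩,⟨0,[(36,0)]⟩),⟨0,[(33,0)]⟩,.k,.k,.k,.k,.k,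
  .k,⟨false,0,⟨4,[(8,0),(2,0),(14,2),(3,3),(0,3)]⟩,⟨24,[(11,0),(3,1),(0,1),(0,1),(3,0),(7,24),(2,
  24),(13,9),(0,1)]⟩⟩,⟨true,0,⟨13,[(5,0),(1,1),(3,3),(0,5),(1,0),(2,0),(10,2),(2,7),(3,5),(5,0)]⟩,
  ⟨0,[(32,0),(7,0)]⟩⟩,⟨false,1,⟨4,[(2,1),(1,0),(34,0),(0,0),(8,2),(2,3)]⟩,⟨4,[(0,0),(24,2),(25,
  0)]⟩⟩,⟨true,1,⟨0,[(29,0),(7,0)]⟩,⟨3,[(10,0),(0,2),(1,0),(1,1),(3,1),(10,3),(9,1)]⟩⟩,⟨false,0,⟨0,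
  []⟩,⟨0,[]⟩⟩,⟨false,0,⟨0,[]⟩,⟨0,[]⟩⟩,[.o ⟨false,1,⟨8,[(2,0),(26,8),(8,0),(0,0),(6,2),(2,1)]⟩,⟨2,
  [(11,0),(2,0),(4,0),(10,2),(9,0),(2,0)]⟩⟩,.o ⟨false,1,⟨0,[(29,0)]⟩,⟨0,[(15,0),(14,0),(18,0)]⟩⟩,.a
  ⟨true,0,⟨47,[(2,17),(1,9),(8,23),(35,1),(1,12),(0,0)]⟩,⟨0,[(28,0)]⟩⟩ ⟨true,0,⟨1,[(39,0),(0,0)]⟩,
  ⟨24,[(11,0),(3,1),(0,1),(0,1),(3,0),(24,9),(0,1)]⟩⟩ ⟨false,1,⟨0,[(28,0),(0,0)]⟩,⟨7,[(8,0),(4,0),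
  (1,1),(1,0),(12,6),(1,0),(5,3),(1,1)]⟩⟩,.o ⟨false,0,⟨0,[(40,0)]⟩,⟨1,[(23,0),(15,0),(11,
  0)]⟩⟩]⟩)))) (.R ⟨0,false,false,false,[1,0,-1],[1,0,0,0,-1],[0,0,1],(⟨0,[(38,0)]⟩,⟨0,[(39,0)]⟩),
  (⟨0,[(32,0)]⟩,⟨0,[(33,0)]⟩),⟨0,[(30,0)]⟩,.k,.k,.k,.k,.k,.k,⟨false,0,⟨4,[(5,0),(2,0),(14,2),(3,3),
  (0,3)]⟩,⟨24,[(8,0),(3,1),(0,1),(0,1),(3,0),(7,24),(2,24),(13,9),(0,1)]⟩⟩,⟨true,0,⟨13,[(2,0),(1,1),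
  (3,3),(0,5),(1,0),(2,0),(10,2),(2,7),(3,5),(5,0)]⟩,⟨0,[(29,0),(7,0)]⟩⟩,⟨false,1,⟨7,[(1,1),(5,1),
  (27,1),(0,4),(0,2),(11,5)]⟩,⟨4,[(3,0),(4,0),(13,1),(25,0)]⟩⟩,⟨true,1,⟨0,[(26,0),(7,0)]⟩,⟨3,[(7,0),
  (0,2),(1,0),(1,1),(3,1),(10,3),(9,1)]⟩⟩,⟨false,0,⟨0,[]⟩,⟨0,[]⟩⟩,⟨false,0,⟨0,[]⟩,⟨0,[]⟩⟩,[.o
  ⟨false,1,⟨0,[(26,0),(24,0)]⟩,⟨2,[(8,0),(2,0),(4,0),(10,2),(9,0),(2,0)]⟩⟩,.o ⟨false,1,⟨0,[(26,0)]⟩,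
  ⟨0,[(12,0),(14,0),(18,0)]⟩⟩,.a ⟨true,0,⟨3,[(7,1),(2,1),(37,0),(0,0)]⟩,⟨0,[(25,0)]⟩⟩ ⟨true,0,⟨1,
  [(36,0),(0,0)]⟩,⟨24,[(8,0),(3,1),(0,1),(0,1),(3,0),(24,9),(0,1)]⟩⟩ ⟨false,1,⟨0,[(25,0),(0,0)]⟩,⟨7,
  [(5,0),(4,0),(1,1),(1,0),(12,6),(1,0),(5,3),(1,1)]⟩⟩,.o ⟨false,0,⟨0,[(37,0)]⟩,⟨1,[(20,0),(15,0),
  (11,0)]⟩⟩]⟩)))) (.R ⟨0,false,false,false,[1,0,-1],[-1,0,1,0,1],[1,0,0,0,0,0,0,1,1],(⟨0,[(35,0)]⟩,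
  ⟨0,[(36,0)]⟩),(⟨3,[(1,0),(24,2),(0,1),(0,0),(1,0),(2,0),(3,0)]⟩,⟨0,[(29,0),(5,0)]⟩),⟨0,[(27,0)]⟩,
  .k,.k,.k,.k,.k,.k,⟨true,0,⟨0,[]⟩,⟨1,[(33,0),(0,0)]⟩⟩,⟨false,1,⟨1,[(15,0),(1,0),(8,1),(6,0)]⟩,⟨21,
  [(2,5),(1,5),(2,20),(2,1),(12,5),(1,15),(18,14),(0,8)]⟩⟩,⟨false,1,⟨11,[(2,4),(21,6),(0,6),(6,0),
  (0,0),(11,3),(0,2)]⟩,⟨1,[(5,1),(17,1),(2,1),(6,0),(0,0)]⟩⟩,⟨true,1,⟨12,[(2,0),(3,7),(1,9),(4,2),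
  (10,11),(1,0),(10,3),(5,6)]⟩,⟨0,[(4,0),(0,0),(1,0),(15,0)]⟩⟩,⟨false,0,⟨0,[]⟩,⟨0,[]⟩⟩,⟨false,0,⟨0,
  []⟩,⟨0,[]⟩⟩,[.o ⟨false,1,⟨0,[(24,0),(6,0),(5,0)]⟩,⟨1,[(4,0),(0,0),(1,0),(15,1)]⟩⟩,.o ⟨false,1,⟨2,
  [(0,0),(4,0),(0,1),(1,0),(7,0),(7,2),(9,2),(2,0)]⟩,⟨1,[(4,0),(0,0),(1,0),(15,1),(24,1)]⟩⟩,.a
  ⟨true,0,⟨3,[(4,1),(2,1),(37,0),(0,0)]⟩,⟨0,[(22,0)]⟩⟩ ⟨true,0,⟨4,[(2,1),(2,1),(14,0),(3,2),(0,2)]⟩,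
  ⟨3,[(4,1),(0,3),(17,3),(2,3),(6,0),(0,0),(8,1)]⟩⟩ ⟨false,1,⟨9,[(0,1),(4,1),(0,7),(1,3),(15,9),(8,
  2),(0,2),(2,3)]⟩,⟨17,[(4,8),(0,0),(1,16),(2,1),(12,17),(16,3),(3,7)]⟩⟩,.o ⟨false,0,⟨0,[(34,0)]⟩,
  ⟨1,[(17,0),(15,0),(11,0)]⟩⟩]⟩))) (.I [0,-1,2,2,0,0,0,-1] (.Q [0,0,0,0,0,-2,0,0,0,0,0,1] (.p true
  [0,0,1] [] (⟨0,[(35,0)]⟩,⟨0,[(34,0)]⟩) .k 0 (⟨0,[]⟩,⟨0,[]⟩) .k .k) (.S ⟨1,0,[0,0,-1,-1,0,0,0,1],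
  [0,-1,1],[0,0,1],(⟨0,[(28,0)]⟩,⟨0,[(35,0),(3,0)]⟩),⟨0,[(0,0)]⟩,.k,(.r (-1) ⟨0,[(11,0),(31,0),(2,
  0)]⟩ ⟨0,[(1,0),(46,0)]⟩),⟨true,0,⟨0,[(1,0),(41,0)]⟩,⟨0,[(11,0)]⟩⟩,⟨false,1,⟨13,[(4,1),(27,3),(0,
  3),(9,1),(1,2),(0,10)]⟩,⟨0,[]⟩⟩,⟨false,0,⟨0,[(1,0)]⟩,⟨0,[(11,0),(31,0),(2,0)]⟩⟩,⟨true,0,⟨0,[(44,
  0)]⟩,⟨0,[(43,0)]⟩⟩,[.o ⟨false,1,⟨3,[(6,1),(6,1),(23,0),(5,1),(2,0)]⟩,⟨2,[(1,0),(7,0),(0,0),(10,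
  1)]⟩⟩,.e ⟨false,1,⟨13,[(4,1),(27,3),(0,3),(9,1),(1,2),(0,10)]⟩,⟨24,[(5,0),(3,1),(0,1),(0,1),(3,0),
  (24,9),(0,1)]⟩⟩ ⟨false,1,⟨0,[(11,0),(34,0)]⟩,⟨1,[(1,0),(30,0),(0,0),(6,0)]⟩⟩,.a ⟨true,0,⟨0,[(33,
  0)]⟩,⟨28,[(1,0),(2,5),(2,7),(2,12),(3,4),(30,2)]⟩⟩ ⟨true,0,⟨1,[(33,0),(0,0)]⟩,⟨24,[(5,0),(3,1),(0,
  1),(0,1),(3,0),(24,9),(0,1)]⟩⟩ ⟨false,1,⟨1,[(11,0),(1,0),(32,1)]⟩,⟨3,[(1,1),(18,0),(11,0),(0,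
  0)]⟩⟩,.e ⟨false,1,⟨13,[(4,1),(27,3),(0,3),(9,1),(1,2),(0,10)]⟩,⟨0,[]⟩⟩ ⟨false,1,⟨0,[(11,0),(34,
  0)]⟩,⟨0,[(1,0),(41,0)]⟩⟩]⟩) (.Q [0,0,0,0,0,1,0,0,0,0,-2,1,1] (.p true [-1,1,1] [1,0,0,0,-1] (⟨0,
  [(27,0)]⟩,⟨0,[(35,0),(2,0)]⟩) .k 2 (⟨0,[(29,0)]⟩,⟨0,[(30,0)]⟩) .k (.r 0 ⟨17,[(4,3),(3,2),(1,2),(0,
  6),(12,17),(0,17),(14,1)]⟩ ⟨10,[(2,0),(20,9),(2,9),(5,5),(0,5),(6,1),(4,1)]⟩)) (.R ⟨0,false,false,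
  true,[1,0,0,0,-1],[0,-1,1],[1,1,-1,-1,0,0,0,1],(⟨0,[(30,0)]⟩,⟨0,[(31,0)]⟩),(⟨0,[(29,0)]⟩,⟨0,[(1,
  0),(37,0)]⟩),⟨0,[(0,0),(35,0)]⟩,.k,.k,.k,(.r (-1) ⟨1,[(2,0),(21,1),(2,1),(5,0),(0,0),(6,0)]⟩ ⟨0,
  [(12,0),(12,0),(0,0)]⟩),.k,.k,⟨true,0,⟨0,[]⟩,⟨1,[(34,0),(0,0)]⟩⟩,⟨false,1,⟨1,[(27,1),(6,1),(3,0),
  (7,0)]⟩,⟨0,[(11,0),(14,0)]⟩⟩,⟨false,0,⟨0,[(12,0),(12,0),(0,0)]⟩,⟨21,[(2,10),(0,0),(20,20),(2,20),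
  (5,5),(0,5),(6,1),(4,1)]⟩⟩,⟨true,0,⟨5,[(6,1),(2,1),(4,7),(3,0),(6,5),(8,2),(3,0)]⟩,⟨2,[(2,0),(2,
  1),(0,1),(1,0),(2,0),(12,2)]⟩⟩,⟨false,0,⟨0,[]⟩,⟨0,[]⟩⟩,⟨false,0,⟨0,[]⟩,⟨0,[]⟩⟩,[.e ⟨false,0,⟨0,
  [(12,0)]⟩,⟨25,[(2,11),(2,1),(27,17),(0,17),(11,8),(0,16)]⟩⟩ ⟨false,1,⟨9,[(7,3),(6,5),(3,1),(8,9),
  (10,0),(2,1),(2,3),(1,2)]⟩,⟨11,[(1,8),(0,7),(1,5),(2,3),(0,3),(17,11),(9,2),(5,4)]⟩⟩,.o ⟨false,1,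
  ⟨3,[(7,1),(6,1),(23,0),(5,1),(2,0)]⟩,⟨2,[(2,0),(7,0),(0,0),(10,1)]⟩⟩,.a ⟨true,0,⟨1,[(26,1),(12,0),
  (0,0),(1,0)]⟩,⟨0,[(27,0)]⟩⟩ ⟨true,0,⟨0,[(13,0)]⟩,⟨3,[(2,1),(18,0),(11,0),(0,0)]⟩⟩ ⟨false,1,⟨3,[(7,
  1),(6,1),(12,3),(10,0),(5,1),(2,0)]⟩,⟨11,[(1,8),(0,7),(1,5),(2,3),(0,3),(17,11),(9,2),(5,4)]⟩⟩,.o
  ⟨false,0,⟨0,[(26,0)]⟩,⟨1,[(27,1),(10,0),(7,0)]⟩⟩]⟩) (.Q [0,0,0,0,0,-1,0,0,0,0,1,0,-1] (.ed true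
  [0,1,0,0,1] .k) (.K ⟨1,[0,1,0,0,1],0,(-1),(⟨0,[(32,0),(8,0)]⟩,⟨0,[(0,0)]⟩),.k,.k,(.r 0 ⟨7,[(3,5),
  (2,2),(4,0),(14,7),(0,7),(14,4),(0,0)]⟩ ⟨0,[(15,0),(5,0),(3,0),(2,0)]⟩),.k,.k,[⟨1,[(27,1),(7,0),
  (0,0)]⟩,⟨0,[(28,0)]⟩,⟨0,[(25,0),(19,0),(4,0)]⟩,⟨0,[(6,0),(0,0),(18,0)]⟩,⟨0,[(27,0)]⟩]⟩) (.R ⟨0,
  false,false,false,[1,0,0,0,-1],[0,1],[1,0,1,1],(⟨0,[(31,0)]⟩,⟨0,[(32,0)]⟩),(⟨0,[(41,0)]⟩,⟨0,[(40,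
  0)]⟩),⟨0,[(0,0)]⟩,.k,.k,.k,.k,.k,.k,⟨true,0,⟨0,[]⟩,⟨1,[(35,0),(0,0)]⟩⟩,⟨false,1,⟨3,[(12,1),(6,1),
  (8,3),(10,0),(7,0)]⟩,⟨0,[(27,0),(12,0),(0,0)]⟩⟩,⟨false,0,⟨2,[(3,0),(6,0),(1,0),(13,2),(0,2)]⟩,⟨17,
  [(4,0),(8,5),(7,0),(3,16),(2,16),(16,10),(1,1)]⟩⟩,⟨true,0,⟨0,[(11,0),(14,0)]⟩,⟨3,[(4,0),(1,1),(2,
  1),(3,2),(1,0),(9,2),(1,0),(5,0),(1,2)]⟩⟩,⟨false,0,⟨0,[]⟩,⟨0,[]⟩⟩,⟨false,0,⟨0,[]⟩,⟨0,[]⟩⟩,[.e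
  ⟨false,0,⟨2,[(3,0),(6,0),(1,0)]⟩,⟨1,[(45,1),(1,0),(0,0)]⟩⟩ ⟨false,1,⟨9,[(3,1),(7,3),(0,1),(5,1),
  (9,9),(10,2),(7,4)]⟩,⟨1,[(8,0),(0,0),(5,0),(11,1),(15,0)]⟩⟩,.o ⟨false,1,⟨5,[(3,1),(8,1),(5,1),(20,
  2),(8,0)]⟩,⟨0,[(45,0)]⟩⟩,.a ⟨true,0,⟨1,[(27,1),(12,0),(0,0),(1,0)]⟩,⟨0,[(28,0)]⟩⟩ ⟨true,0,⟨4,[(3,
  1),(2,0),(43,0)]⟩,⟨0,[(44,0)]⟩⟩ ⟨false,1,⟨5,[(3,1),(8,1),(5,1),(9,5),(10,2),(8,0)]⟩,⟨1,[(8,0),(0,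
  0),(5,0),(11,1),(15,0)]⟩⟩,.o ⟨false,0,⟨0,[(27,0)]⟩,⟨1,[(28,1),(10,0),(7,0)]⟩⟩]⟩)))) (.R ⟨0,false,
  false,true,[-1,1,1],[1,0,0,0,-1],[1,1,0,0,0,0,0,0,-1],(⟨0,[(26,0)]⟩,⟨0,[(34,0),(2,0)]⟩),(⟨0,[(28,
  0)]⟩,⟨0,[(29,0)]⟩),⟨0,[(34,0)]⟩,.k,.k,.k,(.r 0 ⟨5,[(3,2),(4,0),(14,5),(0,5),(14,0),(0,0),(2,1)]⟩
  ⟨17,[(0,1),(0,3),(20,13),(2,13),(16,13),(1,6),(0,0)]⟩),.k,.k,⟨true,0,⟨0,[]⟩,⟨1,[(32,0),(0,0)]⟩⟩,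
  ⟨false,0,⟨3,[(3,1),(2,1),(17,3),(12,1),(0,1),(1,1),(3,0),(0,0)]⟩,⟨0,[(16,0),(8,0)]⟩⟩,⟨true,0,⟨21,
  [(0,12),(0,10),(1,7),(8,3),(9,10),(2,10),(13,3)]⟩,⟨5,[(3,2),(4,0),(14,5),(0,5),(14,0),(0,0),(2,
  1)]⟩⟩,⟨false,0,⟨0,[(6,0),(15,0),(7,0)]⟩,⟨1,[(7,0),(7,0),(7,1),(12,0)]⟩⟩,⟨false,0,⟨0,[]⟩,⟨0,[]⟩⟩,
  ⟨false,0,⟨0,[]⟩,⟨0,[]⟩⟩,[.a ⟨true,0,⟨1,[(3,0),(0,0),(1,0),(15,1),(7,1)]⟩,⟨0,[(23,0)]⟩⟩ ⟨true,0,⟨1,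
  [(0,0),(0,0),(1,1),(18,0),(2,0)]⟩,⟨0,[(23,0),(0,0)]⟩⟩ ⟨false,0,⟨31,[(1,2),(1,25),(2,25),(15,28),
  (1,2),(5,14),(1,4),(6,9),(0,11)]⟩,⟨0,[(16,0),(6,0)]⟩⟩,.o ⟨false,1,⟨0,[(22,0),(24,0)]⟩,⟨2,[(4,0),
  (2,0),(4,0),(10,2),(9,0),(2,0)]⟩⟩,.o ⟨false,1,⟨0,[(16,0)]⟩,⟨15,[(3,9),(2,7),(24,3),(0,4),(0,0),(8,
  1),(2,7)]⟩⟩,.o ⟨false,1,⟨1,[(16,0),(15,0),(3,0)]⟩,⟨3,[(3,1),(2,1),(37,0),(0,0)]⟩⟩]⟩))) (.I [1,0,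
  -1,-1,1,0,0,3] (.I [1,0,1,1,-1,0,0,-3] (.I [0,0,-1,0,0,-1,-3] (.N [0,-1,3] (-1) ⟨0,[(2,0)]⟩ ⟨0,
  [(1,0)]⟩ (.x (-1) ⟨8,[(1,3),(1,2),(2,5),(1,0),(4,4),(3,5),(15,1),(1,20),(1,0)]⟩ ⟨0,[(0,0)]⟩)) (.R
  ⟨0,false,false,false,[0,-1,1],[1,0,-1],[0,0,1],(⟨0,[(28,0)]⟩,⟨23,[(3,7),(0,1),(2,1),(2,11),(24,7),
  (9,0),(0,0)]⟩),(⟨0,[(35,0)]⟩,⟨0,[(36,0)]⟩),⟨6,[(0,3),(2,0),(6,6),(16,6),(6,6)]⟩,.k,.k,(.r (-1)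
  ⟨17,[(2,9),(16,11),(23,13),(1,0),(0,6)]⟩ ⟨48,[(1,40),(1,4),(0,41),(11,14),(15,24),(3,9),(1,14),(7,
  25)]⟩),(.r (-1) ⟨5,[(2,3),(40,1),(1,0),(0,0)]⟩ ⟨6,[(1,3),(1,0),(12,2),(15,4),(3,1),(1,2),(7,0)]⟩),
  .k,.k,⟨false,1,⟨13,[(4,7),(27,1),(0,1),(9,7),(1,4),(0,8)]⟩,⟨15,[(1,3),(8,1),(4,0),(3,3),(25,2)]⟩⟩,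
  ⟨true,0,⟨0,[(10,0),(23,0)]⟩,⟨0,[(0,0),(26,0),(0,1),(5,0)]⟩⟩,⟨true,0,⟨3,[(1,1),(2,1),(27,1),(0,2),
  (0,0),(11,1)]⟩,⟨0,[(11,0)]⟩⟩,⟨false,0,⟨1,[(7,0),(13,1),(22,2),(1,0)]⟩,⟨0,[(6,0),(6,0)]⟩⟩,⟨false,0,
  ⟨0,[]⟩,⟨0,[]⟩⟩,⟨false,0,⟨0,[]⟩,⟨0,[]⟩⟩,[.o ⟨false,0,⟨0,[(21,0)]⟩,⟨19,[(2,1),(1,3),(1,5),(26,7),(3,
  6),(5,1),(1,4)]⟩⟩,.e ⟨false,1,⟨13,[(4,1),(27,3),(0,3),(9,1),(1,2),(0,10)]⟩,⟨24,[(5,0),(3,1),(0,1),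
  (0,1),(3,0),(24,9),(0,1)]⟩⟩ ⟨false,1,⟨0,[(10,0),(21,0),(13,0)]⟩,⟨3,[(0,1),(7,1),(4,1),(13,1),(0,
  3),(4,0),(0,0)]⟩⟩,.e ⟨true,0,⟨1,[(33,0),(0,0)]⟩,⟨24,[(5,0),(3,1),(0,1),(0,1),(3,0),(24,9),(0,
  1)]⟩⟩ ⟨true,0,⟨4,[(4,0),(2,0),(2,2),(10,3),(10,0),(13,0)]⟩,⟨3,[(0,1),(7,1),(4,1),(13,1),(0,3),(4,
  0),(0,0)]⟩⟩,.a ⟨true,0,⟨1,[(33,2),(0,0)]⟩,⟨0,[(10,0)]⟩⟩ ⟨false,1,⟨13,[(4,1),(27,3),(0,3),(9,1),(1,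
  2),(0,10)]⟩,⟨0,[]⟩⟩ ⟨true,0,⟨0,[(10,0),(10,0)]⟩,⟨3,[(0,1),(7,1),(4,1),(13,1),(0,3),(4,2),(0,
  2)]⟩⟩]⟩)) (.Q [0,0,0,0,0,0,0,0,0,0,0,-1,1] (.ed false [1,0,-1,0,1] .k) (.K ⟨0,[0,0,-1,0,1],0,(-1),
  (⟨0,[(0,0)]⟩,⟨0,[(29,0),(6,0)]⟩),.k,(.r 0 ⟨3,[(19,2),(0,0),(3,3),(0,3),(14,0),(2,0)]⟩ ⟨2,[(4,1),
  (18,2),(2,2),(5,0),(0,0),(10,0)]⟩),(.r 0 ⟨1,[(20,0),(3,1),(0,1),(6,0),(0,0),(10,1)]⟩ ⟨1,[(11,0),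
  (1,0),(9,1),(2,1)]⟩),(.r 1 ⟨0,[(5,0),(18,0),(0,0)]⟩ ⟨25,[(1,13),(2,13),(18,25),(2,25),(5,17),(0,
  17),(11,8),(0,2)]⟩),.k,[⟨0,[(22,0),(2,0)]⟩,⟨0,[(26,0),(7,0)]⟩,⟨5,[(4,0),(18,5),(7,3),(1,1),(6,2),
  (2,0)]⟩,⟨3,[(4,0),(0,2),(1,0),(1,1),(3,1),(10,3),(9,1)]⟩]⟩) (.K ⟨0,[0,0,1,0,-1],0,1,(⟨0,[(0,0)]⟩,
  ⟨0,[(30,0),(4,0)]⟩),.k,(.r (-1) ⟨1,[(11,0),(1,0),(9,1),(2,1)]⟩ ⟨1,[(20,0),(3,1),(0,1),(6,0),(0,0),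
  (10,1)]⟩),(.r (-1) ⟨2,[(4,1),(18,2),(2,2),(5,0),(0,0),(10,0)]⟩ ⟨3,[(19,2),(0,0),(3,3),(0,3),(14,
  0),(2,0)]⟩),.k,.k,[⟨0,[(26,0),(7,0)]⟩,⟨0,[(22,0),(2,0)]⟩,⟨3,[(4,0),(0,2),(1,0),(1,1),(3,1),(10,3),
  (9,1)]⟩,⟨5,[(4,0),(18,5),(7,3),(1,1),(6,2),(2,0)]⟩]⟩))) (.Q [0,0,0,0,0,1,0,0,0,0,-1,0,1] (.ed
  false [0,1,0,0,1] .k) (.R ⟨0,false,false,false,[1,0,0,0,-1],[0,1],[1,0,1,1],(⟨0,[(28,0)]⟩,⟨0,[(29,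
  0)]⟩),(⟨0,[(38,0)]⟩,⟨0,[(37,0)]⟩),⟨0,[(0,0)]⟩,.k,.k,.k,.k,.k,.k,⟨true,0,⟨0,[]⟩,⟨1,[(32,0),(0,
  0)]⟩⟩,⟨false,1,⟨3,[(9,1),(6,1),(8,3),(10,0),(7,0)]⟩,⟨12,[(2,1),(0,1),(2,1),(17,12),(10,3),(1,5),
  (2,2),(3,0),(0,0)]⟩⟩,⟨false,0,⟨0,[(23,0),(0,0),(18,0)]⟩,⟨8,[(10,1),(7,1),(3,8),(2,8),(13,0),(2,
  4)]⟩⟩,⟨true,0,⟨0,[(8,0),(14,0)]⟩,⟨1,[(3,0),(0,0),(1,0),(3,0),(1,0),(9,1),(9,1)]⟩⟩,⟨false,0,⟨0,[]⟩,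
  ⟨0,[]⟩⟩,⟨false,0,⟨0,[]⟩,⟨0,[]⟩⟩,[.e ⟨false,0,⟨0,[(43,0)]⟩,⟨1,[(42,1),(1,0),(0,0)]⟩⟩ ⟨false,1,⟨1,
  [(8,0),(6,0),(4,0),(4,1),(18,0)]⟩,⟨1,[(5,0),(0,0),(5,0),(11,1),(15,0)]⟩⟩,.o ⟨false,1,⟨0,[(15,0),
  (4,0)]⟩,⟨0,[(42,0)]⟩⟩,.a ⟨true,0,⟨25,[(2,1),(0,1),(2,1),(17,25),(10,3),(1,5),(2,15),(3,0),(0,0)]⟩,
  ⟨0,[(25,0)]⟩⟩ ⟨true,0,⟨48,[(1,17),(0,0),(0,27),(11,2),(15,4),(3,1),(1,2),(7,14)]⟩,⟨0,[(41,0)]⟩⟩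
  ⟨false,1,⟨0,[(15,0),(4,0),(4,0)]⟩,⟨1,[(5,0),(0,0),(5,0),(11,1),(15,0)]⟩⟩,.o ⟨false,0,⟨0,[(24,0)]⟩,
  ⟨1,[(25,1),(10,0),(7,0)]⟩⟩]⟩) (.K ⟨1,[0,1,0,0,1],0,(-1),(⟨0,[(29,0),(8,0)]⟩,⟨0,[(0,0)]⟩),.k,.k,
  (.r 0 ⟨97,[(1,71),(0,3),(0,111),(11,11),(7,97),(0,97),(6,19),(3,7),(1,11),(6,48),(0,10)]⟩ ⟨0,[(12,
  0),(5,0),(3,0),(2,0)]⟩),.k,.k,[⟨1,[(24,1),(7,0),(0,0)]⟩,⟨0,[(25,0)]⟩,⟨0,[(22,0),(19,0),(4,0)]⟩,⟨0,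
  [(3,0),(0,0),(18,0)]⟩,⟨0,[(24,0)]⟩]⟩))))))))) (.I [0,1,1,0,0,0,0,2] (.R ⟨0,false,false,true,[1,0,
  -1],[0,0,1],[0,1,1,0,0,0,0,1],(⟨0,[(27,0)]⟩,⟨0,[(28,0)]⟩),(⟨0,[(28,0)]⟩,⟨0,[(27,0)]⟩),⟨0,[(19,
  0)]⟩,.k,.k,.k,.k,.k,.k,⟨true,0,⟨1,[(25,0),(0,0)]⟩,⟨0,[]⟩⟩,⟨false,1,⟨1,[(7,0),(17,1),(11,0)]⟩,⟨2,
  [(2,1),(23,3),(3,0),(0,0)]⟩⟩,⟨true,0,⟨0,[(0,0)]⟩,⟨0,[(11,0),(1,0),(11,0),(10,0)]⟩⟩,⟨false,1,⟨2,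
  [(0,0),(0,0),(3,0),(1,0),(0,1),(14,0),(1,0)]⟩,⟨0,[(1,0),(11,1),(22,0)]⟩⟩,⟨false,0,⟨0,[]⟩,⟨0,[]⟩⟩,
  ⟨false,0,⟨0,[]⟩,⟨0,[]⟩⟩,[.e ⟨false,0,⟨0,[(10,0)]⟩,⟨0,[(12,0),(25,0)]⟩⟩ ⟨false,1,⟨1,[(9,0),(13,1),
  (1,0),(11,0)]⟩,⟨0,[(1,0),(9,0),(14,1),(9,1)]⟩⟩,.o ⟨false,1,⟨0,[(8,0),(26,0)]⟩,⟨0,[(13,0)]⟩⟩,.a
  ⟨true,0,⟨2,[(2,0),(23,1),(3,1),(0,1)]⟩,⟨0,[(14,0)]⟩⟩ ⟨true,0,⟨2,[(0,1),(23,0),(0,0)]⟩,⟨2,[(11,1),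
  (1,0),(11,0),(10,1)]⟩⟩ ⟨false,1,⟨3,[(7,0),(0,1),(14,1),(1,1),(9,1),(2,0)]⟩,⟨0,[(1,0),(9,0),(14,1),
  (9,1)]⟩⟩,.o ⟨false,0,⟨0,[(26,0)]⟩,⟨1,[(9,0),(15,0),(11,0)]⟩⟩]⟩) (.Q [0,0,0,0,0,-2,0,0,0,0,0,1]
  (.p true [0,0,1] [] (⟨0,[(28,0)]⟩,⟨0,[(27,0)]⟩) .k 0 (⟨0,[]⟩,⟨0,[]⟩) .k .k) (.I [0,-1,2,2,0,0,0,
  -1] (.S ⟨1,0,[0,0,-1,-1,0,0,0,1],[0,-1,1],[0,0,1],(⟨0,[(22,0)]⟩,⟨0,[(29,0),(3,0)]⟩),⟨0,[(1,0)]⟩,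
  .k,(.r (-1) ⟨0,[(5,0),(31,0),(2,0)]⟩ ⟨0,[(0,0),(41,0)]⟩),⟨true,0,⟨0,[(0,0),(36,0)]⟩,⟨0,[(5,0)]⟩⟩,
  ⟨false,1,⟨0,[(40,0),(1,0)]⟩,⟨0,[]⟩⟩,⟨false,0,⟨0,[(0,0)]⟩,⟨0,[(5,0),(31,0),(2,0)]⟩⟩,⟨true,0,⟨0,
  [(38,0)]⟩,⟨0,[(37,0)]⟩⟩,[.o ⟨false,1,⟨1,[(7,1),(3,0),(15,0),(12,0)]⟩,⟨0,[(15,0),(22,0)]⟩⟩,.e
  ⟨false,1,⟨0,[(40,0),(1,0)]⟩,⟨8,[(2,0),(2,1),(28,3),(3,1)]⟩⟩ ⟨false,1,⟨0,[(5,0),(34,0)]⟩,⟨1,[(0,0),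
  (25,0),(0,0),(6,0)]⟩⟩,.a ⟨true,0,⟨0,[(27,0)]⟩,⟨2,[(4,1),(23,0),(3,0),(0,0)]⟩⟩ ⟨true,0,⟨1,[(27,0),
  (0,0)]⟩,⟨8,[(2,0),(2,1),(28,3),(3,1)]⟩⟩ ⟨false,1,⟨1,[(5,0),(1,0),(32,1)]⟩,⟨3,[(0,1),(13,0),(11,0),
  (0,0)]⟩⟩,.e ⟨false,1,⟨0,[(40,0),(1,0)]⟩,⟨0,[]⟩⟩ ⟨false,1,⟨0,[(5,0),(34,0)]⟩,⟨0,[(0,0),(36,
  0)]⟩⟩]⟩) (.Q [0,0,0,0,0,0,0,0,0,0,0,1,-1] (.ed true [1,0,-1,0,1] .k) (.R ⟨0,false,false,false,[1,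
  0,-1],[1,0,-1,0,1],[0,1],(⟨0,[(30,0)]⟩,⟨0,[(31,0)]⟩),(⟨0,[(25,0),(4,0)]⟩,⟨0,[(0,0)]⟩),⟨0,[(22,
  0)]⟩,.k,.k,.k,.k,.k,.k,⟨false,1,⟨3,[(6,0),(6,2),(4,3),(2,3),(13,1),(3,0)]⟩,⟨8,[(3,4),(2,0),(12,8),
  (0,8),(14,1),(3,0)]⟩⟩,⟨true,0,⟨0,[(21,0)]⟩,⟨0,[(20,0)]⟩⟩,⟨true,0,⟨0,[(13,0)]⟩,⟨2,[(3,0),(23,0),(0,
  0)]⟩⟩,⟨false,0,⟨0,[(19,0)]⟩,⟨0,[(18,0),(24,0)]⟩⟩,⟨false,0,⟨0,[]⟩,⟨0,[]⟩⟩,⟨false,0,⟨0,[]⟩,⟨0,[]⟩⟩,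
  [.e ⟨false,0,⟨8,[(3,0),(2,1),(28,3),(3,1)]⟩,⟨0,[(41,0),(1,0)]⟩⟩ ⟨false,0,⟨0,[(15,0),(3,0)]⟩,⟨0,
  [(13,0),(4,0)]⟩⟩,.e ⟨false,1,⟨1,[(40,0),(0,0),(1,1)]⟩,⟨0,[]⟩⟩ ⟨false,0,⟨8,[(3,4),(2,0),(12,8),(15,
  1),(3,0)]⟩,⟨0,[(13,0),(4,0),(24,0)]⟩⟩,.a ⟨true,0,⟨2,[(5,0),(23,1),(3,1),(0,1)]⟩,⟨0,[(17,0)]⟩⟩
  ⟨true,0,⟨0,[(43,0)]⟩,⟨0,[]⟩⟩ ⟨false,0,⟨2,[(3,0),(15,2),(7,0),(0,0)]⟩,⟨0,[(13,0),(4,0)]⟩⟩,.o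
  ⟨false,0,⟨0,[(29,0)]⟩,⟨1,[(12,0),(15,0),(11,0)]⟩⟩]⟩) (.R ⟨0,false,false,true,[1,0,0,0,-1],[1,0,1,
  0,-1],[0,1],(⟨0,[(24,0)]⟩,⟨0,[(25,0)]⟩),(⟨0,[(24,0),(6,0)]⟩,⟨0,[(0,0)]⟩),⟨0,[(0,0),(21,0)]⟩,.k,.k,
  .k,.k,.k,.k,⟨false,0,⟨2,[(3,1),(2,0),(12,2),(0,2),(14,1),(3,0)]⟩,⟨0,[(13,0),(4,0),(2,0)]⟩⟩,⟨true,
  0,⟨0,[(17,0)]⟩,⟨0,[(29,0)]⟩⟩,⟨false,0,⟨8,[(3,0),(2,1),(12,8),(0,8),(14,3),(3,1)]⟩,⟨0,[(18,0),(2,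
  0)]⟩⟩,⟨true,0,⟨0,[(26,0)]⟩,⟨0,[(16,0)]⟩⟩,⟨false,0,⟨0,[]⟩,⟨0,[]⟩⟩,⟨false,0,⟨0,[]⟩,⟨0,[]⟩⟩,[.e
  ⟨false,0,⟨8,[(3,0),(2,1),(28,3),(3,1)]⟩,⟨0,[(41,0),(1,0)]⟩⟩ ⟨false,1,⟨8,[(3,0),(2,1),(11,8),(2,8),
  (4,8),(8,3),(3,1)]⟩,⟨1,[(3,0),(2,0),(9,0),(2,1),(0,1),(8,0),(9,0)]⟩⟩,.e ⟨false,1,⟨1,[(40,0),(0,0),
  (1,1)]⟩,⟨0,[]⟩⟩ ⟨false,1,⟨1,[(6,0),(10,0),(0,1),(2,1),(4,0),(12,0)]⟩,⟨8,[(3,0),(2,1),(9,8),(2,8),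
  (0,8),(14,3),(3,1)]⟩⟩,.a ⟨true,0,⟨1,[(20,1),(12,0),(0,0),(1,0)]⟩,⟨0,[(21,0)]⟩⟩ ⟨true,0,⟨0,[(43,
  0)]⟩,⟨0,[]⟩⟩ ⟨false,1,⟨0,[(18,0),(2,0),(4,0)]⟩,⟨1,[(3,0),(2,0),(9,0),(2,1),(0,1),(8,0),(9,0)]⟩⟩,
  .o ⟨false,0,⟨0,[(20,0)]⟩,⟨1,[(21,1),(10,0),(7,0)]⟩⟩]⟩))) (.Q [0,1,0,0,-1,0,-2,-1,0,0,1,-2] (.p
  false [0,0,1] [1,0,-1] (⟨0,[(29,0)]⟩,⟨0,[(28,0)]⟩) .k 2 (⟨0,[(28,0)]⟩,⟨0,[(29,0)]⟩) .k (.r (-1)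
  ⟨0,[(11,1),(27,0)]⟩ ⟨2,[(1,1),(23,1),(0,1)]⟩)) (.R ⟨0,false,false,false,[1,0,-1],[0,0,1],[1,0,0,0,
  0,0,0,1],(⟨0,[(29,0)]⟩,⟨0,[(30,0)]⟩),(⟨0,[(30,0)]⟩,⟨0,[(29,0)]⟩),⟨0,[(21,0)]⟩,.k,.k,.k,.k,.k,.k,
  ⟨true,0,⟨0,[]⟩,⟨1,[(27,0),(0,0)]⟩⟩,⟨false,1,⟨1,[(9,0),(17,1),(11,0)]⟩,⟨5,[(0,3),(0,0),(6,3),(19,
  3),(1,0),(1,1)]⟩⟩,⟨false,1,⟨2,[(0,0),(2,2),(1,0),(4,3),(1,1),(15,1)]⟩,⟨2,[(2,1),(23,1),(0,1)]⟩⟩,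
  ⟨true,1,⟨1,[(5,0),(1,0),(2,1),(16,1)]⟩,⟨2,[(0,2),(1,0),(23,0),(0,0)]⟩⟩,⟨false,0,⟨0,[]⟩,⟨0,[]⟩⟩,
  ⟨false,0,⟨0,[]⟩,⟨0,[]⟩⟩,[.o ⟨false,1,⟨0,[(10,0),(26,0)]⟩,⟨0,[(15,0)]⟩⟩,.e ⟨false,1,⟨0,[(8,0)]⟩,⟨1,
  [(14,0),(11,0),(0,0)]⟩⟩ ⟨false,2,⟨3,[(9,0),(0,1),(14,1),(1,1),(9,1),(1,1),(0,2)]⟩,⟨0,[(0,0)]⟩⟩,.a
  ⟨true,0,⟨2,[(0,0),(0,0),(6,0),(19,0),(1,0),(1,1)]⟩,⟨0,[(16,0)]⟩⟩ ⟨false,1,⟨0,[(12,0),(27,0)]⟩,⟨2,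
  [(2,0),(23,0),(0,0)]⟩⟩ ⟨true,1,⟨3,[(9,0),(0,1),(14,1),(1,1),(9,1),(2,0)]⟩,⟨0,[(0,0)]⟩⟩,.o ⟨false,
  0,⟨0,[(28,0)]⟩,⟨1,[(11,0),(15,0),(11,0)]⟩⟩]⟩) (.Q [0,1,0,0,-1,0,-1,-1,0,0,1,-1] (.p false [0,0,1]
  [1] (⟨0,[(30,0)]⟩,⟨0,[(29,0)]⟩) .k 1 (⟨0,[]⟩,⟨0,[]⟩) .k .k) (.R ⟨0,false,false,false,[1,0,-1],[0,
  0,1],[1,0,0,0,0,0,0,1],(⟨0,[(30,0)]⟩,⟨0,[(31,0)]⟩),(⟨0,[(31,0)]⟩,⟨0,[(30,0)]⟩),⟨0,[(22,0)]⟩,.k,.k,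
  .k,.k,.k,.k,⟨true,0,⟨0,[]⟩,⟨1,[(28,0),(0,0)]⟩⟩,⟨false,1,⟨1,[(10,0),(17,1),(11,0)]⟩,⟨5,[(2,0),(2,
  3),(23,7),(1,0),(1,1)]⟩⟩,⟨false,1,⟨1,[(4,1),(1,0),(4,1),(1,0),(15,1),(9,0)]⟩,⟨2,[(3,1),(23,1),(0,
  1)]⟩⟩,⟨true,1,⟨0,[(1,0),(11,0)]⟩,⟨0,[(0,0),(15,0)]⟩⟩,⟨false,0,⟨0,[]⟩,⟨0,[]⟩⟩,⟨false,0,⟨0,[]⟩,⟨0,
  []⟩⟩,[.o ⟨false,1,⟨0,[(11,0),(26,0)]⟩,⟨0,[(16,0)]⟩⟩,.a ⟨true,1,⟨0,[(26,0),(14,0)]⟩,⟨0,[(0,0)]⟩⟩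
  ⟨false,1,⟨0,[(9,0)]⟩,⟨1,[(15,0),(11,0),(0,0)]⟩⟩ ⟨true,1,⟨0,[(1,0)]⟩,⟨0,[(0,0),(28,0)]⟩⟩,.e ⟨false,
  1,⟨0,[(13,0),(27,0)]⟩,⟨2,[(3,0),(23,0),(0,0)]⟩⟩ ⟨false,1,⟨0,[(1,0)]⟩,⟨11,[(0,5),(1,0),(2,3),(21,
  5),(1,7),(1,0),(1,1),(7,5)]⟩⟩,.o ⟨false,0,⟨0,[(29,0)]⟩,⟨1,[(12,0),(15,0),(11,0)]⟩⟩]⟩) (.Q [0,0,2,
  0,-1,0,-1,0,0,0,2,-1] (.p false [-1,1,1] [1] (⟨0,[(22,0)]⟩,⟨0,[(30,0),(2,0)]⟩) .k 1 (⟨0,[]⟩,⟨0,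
  []⟩) .k .k) (.I [0,0,-2,-2,0,0,0,-1] (.K ⟨1,[2,-1,-1],(-1),(-1),(⟨0,[(32,0),(2,0)]⟩,⟨0,[(24,0)]⟩),
  .k,(.r 0 ⟨0,[(0,0)]⟩ ⟨0,[(1,0),(11,1),(15,0),(15,0)]⟩),.k,.k,.k,[⟨1,[(14,0),(15,0),(3,0)]⟩,⟨0,[(1,
  0)]⟩,⟨0,[(28,0),(5,0),(6,0)]⟩,⟨2,[(0,0),(0,2),(14,0),(0,0),(19,0)]⟩,⟨0,[(14,0)]⟩]⟩) (.I [0,0,-2,0,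
  1,-2,1] (.K ⟨1,[2,-1,-1],(-1),(-1),(⟨0,[(33,0),(2,0)]⟩,⟨0,[(25,0)]⟩),.k,(.x 0 ⟨4,[(1,1),(0,2),(2,
  1),(19,5),(4,1),(3,0),(6,3),(2,2)]⟩ ⟨0,[(0,0)]⟩),.k,.k,.k,[⟨1,[(15,0),(15,0),(3,0)]⟩,⟨0,[(2,0)]⟩,
  ⟨3,[(1,1),(13,2),(0,0),(12,0),(5,0),(2,0)]⟩,⟨3,[(2,3),(14,2),(0,0),(19,0),(2,0)]⟩,⟨0,[(15,0)]⟩]⟩)
  (.I [0,0,2,0,-1,2,-1] (.K ⟨1,[2,-1,-1],(-1),(-1),(⟨0,[(34,0),(2,0)]⟩,⟨0,[(26,0)]⟩),.k,(.x 1 ⟨0,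
  [(0,0)]⟩ ⟨1,[(16,1),(17,1),(1,0),(0,3),(6,0)]⟩),.k,.k,.k,[⟨1,[(16,0),(15,0),(3,0)]⟩,⟨0,[(3,0)]⟩,
  ⟨3,[(2,1),(13,2),(0,0),(12,0),(5,0),(2,0)]⟩,⟨3,[(3,3),(14,2),(0,0),(19,0),(2,0)]⟩,⟨0,[(16,0)]⟩]⟩)
  (.Q [0,0,0,0,0,0,0,0,0,0,0,1,-1] (.ed true [1,0,-1,0,1] .k) (.R ⟨0,false,false,false,[1,0,-1],[1,
  0,-1,0,1],[0,1],(⟨0,[(35,0)]⟩,⟨0,[(36,0)]⟩),(⟨0,[(30,0),(4,0)]⟩,⟨0,[(0,0)]⟩),⟨0,[(27,0)]⟩,.k,.k,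
  .k,.k,.k,.k,⟨false,1,⟨4,[(3,0),(7,1),(6,1),(4,4),(2,4),(13,2)]⟩,⟨8,[(8,4),(2,0),(12,8),(0,8),(14,
  1),(3,0)]⟩⟩,⟨true,0,⟨0,[(26,0)]⟩,⟨0,[(25,0)]⟩⟩,⟨true,0,⟨0,[(18,0)]⟩,⟨2,[(8,0),(23,0),(0,0)]⟩⟩,
  ⟨false,0,⟨0,[(24,0)]⟩,⟨8,[(3,0),(19,8),(8,0),(0,0),(6,2),(2,1)]⟩⟩,⟨false,0,⟨0,[]⟩,⟨0,[]⟩⟩,⟨false,
  0,⟨0,[]⟩,⟨0,[]⟩⟩,[.e ⟨false,0,⟨8,[(8,0),(2,1),(28,3),(3,1)]⟩,⟨11,[(3,1),(28,1),(0,1),(9,3),(1,2),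
  (0,8)]⟩⟩ ⟨false,0,⟨0,[(20,0),(3,0)]⟩,⟨0,[(18,0),(4,0)]⟩⟩,.e ⟨false,1,⟨11,[(3,1),(28,1),(0,1),(9,
  3),(1,8),(0,2)]⟩,⟨0,[]⟩⟩ ⟨false,0,⟨8,[(8,4),(2,0),(12,8),(15,1),(3,0)]⟩,⟨2,[(3,0),(9,1),(9,2),(16,
  1)]⟩⟩,.a ⟨true,0,⟨4,[(4,1),(5,0),(3,1),(17,1)]⟩,⟨0,[(22,0)]⟩⟩ ⟨true,0,⟨8,[(3,0),(28,0),(0,0),(6,
  2),(2,1)]⟩,⟨0,[]⟩⟩ ⟨false,0,⟨2,[(8,0),(15,2),(7,0),(0,0)]⟩,⟨0,[(18,0),(4,0)]⟩⟩,.o ⟨false,0,⟨0,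
  [(34,0)]⟩,⟨1,[(17,0),(15,0),(11,0)]⟩⟩]⟩) (.R ⟨0,false,false,true,[1,0,0,0,-1],[1,0,1,0,-1],[0,1],
  (⟨0,[(29,0)]⟩,⟨0,[(30,0)]⟩),(⟨0,[(29,0),(6,0)]⟩,⟨0,[(0,0)]⟩),⟨0,[(0,0),(26,0)]⟩,.k,.k,.k,.k,.k,.k,
  ⟨false,0,⟨2,[(8,1),(2,0),(12,2),(0,2),(14,1),(3,0)]⟩,⟨0,[(18,0),(4,0),(2,0)]⟩⟩,⟨true,0,⟨0,[(22,
  0)]⟩,⟨0,[(34,0)]⟩⟩,⟨false,0,⟨8,[(8,0),(2,1),(12,8),(0,8),(14,3),(3,1)]⟩,⟨0,[(23,0),(2,0)]⟩⟩,⟨true,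
  0,⟨0,[(31,0)]⟩,⟨0,[(21,0)]⟩⟩,⟨false,0,⟨0,[]⟩,⟨0,[]⟩⟩,⟨false,0,⟨0,[]⟩,⟨0,[]⟩⟩,[.e ⟨false,0,⟨8,[(8,
  0),(2,1),(28,3),(3,1)]⟩,⟨11,[(3,1),(28,1),(0,1),(9,3),(1,2),(0,8)]⟩⟩ ⟨false,1,⟨8,[(8,0),(2,1),(11,
  8),(2,8),(4,8),(8,3),(3,1)]⟩,⟨1,[(8,0),(2,0),(9,0),(2,1),(0,1),(8,0),(9,0)]⟩⟩,.e ⟨false,1,⟨11,[(3,
  1),(28,1),(0,1),(9,3),(1,8),(0,2)]⟩,⟨0,[]⟩⟩ ⟨false,1,⟨1,[(11,0),(10,0),(0,1),(2,1),(4,0),(12,0)]⟩,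
  ⟨8,[(8,0),(2,1),(9,8),(2,8),(0,8),(14,3),(3,1)]⟩⟩,.a ⟨true,0,⟨4,[(4,0),(20,4),(7,0),(7,2),(3,0)]⟩,
  ⟨0,[(26,0)]⟩⟩ ⟨true,0,⟨8,[(3,0),(28,0),(0,0),(6,2),(2,1)]⟩,⟨0,[]⟩⟩ ⟨false,1,⟨0,[(23,0),(2,0),(4,
  0)]⟩,⟨1,[(8,0),(2,0),(9,0),(2,1),(0,1),(8,0),(9,0)]⟩⟩,.o ⟨false,0,⟨0,[(25,0)]⟩,⟨1,[(26,1),(10,0),
  (7,0)]⟩⟩]⟩))))) (.Q [0,0,0,0,0,0,0,0,0,0,0,1,-1] (.ed true [1,0,-1,0,1] .k) (.R ⟨0,false,false,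
  false,[1,0,-1],[1,0,-1,0,1],[0,1],(⟨0,[(32,0)]⟩,⟨0,[(33,0)]⟩),(⟨0,[(27,0),(4,0)]⟩,⟨0,[(0,0)]⟩),⟨0,
  [(24,0)]⟩,.k,.k,.k,.k,.k,.k,⟨false,1,⟨3,[(8,0),(6,2),(4,3),(2,3),(13,1),(3,0)]⟩,⟨8,[(5,4),(2,0),
  (12,8),(0,8),(14,1),(3,0)]⟩⟩,⟨true,0,⟨0,[(23,0)]⟩,⟨0,[(22,0)]⟩⟩,⟨true,0,⟨0,[(15,0)]⟩,⟨2,[(5,0),
  (23,0),(0,0)]⟩⟩,⟨false,0,⟨0,[(21,0)]⟩,⟨0,[(20,0),(24,0)]⟩⟩,⟨false,0,⟨0,[]⟩,⟨0,[]⟩⟩,⟨false,0,⟨0,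
  []⟩,⟨0,[]⟩⟩,[.e ⟨false,0,⟨8,[(5,0),(2,1),(28,3),(3,1)]⟩,⟨0,[(43,0),(1,0)]⟩⟩ ⟨false,0,⟨0,[(17,0),
  (3,0)]⟩,⟨0,[(15,0),(4,0)]⟩⟩,.e ⟨false,1,⟨1,[(42,0),(0,0),(1,1)]⟩,⟨0,[]⟩⟩ ⟨false,0,⟨8,[(5,4),(2,0),
  (12,8),(15,1),(3,0)]⟩,⟨0,[(15,0),(4,0),(24,0)]⟩⟩,.a ⟨true,0,⟨2,[(4,0),(2,0),(23,1),(1,0),(1,1)]⟩,
  ⟨0,[(19,0)]⟩⟩ ⟨true,0,⟨0,[(45,0)]⟩,⟨0,[]⟩⟩ ⟨false,0,⟨2,[(5,0),(15,2),(7,0),(0,0)]⟩,⟨0,[(15,0),(4,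
  0)]⟩⟩,.o ⟨false,0,⟨0,[(31,0)]⟩,⟨1,[(14,0),(15,0),(11,0)]⟩⟩]⟩) (.R ⟨0,false,false,true,[1,0,0,0,
  -1],[1,0,1,0,-1],[0,1],(⟨0,[(26,0)]⟩,⟨0,[(27,0)]⟩),(⟨0,[(26,0),(6,0)]⟩,⟨0,[(0,0)]⟩),⟨0,[(0,0),(23,
  0)]⟩,.k,.k,.k,.k,.k,.k,⟨false,0,⟨2,[(5,1),(2,0),(12,2),(0,2),(14,1),(3,0)]⟩,⟨0,[(15,0),(4,0),(2,
  0)]⟩⟩,⟨true,0,⟨0,[(19,0)]⟩,⟨0,[(31,0)]⟩⟩,⟨false,0,⟨8,[(5,0),(2,1),(12,8),(0,8),(14,3),(3,1)]⟩,⟨0,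
  [(20,0),(2,0)]⟩⟩,⟨true,0,⟨0,[(28,0)]⟩,⟨0,[(18,0)]⟩⟩,⟨false,0,⟨0,[]⟩,⟨0,[]⟩⟩,⟨false,0,⟨0,[]⟩,⟨0,
  []⟩⟩,[.e ⟨false,0,⟨8,[(5,0),(2,1),(28,3),(3,1)]⟩,⟨0,[(43,0),(1,0)]⟩⟩ ⟨false,1,⟨8,[(5,0),(2,1),(11,
  8),(2,8),(4,8),(8,3),(3,1)]⟩,⟨1,[(5,0),(2,0),(9,0),(2,1),(0,1),(8,0),(9,0)]⟩⟩,.e ⟨false,1,⟨1,[(42,
  0),(0,0),(1,1)]⟩,⟨0,[]⟩⟩ ⟨false,1,⟨1,[(8,0),(10,0),(0,1),(2,1),(4,0),(12,0)]⟩,⟨8,[(5,0),(2,1),(9,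
  8),(2,8),(0,8),(14,3),(3,1)]⟩⟩,.a ⟨true,0,⟨3,[(4,0),(17,3),(10,0),(1,1),(2,1)]⟩,⟨0,[(23,0)]⟩⟩
  ⟨true,0,⟨0,[(45,0)]⟩,⟨0,[]⟩⟩ ⟨false,1,⟨0,[(20,0),(2,0),(4,0)]⟩,⟨1,[(5,0),(2,0),(9,0),(2,1),(0,1),
  (8,0),(9,0)]⟩⟩,.o ⟨false,0,⟨0,[(22,0)]⟩,⟨1,[(23,1),(10,0),(7,0)]⟩⟩]⟩)))))))))))) (.S ⟨1,0,[0,1,0,
  0,0,0,0,1],[0,0,1],[0,0,0,0,0,0,0,1],(⟨0,[(22,0)]⟩,⟨0,[(21,0)]⟩),⟨0,[(14,0)]⟩,.k,.k,⟨false,1,⟨0,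
  [(32,0),(1,0)]⟩,⟨0,[]⟩⟩,⟨true,0,⟨0,[(34,0)]⟩,⟨0,[]⟩⟩,⟨true,0,⟨0,[(30,0)]⟩,⟨0,[(29,0)]⟩⟩,⟨false,0,
  ⟨0,[(30,0)]⟩,⟨0,[(29,0),(2,0)]⟩⟩,[.a ⟨true,0,⟨0,[(17,0)]⟩,⟨0,[(0,0),(19,0),(6,0),(4,0)]⟩⟩ ⟨false,
  1,⟨1,[(4,1),(26,0),(0,0)]⟩,⟨1,[(0,0),(5,0),(25,0)]⟩⟩ ⟨true,0,⟨0,[(4,0)]⟩,⟨0,[(0,0),(31,0)]⟩⟩,.o
  ⟨false,1,⟨0,[(2,0),(26,0)]⟩,⟨0,[(7,0)]⟩⟩,.a ⟨true,0,⟨0,[(8,0)]⟩,⟨1,[(20,1),(3,0),(0,0),(1,0)]⟩⟩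
  ⟨false,1,⟨0,[(4,0),(27,0)]⟩,⟨1,[(0,0),(5,0),(25,0)]⟩⟩ ⟨true,0,⟨0,[(4,0)]⟩,⟨1,[(0,0),(5,0),(25,
  0)]⟩⟩,.a ⟨true,0,⟨0,[(19,0)]⟩,⟨0,[(20,0),(6,0)]⟩⟩ ⟨true,1,⟨1,[(4,1),(26,0),(0,0)]⟩,⟨0,[(0,0)]⟩⟩
  ⟨false,1,⟨1,[(4,1),(26,0),(0,0)]⟩,⟨0,[(0,0),(31,0)]⟩⟩]⟩)) (.R ⟨0,false,false,false,[1,0,-1],[-1,1,
  1],[1,0,0,0,0,0,0,-1],(⟨0,[(20,0)]⟩,⟨0,[(21,0)]⟩),(⟨0,[(12,0)]⟩,⟨0,[(20,0),(2,0)]⟩),⟨0,[(12,0)]⟩,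
  .k,.k,.k,(.r 0 ⟨0,[(4,0),(1,0),(11,0)]⟩ ⟨1,[(0,0),(0,1),(1,1),(27,0),(1,1)]⟩),.k,.k,⟨false,0,⟨2,
  [(4,3),(1,1),(11,1),(10,0)]⟩,⟨1,[(0,0),(0,1),(1,1),(27,0),(1,1)]⟩⟩,⟨true,1,⟨0,[(2,0),(4,0)]⟩,⟨0,
  [(0,0)]⟩⟩,⟨true,0,⟨0,[]⟩,⟨0,[(33,0)]⟩⟩,⟨false,2,⟨0,[(1,1),(26,0)]⟩,⟨2,[(0,2),(3,3),(1,1),(11,1),
  (10,0)]⟩⟩,⟨false,0,⟨0,[]⟩,⟨0,[]⟩⟩,⟨false,0,⟨0,[]⟩,⟨0,[]⟩⟩,[.e ⟨false,0,⟨2,[(4,1),(1,0),(11,0),(10,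
  1)]⟩,⟨0,[(3,0),(27,0),(1,0)]⟩⟩ ⟨false,2,⟨3,[(1,3),(0,0),(15,2),(3,0),(2,1),(4,1)]⟩,⟨0,[(0,0),(3,
  0)]⟩⟩,.e ⟨false,1,⟨0,[(5,0),(25,0)]⟩,⟨0,[(3,0)]⟩⟩ ⟨false,2,⟨1,[(1,1),(0,0),(15,0),(11,0)]⟩,⟨3,[(0,
  3),(3,2),(0,0),(19,0),(2,0)]⟩⟩,.a ⟨true,0,⟨1,[(0,0),(29,0)]⟩,⟨0,[(7,0)]⟩⟩ ⟨true,0,⟨2,[(4,0),(1,1),
  (11,1),(10,0)]⟩,⟨0,[(3,0)]⟩⟩ ⟨false,2,⟨1,[(1,1),(16,1),(3,0),(7,0)]⟩,⟨0,[(0,0),(3,0)]⟩⟩,.o ⟨false,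
  0,⟨0,[(19,0)]⟩,⟨1,[(2,0),(15,0),(11,0)]⟩⟩]⟩)) (.R ⟨0,false,false,false,[1,0,-1],[0,1],[1,0,1,1],
  (⟨0,[(19,0)]⟩,⟨0,[(20,0)]⟩),(⟨0,[(23,0)]⟩,⟨0,[(22,0)]⟩),⟨0,[(11,0)]⟩,.k,.k,.k,.k,.k,.k,⟨true,0,⟨0,
  []⟩,⟨1,[(17,0),(0,0)]⟩⟩,⟨false,1,⟨2,[(1,1),(4,0),(18,0),(3,0)]⟩,⟨0,[(18,0),(3,0),(0,0)]⟩⟩,⟨false,
  1,⟨1,[(2,1),(14,0),(0,0),(9,1),(1,1)]⟩,⟨5,[(0,1),(2,3),(13,1),(3,0),(8,0)]⟩⟩,⟨true,1,⟨1,[(15,1),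
  (5,0),(6,1),(1,0)]⟩,⟨0,[(0,0)]⟩⟩,⟨false,0,⟨0,[]⟩,⟨0,[]⟩⟩,⟨false,0,⟨0,[]⟩,⟨0,[]⟩⟩,[.e ⟨false,0,⟨0,
  [(28,0)]⟩,⟨1,[(27,1),(1,0),(0,0)]⟩⟩ ⟨false,1,⟨1,[(1,0),(15,0),(10,1),(0,0)]⟩,⟨0,[(0,0),(1,0),(27,
  0)]⟩⟩,.o ⟨false,1,⟨1,[(21,0),(6,1),(1,0)]⟩,⟨0,[(27,0)]⟩⟩,.a ⟨true,0,⟨1,[(18,1),(3,0),(0,0),(1,
  0)]⟩,⟨0,[(6,0)]⟩⟩ ⟨true,0,⟨1,[(17,0),(0,0),(9,1)]⟩,⟨0,[(26,0)]⟩⟩ ⟨false,1,⟨1,[(1,0),(15,0),(10,1),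
  (1,0)]⟩,⟨0,[(0,0),(1,0),(27,0)]⟩⟩,.o ⟨false,0,⟨0,[(18,0)]⟩,⟨1,[(1,0),(15,0),(11,0)]⟩⟩]⟩)))

theorem ok0 : chk4 K KFs t0 base = true := by decide +kernel

open Helper25.KW Helper55.KE in
theorem closed {p a b c J l q : ℤ} {D dl : ℝ} {Cl : ℤ → ℤ → ℤ → ℤ → ℝ → Prop}
    (W : World p a b c J 1 l q D dl Cl) (g : G0 p a b c J D)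
    {N X R : ℤ} {I : ℝ} (hk : KCl p l Cl N X R I) (kz : KF a b D (X + (1 : ℤ) * I) (X + (1 : ℤ) * I + R) I)
    {Nw Xw Rw : ℤ} {Iw : ℝ} (hw : KCl p l Cl Nw Xw Rw Iw) (hne : N ≠ Nw)
    (hU : KU p a b l 1 Cl (fun _ _ _ => True) N)
    (hN0 : KNo p a b l 1 Cl (fun X R I => Zx 1 X R I))
    (hW0 : StN p b l 1 Cl (fun X' R' I' => 0 < ((X' : ℝ) + (1 : ℤ) * I') ∧ 0 < (-1) * I' + (Iw)) N Nw)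
    (h0 : 1 ≤ (c : ℝ))
    (h1 : 1 ≤ (a : ℝ) - (b : ℝ) - (c : ℝ))
    (h2 : 0 < -2 * (b : ℝ) + D)
    (h3 : 1 ≤ 2 * (a : ℝ) - (b : ℝ))
    (h4 : 0 < Iw)
    (h5 : 0 < D - Iw)
    (h6 : 0 < -(J : ℝ) + I)
    (h7 : 0 < (J : ℝ) - D + I)
    (h8 : 0 < (Xw : ℝ) + Iw)
    (h9 : 0 < (b : ℝ) - (Xw : ℝ) - Iw)
    (h10 : 0 < -(a : ℝ) + (Rw : ℝ) + (Xw : ℝ) + Iw)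
    (h11 : 0 < -(a : ℝ) + (p : ℝ) - (Rw : ℝ) - (Xw : ℝ) - Iw)
    (h12 : 0 < (X : ℝ) + I)
    (h13 : 0 < -(X : ℝ) - (R : ℝ) - I)
    (h14 : 1 ≤ (a : ℝ) - (b : ℝ) - (R : ℝ))
    (h15 : 1 ≤ 1 - 2 * (b : ℝ) - (c : ℝ) - (R : ℝ))
    (h16 : 1 ≤ (a : ℝ) + (R : ℝ)) : False := by
  have g1 := g.a2
  have g2 := g.b2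
  have g3 := g.pa
  have g4 := g.pb
  have g5 := g.J1
  have g6 := g.JD
  have g7 := g.D2
  have g8 := g.ca
  have g9 := g.ca'
  have k1 := kz.I0
  have k2 := kz.ID
  have k3 := kz.z1
  have k4 := kz.z2
  have k5 := kz.s1
  have k6 := kz.s2
  have hkf : ∀ kf ∈ KFs, KOk4 p l Cl 1 (xv [1, a, b, c, p, J, X, R, Rw, Xw] [D, I, Iw]) N Nw kf := by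
    have hA1 : evg (xv [1, a, b, c, p, J, X, R, Rw, Xw] [D, I, Iw]) [0, 1] = a := by
      simp only [evg_cons, evg_nil, xv, List.map_cons, List.map_nil, List.cons_append, List.nil_append]
      push_cast
      ring
    have hB1 : evg (xv [1, a, b, c, p, J, X, R, Rw, Xw] [D, I, Iw]) [0, 0, 1] = b := by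
      simp only [evg_cons, evg_nil, xv, List.map_cons, List.map_nil, List.cons_append, List.nil_append]
      push_cast
      ring
    simp only [KFs, List.forall_mem_cons]
    refine ⟨kok4_u hA1 hB1 Nw hU ?_, kok4_no hA1 hB1 N Nw hN0 ?_, kok4_st hB1 hW0 ?_, fun _ h => absurd h (by simp)⟩
    · intro _ _ _ _ _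
      trivial
    · intro X' R' I' _ hg
      simp only [List.forall_mem_cons, List.not_mem_nil, false_imp_iff, implies_true, and_true,
        evg_cons, evg_nil, xv, List.map_cons, List.map_nil, List.cons_append, List.nil_append] at hg
      push_cast at hg
      simp only [Zx, Zp, Zs, Zsp, Zi, ZiD, Zy]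
      push_cast
      linarith
    · intro X' R' I' hg
      simp only [List.forall_mem_cons, List.not_mem_nil, false_imp_iff, implies_true, and_true,
        evg_cons, evg_nil, xv, List.map_cons, List.map_nil, List.cons_append, List.nil_append] at hg
      push_cast at hg ⊢
      refine ⟨?_, ?_⟩ <;> linarith [hg.1, hg.2]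
  push_cast at *
  refine sound4 (val_V W.toBase hk hw hne []) W rfl (Nk := N)
    (fun kf _ _ => ⟨_, rfl⟩) (Nw := Nw) (fun _ _ _ => by simp [NN]) hkf ok0 ?_
  · simp only [base, List.forall_mem_cons, List.not_mem_nil, false_imp_iff, implies_true,
      and_true, hld, xv, evg_cons, evg_nil, List.map_cons, List.map_nil, List.cons_append,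
      List.nil_append, if_true, if_false, Bool.false_eq_true]
    push_cast
    refine ⟨?_, ?_, ?_, ?_, ?_, ?_, ?_, ?_, ?_, ?_, ?_, ?_, ?_, ?_, ?_, ?_, ?_, ?_, ?_, ?_, ?_, ?_, ?_, ?_, ?_, ?_, ?_, ?_, ?_, ?_, ?_⟩ <;> linarith

end Helper25.S1T.Zpp1SM4
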