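import Pool.Agent.Helper25.KG.C4
import Pool.Agent.Helper25.KG.C4d

set_option autoImplicit false
set_option linter.all false

namespace Helper25.S1T.Zpp1SM5

open Helper25.KG Helper11.CT

noncomputable def K : Cls :=
  dE 1 [1]

noncomputable def KFs : List KF3 :=
  [(3, bx3 ++ []),
    (0, bx3 ++ [(-1, 0, 0, [])])]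

noncomputable def base : List Con :=
  [(true,[1,-1,0,0,0,0,0,-1]),
  (true,[1,0,-2,-1,0,0,0,-1]),
  (true,[0,1,-1,0,0,0,0,-1]),
  (false,[0,0,0,0,0,0,-1,-1,0,0,-1]),
  (false,[0,0,0,0,0,0,1,0,0,0,1]),
  (false,[0,0,0,0,0,1,0,0,0,-1,1]),
  (false,[0,0,0,0,0,-1,0,0,0,0,1]),
  (false,[0,0,0,0,1,0,0,0,-1,0,0,-1]),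
  (false,[0,0,0,0,0,0,0,0,1,0,0,1]),
  (false,[0,0,0,0,0,0,0,0,0,1,0,-1]),
  (false,[0,0,0,0,0,0,0,0,0,0,0,1]),
  (false,[0,1,0,0,0,0,1,1,0,0,1]),
  (false,[0,1,0,0,0,0,-1,-1,0,0,-1]),
  (false,[0,0,1,0,0,0,1,0,0,0,1]),
  (false,[0,0,1,0,0,0,-1,0,0,0,-1]),
  (false,[0,0,0,0,0,0,0,0,0,1,-1]),
  (false,[0,0,0,0,0,0,0,0,0,0,1]),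
  (false,[0,0,0,0,1,0,0,0,0,-2]),
  (false,[0,0,0,0,0,-1,0,0,0,1]),
  (true,[0,0,0,0,0,1]),
  (true,[0,2,-1]),
  (false,[0,0,-2,0,0,0,0,0,0,1]),
  (true,[0,1,-1,-1]),
  (true,[0,1,0,-1]),
  (true,[0,0,0,1]),
  (true,[0,0,-2,0,1]),
  (true,[0,-2,0,0,1]),
  (true,[-1,0,1]),
  (true,[-1,1])]

noncomputable def t0 : Tre :=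
  (.Q [0,0,0,0,0,-2,0,0,0,1] (.pp false [-1,1]) (.Q [0,0,1,0,-1,0,-1,0,0,2,-1] (.p false [-1,1,1]
  [1] (⟨0,[(6,0)]⟩,⟨0,[(16,0),(2,0)]⟩) .k 1 (⟨0,[]⟩,⟨0,[]⟩) .k .k) (.I [0,0,2,2,0,0,0,1] (.I [0,0,1,
  1,1,0,0,2] (.K ⟨0,[2,-1,-1],(-1),(-1),(⟨0,[(19,0),(2,0)]⟩,⟨0,[(9,0)]⟩),.k,(.r (-1) ⟨5,[(5,3),(0,
  1),(20,7),(1,0),(0,4)]⟩ ⟨0,[(1,0)]⟩),.k,(.r 0 ⟨0,[(5,0),(1,0),(9,0)]⟩ ⟨0,[(0,0)]⟩),.k,[⟨0,[(8,0),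
  (12,0)]⟩,⟨1,[(2,1),(14,0),(0,0)]⟩,⟨0,[(15,0),(5,0),(6,0)]⟩,⟨3,[(2,3),(2,1),(0,0),(9,0),(0,0),(9,
  1)]⟩]⟩) (.R ⟨2,true,false,true,[0,1],[0,0,1],[0,1,1,1],(⟨0,[]⟩,⟨0,[]⟩),(⟨0,[(20,0)]⟩,⟨0,[(19,
  0)]⟩),⟨0,[]⟩,.k,.k,.k,.k,.k,.k,⟨true,(-1),⟨0,[(0,0),(0,0)]⟩,⟨0,[(15,0),(2,0),(7,0),(3,0)]⟩⟩,
  ⟨false,0,⟨0,[(8,0)]⟩,⟨0,[(18,0),(10,0)]⟩⟩,⟨true,0,⟨0,[(32,0)]⟩,⟨0,[]⟩⟩,⟨false,1,⟨0,[(15,0),(11,0),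
  (2,0)]⟩,⟨1,[(0,1),(0,1),(16,1),(2,0),(3,1),(4,0)]⟩⟩,⟨false,0,⟨0,[(28,0)]⟩,⟨0,[(27,0),(2,0)]⟩⟩,
  ⟨true,0,⟨0,[(15,0)]⟩,⟨0,[(7,0)]⟩⟩,[]⟩)) (.Q [0,1,0,-1,-1,0,-1,-1,0,1,-1] (.p false [0,0,1] [1]
  (⟨0,[(19,0)]⟩,⟨0,[(18,0)]⟩) .k 1 (⟨0,[]⟩,⟨0,[]⟩) .k .k) (.R ⟨0,false,false,false,[1,0,-1],[0,1],
  [1,0,1,1],(⟨0,[(19,0)]⟩,⟨0,[(20,0)]⟩),(⟨0,[(23,0)]⟩,⟨0,[(22,0)]⟩),⟨0,[(9,0)]⟩,.k,.k,.k,.k,.k,.k,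
  ⟨true,0,⟨0,[]⟩,⟨1,[(17,0),(0,0)]⟩⟩,⟨false,1,⟨0,[(8,0),(12,0),(3,0)]⟩,⟨1,[(2,0),(8,0),(0,0),(5,
  0)]⟩⟩,⟨false,1,⟨0,[(15,0),(2,0),(9,0),(1,0)]⟩,⟨7,[(1,3),(2,1),(1,0),(9,0),(0,0)]⟩⟩,⟨true,1,⟨1,
  [(15,1),(5,0),(6,1),(1,0)]⟩,⟨0,[(0,0)]⟩⟩,⟨false,0,⟨0,[]⟩,⟨0,[]⟩⟩,⟨false,0,⟨0,[]⟩,⟨0,[]⟩⟩,[.e
  ⟨false,0,⟨0,[(28,0)]⟩,⟨1,[(27,1),(1,0),(0,0)]⟩⟩ ⟨false,1,⟨1,[(8,1),(12,0),(6,1),(0,0)]⟩,⟨1,[(2,0),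
  (15,0),(7,1),(3,0)]⟩⟩,.o ⟨false,1,⟨1,[(21,0),(6,1),(1,0)]⟩,⟨0,[(27,0)]⟩⟩,.a ⟨true,0,⟨1,[(2,0),(15,
  0),(10,0)]⟩,⟨0,[(8,0)]⟩⟩ ⟨true,0,⟨1,[(17,0),(0,0),(9,1)]⟩,⟨0,[(26,0)]⟩⟩ ⟨false,1,⟨1,[(8,1),(12,0),
  (6,1),(1,0)]⟩,⟨1,[(2,0),(15,0),(7,1),(3,0)]⟩⟩,.o ⟨false,0,⟨0,[(18,0)]⟩,⟨1,[(8,1),(12,0),(7,
  0)]⟩⟩]⟩) (.Q [0,0,1,0,-1,0,-2,0,0,2,-2] (.p false [0,0,1] [2,-1,-1] (⟨0,[(20,0)]⟩,⟨0,[(19,0)]⟩)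
  .k 2 (⟨0,[(19,0),(2,0)]⟩,⟨0,[(9,0)]⟩) .k (.r (-1) ⟨0,[(0,1),(1,0),(15,0),(7,1)]⟩ ⟨1,[(4,1),(1,0),
  (9,0),(0,0)]⟩)) (.R ⟨0,false,false,false,[-1,1,1],[1,0,-1],[1,0,1,1,0,0,0,1],(⟨0,[(10,0)]⟩,⟨0,
  [(20,0),(2,0)]⟩),(⟨0,[(20,0)]⟩,⟨0,[(21,0)]⟩),⟨0,[(20,0)]⟩,.k,.k,.k,(.r (-1) ⟨3,[(0,1),(0,3),(10,
  0),(0,0),(2,3),(2,3),(10,0)]⟩ ⟨7,[(2,3),(2,5),(1,2),(9,2),(0,2)]⟩),.k,.k,⟨false,1,⟨1,[(0,1),(0,1),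
  (14,1),(5,0),(7,0)]⟩,⟨7,[(2,3),(2,5),(1,2),(9,2),(0,2)]⟩⟩,⟨true,(-1),⟨0,[(0,0)]⟩,⟨0,[(9,1),(12,
  0)]⟩⟩,⟨true,0,⟨0,[]⟩,⟨0,[(33,0)]⟩⟩,⟨false,(-1),⟨1,[(0,0),(1,0),(0,0),(1,1),(2,0)]⟩,⟨1,[(1,1),(10,
  0),(0,0),(2,1),(5,0)]⟩⟩,⟨false,0,⟨0,[]⟩,⟨0,[]⟩⟩,⟨false,0,⟨0,[]⟩,⟨0,[]⟩⟩,[.o ⟨false,0,⟨0,[(8,0)]⟩,
  ⟨0,[(1,0),(26,0)]⟩⟩,.a ⟨true,0,⟨6,[(3,2),(1,1),(1,0),(0,3),(17,0),(4,2)]⟩,⟨0,[(16,0)]⟩⟩ ⟨false,1,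
  ⟨3,[(0,1),(0,3),(10,0),(0,0),(16,0)]⟩,⟨5,[(2,1),(4,2),(9,0),(0,0),(9,1)]⟩⟩ ⟨true,(-1),⟨0,[(0,0),
  (4,0)]⟩,⟨0,[(9,0),(6,0),(5,0)]⟩⟩,.e ⟨false,1,⟨1,[(1,1),(1,0),(8,0),(0,0),(5,0)]⟩,⟨7,[(2,3),(2,1),
  (1,0),(9,0),(0,0)]⟩⟩ ⟨false,(-1),⟨0,[(0,0),(4,0)]⟩,⟨7,[(1,5),(0,1),(13,3),(1,5),(3,4),(5,1),(1,
  4)]⟩⟩,.o ⟨false,1,⟨0,[(9,0),(12,0)]⟩,⟨3,[(0,1),(11,0),(0,0),(16,0)]⟩⟩]⟩) (.R ⟨0,false,false,false,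
  [1,0,-1],[-1,1,1],[1,0,0,0,0,0,0,-1],(⟨0,[(20,0)]⟩,⟨0,[(21,0)]⟩),(⟨0,[(10,0)]⟩,⟨0,[(20,0),(2,
  0)]⟩),⟨0,[(10,0)]⟩,.k,.k,.k,(.r 0 ⟨7,[(2,3),(2,5),(1,2),(9,2),(0,2)]⟩ ⟨1,[(1,1),(1,0),(12,1),(2,
  2),(10,0)]⟩),.k,.k,⟨false,0,⟨2,[(2,0),(2,1),(0,0),(0,1)]⟩,⟨1,[(1,1),(1,0),(12,1),(2,2),(10,0)]⟩⟩,
  ⟨true,1,⟨0,[(0,0)]⟩,⟨0,[(3,0),(15,0)]⟩⟩,⟨true,0,⟨0,[]⟩,⟨0,[(33,0)]⟩⟩,⟨false,2,⟨0,[(1,1),(26,0)]⟩,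
  ⟨1,[(2,0),(0,1),(1,0),(2,0),(8,0)]⟩⟩,⟨false,0,⟨0,[]⟩,⟨0,[]⟩⟩,⟨false,0,⟨0,[]⟩,⟨0,[]⟩⟩,[.e ⟨false,0,
  ⟨2,[(5,0),(0,0),(0,0),(21,0)]⟩,⟨1,[(16,1),(2,1),(10,0),(0,0)]⟩⟩ ⟨false,2,⟨1,[(0,0),(0,1),(10,0),
  (0,0),(11,0)]⟩,⟨0,[(3,0),(2,0),(12,0)]⟩⟩,.a ⟨true,1,⟨0,[(1,0)]⟩,⟨5,[(2,1),(0,5),(3,2),(9,0),(0,0),
  (9,1)]⟩⟩ ⟨true,0,⟨0,[(5,0)]⟩,⟨0,[(16,0),(2,0)]⟩⟩ ⟨false,2,⟨3,[(0,1),(0,3),(10,0),(0,0),(16,0)]⟩,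
  ⟨0,[(3,0),(4,0),(18,0)]⟩⟩,.e ⟨false,0,⟨0,[(5,0)]⟩,⟨1,[(16,1),(2,1),(10,0),(0,0)]⟩⟩ ⟨false,2,⟨5,
  [(0,1),(0,5),(10,2),(0,2),(4,1),(3,0)]⟩,⟨0,[(3,0),(2,0),(12,0)]⟩⟩,.o ⟨false,0,⟨0,[(19,0)]⟩,⟨3,[(0,
  1),(11,0),(0,0),(16,0)]⟩⟩]⟩)))) (.Q [0,0,0,-1,0,0,0,0,0,1] (.pp false [-1,1]) (.R ⟨0,false,false,
  true,[-1,1,1],[0,0,1],[0,1,1,0,0,0,0,1],(⟨0,[(8,0)]⟩,⟨0,[(18,0),(2,0)]⟩),(⟨0,[(19,0)]⟩,⟨0,[(18,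
  0)]⟩),⟨0,[(18,0)]⟩,.k,.k,.k,.k,.k,.k,⟨true,0,⟨1,[(16,0),(0,0)]⟩,⟨0,[]⟩⟩,⟨false,0,⟨0,[(21,0),(0,
  0)]⟩,⟨1,[(20,0),(7,0)]⟩⟩,⟨true,0,⟨0,[(26,0)]⟩,⟨0,[(27,0)]⟩⟩,⟨false,0,⟨0,[(0,0)]⟩,⟨1,[(20,0),(6,1),
  (1,0)]⟩⟩,⟨false,0,⟨0,[]⟩,⟨0,[]⟩⟩,⟨false,0,⟨0,[]⟩,⟨0,[]⟩⟩,[.a ⟨true,0,⟨0,[(14,0)]⟩,⟨1,[(3,1),(13,
  1),(3,0),(0,0),(1,0)]⟩⟩ ⟨true,0,⟨0,[(14,0),(2,0)]⟩,⟨0,[(3,0)]⟩⟩ ⟨false,0,⟨1,[(14,1),(2,1),(3,0),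
  (0,0),(1,0)]⟩,⟨3,[(1,1),(1,1),(2,1),(21,0),(0,0)]⟩⟩,.o ⟨false,1,⟨1,[(14,1),(5,0),(8,0)]⟩,⟨0,[(6,
  0)]⟩⟩,.o ⟨false,1,⟨0,[(1,0)]⟩,⟨0,[(17,0),(3,0),(0,0)]⟩⟩,.o ⟨false,1,⟨1,[(1,0),(14,0),(3,0)]⟩,⟨1,
  [(17,1),(3,0),(0,0),(1,0)]⟩⟩]⟩) (.Q [0,0,0,1,1,0,2,2,0,-2,2] (.p true [0,0,1] [2,-1,-1] (⟨0,[(19,
  0)]⟩,⟨0,[(18,0)]⟩) .k 2 (⟨0,[(18,0),(2,0)]⟩,⟨0,[(8,0)]⟩) .k (.x (-1) ⟨0,[(1,0),(14,0),(1,1)]⟩ ⟨0,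
  [(8,0),(0,0),(7,1),(6,0)]⟩)) (.Q [1,1,0,0,-1,0,0,0,1,-1,0,1] (.p true [0,0,0,0,1] [1] (⟨0,[(14,
  0)]⟩,⟨0,[(13,0)]⟩) .k 1 (⟨0,[]⟩,⟨0,[]⟩) .k .k) (.R ⟨0,false,false,true,[1,0,-1],[0,0,0,0,1],[1,1,
  1],(⟨0,[(20,0)]⟩,⟨0,[(21,0)]⟩),(⟨0,[(15,0)]⟩,⟨0,[(14,0)]⟩),⟨0,[(10,0)]⟩,.k,.k,.k,.k,.k,.k,⟨true,0,
  ⟨1,[(18,0),(0,0)]⟩,⟨0,[]⟩⟩,⟨false,0,⟨3,[(0,1),(0,0),(4,1),(2,1),(3,1),(15,0),(1,0)]⟩,⟨1,[(12,1),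
  (6,1),(3,0),(0,0),(1,0)]⟩⟩,⟨true,0,⟨0,[(16,0),(2,0)]⟩,⟨6,[(2,0),(2,2),(0,0),(0,2),(18,0)]⟩⟩,
  ⟨false,0,⟨0,[(0,0),(15,0),(14,0)]⟩,⟨2,[(5,2),(6,2),(6,2),(3,0),(0,0),(1,1),(5,0)]⟩⟩,⟨false,0,⟨0,
  []⟩,⟨0,[]⟩⟩,⟨false,0,⟨0,[]⟩,⟨0,[]⟩⟩,[.o ⟨false,(-1),⟨0,[(0,0)]⟩,⟨4,[(12,6),(0,1),(17,2),(1,0)]⟩⟩,
  .e ⟨false,0,⟨0,[]⟩,⟨1,[(12,0),(0,0),(16,0)]⟩⟩ ⟨false,0,⟨7,[(0,2),(0,2),(3,2),(0,2),(2,1),(3,4),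
  (12,0)]⟩,⟨2,[(12,2),(6,2),(3,0),(0,0),(1,1),(5,0)]⟩⟩,.a ⟨true,0,⟨1,[(19,1),(3,0),(0,0),(1,0)]⟩,⟨0,
  [(9,0)]⟩⟩ ⟨false,0,⟨1,[(18,0),(0,0)]⟩,⟨1,[(30,0),(0,0)]⟩⟩ ⟨true,(-1),⟨0,[(0,0),(8,0)]⟩,⟨2,[(12,2),
  (6,2),(3,0),(0,0),(1,1),(5,0)]⟩⟩,.o ⟨false,0,⟨0,[(19,0)]⟩,⟨1,[(3,0),(14,0),(11,0)]⟩⟩]⟩) (.Q [-1,0,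
  0,0,0,0,-1,0,-1,1,-1,-1] (.p false [0,0,1] [1,0,0,0,-1] (⟨0,[(21,0)]⟩,⟨0,[(20,0)]⟩) .k 2 (⟨0,[(14,
  0)]⟩,⟨0,[(15,0)]⟩) .k (.r (-1) ⟨1,[(16,1),(2,1),(10,0),(0,0)]⟩ ⟨6,[(5,2),(1,2),(0,0),(9,0),(13,
  1)]⟩)) (.R ⟨0,false,false,true,[1,0,-1],[0,0,0,0,1],[1,1,1],(⟨0,[(21,0)]⟩,⟨0,[(22,0)]⟩),(⟨0,[(16,
  0)]⟩,⟨0,[(15,0)]⟩),⟨0,[(11,0)]⟩,.k,.k,.k,.k,.k,.k,⟨true,0,⟨1,[(19,0),(0,0)]⟩,⟨0,[]⟩⟩,⟨false,1,⟨1,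
  [(4,0),(9,1),(4,0),(11,0)]⟩,⟨0,[(0,0)]⟩⟩,⟨true,0,⟨0,[(17,0),(2,0)]⟩,⟨6,[(3,0),(2,2),(0,0),(0,2),
  (18,0)]⟩⟩,⟨false,1,⟨3,[(2,1),(10,0),(0,4),(14,1),(2,0)]⟩,⟨0,[(0,0),(5,0)]⟩⟩,⟨false,0,⟨0,[]⟩,⟨0,
  []⟩⟩,⟨false,0,⟨0,[]⟩,⟨0,[]⟩⟩,[.o ⟨false,0,⟨0,[(3,0),(10,0),(14,0)]⟩,⟨1,[(0,1),(3,0),(14,0),(12,
  0)]⟩⟩,.e ⟨false,0,⟨0,[]⟩,⟨1,[(13,0),(0,0),(16,0)]⟩⟩ ⟨false,1,⟨1,[(4,0),(9,1),(4,0),(11,0)]⟩,⟨0,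
  [(0,0)]⟩⟩,.a ⟨true,0,⟨0,[(0,0),(13,0)]⟩,⟨0,[(10,0)]⟩⟩ ⟨false,0,⟨1,[(19,0),(0,0)]⟩,⟨1,[(31,0),(0,
  0)]⟩⟩ ⟨true,0,⟨2,[(3,2),(3,0),(6,2),(2,0),(1,1),(9,1)]⟩,⟨0,[(0,0)]⟩⟩,.o ⟨false,0,⟨0,[(20,0)]⟩,⟨1,
  [(4,0),(14,0),(11,0)]⟩⟩]⟩) (.Q [-1,-1,0,0,1,0,0,0,-1,0,0,-1] (.p false [0,0,0,0,1] [] (⟨0,[(16,
  0)]⟩,⟨0,[(15,0)]⟩) .k 0 (⟨0,[]⟩,⟨0,[]⟩) .k .k) (.Q [0,0,0,0,0,-1,0,0,0,1,-1,1] (.p false [-1,1,1]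
  [0,0,0,0,1] (⟨0,[(12,0)]⟩,⟨0,[(22,0),(2,0)]⟩) .k 2 (⟨0,[(17,0)]⟩,⟨0,[(16,0)]⟩) .k (.r (-1) ⟨1,
  [(18,1),(2,1),(10,0),(0,0)]⟩ ⟨3,[(7,1),(1,0),(9,0),(0,0)]⟩)) (.Q [0,0,0,0,0,0,1,0,1,-1,1,1] (.p
  true [0,0,1] [1,0,0,0,-1] (⟨0,[(24,0)]⟩,⟨0,[(23,0)]⟩) .k 2 (⟨0,[(17,0)]⟩,⟨0,[(18,0)]⟩) .k (.r
  (-1) ⟨1,[(19,1),(2,1),(10,0),(0,0)]⟩ ⟨6,[(8,2),(1,2),(0,0),(9,0),(13,1)]⟩)) (.Q [1,0,0,0,-1,0,-1,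
  -1,1,1,-1,1] (.p false [-1,1,1] [0,0,0,0,1] (⟨0,[(14,0)]⟩,⟨0,[(24,0),(2,0)]⟩) .k 2 (⟨0,[(19,0)]⟩,
  ⟨0,[(18,0)]⟩) .k (.r (-1) ⟨1,[(20,1),(2,1),(10,0),(0,0)]⟩ ⟨3,[(9,1),(1,0),(9,0),(0,0)]⟩)) (.R ⟨0,
  false,false,false,[1,0,-1],[1,0,0,0,-1],[-1,0,1],(⟨0,[(25,0)]⟩,⟨0,[(26,0)]⟩),(⟨0,[(19,0)]⟩,⟨0,
  [(20,0)]⟩),⟨0,[(15,0)]⟩,.k,.k,.k,.k,.k,.k,⟨true,0,⟨1,[(23,0),(0,0)]⟩,⟨0,[]⟩⟩,⟨false,1,⟨3,[(3,0),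
  (3,0),(3,0),(2,2),(2,2),(3,0),(9,0)]⟩,⟨6,[(0,2),(5,1),(0,0),(3,0),(6,3),(5,7),(6,1),(0,1),(3,
  0)]⟩⟩,⟨false,1,⟨0,[(21,0),(2,0),(11,0)]⟩,⟨6,[(7,0),(2,2),(0,0),(0,2),(18,0)]⟩⟩,⟨true,1,⟨0,[(3,0),
  (17,0)]⟩,⟨0,[(0,0),(6,0),(25,0)]⟩⟩,⟨false,0,⟨0,[]⟩,⟨0,[]⟩⟩,⟨false,0,⟨0,[]⟩,⟨0,[]⟩⟩,[.o ⟨false,1,
  ⟨2,[(3,0),(13,1),(20,0)]⟩,⟨1,[(0,0),(0,0),(4,0),(4,0),(12,1)]⟩⟩,.o ⟨false,1,⟨0,[(3,0)]⟩,⟨4,[(0,1),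
  (0,2),(4,0),(17,2),(2,0),(2,1),(1,0)]⟩⟩,.a ⟨true,0,⟨3,[(0,0),(4,0),(15,0),(2,3),(6,1)]⟩,⟨0,[(14,
  0)]⟩⟩ ⟨true,0,⟨0,[(37,0)]⟩,⟨4,[(7,0),(22,1),(0,0),(0,0)]⟩⟩ ⟨false,1,⟨0,[(3,0),(10,0)]⟩,⟨2,[(0,0),
  (5,0),(4,0),(6,1),(5,3),(6,0)]⟩⟩,.o ⟨false,0,⟨0,[(24,0)]⟩,⟨1,[(8,0),(14,0),(11,0)]⟩⟩]⟩) (.Q [0,0,
  1,0,0,0,0,0,-1,1,0,-1] (.p false [0,0,0,0,1] [1] (⟨0,[(20,0)]⟩,⟨0,[(19,0)]⟩) .k 1 (⟨0,[]⟩,⟨0,[]⟩)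
  .k .k) (.K ⟨0,[1,0,0,0,-1],0,0,(⟨0,[(20,0)]⟩,⟨0,[(21,0)]⟩),.k,(.r (-1) ⟨1,[(34,1),(1,0),(0,0)]⟩
  ⟨1,[(24,0),(0,0),(9,1)]⟩),(.r 0 ⟨1,[(24,0),(0,0),(9,1)]⟩ ⟨1,[(34,1),(1,0),(0,0)]⟩),(.r 0 ⟨6,[(11,
  2),(1,2),(0,0),(9,0),(13,1)]⟩ ⟨1,[(22,1),(2,1),(10,0),(0,0)]⟩),.k,[⟨0,[(2,0),(22,0)]⟩,⟨0,[(0,0)]⟩,
  ⟨2,[(2,1),(5,0),(10,0),(5,1),(5,0),(1,0)]⟩,⟨3,[(0,3),(7,0),(22,0),(0,0),(0,0),(5,0)]⟩]⟩) (.Q [1,1,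
  0,0,-1,0,-1,-1,1,0,-1,1] (.p false [0,0,1] [0,0,0,0,1] (⟨0,[(27,0)]⟩,⟨0,[(26,0)]⟩) .k 2 (⟨0,[(21,
  0)]⟩,⟨0,[(20,0)]⟩) .k (.r (-1) ⟨1,[(22,1),(2,1),(10,0),(0,0)]⟩ ⟨3,[(11,1),(1,0),(9,0),(0,0)]⟩))
  (.R ⟨0,false,false,false,[1,0,-1],[1,0,0,0,-1],[-1,0,1],(⟨0,[(27,0)]⟩,⟨0,[(28,0)]⟩),(⟨0,[(21,0)]⟩,
  ⟨0,[(22,0)]⟩),⟨0,[(17,0)]⟩,.k,.k,.k,.k,.k,.k,⟨true,0,⟨1,[(25,0),(0,0)]⟩,⟨0,[]⟩⟩,⟨false,1,⟨3,[(2,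
  1),(2,0),(1,0),(6,1),(1,1),(16,0)]⟩,⟨2,[(1,0),(18,1),(5,2),(6,0)]⟩⟩,⟨false,1,⟨0,[(23,0),(2,0),(11,
  0)]⟩,⟨6,[(9,0),(2,2),(0,0),(0,2),(18,0)]⟩⟩,⟨true,1,⟨1,[(2,0),(4,0),(15,0)]⟩,⟨0,[(0,0)]⟩⟩,⟨false,0,
  ⟨0,[]⟩,⟨0,[]⟩⟩,⟨false,0,⟨0,[]⟩,⟨0,[]⟩⟩,[.o ⟨false,1,⟨2,[(5,0),(13,1),(20,0)]⟩,⟨1,[(1,0),(1,0),(22,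
  0)]⟩⟩,.o ⟨false,1,⟨0,[(5,0)]⟩,⟨3,[(0,1),(7,0),(11,1),(8,0),(5,0),(4,0)]⟩⟩,.a ⟨true,0,⟨1,[(26,1),
  (3,0),(0,0),(1,0)]⟩,⟨0,[(16,0)]⟩⟩ ⟨true,0,⟨0,[(39,0)]⟩,⟨4,[(9,0),(22,1),(0,0),(0,0)]⟩⟩ ⟨false,1,
  ⟨0,[(5,0),(10,0)]⟩,⟨2,[(1,0),(18,1),(5,2),(6,0)]⟩⟩,.o ⟨false,0,⟨0,[(26,0)]⟩,⟨1,[(10,0),(14,0),(11,
  0)]⟩⟩]⟩) (.Q [-1,-1,0,1,0,0,-1,-1,-1,1,-1,-1] (.p false [0,0,1] [1,0,0,0,-1] (⟨0,[(28,0)]⟩,⟨0,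
  [(27,0)]⟩) .k 2 (⟨0,[(21,0)]⟩,⟨0,[(22,0)]⟩) .k (.r (-1) ⟨1,[(0,0),(19,0),(2,0),(2,1),(10,0)]⟩ ⟨6,
  [(12,2),(1,2),(0,0),(9,0),(13,1)]⟩)) (.R ⟨1,false,false,false,[0,0,1],[1,0,0,0,-1],[1],(⟨0,[(29,
  0)]⟩,⟨0,[(28,0)]⟩),(⟨0,[(22,0)]⟩,⟨0,[(23,0)]⟩),⟨0,[(19,0)]⟩,.k,.k,.k,.k,(.r (-1) ⟨2,[(1,2),(0,0),
  (18,1),(5,2),(6,0),(0,2)]⟩ ⟨0,[(16,0),(9,0),(10,0)]⟩),.k,⟨true,0,⟨0,[]⟩,⟨0,[(40,0)]⟩⟩,⟨false,1,⟨0,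
  [(20,0),(6,0),(6,0)]⟩,⟨0,[(4,0)]⟩⟩,⟨false,0,⟨0,[(13,0)]⟩,⟨1,[(1,0),(19,0),(2,0),(2,1),(10,0)]⟩⟩,
  ⟨true,0,⟨0,[(0,0),(35,0)]⟩,⟨1,[(2,0),(1,0),(19,1),(2,0)]⟩⟩,⟨false,0,⟨0,[(0,0),(3,0)]⟩,⟨0,[(1,0),
  (19,0),(5,0),(7,0)]⟩⟩,⟨false,0,⟨0,[(0,0)]⟩,⟨1,[(1,1),(0,0),(1,0),(16,1),(5,0),(8,1)]⟩⟩,[.o ⟨false,
  1,⟨2,[(6,0),(13,1),(20,0)]⟩,⟨1,[(2,0),(1,0),(22,0)]⟩⟩,.o ⟨false,1,⟨0,[(6,0)]⟩,⟨3,[(2,0),(1,2),(22,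
  2),(5,1)]⟩⟩,.a ⟨true,0,⟨0,[(17,0)]⟩,⟨1,[(27,1),(3,0),(0,0),(1,0)]⟩⟩ ⟨true,0,⟨0,[]⟩,⟨0,[(41,0)]⟩⟩
  ⟨false,1,⟨1,[(6,0),(1,0),(18,1),(6,0)]⟩,⟨0,[(7,0)]⟩⟩,.e ⟨false,1,⟨1,[(38,0),(0,0)]⟩,⟨1,[(26,0),(0,
  0)]⟩⟩ ⟨false,1,⟨0,[(6,0),(20,0),(6,0)]⟩,⟨1,[(4,1),(21,0),(0,0)]⟩⟩]⟩) (.Q [0,0,0,0,0,-1,0,0,0,0,0,
  1] (.ed false [1,-1,0,0,1] .k) (.R ⟨1,false,false,true,[0,0,0,0,1],[0,0,1],[1],(⟨0,[(24,0)]⟩,⟨0,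
  [(23,0)]⟩),(⟨0,[(30,0)]⟩,⟨0,[(29,0)]⟩),⟨0,[(0,0)]⟩,.k,.k,(.r (-1) ⟨1,[(37,1),(1,0),(0,0)]⟩ ⟨1,
  [(27,0),(0,0),(9,1)]⟩),.k,(.r 0 ⟨1,[(14,0),(0,0),(21,0)]⟩ ⟨2,[(9,1),(0,0),(11,1),(2,0),(2,2),(9,
  1),(3,0)]⟩),.k,⟨true,0,⟨0,[(14,0)]⟩,⟨0,[(25,0),(2,0)]⟩⟩,⟨false,1,⟨0,[(2,0),(13,0)]⟩,⟨2,[(3,0),(18,
  1),(5,2),(6,0)]⟩⟩,⟨false,1,⟨1,[(21,0),(0,0),(17,0)]⟩,⟨0,[]⟩⟩,⟨false,1,⟨4,[(2,2),(18,1),(3,1),(16,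
  0)]⟩,⟨2,[(3,0),(10,2),(7,1),(5,2),(6,0)]⟩⟩,⟨true,0,⟨0,[(38,0)]⟩,⟨0,[(37,0)]⟩⟩,⟨false,1,⟨1,[(2,0),
  (18,0),(3,0),(12,1)]⟩,⟨0,[(1,0),(12,1),(13,1),(6,0)]⟩⟩,[.a ⟨true,0,⟨0,[(25,0)]⟩,⟨1,[(14,1),(13,1),
  (3,0),(0,0),(1,0)]⟩⟩ ⟨true,0,⟨0,[]⟩,⟨1,[(27,0),(0,0)]⟩⟩ ⟨false,1,⟨0,[(2,0),(31,0)]⟩,⟨2,[(3,0),(10,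
  2),(7,1),(5,2),(6,0)]⟩⟩,.o ⟨false,1,⟨10,[(1,2),(8,3),(10,4),(0,1),(14,0),(2,1)]⟩,⟨0,[(17,0)]⟩⟩,.o
  ⟨false,0,⟨1,[(3,0),(1,0),(22,0)]⟩,⟨0,[(21,0)]⟩⟩,.o ⟨false,0,⟨0,[(5,0),(22,0)]⟩,⟨2,[(4,0),(2,1),(9,
  0),(16,0),(0,0)]⟩⟩]⟩) (.R ⟨0,false,false,false,[0,1,0,0,-1],[1,0,-1],[0,1,1],(⟨0,[(0,0)]⟩,⟨0,[(24,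
  0),(7,0)]⟩),(⟨0,[(29,0)]⟩,⟨0,[(30,0)]⟩),⟨0,[(24,0)]⟩,(.r 0 ⟨1,[(27,0),(0,0),(9,1)]⟩ ⟨1,[(37,1),(1,
  0),(0,0)]⟩),.k,.k,(.r (-1) ⟨2,[(9,1),(0,0),(11,1),(2,0),(2,2),(9,1),(3,0)]⟩ ⟨1,[(14,0),(0,0),(21,
  0)]⟩),.k,.k,⟨true,0,⟨0,[(25,0),(2,0)]⟩,⟨0,[(14,0)]⟩⟩,⟨false,0,⟨1,[(22,1),(5,1),(3,0),(0,0),(1,
  0)]⟩,⟨3,[(2,0),(1,2),(6,0),(2,0),(0,0),(0,1)]⟩⟩,⟨true,0,⟨0,[(37,0)]⟩,⟨0,[(38,0)]⟩⟩,⟨false,0,⟨0,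
  [(1,0),(12,1),(13,1),(3,0),(0,0),(1,0)]⟩,⟨0,[(4,0),(33,0)]⟩⟩,⟨false,0,⟨0,[]⟩,⟨0,[]⟩⟩,⟨false,0,⟨0,
  []⟩,⟨0,[]⟩⟩,[.o ⟨false,0,⟨0,[(17,0)]⟩,⟨10,[(1,2),(8,3),(10,4),(0,1),(14,0),(2,1)]⟩⟩,.a ⟨true,0,⟨1,
  [(14,1),(13,1),(3,0),(0,0),(1,0)]⟩,⟨0,[(25,0)]⟩⟩ ⟨true,0,⟨1,[(27,0),(0,0)]⟩,⟨0,[]⟩⟩ ⟨false,0,⟨1,
  [(14,1),(7,1),(5,1),(3,0),(0,0),(1,0)]⟩,⟨4,[(4,4),(6,0),(22,1),(0,0),(0,0)]⟩⟩,.o ⟨false,1,⟨0,[(7,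
  0),(3,0),(24,0)]⟩,⟨1,[(22,1),(4,0),(0,0)]⟩⟩,.o ⟨false,1,⟨0,[(4,0),(12,0)]⟩,⟨0,[(22,0)]⟩⟩]⟩))))))
  (.Q [-1,-1,0,0,0,0,-1,-1,-1,1,-1,-1] (.p false [0,0,1] [1,0,0,0,-1] (⟨0,[(25,0)]⟩,⟨0,[(24,0)]⟩)
  .k 2 (⟨0,[(18,0)]⟩,⟨0,[(19,0)]⟩) .k (.r (-1) ⟨1,[(20,1),(2,1),(10,0),(0,0)]⟩ ⟨6,[(9,2),(1,2),(0,
  0),(9,0),(13,1)]⟩)) (.R ⟨0,false,false,true,[1,0,-1],[0,0,0,0,1],[1,1,1],(⟨0,[(25,0)]⟩,⟨0,[(26,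
  0)]⟩),(⟨0,[(20,0)]⟩,⟨0,[(19,0)]⟩),⟨0,[(15,0)]⟩,.k,.k,.k,.k,.k,.k,⟨true,0,⟨1,[(23,0),(0,0)]⟩,⟨0,
  []⟩⟩,⟨false,1,⟨1,[(8,0),(9,1),(4,0),(11,0)]⟩,⟨0,[(1,0)]⟩⟩,⟨true,0,⟨0,[(21,0),(2,0)]⟩,⟨6,[(7,0),(2,
  2),(0,0),(0,2),(18,0)]⟩⟩,⟨false,1,⟨3,[(6,1),(10,0),(0,4),(14,1),(2,0)]⟩,⟨0,[(0,0)]⟩⟩,⟨false,0,⟨0,
  []⟩,⟨0,[]⟩⟩,⟨false,0,⟨0,[]⟩,⟨0,[]⟩⟩,[.o ⟨false,0,⟨2,[(4,1),(2,0),(10,0),(5,1),(5,0),(1,0)]⟩,⟨0,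
  [(3,0)]⟩⟩,.a ⟨true,0,⟨0,[(18,0)]⟩,⟨0,[(0,0),(20,0)]⟩⟩ ⟨false,0,⟨0,[]⟩,⟨1,[(17,0),(0,0),(16,0)]⟩⟩
  ⟨true,0,⟨0,[(4,0)]⟩,⟨3,[(1,3),(21,0),(0,0),(12,1)]⟩⟩,.e ⟨false,0,⟨1,[(23,0),(0,0)]⟩,⟨1,[(35,0),(0,
  0)]⟩⟩ ⟨false,0,⟨0,[(4,0)]⟩,⟨3,[(1,1),(3,1),(18,1),(10,0),(0,0)]⟩⟩,.o ⟨false,0,⟨0,[(24,0)]⟩,⟨1,[(8,
  0),(14,0),(11,0)]⟩⟩]⟩) (.R ⟨1,true,false,false,[0,0,1],[1,0,0,0,-1],[0,0,0,0,0,0,0,1],(⟨0,[(26,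
  0)]⟩,⟨0,[(25,0)]⟩),(⟨0,[(19,0)]⟩,⟨0,[(20,0)]⟩),⟨0,[(16,0)]⟩,.k,.k,.k,.k,(.r (-1) ⟨0,[(0,0),(0,0),
  (30,0),(3,0)]⟩ ⟨0,[(13,0),(9,0),(10,0)]⟩),.k,⟨false,1,⟨1,[(0,1),(0,1),(33,0),(0,0)]⟩,⟨3,[(10,1),
  (1,0),(9,0),(0,0)]⟩⟩,⟨true,0,⟨0,[(1,0)]⟩,⟨3,[(4,3),(18,0),(0,0),(12,1)]⟩⟩,⟨false,1,⟨1,[(17,0),(0,
  0),(17,0)]⟩,⟨0,[]⟩⟩,⟨true,0,⟨6,[(1,6),(8,2),(1,2),(0,0),(9,0),(13,1)]⟩,⟨0,[(0,0)]⟩⟩,⟨true,0,⟨0,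
  [(34,0)]⟩,⟨0,[(33,0)]⟩⟩,⟨false,0,⟨0,[(1,0),(8,0),(23,0)]⟩,⟨0,[(0,0),(32,0),(2,0)]⟩⟩,[]⟩))) (.Q [1,
  -1,0,-1,0,0,-1,-1,1,1,-1,1] (.p true [1,0,-1,0,1] [] (⟨0,[(18,0),(4,0)]⟩,⟨1,[(0,0),(13,0),(2,
  0)]⟩) .k 0 (⟨0,[]⟩,⟨0,[]⟩) .k (.r 0 ⟨3,[(8,1),(1,0),(9,0),(0,0)]⟩ ⟨1,[(19,1),(2,1),(10,0),(0,
  0)]⟩)) (.R ⟨0,false,false,false,[0,1,0,0,-1],[1,0,-1],[0,1,1],(⟨0,[(1,0),(22,0)]⟩,⟨0,[(19,0),(7,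
  0)]⟩),(⟨0,[(24,0)]⟩,⟨0,[(25,0)]⟩),⟨0,[(19,0)]⟩,(.r 0 ⟨1,[(22,0),(0,0),(9,1)]⟩ ⟨1,[(32,1),(1,0),(0,
  0)]⟩),.k,.k,(.r (-1) ⟨2,[(4,1),(0,0),(11,1),(2,0),(2,2),(9,1),(3,0)]⟩ ⟨1,[(9,0),(0,0),(21,0)]⟩),
  .k,.k,⟨true,0,⟨0,[(20,0),(2,0)]⟩,⟨0,[(9,0)]⟩⟩,⟨false,0,⟨1,[(17,1),(5,1),(3,0),(0,0),(1,0)]⟩,⟨2,
  [(2,2),(3,2),(3,1),(9,1),(1,0),(9,0)]⟩⟩,⟨true,0,⟨0,[(32,0)]⟩,⟨0,[(33,0)]⟩⟩,⟨false,0,⟨0,[(0,0)]⟩,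
  ⟨0,[(2,0),(3,0),(13,0)]⟩⟩,⟨false,0,⟨0,[]⟩,⟨0,[]⟩⟩,⟨false,0,⟨0,[]⟩,⟨0,[]⟩⟩,[.o ⟨false,0,⟨0,[(12,
  0)]⟩,⟨2,[(0,0),(4,1),(10,0),(15,0)]⟩⟩,.a ⟨true,0,⟨1,[(9,1),(13,1),(3,0),(0,0),(1,0)]⟩,⟨0,[(20,
  0)]⟩⟩ ⟨true,0,⟨1,[(22,0),(0,0)]⟩,⟨0,[]⟩⟩ ⟨false,0,⟨0,[(0,0),(32,0)]⟩,⟨0,[(2,0),(3,0),(13,0),(10,
  0)]⟩⟩,.o ⟨false,1,⟨0,[(2,0),(3,0),(24,0)]⟩,⟨1,[(17,1),(4,0),(0,0)]⟩⟩,.o ⟨false,1,⟨0,[(2,0),(3,0),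
  (25,0)]⟩,⟨0,[(17,0)]⟩⟩]⟩) (.I [-1,1,1,0,0,0,0,1] (.R ⟨1,false,false,true,[0,0,1],[0,0,1,0,-1],[-1,
  1,1,0,0,0,0,1],(⟨0,[(26,0)]⟩,⟨0,[(25,0)]⟩),(⟨1,[(2,0),(13,0),(2,0)]⟩,⟨0,[(20,0),(4,0)]⟩),⟨0,[(16,
  0)]⟩,.k,.k,.k,.k,(.r (-1) ⟨1,[(33,1),(1,0),(0,0)]⟩ ⟨1,[(23,0),(0,0),(9,1)]⟩),.k,⟨true,0,⟨1,[(23,
  0),(0,0)]⟩,⟨0,[]⟩⟩,⟨false,1,⟨4,[(1,0),(1,1),(9,0),(3,1),(13,0),(0,0),(2,0)]⟩,⟨0,[(18,0)]⟩⟩,⟨false,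
  0,⟨0,[(37,0)]⟩,⟨1,[(35,0),(0,0)]⟩⟩,⟨true,0,⟨1,[(1,1),(8,0),(0,0),(12,1),(3,1),(0,1),(3,0)]⟩,⟨0,
  [(18,0)]⟩⟩,⟨false,0,⟨1,[(23,0),(0,0),(9,1)]⟩,⟨0,[(32,0),(3,0)]⟩⟩,⟨false,0,⟨1,[(1,1),(8,1),(13,1),
  (3,0),(0,0),(1,0)]⟩,⟨0,[(18,0),(14,0),(2,0)]⟩⟩,[.o ⟨false,1,⟨2,[(1,0),(4,0),(10,1),(15,1)]⟩,⟨0,
  [(4,0),(5,0),(13,1),(6,0)]⟩⟩,.o ⟨false,1,⟨0,[(1,0),(31,0),(2,0)]⟩,⟨0,[(13,0),(4,0)]⟩⟩,.a ⟨true,0,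
  ⟨0,[(14,0)]⟩,⟨1,[(24,1),(3,0),(0,0),(1,0)]⟩⟩ ⟨true,0,⟨0,[(0,0)]⟩,⟨6,[(7,0),(2,2),(0,0),(0,2),(18,
  0)]⟩⟩ ⟨false,1,⟨2,[(0,1),(0,0),(1,1),(20,0),(6,0),(0,0),(3,0)]⟩,⟨0,[(10,0),(7,0)]⟩⟩,.e ⟨false,1,
  ⟨1,[(0,1),(34,0),(0,0)]⟩,⟨0,[(10,0)]⟩⟩ ⟨false,1,⟨2,[(0,0),(0,1),(1,0),(20,1),(6,1),(0,1),(3,1)]⟩,
  ⟨1,[(10,1),(7,1),(4,0),(0,0)]⟩⟩]⟩) (.Q [0,0,0,0,0,0,-1,0,-1,1,-1,-1] (.p false [0,0,1] [1,0,0,0,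
  -1] (⟨0,[(26,0)]⟩,⟨0,[(25,0)]⟩) .k 2 (⟨0,[(19,0)]⟩,⟨0,[(20,0)]⟩) .k (.r (-1) ⟨1,[(21,1),(2,1),(10,
  0),(0,0)]⟩ ⟨6,[(10,2),(1,2),(0,0),(9,0),(13,1)]⟩)) (.R ⟨0,false,false,true,[1,0,-1],[0,0,0,0,1],
  [1,1,1],(⟨0,[(26,0)]⟩,⟨0,[(27,0)]⟩),(⟨0,[(21,0)]⟩,⟨0,[(20,0)]⟩),⟨0,[(16,0)]⟩,.k,.k,.k,.k,.k,.k,
  ⟨true,0,⟨1,[(24,0),(0,0)]⟩,⟨0,[]⟩⟩,⟨false,1,⟨1,[(9,0),(9,1),(4,0),(11,0)]⟩,⟨0,[(0,0)]⟩⟩,⟨true,0,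
  ⟨0,[(22,0),(2,0)]⟩,⟨0,[(1,0),(0,0),(2,0),(6,0),(12,1),(6,1),(5,3)]⟩⟩,⟨false,1,⟨3,[(7,1),(10,0),(0,
  4),(14,1),(2,0)]⟩,⟨0,[(0,0),(0,0),(36,0)]⟩⟩,⟨false,0,⟨0,[]⟩,⟨0,[]⟩⟩,⟨false,0,⟨0,[]⟩,⟨0,[]⟩⟩,[.o
  ⟨false,0,⟨2,[(5,1),(2,0),(10,0),(5,1),(5,0),(1,0)]⟩,⟨0,[(4,0)]⟩⟩,.a ⟨true,0,⟨0,[(19,0)]⟩,⟨0,[(0,
  0),(0,0),(20,0),(15,0)]⟩⟩ ⟨false,0,⟨0,[]⟩,⟨1,[(18,0),(0,0),(16,0)]⟩⟩ ⟨true,0,⟨0,[(5,0)]⟩,⟨3,[(0,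
  3),(23,0),(0,0),(12,1)]⟩⟩,.e ⟨false,0,⟨1,[(24,0),(0,0)]⟩,⟨1,[(36,0),(0,0)]⟩⟩ ⟨false,0,⟨0,[(5,0)]⟩,
  ⟨3,[(0,1),(5,1),(18,1),(10,0),(0,0)]⟩⟩,.o ⟨false,0,⟨0,[(25,0)]⟩,⟨1,[(9,0),(14,0),(11,0)]⟩⟩]⟩) (.Q
  [0,0,1,0,0,0,0,0,-1,1,0,-1] (.p false [0,0,0,0,1] [1] (⟨0,[(21,0)]⟩,⟨0,[(20,0)]⟩) .k 1 (⟨0,[]⟩,⟨0,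
  []⟩) .k .k) (.K ⟨0,[1,0,0,0,-1],0,0,(⟨0,[(21,0)]⟩,⟨0,[(22,0)]⟩),.k,(.r (-1) ⟨1,[(35,1),(1,0),(0,
  0)]⟩ ⟨1,[(25,0),(0,0),(9,1)]⟩),(.r 0 ⟨1,[(25,0),(0,0),(9,1)]⟩ ⟨1,[(35,1),(1,0),(0,0)]⟩),(.r 0 ⟨6,
  [(12,2),(1,2),(0,0),(9,0),(13,1)]⟩ ⟨1,[(23,1),(2,1),(10,0),(0,0)]⟩),.k,[⟨0,[(1,0),(24,0)]⟩,⟨0,[(0,
  0)]⟩,⟨2,[(6,1),(2,0),(10,0),(5,1),(5,0),(1,0)]⟩,⟨7,[(0,6),(2,0),(11,0),(16,1),(0,1),(0,0),(5,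
  1)]⟩]⟩) (.R ⟨0,false,false,false,[0,0,0,0,1],[1,0,-1],[0,1,1],(⟨0,[(22,0)]⟩,⟨0,[(21,0)]⟩),(⟨0,
  [(27,0)]⟩,⟨0,[(28,0)]⟩),⟨0,[(4,0),(22,0)]⟩,.k,.k,(.r (-1) ⟨1,[(35,1),(1,0),(0,0)]⟩ ⟨1,[(25,0),(0,
  0),(9,1)]⟩),.k,.k,.k,⟨true,0,⟨0,[(23,0),(2,0)]⟩,⟨0,[(12,0)]⟩⟩,⟨false,1,⟨0,[(19,0),(6,0),(6,0)]⟩,
  ⟨0,[(1,0)]⟩⟩,⟨false,0,⟨0,[(39,0)]⟩,⟨1,[(37,0),(0,0)]⟩⟩,⟨true,0,⟨0,[(3,0),(8,0),(0,0),(12,1),(3,1),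
  (0,1)]⟩,⟨1,[(0,0),(5,0),(16,1),(2,0)]⟩⟩,⟨false,0,⟨0,[]⟩,⟨0,[]⟩⟩,⟨false,0,⟨0,[]⟩,⟨0,[]⟩⟩,[.o
  ⟨false,0,⟨0,[(15,0)]⟩,⟨3,[(8,1),(10,0),(0,0),(14,1),(2,0)]⟩⟩,.a ⟨true,0,⟨1,[(12,1),(13,1),(3,0),
  (0,0),(1,0)]⟩,⟨0,[(23,0)]⟩⟩ ⟨true,0,⟨1,[(25,0),(0,0)]⟩,⟨0,[]⟩⟩ ⟨false,1,⟨1,[(5,0),(1,0),(7,1),(17,
  0)]⟩,⟨1,[(0,0),(0,0),(21,1),(2,0)]⟩⟩,.o ⟨false,0,⟨1,[(0,0),(0,0),(24,0)]⟩,⟨0,[(19,0)]⟩⟩,.o ⟨false,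
  0,⟨0,[(1,0),(24,0)]⟩,⟨4,[(3,0),(1,1),(9,0),(3,1),(13,0),(0,0),(2,0)]⟩⟩]⟩)))))) (.R ⟨2,true,false,
  true,[0,1],[0,0,0,0,1],[1,1,1],(⟨0,[]⟩,⟨0,[]⟩),(⟨0,[(17,0)]⟩,⟨0,[(16,0)]⟩),⟨0,[]⟩,.k,.k,.k,(.r 0
  ⟨1,[(20,0),(0,0),(9,1)]⟩ ⟨1,[(30,1),(1,0),(0,0)]⟩),.k,.k,⟨true,0,⟨1,[(20,0),(0,0)]⟩,⟨0,[]⟩⟩,
  ⟨false,0,⟨0,[(15,0)]⟩,⟨0,[(2,0),(1,0),(24,0)]⟩⟩,⟨true,0,⟨0,[(30,0)]⟩,⟨0,[(31,0)]⟩⟩,⟨false,0,⟨0,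
  [(0,0),(29,0),(2,0)]⟩,⟨0,[(2,0),(1,0)]⟩⟩,⟨false,0,⟨0,[]⟩,⟨1,[(14,0),(0,0),(17,0)]⟩⟩,⟨true,(-1),⟨0,
  [(0,0)]⟩,⟨3,[(2,0),(1,0),(9,2),(14,0),(4,0)]⟩⟩,[]⟩)))) (.R ⟨0,false,false,false,[-1,1,1],[1,0,-1],
  [1,0,0,0,0,0,0,-1],(⟨0,[(9,0)]⟩,⟨0,[(19,0),(2,0)]⟩),(⟨0,[(19,0)]⟩,⟨0,[(20,0)]⟩),⟨0,[(19,0)]⟩,.k,
  .k,.k,(.r (-1) ⟨1,[(1,0),(13,3),(2,3),(6,0),(2,0),(1,1)]⟩ ⟨4,[(0,2),(1,2),(1,0),(0,1),(0,0),(10,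
  2)]⟩),.k,.k,⟨true,0,⟨0,[]⟩,⟨1,[(17,0),(0,0)]⟩⟩,⟨false,0,⟨0,[(18,1),(3,0),(0,0),(1,0)]⟩,⟨0,[(2,0),
  (5,0)]⟩⟩,⟨false,0,⟨1,[(4,2),(0,0),(21,0)]⟩,⟨1,[(1,0),(13,3),(2,3),(6,0),(2,0),(1,1)]⟩⟩,⟨true,(-1),
  ⟨0,[(0,0)]⟩,⟨1,[(1,1),(13,3),(5,0),(8,0)]⟩⟩,⟨false,0,⟨0,[]⟩,⟨0,[]⟩⟩,⟨false,0,⟨0,[]⟩,⟨0,[]⟩⟩,[.o
  ⟨false,0,⟨0,[(7,0)]⟩,⟨1,[(15,1),(5,0),(8,0)]⟩⟩,.a ⟨true,0,⟨1,[(0,0),(27,0),(1,0)]⟩,⟨0,[(15,0)]⟩⟩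
  ⟨true,0,⟨0,[(4,0)]⟩,⟨0,[(15,0),(2,0)]⟩⟩ ⟨false,0,⟨1,[(0,0),(17,1),(3,0),(0,0),(1,0),(2,0),(1,0)]⟩,
  ⟨0,[(2,0),(12,0)]⟩⟩,.o ⟨false,1,⟨0,[(2,0)]⟩,⟨0,[(18,0),(3,0),(0,0)]⟩⟩,.o ⟨false,1,⟨1,[(2,0),(14,
  0),(3,0)]⟩,⟨1,[(18,1),(3,0),(0,0),(1,0)]⟩⟩]⟩)))) (.Q [0,-1,0,-1,0,0,-1,-1,0,1,-1] (.p false [0,0,
  1] [1] (⟨0,[(17,0)]⟩,⟨0,[(16,0)]⟩) .k 1 (⟨0,[]⟩,⟨0,[]⟩) .k .k) (.R ⟨0,false,false,true,[1,-1],[0,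
  0,1],[1],(⟨0,[(20,0)]⟩,⟨0,[(21,0)]⟩),(⟨0,[(18,0)]⟩,⟨0,[(17,0)]⟩),⟨0,[(1,0)]⟩,.k,.k,(.r (-1) ⟨0,
  [(24,1),(3,0)]⟩ ⟨0,[(15,0),(0,0),(9,1)]⟩),.k,.k,.k,⟨true,0,⟨0,[(2,0)]⟩,⟨0,[(13,0),(2,0)]⟩⟩,⟨false,
  1,⟨0,[(6,0),(12,0),(3,0)]⟩,⟨0,[(16,0),(3,0),(0,0)]⟩⟩,⟨true,0,⟨1,[(15,0),(0,0),(9,1)]⟩,⟨0,[(24,
  0)]⟩⟩,⟨false,1,⟨1,[(13,1),(5,0),(6,1),(1,0)]⟩,⟨0,[(0,0)]⟩⟩,⟨false,0,⟨0,[]⟩,⟨0,[]⟩⟩,⟨false,0,⟨0,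
  []⟩,⟨0,[]⟩⟩,[.a ⟨true,0,⟨0,[(13,0)]⟩,⟨0,[(0,0),(25,0)]⟩⟩ ⟨true,0,⟨0,[]⟩,⟨1,[(15,0),(0,0)]⟩⟩
  ⟨false,1,⟨0,[(13,0),(5,0),(3,0)]⟩,⟨1,[(0,1),(14,0),(0,0),(9,1)]⟩⟩,.o ⟨false,1,⟨1,[(13,1),(5,0),(8,
  0)]⟩,⟨0,[(5,0)]⟩⟩,.o ⟨false,0,⟨1,[(15,0),(0,0)]⟩,⟨1,[(19,0),(7,0)]⟩⟩,.o ⟨false,0,⟨0,[(15,0),(0,
  0)]⟩,⟨0,[(19,0),(3,0)]⟩⟩]⟩) (.Q [0,0,0,-1,0,0,0,0,0,1] (.pp false [-1,1]) (.R ⟨0,false,false,true,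
  [-1,1,1],[0,0,1],[0,1,1,0,0,0,0,1],(⟨0,[(8,0)]⟩,⟨0,[(18,0),(2,0)]⟩),(⟨0,[(19,0)]⟩,⟨0,[(18,0)]⟩),
  ⟨0,[(18,0)]⟩,.k,.k,.k,.k,.k,.k,⟨true,0,⟨1,[(16,0),(0,0)]⟩,⟨0,[]⟩⟩,⟨false,0,⟨0,[(21,0),(0,0)]⟩,⟨1,
  [(20,0),(7,0)]⟩⟩,⟨true,0,⟨0,[(26,0)]⟩,⟨0,[(27,0)]⟩⟩,⟨false,0,⟨0,[(0,0)]⟩,⟨1,[(20,0),(6,1),(1,
  0)]⟩⟩,⟨false,0,⟨0,[]⟩,⟨0,[]⟩⟩,⟨false,0,⟨0,[]⟩,⟨0,[]⟩⟩,[.a ⟨true,0,⟨0,[(14,0)]⟩,⟨1,[(3,1),(13,1),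
  (3,0),(0,0),(1,0)]⟩⟩ ⟨true,0,⟨0,[(14,0),(2,0)]⟩,⟨0,[(3,0)]⟩⟩ ⟨false,0,⟨1,[(14,1),(2,1),(3,0),(0,
  0),(1,0)]⟩,⟨1,[(3,1),(16,0),(7,0)]⟩⟩,.o ⟨false,1,⟨1,[(14,1),(5,0),(8,0)]⟩,⟨0,[(6,0)]⟩⟩,.o ⟨false,
  1,⟨3,[(1,1),(2,1),(2,1),(12,2),(8,0)]⟩,⟨0,[(17,0),(3,0),(0,0)]⟩⟩,.o ⟨false,1,⟨0,[(7,0),(12,0)]⟩,
  ⟨1,[(17,1),(3,0),(0,0),(1,0)]⟩⟩]⟩) (.Q [0,0,0,-1,-1,0,-2,-2,0,2,-2] (.p false [0,0,1] [2,-1,-1]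
  (⟨0,[(19,0)]⟩,⟨0,[(18,0)]⟩) .k 2 (⟨0,[(18,0),(2,0)]⟩,⟨0,[(8,0)]⟩) .k (.x (-1) ⟨0,[(7,1),(10,1),(1,
  0)]⟩ ⟨0,[(8,0),(0,0),(7,1),(6,0)]⟩)) (.R ⟨0,false,false,false,[-1,1,1],[1,0,-1],[1,0,0,0,0,0,0,
  -1],(⟨0,[(9,0)]⟩,⟨0,[(19,0),(2,0)]⟩),(⟨0,[(19,0)]⟩,⟨0,[(20,0)]⟩),⟨0,[(19,0)]⟩,.k,.k,.k,(.r (-1)
  ⟨1,[(2,0),(12,2),(2,3),(6,0),(2,0),(1,1)]⟩ ⟨2,[(0,0),(3,0),(0,1),(0,0),(10,1),(3,0)]⟩),.k,.k,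
  ⟨true,0,⟨0,[]⟩,⟨1,[(17,0),(0,0)]⟩⟩,⟨false,0,⟨0,[(18,1),(3,0),(0,0),(1,0)]⟩,⟨3,[(2,1),(2,1),(2,5),
  (12,2),(8,0)]⟩⟩,⟨false,0,⟨1,[(4,2),(0,0),(21,0)]⟩,⟨1,[(2,0),(12,2),(2,3),(6,0),(2,0),(1,1)]⟩⟩,
  ⟨true,(-1),⟨0,[(0,0)]⟩,⟨1,[(2,1),(12,1),(5,0),(8,0)]⟩⟩,⟨false,0,⟨0,[]⟩,⟨0,[]⟩⟩,⟨false,0,⟨0,[]⟩,⟨0,
  []⟩⟩,[.o ⟨false,0,⟨0,[(7,0)]⟩,⟨1,[(15,1),(5,0),(8,0)]⟩⟩,.a ⟨true,0,⟨1,[(0,0),(27,0),(1,0)]⟩,⟨0,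
  [(15,0)]⟩⟩ ⟨true,0,⟨0,[(4,0)]⟩,⟨0,[(15,0),(2,0)]⟩⟩ ⟨false,0,⟨1,[(0,0),(17,1),(3,0),(0,0),(1,0),(2,
  0),(1,0)]⟩,⟨3,[(2,1),(2,1),(2,1),(6,3),(5,2),(8,0)]⟩⟩,.o ⟨false,1,⟨3,[(2,1),(2,1),(2,1),(12,2),(8,
  0)]⟩,⟨0,[(18,0),(3,0),(0,0)]⟩⟩,.o ⟨false,1,⟨0,[(8,0),(12,0)]⟩,⟨1,[(18,1),(3,0),(0,0),(1,0)]⟩⟩]⟩)
  (.Q [1,1,0,0,-1,0,0,0,1,-1,0,1] (.p true [0,0,0,0,1] [1] (⟨0,[(14,0)]⟩,⟨0,[(13,0)]⟩) .k 1 (⟨0,[]⟩,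
  ⟨0,[]⟩) .k .k) (.R ⟨0,false,false,true,[1,0,-1],[0,0,0,0,1],[1,1,1],(⟨0,[(20,0)]⟩,⟨0,[(21,0)]⟩),
  (⟨0,[(15,0)]⟩,⟨0,[(14,0)]⟩),⟨0,[(10,0)]⟩,.k,.k,.k,.k,.k,.k,⟨true,0,⟨1,[(18,0),(0,0)]⟩,⟨0,[]⟩⟩,
  ⟨false,0,⟨3,[(0,1),(0,0),(4,1),(2,1),(3,1),(15,0),(1,0)]⟩,⟨1,[(12,1),(6,1),(3,0),(0,0),(1,0)]⟩⟩,
  ⟨true,0,⟨0,[(16,0),(2,0)]⟩,⟨6,[(2,0),(2,2),(0,0),(0,2),(18,0)]⟩⟩,⟨false,0,⟨0,[(0,0),(15,0),(14,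
  0)]⟩,⟨2,[(5,2),(6,2),(6,2),(3,0),(0,0),(1,1),(5,0)]⟩⟩,⟨false,0,⟨0,[]⟩,⟨0,[]⟩⟩,⟨false,0,⟨0,[]⟩,⟨0,
  []⟩⟩,[.o ⟨false,(-1),⟨0,[(0,0)]⟩,⟨4,[(12,6),(0,1),(17,2),(1,0)]⟩⟩,.e ⟨false,0,⟨0,[]⟩,⟨1,[(12,0),
  (0,0),(16,0)]⟩⟩ ⟨false,0,⟨7,[(0,2),(0,2),(3,2),(0,2),(2,1),(3,4),(12,0)]⟩,⟨2,[(12,2),(6,2),(3,0),
  (0,0),(1,1),(5,0)]⟩⟩,.a ⟨true,0,⟨1,[(19,1),(3,0),(0,0),(1,0)]⟩,⟨0,[(9,0)]⟩⟩ ⟨false,0,⟨1,[(18,0),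
  (0,0)]⟩,⟨1,[(30,0),(0,0)]⟩⟩ ⟨true,(-1),⟨0,[(0,0),(8,0)]⟩,⟨2,[(12,2),(6,2),(3,0),(0,0),(1,1),(5,
  0)]⟩⟩,.o ⟨false,0,⟨0,[(19,0)]⟩,⟨7,[(1,1),(4,1),(0,1),(10,3),(3,1),(7,2),(0,0)]⟩⟩]⟩) (.Q [1,0,0,0,
  0,0,0,0,1,-1,0,1] (.p true [0,0,0,0,1] [1] (⟨0,[(15,0)]⟩,⟨0,[(14,0)]⟩) .k 1 (⟨0,[]⟩,⟨0,[]⟩) .k
  .k) (.Q [-1,-1,0,0,1,0,0,0,-1,0,0,-1] (.p false [0,0,0,0,1] [] (⟨0,[(16,0)]⟩,⟨0,[(15,0)]⟩) .k 0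
  (⟨0,[]⟩,⟨0,[]⟩) .k .k) (.Q [1,1,0,0,-1,0,-1,-1,1,0,-1,1] (.p false [0,0,1] [0,0,0,0,1] (⟨0,[(23,
  0)]⟩,⟨0,[(22,0)]⟩) .k 2 (⟨0,[(17,0)]⟩,⟨0,[(16,0)]⟩) .k (.r (-1) ⟨1,[(18,1),(2,1),(10,0),(0,0)]⟩
  ⟨3,[(7,1),(1,0),(9,0),(0,0)]⟩)) (.R ⟨0,false,false,false,[1,0,-1],[1,0,0,0,-1],[-1,0,1],(⟨0,[(23,
  0)]⟩,⟨0,[(24,0)]⟩),(⟨0,[(17,0)]⟩,⟨0,[(18,0)]⟩),⟨0,[(13,0)]⟩,.k,.k,.k,.k,.k,.k,⟨true,0,⟨1,[(21,0),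
  (0,0)]⟩,⟨0,[]⟩⟩,⟨false,1,⟨3,[(1,0),(4,0),(2,0),(2,2),(2,2),(13,0)]⟩,⟨2,[(2,1),(13,0),(5,2),(6,1),
  (5,0)]⟩⟩,⟨false,1,⟨0,[(19,0),(2,0),(11,0)]⟩,⟨6,[(5,0),(2,2),(0,0),(0,2),(18,0)]⟩⟩,⟨true,1,⟨0,[(1,
  0),(17,0)]⟩,⟨0,[(0,0)]⟩⟩,⟨false,0,⟨0,[]⟩,⟨0,[]⟩⟩,⟨false,0,⟨0,[]⟩,⟨0,[]⟩⟩,[.o ⟨false,1,⟨2,[(1,0),
  (13,1),(20,0)]⟩,⟨0,[(2,0)]⟩⟩,.o ⟨false,1,⟨0,[(1,0)]⟩,⟨2,[(0,0),(5,0),(9,1),(8,0),(5,0)]⟩⟩,.a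
  ⟨true,0,⟨1,[(22,1),(3,0),(0,0),(1,0)]⟩,⟨0,[(12,0)]⟩⟩ ⟨true,0,⟨0,[(35,0)]⟩,⟨4,[(5,0),(22,1),(0,0),
  (0,0)]⟩⟩ ⟨false,1,⟨0,[(1,0),(10,0)]⟩,⟨1,[(2,0),(13,0),(5,1),(6,0)]⟩⟩,.o ⟨false,0,⟨0,[(22,0)]⟩,⟨7,
  [(4,1),(4,1),(0,1),(10,3),(3,1),(7,2),(0,0)]⟩⟩]⟩) (.Q [0,0,1,0,0,0,0,0,-1,1,0,-1] (.p false [0,0,
  0,0,1] [1] (⟨0,[(18,0)]⟩,⟨0,[(17,0)]⟩) .k 1 (⟨0,[]⟩,⟨0,[]⟩) .k .k) (.K ⟨0,[1,0,0,0,-1],0,0,(⟨0,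
  [(18,0)]⟩,⟨0,[(19,0)]⟩),.k,(.r (-1) ⟨1,[(32,1),(1,0),(0,0)]⟩ ⟨1,[(22,0),(0,0),(9,1)]⟩),(.r 0 ⟨1,
  [(22,0),(0,0),(9,1)]⟩ ⟨1,[(32,1),(1,0),(0,0)]⟩),(.r 0 ⟨6,[(9,2),(1,2),(0,0),(9,0),(13,1)]⟩ ⟨1,
  [(20,1),(2,1),(10,0),(0,0)]⟩),.k,[⟨3,[(3,3),(18,0),(0,0),(12,1)]⟩,⟨0,[(0,0)]⟩,⟨0,[(3,0),(33,0)]⟩,
  ⟨3,[(0,3),(5,0),(22,0),(0,0),(0,0),(5,0)]⟩]⟩) (.Q [-1,-1,0,1,0,0,-1,-1,-1,1,-1,-1] (.p false [0,0,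
  1] [1,0,0,0,-1] (⟨0,[(25,0)]⟩,⟨0,[(24,0)]⟩) .k 2 (⟨0,[(18,0)]⟩,⟨0,[(19,0)]⟩) .k (.r (-1) ⟨1,[(20,
  1),(2,1),(10,0),(0,0)]⟩ ⟨6,[(9,2),(1,2),(0,0),(9,0),(13,1)]⟩)) (.R ⟨1,false,false,false,[0,0,1],
  [1,0,0,0,-1],[1],(⟨0,[(26,0)]⟩,⟨0,[(25,0)]⟩),(⟨0,[(19,0)]⟩,⟨0,[(20,0)]⟩),⟨0,[(16,0)]⟩,.k,.k,.k,.k,
  (.r (-1) ⟨2,[(1,0),(0,0),(18,1),(2,2),(6,0),(0,2),(3,1)]⟩ ⟨0,[(13,0),(9,0),(10,0)]⟩),.k,⟨true,0,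
  ⟨0,[]⟩,⟨0,[(37,0)]⟩⟩,⟨false,1,⟨0,[(17,0),(6,0),(6,0)]⟩,⟨0,[(1,0),(21,0)]⟩⟩,⟨false,0,⟨0,[(10,0)]⟩,
  ⟨1,[(21,1),(2,1),(10,0),(0,0)]⟩⟩,⟨true,0,⟨0,[(0,0),(32,0)]⟩,⟨0,[(4,0),(16,0)]⟩⟩,⟨false,0,⟨0,[(10,
  0),(23,0)]⟩,⟨0,[(21,0),(2,0),(7,0),(3,0)]⟩⟩,⟨false,0,⟨0,[(0,0)]⟩,⟨0,[(4,0),(16,0),(11,0),(2,0)]⟩⟩,
  [.o ⟨false,1,⟨2,[(3,0),(13,1),(20,0)]⟩,⟨0,[(4,0)]⟩⟩,.o ⟨false,1,⟨0,[(3,0)]⟩,⟨0,[(4,0),(33,0)]⟩⟩,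
  .a ⟨true,0,⟨0,[(14,0)]⟩,⟨1,[(24,1),(3,0),(0,0),(1,0)]⟩⟩ ⟨true,0,⟨0,[]⟩,⟨0,[(38,0)]⟩⟩ ⟨false,1,⟨1,
  [(3,0),(1,0),(18,1),(6,0)]⟩,⟨0,[(1,0),(21,0)]⟩⟩,.e ⟨false,1,⟨1,[(35,0),(0,0)]⟩,⟨1,[(23,0),(0,
  0)]⟩⟩ ⟨false,1,⟨0,[(3,0),(20,0),(6,0)]⟩,⟨0,[(4,0),(18,0)]⟩⟩]⟩) (.Q [0,0,0,0,0,1,0,0,0,0,0,-1]
  (.ed true [1,-1,0,0,1] .k) (.R ⟨0,false,false,false,[0,1,0,0,-1],[1,0,-1],[0,1,1],(⟨0,[(0,0)]⟩,⟨0,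
  [(21,0),(7,0)]⟩),(⟨0,[(26,0)]⟩,⟨0,[(27,0)]⟩),⟨0,[(21,0)]⟩,(.r 0 ⟨1,[(24,0),(0,0),(9,1)]⟩ ⟨1,[(34,
  1),(1,0),(0,0)]⟩),.k,.k,(.r (-1) ⟨0,[(6,0),(2,0),(9,0),(5,0)]⟩ ⟨1,[(11,0),(0,0),(21,0)]⟩),.k,.k,
  ⟨true,0,⟨0,[(22,0),(2,0)]⟩,⟨0,[(11,0)]⟩⟩,⟨false,0,⟨1,[(19,1),(5,1),(3,0),(0,0),(1,0)]⟩,⟨2,[(4,2),
  (3,0),(0,1),(2,1),(11,0),(9,0)]⟩⟩,⟨true,0,⟨0,[(34,0)]⟩,⟨0,[(35,0)]⟩⟩,⟨false,0,⟨0,[(1,0),(9,1),(13,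
  1),(3,0),(0,0),(1,0)]⟩,⟨0,[(4,0),(4,0)]⟩⟩,⟨false,0,⟨0,[]⟩,⟨0,[]⟩⟩,⟨false,0,⟨0,[]⟩,⟨0,[]⟩⟩,[.o
  ⟨false,0,⟨0,[(14,0)]⟩,⟨10,[(1,2),(5,3),(10,4),(0,1),(14,0),(2,1)]⟩⟩,.a ⟨true,0,⟨1,[(11,1),(13,1),
  (3,0),(0,0),(1,0)]⟩,⟨0,[(22,0)]⟩⟩ ⟨true,0,⟨1,[(24,0),(0,0)]⟩,⟨0,[]⟩⟩ ⟨false,0,⟨1,[(11,1),(7,1),(5,
  1),(3,0),(0,0),(1,0)]⟩,⟨0,[(4,0),(4,0),(23,0)]⟩⟩,.o ⟨false,1,⟨0,[(4,0),(3,0),(24,0)]⟩,⟨1,[(19,1),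
  (4,0),(0,0)]⟩⟩,.o ⟨false,1,⟨0,[(4,0),(3,0),(25,0)]⟩,⟨0,[(19,0)]⟩⟩]⟩) (.R ⟨1,false,false,true,[0,0,
  0,0,1],[0,0,1],[1],(⟨0,[(21,0)]⟩,⟨0,[(20,0)]⟩),(⟨0,[(27,0)]⟩,⟨0,[(26,0)]⟩),⟨0,[(0,0)]⟩,.k,.k,(.r
  (-1) ⟨1,[(34,1),(1,0),(0,0)]⟩ ⟨1,[(24,0),(0,0),(9,1)]⟩),.k,(.r 0 ⟨1,[(11,0),(0,0),(21,0)]⟩ ⟨0,[(6,
  0),(2,0),(9,0),(5,0)]⟩),.k,⟨true,0,⟨0,[(11,0)]⟩,⟨0,[(22,0),(2,0)]⟩⟩,⟨false,1,⟨0,[(3,0),(9,0)]⟩,⟨2,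
  [(2,0),(16,1),(5,2),(6,0)]⟩⟩,⟨false,1,⟨1,[(18,0),(0,0),(17,0)]⟩,⟨0,[]⟩⟩,⟨false,1,⟨4,[(3,2),(14,1),
  (3,1),(16,0)]⟩,⟨2,[(2,0),(8,2),(7,1),(5,2),(6,0)]⟩⟩,⟨true,0,⟨0,[(35,0)]⟩,⟨0,[(34,0)]⟩⟩,⟨false,1,
  ⟨0,[(6,0),(2,0)]⟩,⟨0,[(1,0),(9,1),(13,1),(6,0)]⟩⟩,[.a ⟨true,0,⟨0,[(22,0)]⟩,⟨1,[(11,1),(13,1),(3,
  0),(0,0),(1,0)]⟩⟩ ⟨true,0,⟨0,[]⟩,⟨1,[(24,0),(0,0)]⟩⟩ ⟨false,1,⟨0,[(3,0),(27,0)]⟩,⟨2,[(2,0),(8,2),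
  (7,1),(5,2),(6,0)]⟩⟩,.o ⟨false,1,⟨10,[(1,2),(5,3),(10,4),(0,1),(14,0),(2,1)]⟩,⟨0,[(14,0)]⟩⟩,.o
  ⟨false,0,⟨2,[(2,0),(2,1),(32,0)]⟩,⟨0,[(18,0)]⟩⟩,.o ⟨false,0,⟨3,[(5,3),(18,0),(0,0),(12,1)]⟩,⟨4,
  [(4,4),(3,0),(22,1),(0,0),(0,0)]⟩⟩]⟩))))) (.R ⟨2,true,false,true,[0,1],[0,0,0,0,1],[1,1,1],(⟨0,
  []⟩,⟨0,[]⟩),(⟨0,[(17,0)]⟩,⟨0,[(16,0)]⟩),⟨0,[]⟩,.k,.k,.k,(.r 0 ⟨1,[(20,0),(0,0),(9,1)]⟩ ⟨1,[(30,1),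
  (1,0),(0,0)]⟩),.k,.k,⟨true,0,⟨1,[(20,0),(0,0)]⟩,⟨0,[]⟩⟩,⟨false,0,⟨0,[(15,0)]⟩,⟨0,[(2,0),(1,0),(24,
  0)]⟩⟩,⟨true,0,⟨0,[(30,0)]⟩,⟨0,[(31,0)]⟩⟩,⟨false,0,⟨0,[(0,0),(29,0),(2,0)]⟩,⟨0,[(2,0),(1,0)]⟩⟩,
  ⟨false,0,⟨0,[]⟩,⟨1,[(14,0),(0,0),(17,0)]⟩⟩,⟨true,(-1),⟨0,[(0,0)]⟩,⟨3,[(2,0),(1,0),(9,2),(14,0),(4,
  0)]⟩⟩,[]⟩)) (.Q [-1,0,0,0,0,0,-1,0,-1,1,-1,-1] (.p false [0,0,1] [1,0,0,0,-1] (⟨0,[(22,0)]⟩,⟨0,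
  [(21,0)]⟩) .k 2 (⟨0,[(15,0)]⟩,⟨0,[(16,0)]⟩) .k (.r (-1) ⟨1,[(17,1),(2,1),(10,0),(0,0)]⟩ ⟨6,[(6,2),
  (1,2),(0,0),(9,0),(13,1)]⟩)) (.R ⟨0,false,false,true,[1,0,-1],[0,0,0,0,1],[1,1,1],(⟨0,[(22,0)]⟩,
  ⟨0,[(23,0)]⟩),(⟨0,[(17,0)]⟩,⟨0,[(16,0)]⟩),⟨0,[(12,0)]⟩,.k,.k,.k,.k,.k,.k,⟨true,0,⟨1,[(20,0),(0,
  0)]⟩,⟨0,[]⟩⟩,⟨false,1,⟨7,[(3,1),(4,1),(0,1),(5,7),(4,3),(3,1),(7,2),(0,0)]⟩,⟨0,[(0,0)]⟩⟩,⟨true,0,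
  ⟨0,[(18,0),(2,0)]⟩,⟨6,[(4,0),(2,2),(0,0),(0,2),(18,0)]⟩⟩,⟨false,1,⟨3,[(3,1),(10,0),(0,4),(14,1),
  (2,0)]⟩,⟨0,[(0,0),(6,0)]⟩⟩,⟨false,0,⟨0,[]⟩,⟨0,[]⟩⟩,⟨false,0,⟨0,[]⟩,⟨0,[]⟩⟩,[.o ⟨false,0,⟨0,[(4,0),
  (10,0),(14,0)]⟩,⟨1,[(1,1),(22,0),(8,0)]⟩⟩,.e ⟨false,0,⟨0,[]⟩,⟨1,[(14,0),(0,0),(16,0)]⟩⟩ ⟨false,1,
  ⟨7,[(3,1),(4,1),(0,1),(5,7),(4,3),(3,1),(7,2),(0,0)]⟩,⟨0,[(0,0)]⟩⟩,.a ⟨true,0,⟨0,[(0,0),(14,0)]⟩,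
  ⟨0,[(11,0)]⟩⟩ ⟨false,0,⟨1,[(20,0),(0,0)]⟩,⟨1,[(32,0),(0,0)]⟩⟩ ⟨true,0,⟨2,[(4,1),(0,0),(2,0),(6,2),
  (4,1),(9,1)]⟩,⟨0,[(0,0)]⟩⟩,.o ⟨false,0,⟨0,[(21,0)]⟩,⟨7,[(3,1),(4,1),(0,1),(10,3),(3,1),(7,2),(0,
  0)]⟩⟩]⟩) (.Q [0,0,1,0,0,0,0,0,1,-1,0,1] (.p true [0,0,0,0,1] [1] (⟨0,[(17,0)]⟩,⟨0,[(16,0)]⟩) .k 1
  (⟨0,[]⟩,⟨0,[]⟩) .k .k) (.K ⟨0,[1,0,0,0,-1],0,0,(⟨0,[(17,0)]⟩,⟨0,[(18,0)]⟩),.k,(.r (-1) ⟨1,[(31,1),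
  (1,0),(0,0)]⟩ ⟨1,[(21,0),(0,0),(9,1)]⟩),(.r 0 ⟨1,[(21,0),(0,0),(9,1)]⟩ ⟨1,[(31,1),(1,0),(0,0)]⟩),
  (.r 0 ⟨6,[(8,2),(1,2),(0,0),(9,0),(13,1)]⟩ ⟨1,[(19,1),(2,1),(10,0),(0,0)]⟩),.k,[⟨0,[(0,0)]⟩,⟨1,
  [(2,1),(18,0),(0,0)]⟩,⟨2,[(0,1),(4,0),(10,0),(11,0),(1,0)]⟩,⟨0,[(2,0),(33,0)]⟩]⟩) (.Q [-1,-1,0,0,
  0,0,-1,-1,-1,1,-1,-1] (.p false [0,0,1] [1,0,0,0,-1] (⟨0,[(24,0)]⟩,⟨0,[(23,0)]⟩) .k 2 (⟨0,[(17,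
  0)]⟩,⟨0,[(18,0)]⟩) .k (.r (-1) ⟨1,[(19,1),(2,1),(10,0),(0,0)]⟩ ⟨6,[(8,2),(1,2),(0,0),(9,0),(13,
  1)]⟩)) (.R ⟨0,false,false,true,[1,0,-1],[0,0,0,0,1],[1,1,1],(⟨0,[(24,0)]⟩,⟨0,[(25,0)]⟩),(⟨0,[(19,
  0)]⟩,⟨0,[(18,0)]⟩),⟨0,[(14,0)]⟩,.k,.k,.k,.k,.k,.k,⟨true,0,⟨1,[(22,0),(0,0)]⟩,⟨0,[]⟩⟩,⟨false,1,⟨5,
  [(2,3),(13,0),(0,2),(4,1),(3,0),(7,3)]⟩,⟨0,[(1,0),(21,0)]⟩⟩,⟨true,0,⟨0,[(20,0),(2,0)]⟩,⟨6,[(6,0),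
  (2,2),(0,0),(0,2),(18,0)]⟩⟩,⟨false,1,⟨3,[(5,1),(10,0),(0,4),(14,1),(2,0)]⟩,⟨0,[(0,0)]⟩⟩,⟨false,0,
  ⟨0,[]⟩,⟨0,[]⟩⟩,⟨false,0,⟨0,[]⟩,⟨0,[]⟩⟩,[.o ⟨false,0,⟨2,[(2,1),(3,0),(10,0),(5,1),(5,0),(1,0)]⟩,⟨2,
  [(0,1),(4,0),(10,0),(15,0),(2,0)]⟩⟩,.a ⟨true,0,⟨0,[(17,0)]⟩,⟨0,[(3,0)]⟩⟩ ⟨false,0,⟨0,[]⟩,⟨1,[(16,
  0),(0,0),(16,0)]⟩⟩ ⟨true,0,⟨0,[(2,0)]⟩,⟨0,[(3,0),(19,0)]⟩⟩,.e ⟨false,0,⟨1,[(22,0),(0,0)]⟩,⟨1,[(34,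
  0),(0,0)]⟩⟩ ⟨false,0,⟨0,[(2,0)]⟩,⟨3,[(1,1),(2,1),(18,3),(10,0),(0,0)]⟩⟩,.o ⟨false,0,⟨0,[(23,0)]⟩,
  ⟨7,[(2,3),(2,1),(4,1),(0,1),(4,3),(17,0),(0,0)]⟩⟩]⟩) (.R ⟨1,true,false,false,[0,0,1],[1,0,0,0,-1],
  [0,0,0,0,0,0,0,1],(⟨0,[(25,0)]⟩,⟨0,[(24,0)]⟩),(⟨0,[(18,0)]⟩,⟨0,[(19,0)]⟩),⟨0,[(15,0)]⟩,.k,.k,.k,
  .k,(.r (-1) ⟨0,[(0,0),(0,0),(21,0),(7,0),(3,0)]⟩ ⟨0,[(12,0),(9,0),(10,0)]⟩),.k,⟨false,1,⟨7,[(5,1),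
  (14,3),(2,7),(6,3),(0,1),(2,2),(0,2)]⟩,⟨3,[(9,1),(1,0),(9,0),(0,0)]⟩⟩,⟨true,0,⟨0,[(1,0),(21,0)]⟩,
  ⟨3,[(2,3),(19,0),(0,0),(12,1)]⟩⟩,⟨false,1,⟨1,[(16,0),(0,0),(17,0)]⟩,⟨0,[]⟩⟩,⟨true,0,⟨0,[(3,0),(8,
  0)]⟩,⟨0,[(0,0)]⟩⟩,⟨true,0,⟨0,[(33,0)]⟩,⟨0,[(32,0)]⟩⟩,⟨false,0,⟨0,[(1,0),(7,0),(13,0),(9,0)]⟩,⟨0,
  [(0,0),(31,0),(2,0)]⟩⟩,[]⟩))))))))))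

theorem ok0 : chk4 K KFs t0 base = true := by decide +kernel

open Helper25.KW Helper55.KE in
theorem closed {p a b c J l q : ℤ} {D dl : ℝ} {Cl : ℤ → ℤ → ℤ → ℤ → ℝ → Prop}
    (W : World p a b c J 1 l q D dl Cl) (g : G0 p a b c J D)
    {N X R : ℤ} {I : ℝ} (hk : KCl p l Cl N X R I) (kz : KF a b D (X + (1 : ℤ) * I) (X + (1 : ℤ) * I + R) I)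
    {Ne Xe : ℤ} {Ie : ℝ} (he : EFac p 1 D Cl 1 Ne Xe Ie)
    (hU : KU p a b l 1 Cl (fun _ _ _ => True) N)
    (hN0 : KNo p a b l 1 Cl (fun X R I => Zx 1 X R I))
    (h0 : 1 ≤ (c : ℝ))
    (h1 : 1 ≤ (a : ℝ) - (b : ℝ) - (c : ℝ))
    (h2 : 0 < -2 * (b : ℝ) + D)
    (h3 : 1 ≤ 2 * (a : ℝ) - (b : ℝ))
    (h4 : 0 < -(J : ℝ) + I)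
    (h5 : 0 < (J : ℝ) - D + I)
    (h6 : 0 < (X : ℝ) + I)
    (h7 : 0 < -(X : ℝ) - (R : ℝ) - I)
    (h8 : 1 ≤ (a : ℝ) - (b : ℝ) - (R : ℝ))
    (h9 : 1 ≤ 1 - 2 * (b : ℝ) - (c : ℝ) - (R : ℝ))
    (h10 : 1 ≤ 1 - (a : ℝ) - (R : ℝ)) : False := by
  have g1 := g.a2
  have g2 := g.b2
  have g3 := g.pa
  have g4 := g.pb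
  have g5 := g.J1
  have g6 := g.JD
  have g7 := g.D2
  have g8 := g.ca
  have g9 := g.ca'
  have k1 := kz.I0
  have k2 := kz.ID
  have k3 := kz.z1
  have k4 := kz.z2
  have k5 := kz.s1
  have k6 := kz.s2
  have e1 := he.I0
  have e2 := he.ID
  have e3 := he.x0
  have e4 := he.xp
  have hkf : ∀ M : ℤ, ∀ kf ∈ KFs, KOk4 p l Cl 1 (xv [1, a, b, c, p, J, X, R, Xe] [D, I, Ie]) N M kf := by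
    intro M
    have hA1 : evg (xv [1, a, b, c, p, J, X, R, Xe] [D, I, Ie]) [0, 1] = a := by
      simp only [evg_cons, evg_nil, xv, List.map_cons, List.map_nil, List.cons_append, List.nil_append]
      push_cast
      ring
    have hB1 : evg (xv [1, a, b, c, p, J, X, R, Xe] [D, I, Ie]) [0, 0, 1] = b := by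
      simp only [evg_cons, evg_nil, xv, List.map_cons, List.map_nil, List.cons_append, List.nil_append]
      push_cast
      ring
    simp only [KFs, List.forall_mem_cons]
    refine ⟨kok4_u hA1 hB1 M hU ?_, kok4_no hA1 hB1 N M hN0 ?_, fun _ h => absurd h (by simp)⟩
    · intro _ _ _ _ _
      trivial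
    · intro X' R' I' _ hg
      simp only [List.forall_mem_cons, List.not_mem_nil, false_imp_iff, implies_true, and_true,
        evg_cons, evg_nil, xv, List.map_cons, List.map_nil, List.cons_append, List.nil_append] at hg
      push_cast at hg
      simp only [Zx, Zp, Zs, Zsp, Zi, ZiD, Zy]
      push_cast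
      linarith
  push_cast at *
  refine sound4 (val_E W.toBase hk he (row := [1]) (by simp) (by simp) []) W rfl (Nk := N)
    (fun kf _ _ => ⟨_, rfl⟩) (fun _ _ _ => rfl) (hkf _) ok0 ?_
  · simp only [base, List.forall_mem_cons, List.not_mem_nil, false_imp_iff, implies_true,
      and_true, hld, xv, evg_cons, evg_nil, List.map_cons, List.map_nil, List.cons_append,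
      List.nil_append, if_true, if_false, Bool.false_eq_true]
    push_cast
    refine ⟨?_, ?_, ?_, ?_, ?_, ?_, ?_, ?_, ?_, ?_, ?_, ?_, ?_, ?_, ?_, ?_, ?_, ?_, ?_, ?_, ?_, ?_, ?_, ?_, ?_, ?_, ?_, ?_, ?_⟩ <;> linarith

end Helper25.S1T.Zpp1SM5
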