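import Pool.Agent.Helper25.KG.C3
import Pool.Agent.Helper25.S1T.Zpp2A_p0
import Pool.Agent.Helper25.S1T.Zpp2A_p1

set_option autoImplicit false
set_option linter.all false

namespace Helper25.S1T.Zpp2A

open Helper25.KG Helper11.CT

noncomputable def t6 : Tre :=
  .I [0,0,-2,-2,1] t4 t5

theorem ok6 : chk3 K KFs t6 l11 = true :=
  chk3_I (e' := [1,0,2,2,-1]) (by decide +kernel) (by decide +kernel) ok4 ok5

noncomputable def t8 : Tre :=
  .Q [0,1,0,1,0,0,0,0,0,-1] (.pp true [-1,1]) t6 t7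

theorem ok8 : chk3 K KFs t8 l10 = true :=
  chk3_Q (e' := [0,-1,0,-1,0,0,0,0,0,1]) (by decide +kernel) (by decide +kernel) ok6 ok7

noncomputable def t10 : Tre :=
  .I [1,-1,1,0,0,0,0,1] t8 t9

theorem ok10 : chk3 K KFs t10 r9 = true :=
  chk3_I (e' := [0,1,-1,0,0,0,0,-1]) (by decide +kernel) (by decide +kernel) ok8 ok9

noncomputable def t11 : Tre :=
  .Q [0,-1,-1,-1,1,0,1,0,0,0,1] (.p true [0,0,1] [] (⟨0,[(20,0)]⟩,⟨0,[(19,0)]⟩) .k 0 (⟨0,[]⟩,⟨0,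
  []⟩) .k .k) t3 t10

theorem ok11 : chk3 K KFs t11 r8 = true :=
  chk3_Q (e' := [0,1,1,1,-1,0,-1,0,0,0,-1]) (by decide +kernel) (by decide +kernel) ok3 ok10

noncomputable def t12 : Tre :=
  .Q [0,0,0,1,0,0,1,1,0,0,1] (.p true [0,0,1] [] (⟨0,[(19,0)]⟩,⟨0,[(18,0)]⟩) .k 0 (⟨0,[]⟩,⟨0,[]⟩)
  .k .k) t2 t11

theorem ok12 : chk3 K KFs t12 r7 = true :=
  chk3_Q (e' := [0,0,0,-1,0,0,-1,-1,0,0,-1]) (by decide +kernel) (by decide +kernel) ok2 ok11

noncomputable def t13 : Tre :=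
  .I [1,-1,0,1,0,0,0,1] t1 t12

theorem ok13 : chk3 K KFs t13 l6 = true :=
  chk3_I (e' := [0,1,0,-1,0,0,0,-1]) (by decide +kernel) (by decide +kernel) ok1 ok12

noncomputable def t15 : Tre :=
  .Q [0,-1,1,0,0,0,-1,0,0,0,-1] (.p false [0,0,1] [] (⟨0,[(17,0)]⟩,⟨0,[(16,0)]⟩) .k 0 (⟨0,[]⟩,⟨0,
  []⟩) .k .k) t13 t14

theorem ok15 : chk3 K KFs t15 l5 = true :=
  chk3_Q (e' := [0,1,-1,0,0,0,1,0,0,0,1]) (by decide +kernel) (by decide +kernel) ok13 ok14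

noncomputable def t17 : Tre :=
  .I [0,-1,1,1,0,0,0,1] t15 t16

theorem ok17 : chk3 K KFs t17 l4 = true :=
  chk3_I (e' := [1,1,-1,-1,0,0,0,-1]) (by decide +kernel) (by decide +kernel) ok15 ok16

noncomputable def t19 : Tre :=
  .Q [0,0,0,0,0,-1,0,0,0,1,-1] (.ed true [0,1,1] .k) t17 t18

theorem ok19 : chk3 K KFs t19 r3 = true :=
  chk3_Q (e' := [0,0,0,0,0,1,0,0,0,-1,1]) (by decide +kernel) (by decide +kernel) ok17 ok18

noncomputable def t20 : Tre :=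
  .Q [0,-1,0,1,0,0,-1,-1,0,0,-1] (.p false [0,0,1] [] (⟨0,[(14,0)]⟩,⟨0,[(13,0)]⟩) .k 0 (⟨0,[]⟩,⟨0,
  []⟩) .k .k) t0 t19

theorem ok20 : chk3 K KFs t20 l2 = true :=
  chk3_Q (e' := [0,1,0,-1,0,0,1,1,0,0,1]) (by decide +kernel) (by decide +kernel) ok0 ok19

noncomputable def t22 : Tre :=
  .I [1,1,0,-1,0,0,0,1] t20 t21

theorem ok22 : chk3 K KFs t22 l1 = true :=
  chk3_I (e' := [0,-1,0,1,0,0,0,-1]) (by decide +kernel) (by decide +kernel) ok20 ok21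

noncomputable def t27 : Tre :=
  .I [0,0,-2,-2,1,0,0,1] t25 t26

theorem ok27 : chk3 K KFs t27 r18 = true :=
  chk3_I (e' := [1,0,2,2,-1,0,0,-1]) (by decide +kernel) (by decide +kernel) ok25 ok26

noncomputable def t28 : Tre :=
  .Q [0,-1,0,1,0,0,-1,-1,0,1,-1] (.p false [0,0,1] [1] (⟨0,[(18,0)]⟩,⟨0,[(17,0)]⟩) .k 1 (⟨0,[]⟩,⟨0,
  []⟩) .k .k) t24 t27

theorem ok28 : chk3 K KFs t28 l17 = true :=
  chk3_Q (e' := [0,1,0,-1,0,0,1,1,0,-1,1]) (by decide +kernel) (by decide +kernel) ok24 ok27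

noncomputable def t30 : Tre :=
  .I [1,0,1,0,0,0,0,-1] t28 t29

theorem ok30 : chk3 K KFs t30 l16 = true :=
  chk3_I (e' := [0,0,-1,0,0,0,0,1]) (by decide +kernel) (by decide +kernel) ok28 ok29

noncomputable def t32 : Tre :=
  .I [0,0,1,1,0,0,0,-1] t30 t31

theorem ok32 : chk3 K KFs t32 l15 = true :=
  chk3_I (e' := [1,0,-1,-1,0,0,0,1]) (by decide +kernel) (by decide +kernel) ok30 ok31

noncomputable def t34 : Tre :=
  .Q [0,0,0,0,0,-1,0,0,0,0,1] (.ed false [1,-1,1] .k) t32 t33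

theorem ok34 : chk3 K KFs t34 l14 = true :=
  chk3_Q (e' := [0,0,0,0,0,1,0,0,0,0,-1]) (by decide +kernel) (by decide +kernel) ok32 ok33

noncomputable def t36 : Tre :=
  .Q [0,0,0,-1,0,0,1,1,0,0,1] (.p true [0,0,1] [] (⟨0,[(14,0)]⟩,⟨0,[(13,0)]⟩) .k 0 (⟨0,[]⟩,⟨0,[]⟩)
  .k .k) t34 t35

theorem ok36 : chk3 K KFs t36 r13 = true :=
  chk3_Q (e' := [0,0,0,1,0,0,-1,-1,0,0,-1]) (by decide +kernel) (by decide +kernel) ok34 ok35

noncomputable def t37 : Tre :=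
  .I [1,0,0,1,0,0,0,-1] t23 t36

theorem ok37 : chk3 K KFs t37 r1 = true :=
  chk3_I (e' := [0,0,0,-1,0,0,0,1]) (by decide +kernel) (by decide +kernel) ok23 ok36

noncomputable def t38 : Tre :=
  .Q [0,0,0,0,0,0,-1,-1,0,0,-1] (.p false [0,0,1] [] (⟨0,[(12,0)]⟩,⟨0,[(11,0)]⟩) .k 0 (⟨0,[]⟩,⟨0,
  []⟩) .k .k) t22 t37

theorem ok38 : chk3 K KFs t38 l0 = true :=
  chk3_Q (e' := [0,0,0,0,0,0,1,1,0,0,1]) (by decide +kernel) (by decide +kernel) ok22 ok37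

noncomputable def t40 : Tre :=
  .I [0,0,1,0,0,0,0,1] t38 t39

theorem ok40 : chk3 K KFs t40 base = true :=
  chk3_I (e' := [1,0,-1,0,0,0,0,-1]) (by decide +kernel) (by decide +kernel) ok38 ok39

open Helper25.KW Helper55.KE in
theorem closed {p a b c J l q : ℤ} {D dl : ℝ} {Cl : ℤ → ℤ → ℤ → ℤ → ℝ → Prop}
    (W : World p a b c J 1 l q D dl Cl) (g : G0 p a b c J D)
    {N X R : ℤ} {I : ℝ} (hk : KCl p l Cl N X R I) (kz : KF a b D (X + (1 : ℤ) * I) (X + (1 : ℤ) * I + R) I)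
    {Ne Xe : ℤ} {Ie : ℝ} (he : EFac p 1 D Cl (a) Ne Xe Ie)
    (hE : KZ p a b l 1 Cl (fun X R I => Zx 1 X R I ∧ Zy b 1 D X R I) N
      (fun X R I => (1 : ℤ) * (X + (1 : ℤ) * I + R)) ((1 : ℤ) * (X + (1 : ℤ) * I + R)))
    (h0 : 1 ≤ (c : ℝ))
    (h1 : 1 ≤ (a : ℝ) - (b : ℝ))
    (h2 : 1 ≤ 1 - (a : ℝ) + (b : ℝ) + (c : ℝ))
    (h3 : 1 ≤ 2 * (a : ℝ) - (b : ℝ))
    (h4 : 0 < -(X : ℝ) - I)
    (h5 : 0 < -(b : ℝ) - (X : ℝ) + D - I) : False := by
  have g1 := g.a2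
  have g2 := g.b2
  have g3 := g.pa
  have g4 := g.pb
  have g5 := g.J1
  have g6 := g.JD
  have g7 := g.D2
  have g8 := g.ca
  have g9 := g.ca'
  have k1 := kz.I0
  have k2 := kz.ID
  have k3 := kz.z1
  have k4 := kz.z2
  have k5 := kz.s1
  have k6 := kz.s2
  have e1 := he.I0
  have e2 := he.ID
  have e3 := he.x0
  have e4 := he.xp
  have hkf : ∀ kf ∈ KFs, KOk3 p l Cl 1 (xv [1, a, b, c, p, J, X, R, Xe] [D, I, Ie]) N kf := by
    have hA1 : evg (xv [1, a, b, c, p, J, X, R, Xe] [D, I, Ie]) [0, 1] = a := by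
      simp only [evg_cons, evg_nil, xv, List.map_cons, List.map_nil, List.cons_append, List.nil_append]
      push_cast
      ring
    have hB1 : evg (xv [1, a, b, c, p, J, X, R, Xe] [D, I, Ie]) [0, 0, 1] = b := by
      simp only [evg_cons, evg_nil, xv, List.map_cons, List.map_nil, List.cons_append, List.nil_append]
      push_cast
      ring
    simp only [KFs, List.forall_mem_cons]
    refine ⟨kok3_ex hA1 hB1 hE ?_ ?_, fun _ h => absurd h (by simp)⟩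
    · intro X' R' I' hg
      simp only [evg_cons, evg_nil, xv, List.map_cons, List.map_nil, List.cons_append, List.nil_append] at hg ⊢
      push_cast at hg ⊢
      linarith
    · intro X' R' I' _ hg
      simp only [List.forall_mem_cons, List.not_mem_nil, false_imp_iff, implies_true, and_true,
        evg_cons, evg_nil, xv, List.map_cons, List.map_nil, List.cons_append, List.nil_append] at hg
      push_cast at hg
      simp only [Zx, Zp, Zs, Zsp, Zi, ZiD, Zy]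
      push_cast
      refine ⟨?_, ?_⟩ <;> linarith [hg.1, hg.2]
  push_cast at *
  refine sound3 (val_E W.toBase hk he (row := [0,1]) (by simp) (by simp) []) W rfl (Nk := N)
    (fun kf _ _ => ⟨_, rfl⟩) hkf ok40 ?_
  · simp only [base, List.forall_mem_cons, List.not_mem_nil, false_imp_iff, implies_true,
      and_true, hld, xv, evg_cons, evg_nil, List.map_cons, List.map_nil, List.cons_append,
      List.nil_append, if_true, if_false, Bool.false_eq_true]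
    push_cast
    refine ⟨?_, ?_, ?_, ?_, ?_, ?_, ?_, ?_, ?_, ?_, ?_, ?_, ?_, ?_, ?_, ?_, ?_, ?_, ?_, ?_, ?_, ?_, ?_, ?_⟩ <;> linarith

end Helper25.S1T.Zpp2A
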