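import Pool.Agent.Helper81.PC.C4N
import Pool.Agent.Helper25.KG.C4
import Pool.Agent.Helper25.KG.C4d

set_option autoImplicit false
set_option linter.all false

namespace Helper25.S1T.Zpp2Ca_r1

open Helper25.KG Helper11.CT

noncomputable def K : Cls :=
  dK 1

noncomputable def KFs : List KF3 :=
  [(3, bx3 ++ [(-1, 0, 0, [0,0,-1,0,0,0,0,0,1])]),
    (0, bx3 ++ [(-1, 0, 0, []), (-1, 0, 0, [0,0,-1,0,0,0,0,0,1])]),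
    (0, bx3 ++ [(0, 0, -1, [0,0,0,0,0,-1,0,0,1]), (-1, 0, 0, [0,0,-1,0,0,0,0,0,1])])]

noncomputable def base : List Con :=
  [(false,[0,0,0,0,0,0,0,0,-1,2]),
  (false,[0,0,-1,0,0,0,-1,0,1,-1]),
  (false,[0,0,0,0,0,0,1,0,0,1]),
  (false,[0,0,0,0,0,1,0,0,-1,1]),
  (false,[0,0,0,0,0,1,0,0,0,-1]),
  (false,[0,1,0,0,0,0,1,1,0,1]),
  (false,[0,1,0,0,0,0,-1,-1,0,-1]),
  (false,[0,0,1,0,0,0,1,0,0,1]),
  (false,[0,0,1,0,0,0,-1,0,0,-1]),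
  (false,[0,0,0,0,0,0,0,0,1,-1]),
  (false,[0,0,0,0,0,0,0,0,0,1]),
  (false,[0,0,0,0,1,0,0,0,-2]),
  (false,[0,0,0,0,0,-1,0,0,1]),
  (true,[0,0,0,0,0,1]),
  (true,[0,2,-1]),
  (false,[0,0,2,0,0,0,0,0,-1]),
  (true,[1,-1,1,1]),
  (true,[0,1,-1]),
  (true,[0,1,0,-1]),
  (true,[0,0,0,1]),
  (true,[0,0,-2,0,1]),
  (true,[0,-2,0,0,1]),
  (true,[-1,0,1]),
  (true,[-1,1])]

noncomputable def l0 : List Con := (true, [0,0,1,1,-1,0,0,-1]) :: base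

noncomputable def r0 : List Con := (true, [1,0,-1,-1,1,0,0,1]) :: base

noncomputable def l1 : List Con := (false, [0,-1,0,1,1,0,-1,-1,-1,-1]) :: r0

noncomputable def r1 : List Con := (false, [0,1,0,-1,-1,0,1,1,1,1]) :: r0

noncomputable def l2 : List Con := (true, [1,-1,-1,0,1,0,0,1]) :: l1

noncomputable def r2 : List Con := (true, [0,1,1,0,-1,0,0,-1]) :: l1

noncomputable def l3 : List Con := (false, [0,0,0,0,0,0,-1,-1,0,-1]) :: l2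

noncomputable def r3 : List Con := (false, [0,0,0,0,0,0,1,1,0,1]) :: l2

noncomputable def l4 : List Con := (false, [0,-1,-1,-1,1,0,-1,0,0,-1]) :: l3

noncomputable def r4 : List Con := (false, [0,1,1,1,-1,0,1,0,0,1]) :: l3

noncomputable def l5 : List Con := (false, [0,0,0,-1,0,0,0,0,1]) :: l4

noncomputable def r5 : List Con := (false, [0,0,0,1,0,0,0,0,-1]) :: l4

noncomputable def l6 : List Con := (false, [0,0,2,0,-1,0,1,0,1,1]) :: r4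

noncomputable def r6 : List Con := (false, [0,0,-2,0,1,0,-1,0,-1,-1]) :: r4

noncomputable def l7 : List Con := (false, [0,0,0,1,0,0,0,0,-1]) :: r6

noncomputable def r7 : List Con := (false, [0,0,0,-1,0,0,0,0,1]) :: r6

noncomputable def l8 : List Con := (false, [0,0,0,-1,0,0,-1,-1,1,-1]) :: l7

noncomputable def r8 : List Con := (false, [0,0,0,1,0,0,1,1,-1,1]) :: l7

noncomputable def l9 : List Con := (true, [1,0,-1,0,0,0,0,-1]) :: r8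

noncomputable def r9 : List Con := (true, [0,0,1,0,0,0,0,1]) :: r8

noncomputable def l10 : List Con := (false, [0,1,0,-1,0,0,0,1,1]) :: l9

noncomputable def r10 : List Con := (false, [0,-1,0,1,0,0,0,-1,-1]) :: l9

noncomputable def l11 : List Con := (true, [0,0,2,2,-1]) :: r10

noncomputable def r11 : List Con := (true, [1,0,-2,-2,1]) :: r10

noncomputable def l12 : List Con := (true, [1,0,2,2,-1]) :: r11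

noncomputable def r12 : List Con := (true, [0,0,-2,-2,1]) :: r11

noncomputable def l13 : List Con := (false, [0,1,0,-1,0,0,1,1,1,1]) :: r12

noncomputable def r13 : List Con := (false, [0,-1,0,1,0,0,-1,-1,-1,-1]) :: r12

noncomputable def l14 : List Con := (true, [1,-1,-1,-1,1,0,0,1]) :: r3

noncomputable def r14 : List Con := (true, [0,1,1,1,-1,0,0,-1]) :: r3

noncomputable def l15 : List Con := (false, [0,0,0,1,0,0,0,0,-1]) :: l14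

noncomputable def r15 : List Con := (false, [0,0,0,-1,0,0,0,0,1]) :: l14

noncomputable def l16 : List Con := (true, [1,0,-1,0,0,0,0,1]) :: l15

noncomputable def r16 : List Con := (true, [0,0,1,0,0,0,0,-1]) :: l15

noncomputable def l17 : List Con := (false, [0,1,0,-1,0,0,-1,-1,1,-1]) :: l16

noncomputable def r17 : List Con := (false, [0,-1,0,1,0,0,1,1,-1,1]) :: l16

noncomputable def l18 : List Con := (false, [0,0,0,-1,0,0,1,1,0,1]) :: r17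

noncomputable def r18 : List Con := (false, [0,0,0,1,0,0,-1,-1,0,-1]) :: r17

def HH (Q : List Con) : Prop := Q = r5 ∨ Q = r13 ∨ Q = r18

noncomputable def t0 : Tre :=
  (.R ⟨2,true,false,true,[0,1],[0,0,1],[1,1,0,0,0,0,0,1],(⟨0,[]⟩,⟨0,[]⟩),(⟨0,[(11,0)]⟩,⟨0,[(10,
  0)]⟩),⟨0,[]⟩,.k,.k,.k,.k,.k,.k,⟨true,0,⟨0,[]⟩,⟨1,[(8,0),(0,0)]⟩⟩,⟨false,0,⟨0,[(3,0)]⟩,⟨0,[(9,0),
  (11,0)]⟩⟩,⟨true,1,⟨1,[(2,1),(3,1),(5,0),(6,1),(2,0)]⟩,⟨0,[(0,0)]⟩⟩,⟨false,1,⟨0,[(6,0),(12,0),(2,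
  0)]⟩,⟨1,[(0,1),(1,1),(9,0),(9,0)]⟩⟩,⟨false,1,⟨1,[(2,1),(3,1),(5,0),(9,0)]⟩,⟨0,[(0,0),(18,0),(2,
  0)]⟩⟩,⟨true,0,⟨0,[(6,0)]⟩,⟨1,[(0,1),(1,1),(9,0),(6,1),(2,0)]⟩⟩,[]⟩)

theorem ok0 : chk4 K KFs t0 l0 = true := by decide +kernel

noncomputable def t1 : Tre :=
  (.R ⟨0,false,false,true,[0,1,-1],[0,1],[1,1],(⟨0,[(10,0)]⟩,⟨0,[(16,0),(1,0)]⟩),(⟨0,[(19,0)]⟩,⟨0,
  [(18,0)]⟩),⟨0,[(16,0)]⟩,.k,.k,.k,.k,.k,.k,⟨false,1,⟨0,[(1,0),(6,0),(14,0)]⟩,⟨0,[(22,0),(6,0)]⟩⟩,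
  ⟨true,0,⟨0,[(8,0)]⟩,⟨0,[(14,0)]⟩⟩,⟨false,1,⟨0,[(5,0)]⟩,⟨0,[(2,0),(5,0),(13,0)]⟩⟩,⟨true,0,⟨0,[(11,
  0)]⟩,⟨0,[(2,0)]⟩⟩,⟨false,0,⟨0,[]⟩,⟨0,[]⟩⟩,⟨false,0,⟨0,[]⟩,⟨0,[]⟩⟩,[.e ⟨false,0,⟨0,[(23,0)]⟩,⟨0,
  [(27,0),(1,0)]⟩⟩ ⟨false,0,⟨1,[(8,0),(4,0),(6,0),(4,1)]⟩,⟨0,[(1,0)]⟩⟩,.a ⟨true,0,⟨0,[(25,0)]⟩,⟨0,
  [(0,0)]⟩⟩ ⟨true,0,⟨0,[]⟩,⟨1,[(13,0),(0,0)]⟩⟩ ⟨false,0,⟨0,[(8,0),(16,0)]⟩,⟨1,[(1,0),(3,0),(6,0)]⟩⟩,
  .o ⟨false,1,⟨0,[(7,0),(9,0)]⟩,⟨0,[(13,0)]⟩⟩,.o ⟨false,1,⟨6,[(4,1),(0,1),(1,0),(6,3),(2,2),(2,0)]⟩,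
  ⟨0,[(8,0)]⟩⟩]⟩)

theorem ok1 : chk4 K KFs t1 l5 = true := by decide +kernel

noncomputable def t2 : Tre :=
  (.K ⟨0,[1,-1,1],(-1),0,(⟨0,[(16,0),(1,0)]⟩,⟨0,[(10,0)]⟩),.k,(.r (-2) ⟨1,[(5,1),(18,1),(1,0),(0,
  0)]⟩ ⟨0,[(1,0),(0,0),(19,0)]⟩),.k,.k,.k,[⟨6,[(4,1),(0,1),(1,0),(6,3),(2,2),(2,0)]⟩,⟨0,[(0,0)]⟩,⟨0,
  [(1,0),(0,0),(4,0),(9,0)]⟩,⟨1,[(0,0),(4,0),(1,0),(0,0),(2,0),(12,0)]⟩,⟨1,[(7,1),(9,0),(8,0)]⟩]⟩)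

theorem ok2 : chk4 K KFs t2 l6 = true := by decide +kernel

open Helper55.PC in
noncomputable def t3n : Helper55.PC.Ten :=
  (i 324637400738491769642405131845672 (r
  849313433956454468990152690053525769355134764683275754938253664431947091628443559321287836036774253551828827736091774440366585841198111017126383710574376595168690818894605783724309466994201491285009894646703286158252836998504600130527979195016603149874788092161216674499846385318096182544564721986941128239907274557324543324933039383608158717278249841523013640033073805686477948199657686165174147651564127974847194587651966534048474441548832992)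
  (r
  28616256115982648392117131798300147199630948273314856652716422863013599369949350748486106653293395223435859654545671610145359862509881423350607569615343269416901940171957912520363199069277097516971690054940501114163406133582710943015050))

noncomputable def t3 : Tre := Helper55.PC.toT t3n

theorem ok3 : chk4 K KFs t3 l8 = true :=
  Helper81.PC.chk4N_sound K KFs t3n l8 (by decide +kernel)

noncomputable def t4 : Tre :=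
  (.R ⟨0,false,false,false,[1,0,-1],[0,1,-1],[1,0,1,1,0,0,0,-1],(⟨0,[(19,0)]⟩,⟨0,[(20,0)]⟩),(⟨0,
  [(14,0)]⟩,⟨0,[(20,0),(1,0)]⟩),⟨0,[(13,0)]⟩,.k,.k,.k,.k,.k,.k,⟨true,0,⟨0,[]⟩,⟨1,[(17,0),(0,0)]⟩⟩,
  ⟨false,1,⟨5,[(1,3),(0,1),(1,1),(4,1),(11,0),(8,0)]⟩,⟨1,[(17,0),(0,0),(3,1),(0,1)]⟩⟩,⟨false,0,⟨0,
  [(26,0)]⟩,⟨1,[(28,1),(1,0),(0,0)]⟩⟩,⟨true,0,⟨0,[(3,0)]⟩,⟨1,[(0,1),(0,0),(4,0),(10,0)]⟩⟩,⟨false,0,
  ⟨0,[]⟩,⟨0,[]⟩⟩,⟨false,0,⟨0,[]⟩,⟨0,[]⟩⟩,[.o ⟨false,0,⟨0,[(3,0),(2,0)]⟩,⟨0,[(9,0),(7,0)]⟩⟩,.e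
  ⟨false,0,⟨0,[(1,0),(24,0)]⟩,⟨7,[(0,2),(7,0),(0,5),(7,0),(3,0),(2,2)]⟩⟩ ⟨false,1,⟨5,[(1,3),(0,1),
  (5,3),(3,1),(17,0),(0,0)]⟩,⟨0,[(0,0)]⟩⟩,.a ⟨true,0,⟨1,[(11,0),(6,0),(3,0),(0,0)]⟩,⟨0,[(12,0)]⟩⟩
  ⟨false,0,⟨1,[(1,0),(4,0),(10,0),(8,1)]⟩,⟨0,[(2,0),(8,0),(16,1),(2,0)]⟩⟩ ⟨true,0,⟨3,[(1,2),(1,1),
  (1,0),(2,0),(16,0)]⟩,⟨0,[(0,0)]⟩⟩,.o ⟨false,0,⟨0,[(18,0)]⟩,⟨1,[(12,1),(8,0),(8,0)]⟩⟩]⟩)

theorem ok4 : chk4 K KFs t4 l10 = true := by decide +kernel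

noncomputable def t5 : Tre :=
  (.R ⟨2,true,false,true,[0,1],[1,-1],[1,1,-1,-1],(⟨0,[]⟩,⟨0,[]⟩),(⟨0,[(23,0)]⟩,⟨0,[(24,0)]⟩),⟨0,
  []⟩,.k,.k,.k,(.r 1 ⟨0,[(0,0)]⟩ ⟨0,[(29,1),(1,0),(0,0)]⟩),.k,.k,⟨true,0,⟨0,[]⟩,⟨1,[(18,0),(0,0)]⟩⟩,
  ⟨false,0,⟨1,[(18,0),(0,0),(3,1),(0,1)]⟩,⟨5,[(2,3),(0,1),(1,1),(4,1),(11,0),(8,0)]⟩⟩,⟨true,1,⟨0,
  [(2,0),(7,0),(18,0)]⟩,⟨0,[(0,0)]⟩⟩,⟨false,1,⟨0,[(23,0),(0,0),(4,1),(2,0)]⟩,⟨6,[(0,2),(0,4),(1,2),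
  (1,0),(2,1),(3,1)]⟩⟩,⟨false,1,⟨0,[(2,0),(7,0)]⟩,⟨1,[(18,0),(0,0),(7,1)]⟩⟩,⟨true,0,⟨0,[(23,0),(0,
  0),(4,0)]⟩,⟨0,[(4,0)]⟩⟩,[]⟩)

theorem ok5 : chk4 K KFs t5 l11 = true := by decide +kernel

noncomputable def t6 : Tre :=
  (.N [0,2] 1 ⟨0,[(0,0)]⟩ ⟨0,[(1,0)]⟩ (.x (-1) ⟨0,[(1,0),(3,1),(18,1)]⟩ ⟨0,[(19,0),(0,0),(4,1)]⟩))

theorem ok6 : chk4 K KFs t6 l12 = true := by decide +kernel

noncomputable def t7 : Tre :=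
  (.R ⟨0,false,false,true,[1,-1],[1,-1,1],[1],(⟨0,[(25,0)]⟩,⟨0,[(26,0)]⟩),(⟨0,[(23,0),(1,0)]⟩,⟨0,
  [(17,0)]⟩),⟨0,[(16,0),(0,0)]⟩,.k,.k,(.r (-1) ⟨0,[(1,0)]⟩ ⟨0,[(29,1),(6,1)]⟩),.k,.k,.k,⟨false,0,⟨0,
  [(4,0),(24,0)]⟩,⟨9,[(0,2),(10,0),(0,7),(8,1),(2,0),(2,3)]⟩⟩,⟨true,0,⟨0,[(15,0)]⟩,⟨0,[(21,0)]⟩⟩,
  ⟨false,0,⟨0,[(29,0)]⟩,⟨1,[(0,0),(0,0),(9,0)]⟩⟩,⟨true,0,⟨0,[(18,0)]⟩,⟨0,[(9,0)]⟩⟩,⟨false,0,⟨0,[]⟩,
  ⟨0,[]⟩⟩,⟨false,0,⟨0,[]⟩,⟨0,[]⟩⟩,[.a ⟨true,0,⟨0,[(0,0)]⟩,⟨1,[(3,0),(5,0),(4,0),(14,0)]⟩⟩ ⟨true,0,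
  ⟨0,[]⟩,⟨1,[(20,0),(0,0)]⟩⟩ ⟨false,1,⟨1,[(1,0),(16,1),(14,0)]⟩,⟨0,[(9,0),(19,0)]⟩⟩,.o ⟨false,1,⟨1,
  [(0,1),(23,0),(9,0)]⟩,⟨0,[(6,0),(2,0)]⟩⟩,.o ⟨false,0,⟨1,[(20,0),(0,0)]⟩,⟨1,[(24,0),(8,0)]⟩⟩,.o
  ⟨false,0,⟨0,[(20,0),(0,0)]⟩,⟨5,[(1,0),(2,1),(0,1),(1,1),(16,0),(8,1)]⟩⟩]⟩)

theorem ok7 : chk4 K KFs t7 l13 = true := by decide +kernel

noncomputable def t8 : Tre :=
  (.R ⟨0,false,false,false,[1,0,-1],[0,1],[0,1,1],(⟨0,[(18,0)]⟩,⟨0,[(19,0)]⟩),(⟨0,[(22,0)]⟩,⟨0,[(21,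
  0)]⟩),⟨0,[(12,0)]⟩,.k,.k,.k,.k,.k,.k,⟨true,0,⟨0,[(27,0)]⟩,⟨0,[(25,0)]⟩⟩,⟨false,1,⟨0,[(3,0),(7,
  1)]⟩,⟨0,[(17,0),(3,0),(0,0)]⟩⟩,⟨false,0,⟨0,[(0,0)]⟩,⟨1,[(5,1),(5,1),(17,0),(0,0)]⟩⟩,⟨true,0,⟨0,
  [(1,0)]⟩,⟨0,[(5,0),(15,0),(0,0),(4,0)]⟩⟩,⟨false,0,⟨0,[]⟩,⟨0,[]⟩⟩,⟨false,0,⟨0,[]⟩,⟨0,[]⟩⟩,[.o
  ⟨false,0,⟨0,[(2,0)]⟩,⟨1,[(8,0),(6,0),(0,0),(10,0),(2,0)]⟩⟩,.o ⟨false,1,⟨2,[(1,0),(5,1),(6,0),(15,
  0)]⟩,⟨0,[(27,0)]⟩⟩,.a ⟨true,0,⟨1,[(10,0),(6,0),(3,0),(0,0)]⟩,⟨0,[(11,0)]⟩⟩ ⟨false,0,⟨1,[(16,0),(0,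
  0)]⟩,⟨1,[(29,0),(0,0)]⟩⟩ ⟨true,0,⟨0,[(2,0),(8,0)]⟩,⟨1,[(10,0),(6,0),(3,0),(0,0),(4,1)]⟩⟩,.o
  ⟨false,0,⟨0,[(17,0)]⟩,⟨1,[(11,1),(8,0),(8,0)]⟩⟩]⟩)

theorem ok8 : chk4 K KFs t8 r9 = true := by decide +kernel

noncomputable def t9 : Tre :=
  (.R ⟨0,false,false,false,[0,1,-1],[0,1],[1],(⟨0,[(11,0)]⟩,⟨0,[(17,0),(1,0)]⟩),(⟨0,[(20,0)]⟩,⟨0,
  [(19,0)]⟩),⟨0,[(17,0)]⟩,.k,.k,.k,.k,.k,.k,⟨false,1,⟨0,[(0,0),(0,0),(7,0)]⟩,⟨0,[(23,0),(6,0)]⟩⟩,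
  ⟨true,0,⟨0,[(9,0)]⟩,⟨0,[(15,0)]⟩⟩,⟨true,1,⟨0,[(6,0)]⟩,⟨0,[(2,0),(0,0)]⟩⟩,⟨false,1,⟨0,[(12,0),(15,
  0)]⟩,⟨0,[(3,0)]⟩⟩,⟨false,0,⟨0,[]⟩,⟨0,[]⟩⟩,⟨false,0,⟨0,[]⟩,⟨0,[]⟩⟩,[.a ⟨true,0,⟨0,[(26,0)]⟩,⟨0,[(0,
  0)]⟩⟩ ⟨true,0,⟨0,[]⟩,⟨1,[(14,0),(0,0)]⟩⟩ ⟨false,0,⟨0,[(9,0),(16,0)]⟩,⟨0,[(3,0),(2,0)]⟩⟩,.o ⟨false,
  1,⟨1,[(18,0),(7,1),(1,0)]⟩,⟨0,[(25,0)]⟩⟩,.o ⟨false,1,⟨12,[(1,6),(3,1),(0,1),(8,3),(2,1),(2,0)]⟩,
  ⟨0,[(14,0)]⟩⟩,.o ⟨false,1,⟨12,[(1,0),(3,3),(0,3),(8,7),(2,3),(2,1)]⟩,⟨0,[(9,0)]⟩⟩]⟩)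

theorem ok9 : chk4 K KFs t9 r7 = true := by decide +kernel

noncomputable def t10 : Tre :=
  (.R ⟨0,false,false,true,[0,0,1],[1,-1],[1],(⟨0,[(18,0)]⟩,⟨0,[(17,0)]⟩),(⟨0,[(20,0)]⟩,⟨0,[(21,
  0)]⟩),⟨0,[(12,0)]⟩,.k,.k,.k,.k,.k,.k,⟨true,0,⟨0,[(24,0)]⟩,⟨0,[(26,0)]⟩⟩,⟨false,0,⟨1,[(9,0),(6,0),
  (3,0),(0,0)]⟩,⟨1,[(10,1),(8,0),(8,0)]⟩⟩,⟨false,1,⟨1,[(0,0),(5,0),(3,1),(18,0)]⟩,⟨1,[(1,0),(2,0),
  (11,0)]⟩⟩,⟨true,0,⟨0,[(0,0)]⟩,⟨0,[(2,0),(1,0)]⟩⟩,⟨false,0,⟨0,[]⟩,⟨0,[]⟩⟩,⟨false,0,⟨0,[]⟩,⟨0,[]⟩⟩,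
  [.o ⟨false,0,⟨0,[(26,0)]⟩,⟨0,[(4,0),(1,0)]⟩⟩,.o ⟨false,1,⟨3,[(0,1),(6,1),(7,1),(3,0),(9,0)]⟩,⟨0,
  [(2,0)]⟩⟩,.e ⟨true,0,⟨0,[]⟩,⟨0,[(31,0)]⟩⟩ ⟨true,0,⟨1,[(0,0),(3,0),(4,0),(6,0),(9,0)]⟩,⟨0,[(2,0),
  (7,0)]⟩⟩,.a ⟨true,0,⟨0,[(15,0)]⟩,⟨0,[(9,0)]⟩⟩ ⟨false,1,⟨1,[(28,0),(0,0)]⟩,⟨1,[(15,0),(0,0)]⟩⟩
  ⟨true,0,⟨0,[(9,0),(16,0)]⟩,⟨0,[(2,0),(12,0)]⟩⟩]⟩)

theorem ok10 : chk4 K KFs t10 l17 = true := by decide +kernel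

noncomputable def t11 : Tre :=
  (.R ⟨0,false,false,false,[0,0,1],[0,1],[0,1,1],(⟨0,[(19,0)]⟩,⟨0,[(18,0)]⟩),(⟨0,[(22,0)]⟩,⟨0,[(21,
  0)]⟩),⟨0,[(13,0)]⟩,.k,.k,.k,.k,.k,.k,⟨true,0,⟨0,[(27,0)]⟩,⟨0,[(25,0)]⟩⟩,⟨false,1,⟨1,[(10,1),(9,0),
  (8,0)]⟩,⟨0,[(16,0)]⟩⟩,⟨true,0,⟨0,[(15,0),(0,0)]⟩,⟨0,[(2,0)]⟩⟩,⟨false,1,⟨0,[(7,0),(13,0),(0,0)]⟩,
  ⟨0,[(0,0)]⟩⟩,⟨false,0,⟨0,[]⟩,⟨0,[]⟩⟩,⟨false,0,⟨0,[]⟩,⟨0,[]⟩⟩,[.o ⟨false,0,⟨0,[(3,0)]⟩,⟨1,[(8,0),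
  (6,0),(0,0),(10,0),(2,0)]⟩⟩,.o ⟨false,1,⟨3,[(1,0),(5,2),(6,1),(15,0)]⟩,⟨0,[(27,0)]⟩⟩,.a ⟨true,0,
  ⟨0,[(11,0)]⟩,⟨1,[(10,0),(6,0),(3,0),(0,0)]⟩⟩ ⟨false,0,⟨1,[(16,0),(0,0)]⟩,⟨1,[(29,0),(0,0)]⟩⟩
  ⟨true,0,⟨1,[(3,0),(6,0),(6,0),(10,0)]⟩,⟨0,[(11,0),(15,0)]⟩⟩,.e ⟨true,0,⟨0,[(32,0)]⟩,⟨0,[]⟩⟩ ⟨true,
  0,⟨0,[(3,0),(6,0)]⟩,⟨0,[(16,0),(10,0)]⟩⟩]⟩)

theorem ok11 : chk4 K KFs t11 l18 = true := by decide +kernel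

noncomputable def t12 : Tre :=
  (.R ⟨0,false,false,false,[0,0,1],[0,1],[0,1,1],(⟨0,[(17,0)]⟩,⟨0,[(16,0)]⟩),(⟨0,[(20,0)]⟩,⟨0,[(19,
  0)]⟩),⟨0,[(11,0)]⟩,.k,.k,.k,.k,.k,.k,⟨true,0,⟨0,[(25,0)]⟩,⟨0,[(23,0)]⟩⟩,⟨false,1,⟨1,[(8,1),(9,0),
  (8,0)]⟩,⟨0,[(14,0)]⟩⟩,⟨false,0,⟨0,[(0,0)]⟩,⟨0,[(4,0)]⟩⟩,⟨true,0,⟨0,[(0,0),(0,0),(6,0)]⟩,⟨0,[(3,0),
  (21,0)]⟩⟩,⟨false,0,⟨0,[]⟩,⟨0,[]⟩⟩,⟨false,0,⟨0,[]⟩,⟨0,[]⟩⟩,[.o ⟨false,0,⟨0,[(1,0)]⟩,⟨0,[(0,0),(5,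
  0)]⟩⟩,.o ⟨false,1,⟨0,[(3,0),(1,0)]⟩,⟨0,[(25,0)]⟩⟩,.a ⟨true,0,⟨0,[(9,0)]⟩,⟨1,[(8,0),(6,0),(3,0),(0,
  0)]⟩⟩ ⟨false,0,⟨1,[(14,0),(0,0)]⟩,⟨1,[(27,0),(0,0)]⟩⟩ ⟨true,0,⟨1,[(1,0),(6,0),(6,0),(10,0)]⟩,⟨0,
  [(9,0),(15,0)]⟩⟩,.e ⟨true,0,⟨0,[(30,0)]⟩,⟨0,[]⟩⟩ ⟨true,0,⟨0,[(1,0),(6,0)]⟩,⟨0,[(14,0),(10,0)]⟩⟩]⟩)

theorem ok12 : chk4 K KFs t12 r16 = true := by decide +kernel

open Helper55.PC in
noncomputable def t13n : Helper55.PC.Ten :=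
  (i 590511974341505318949 (r
  9020257309883345344298675652672450107797289580573746294419337120630824633176692636163535014865336669955158493890590649165049659469134608809950887454394165219986078497304476583134651402171849563796837579399749826146887676142494811266634854617976331478503946767325355668869710885398692237446618119228694134805830918033079033126601237054338780336001671360)
  (r
  11708963423320777300877681435910554674250889908108486137770687663295588950211112082338530428597011982653888843046983860601725221612416130043357049614737437722906881273081659834734667801941919587097340316860024828236766276663892759000446930942459169665888232483317619376253836901942960999261984899680708597326662393221385300559013151365975575595768521278058917580956017209707300403306688))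

noncomputable def t13 : Tre := Helper55.PC.toT t13n

theorem ok13 : chk4 K KFs t13 r15 = true :=
  Helper81.PC.chk4N_sound K KFs t13n r15 (by decide +kernel)

noncomputable def t14 : Tre :=
  (.R ⟨2,true,false,false,[0,1],[0,0,1],[1,0,0,0,0,0,0,1],(⟨0,[]⟩,⟨0,[]⟩),(⟨0,[(15,0)]⟩,⟨0,[(14,
  0)]⟩),⟨0,[]⟩,.k,.k,.k,.k,.k,.k,⟨true,0,⟨0,[]⟩,⟨1,[(12,0),(0,0)]⟩⟩,⟨false,0,⟨0,[(7,0)]⟩,⟨1,[(3,0),
  (0,0),(1,0),(21,0)]⟩⟩,⟨true,1,⟨0,[(4,0)]⟩,⟨0,[(0,0)]⟩⟩,⟨false,1,⟨0,[(1,0),(21,0),(2,0)]⟩,⟨1,[(0,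
  0),(2,0),(2,0)]⟩⟩,⟨false,1,⟨0,[(2,0)]⟩,⟨0,[(0,0),(22,0),(2,0)]⟩⟩,⟨true,0,⟨0,[(1,0)]⟩,⟨0,[(11,
  0)]⟩⟩,[]⟩)

theorem ok14 : chk4 K KFs t14 r14 = true := by decide +kernel

open Helper55.PC in
noncomputable def t15n : Helper55.PC.Ten :=
  (q 190310890042104825079960630884517311283209 (r
  1207918268003549516693978795858904260846690752624707462420758843603125344766691476366421372037404877462163498109455396733616294389018045273399790754808335930572277132489753543724440813695165308640199155511291401975216889153396129060238232231720865683285896909134312887877999804763458335208820060414695872820101852147741659339782920453779677860821868266653194422026436319043618825959479261596725458494571534901472)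
  (r
  148549465432187920771516649624673115562730392677962401428480230161207686733010301339271135730541775347022141546590438480742838090154860866117915069964067124238759201616698109116582356603082937816924826024462099242301949882987367081983616284746563131454216419175694289776241627245859844745670970352170047608191185062876324357937435632902971136602366766747769925664125094335657782802596235947352678788815274547658125321404057094201536))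

noncomputable def t15 : Tre := Helper55.PC.toT t15n

theorem ok15 : chk4 K KFs t15 r2 = true :=
  Helper81.PC.chk4N_sound K KFs t15n r2 (by decide +kernel)

open Helper55.PC in
noncomputable def t16n : Helper55.PC.Ten :=
  (i 324478944413463240967218043945000 (r
  1788080050642893348334554755756968276479664380176701625501887266214735907810505709588022765550288640127567874241165197297698290966922832694002103406753782534613566639973296538310306947979995747898614749537355697985223269878200525661173877737569697012828116370176263443177693990012985901002759318944978139371939437462240230116834069295588410367213273554570286876742893604955501436343145705626165440)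
  (r
  2013199162445988025050817820805679407848395773552897342224635106340670390225598673820537693494828112991542912715599469432537543023797060140219752484672367517264942203689647168973335854293417064816258118689623033356215248964316813043584774066128169884691539954164988199964446263561862848945103808540931722974918312458204116831920535574958705645981902577560514200537918772474278532293515915277418544801963763851456))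

noncomputable def t16 : Tre := Helper55.PC.toT t16n

theorem ok16 : chk4 K KFs t16 r1 = true :=
  Helper81.PC.chk4N_sound K KFs t16n r1 (by decide +kernel)

theorem cl0 : Clo4 K KFs HH l4 :=
  .q [0,0,0,-1,0,0,0,0,1] (e' := [0,0,0,1,0,0,0,0,-1]) (.pp false [-1,1]) (by decide +kernel)
  (by decide +kernel) (.t t1 ok1) (.h (Or.inl rfl))

theorem cl1 : Clo4 K KFs HH r12 :=
  .q [0,1,0,-1,0,0,1,1,1,1] (e' := [0,-1,0,1,0,0,-1,-1,-1,-1]) (.p true [1,-1,1] [] (⟨0,[(22,0),(1,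
  0)]⟩,⟨0,[(16,0)]⟩) .k 0 (⟨0,[]⟩,⟨0,[]⟩) .k .k) (by decide +kernel) (by decide +kernel) (.t t7
  ok7) (.h (Or.inr (Or.inl rfl)))

theorem cl2 : Clo4 K KFs HH r11 :=
  .i [1,0,2,2,-1] (e' := [0,0,-2,-2,1]) (by decide +kernel) (by decide +kernel) (.t t6 ok6) cl1

theorem cl3 : Clo4 K KFs HH r10 :=
  .i [0,0,2,2,-1] (e' := [1,0,-2,-2,1]) (by decide +kernel) (by decide +kernel) (.t t5 ok5) cl2

theorem cl4 : Clo4 K KFs HH l9 :=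
  .q [0,1,0,-1,0,0,0,1,1] (e' := [0,-1,0,1,0,0,0,-1,-1]) (.pp false [-1,1]) (by decide +kernel)
  (by decide +kernel) (.t t4 ok4) cl3

theorem cl5 : Clo4 K KFs HH r8 :=
  .i [1,0,-1,0,0,0,0,-1] (e' := [0,0,1,0,0,0,0,1]) (by decide +kernel) (by decide +kernel) cl4 (.t
  t8 ok8)

theorem cl6 : Clo4 K KFs HH l7 :=
  .q [0,0,0,-1,0,0,-1,-1,1,-1] (e' := [0,0,0,1,0,0,1,1,-1,1]) (.p false [0,0,1] [1] (⟨0,[(17,0)]⟩,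
  ⟨0,[(16,0)]⟩) .k 1 (⟨0,[]⟩,⟨0,[]⟩) .k .k) (by decide +kernel) (by decide +kernel) (.t t3 ok3) cl5

theorem cl7 : Clo4 K KFs HH r6 :=
  .q [0,0,0,1,0,0,0,0,-1] (e' := [0,0,0,-1,0,0,0,0,1]) (.pp true [-1,1]) (by decide +kernel)
  (by decide +kernel) cl6 (.t t9 ok9)

theorem cl8 : Clo4 K KFs HH r4 :=
  .q [0,0,2,0,-1,0,1,0,1,1] (e' := [0,0,-2,0,1,0,-1,0,-1,-1]) (.p true [1,-1,1] [] (⟨0,[(15,0),(1,
  0)]⟩,⟨0,[(9,0)]⟩) .k 0 (⟨0,[]⟩,⟨0,[]⟩) .k .k) (by decide +kernel) (by decide +kernel) (.t t2 ok2)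
  cl7

theorem cl9 : Clo4 K KFs HH l3 :=
  .q [0,-1,-1,-1,1,0,-1,0,0,-1] (e' := [0,1,1,1,-1,0,1,0,0,1]) (.p false [0,0,1] [] (⟨0,[(14,0)]⟩,
  ⟨0,[(13,0)]⟩) .k 0 (⟨0,[]⟩,⟨0,[]⟩) .k .k) (by decide +kernel) (by decide +kernel) cl0 cl8

theorem cl10 : Clo4 K KFs HH r17 :=
  .q [0,0,0,-1,0,0,1,1,0,1] (e' := [0,0,0,1,0,0,-1,-1,0,-1]) (.p true [0,0,1] [] (⟨0,[(18,0)]⟩,⟨0,
  [(17,0)]⟩) .k 0 (⟨0,[]⟩,⟨0,[]⟩) .k .k) (by decide +kernel) (by decide +kernel) (.t t11 ok11) (.h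
  (Or.inr (Or.inr rfl)))

theorem cl11 : Clo4 K KFs HH l16 :=
  .q [0,1,0,-1,0,0,-1,-1,1,-1] (e' := [0,-1,0,1,0,0,1,1,-1,1]) (.p false [0,0,1] [1] (⟨0,[(17,0)]⟩,
  ⟨0,[(16,0)]⟩) .k 1 (⟨0,[]⟩,⟨0,[]⟩) .k .k) (by decide +kernel) (by decide +kernel) (.t t10 ok10)
  cl10

theorem cl12 : Clo4 K KFs HH l15 :=
  .i [1,0,-1,0,0,0,0,1] (e' := [0,0,1,0,0,0,0,-1]) (by decide +kernel) (by decide +kernel) cl11 (.t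
  t12 ok12)

theorem cl13 : Clo4 K KFs HH l14 :=
  .q [0,0,0,1,0,0,0,0,-1] (e' := [0,0,0,-1,0,0,0,0,1]) (.pp true [-1,1]) (by decide +kernel)
  (by decide +kernel) cl12 (.t t13 ok13)

theorem cl14 : Clo4 K KFs HH r3 :=
  .i [1,-1,-1,-1,1,0,0,1] (e' := [0,1,1,1,-1,0,0,-1]) (by decide +kernel) (by decide +kernel) cl13
  (.t t14 ok14)

theorem cl15 : Clo4 K KFs HH l2 :=
  .q [0,0,0,0,0,0,-1,-1,0,-1] (e' := [0,0,0,0,0,0,1,1,0,1]) (.p false [0,0,1] [] (⟨0,[(13,0)]⟩,⟨0,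
  [(12,0)]⟩) .k 0 (⟨0,[]⟩,⟨0,[]⟩) .k .k) (by decide +kernel) (by decide +kernel) cl9 cl14

theorem cl16 : Clo4 K KFs HH l1 :=
  .i [1,-1,-1,0,1,0,0,1] (e' := [0,1,1,0,-1,0,0,-1]) (by decide +kernel) (by decide +kernel) cl15
  (.t t15 ok15)

theorem cl17 : Clo4 K KFs HH r0 :=
  .q [0,-1,0,1,1,0,-1,-1,-1,-1] (e' := [0,1,0,-1,-1,0,1,1,1,1]) (.p false [1,-1,1] [] (⟨0,[(11,0),
  (1,0)]⟩,⟨0,[(5,0)]⟩) .k 0 (⟨0,[]⟩,⟨0,[]⟩) .k .k) (by decide +kernel) (by decide +kernel) cl16 (.t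
  t16 ok16)

theorem cl18 : Clo4 K KFs HH base :=
  .i [0,0,1,1,-1,0,0,-1] (e' := [1,0,-1,-1,1,0,0,1]) (by decide +kernel) (by decide +kernel) (.t t0
  ok0) cl17

open Helper25.KW Helper55.KE in
theorem closed {p a b c J l q : ℤ} {D dl : ℝ} {Cl : ℤ → ℤ → ℤ → ℤ → ℝ → Prop}
    (W : World p a b c J 1 l q D dl Cl) (g : G0 p a b c J D)
    {N X R : ℤ} {I : ℝ} (hk : KCl p l Cl N X R I) (kz : KF a b D (X + (1 : ℤ) * I) (X + (1 : ℤ) * I + R) I)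
    (hU : KU p a b l 1 Cl (fun X R I => Zy b 1 D X R I) N)
    (hN0 : KNo p a b l 1 Cl (fun X R I => Zx 1 X R I ∧ Zy b 1 D X R I))
    (hN1 : KNo p a b l 1 Cl (fun X R I => ZiD D J X R I ∧ Zy b 1 D X R I))
    (h0 : 1 ≤ (c : ℝ))
    (h1 : 1 ≤ (a : ℝ) - (b : ℝ))
    (h2 : 1 ≤ 1 - (a : ℝ) + (b : ℝ) + (c : ℝ))
    (h3 : 0 < 2 * (b : ℝ) - D)
    (h4 : 1 ≤ 2 * (a : ℝ) - (b : ℝ))
    (h5 : 0 < (J : ℝ) - I)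
    (h6 : 0 < (J : ℝ) - D + I)
    (h7 : 0 < (X : ℝ) + I)
    (h8 : 0 < -(b : ℝ) - (X : ℝ) + D - I)
    (h9 : 0 < -D + 2 * I)
    (H0 : 1 ≤ 1 - (b : ℝ) - (c : ℝ) + (p : ℝ) + (R : ℝ) → 0 < -(a : ℝ) + (c : ℝ) + (p : ℝ) - (X : ℝ) - (R : ℝ) - D - I → 1 ≤ 1 - (a : ℝ) - (b : ℝ) + (p : ℝ) + (R : ℝ) → 0 < -(X : ℝ) - (R : ℝ) - I → 0 < -(a : ℝ) - (b : ℝ) - (c : ℝ) + (p : ℝ) - (X : ℝ) - I → 0 < (c : ℝ) - D → False)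
    (H1 : 1 ≤ 1 - (b : ℝ) - (c : ℝ) + (p : ℝ) + (R : ℝ) → 0 < -(a : ℝ) + (c : ℝ) + (p : ℝ) - (X : ℝ) - (R : ℝ) - D - I → 1 ≤ 1 - (a : ℝ) - (b : ℝ) + (p : ℝ) + (R : ℝ) → 0 < -(X : ℝ) - (R : ℝ) - I → 0 < (a : ℝ) + (b : ℝ) + (c : ℝ) - (p : ℝ) + (X : ℝ) + I → 0 < -2 * (b : ℝ) + (p : ℝ) - (X : ℝ) - D - I → 0 < (c : ℝ) - D → 0 < (c : ℝ) + (X : ℝ) + (R : ℝ) - D + I → 1 ≤ 1 - (b : ℝ) - (R : ℝ) → 0 < -(a : ℝ) + (c : ℝ) - (R : ℝ) - D → 1 ≤ 1 - 2 * (b : ℝ) - 2 * (c : ℝ) + (p : ℝ) → 1 ≤ -2 * (b : ℝ) - 2 * (c : ℝ) + (p : ℝ) → 0 < -(a : ℝ) + (c : ℝ) - (X : ℝ) - (R : ℝ) - D - I → False)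
    (H2 : 1 ≤ 1 - (b : ℝ) - (c : ℝ) + (p : ℝ) + (R : ℝ) → 0 < -(a : ℝ) + (c : ℝ) + (p : ℝ) - (X : ℝ) - (R : ℝ) - D - I → 1 ≤ 1 - (a : ℝ) - (b : ℝ) + (p : ℝ) + (R : ℝ) → 0 < (X : ℝ) + (R : ℝ) + I → 1 ≤ 1 - (a : ℝ) - (b : ℝ) - (c : ℝ) + (p : ℝ) + (R : ℝ) → 0 < (c : ℝ) - D → 1 ≤ 1 - (b : ℝ) + (R : ℝ) → 0 < -(a : ℝ) + (c : ℝ) + (X : ℝ) + (R : ℝ) - D + I → 0 < (c : ℝ) - (X : ℝ) - (R : ℝ) - I → False) : False := by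
  have g1 := g.a2
  have g2 := g.b2
  have g3 := g.pa
  have g4 := g.pb
  have g5 := g.J1
  have g6 := g.JD
  have g7 := g.D2
  have g8 := g.ca
  have g9 := g.ca'
  have k1 := kz.I0
  have k2 := kz.ID
  have k3 := kz.z1
  have k4 := kz.z2
  have k5 := kz.s1
  have k6 := kz.s2
  have hkf : ∀ M : ℤ, ∀ kf ∈ KFs, KOk4 p l Cl 1 (xv [1, a, b, c, p, J, X, R] [D, I]) N M kf := by
    intro M
    have hA1 : evg (xv [1, a, b, c, p, J, X, R] [D, I]) [0, 1] = a := by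
      simp only [evg_cons, evg_nil, xv, List.map_cons, List.map_nil, List.cons_append, List.nil_append]
      push_cast
      ring
    have hB1 : evg (xv [1, a, b, c, p, J, X, R] [D, I]) [0, 0, 1] = b := by
      simp only [evg_cons, evg_nil, xv, List.map_cons, List.map_nil, List.cons_append, List.nil_append]
      push_cast
      ring
    simp only [KFs, List.forall_mem_cons]
    refine ⟨kok4_u hA1 hB1 M hU ?_, kok4_no hA1 hB1 N M hN0 ?_, kok4_no hA1 hB1 N M hN1 ?_, fun _ h => absurd h (by simp)⟩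
    · intro X' R' I' _ hg
      simp only [List.forall_mem_cons, List.not_mem_nil, false_imp_iff, implies_true, and_true,
        evg_cons, evg_nil, xv, List.map_cons, List.map_nil, List.cons_append, List.nil_append] at hg
      push_cast at hg
      simp only [Zx, Zp, Zs, Zsp, Zi, ZiD, Zy]
      push_cast
      linarith
    · intro X' R' I' _ hg
      simp only [List.forall_mem_cons, List.not_mem_nil, false_imp_iff, implies_true, and_true,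
        evg_cons, evg_nil, xv, List.map_cons, List.map_nil, List.cons_append, List.nil_append] at hg
      push_cast at hg
      simp only [Zx, Zp, Zs, Zsp, Zi, ZiD, Zy]
      push_cast
      refine ⟨?_, ?_⟩ <;> linarith [hg.1, hg.2]
    · intro X' R' I' _ hg
      simp only [List.forall_mem_cons, List.not_mem_nil, false_imp_iff, implies_true, and_true,
        evg_cons, evg_nil, xv, List.map_cons, List.map_nil, List.cons_append, List.nil_append] at hg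
      push_cast at hg
      simp only [Zx, Zp, Zs, Zsp, Zi, ZiD, Zy]
      push_cast
      refine ⟨?_, ?_⟩ <;> linarith [hg.1, hg.2]
  push_cast at *
  refine closed4 (val_K W.toBase hk []) W rfl (Nk := N)
    (fun kf _ _ => ⟨_, rfl⟩) (fun _ _ _ => rfl) (hkf _) (H := HH) ?_ cl18 ?_
  · rintro Q (rfl | rfl | rfl) hQ
    · simp only [r5, l4, l3, l2, l1, r0, List.forall_mem_cons, hld, xv, evg_cons, evg_nil, List.map_cons,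
        List.map_nil, List.cons_append, List.nil_append, if_true, if_false, Bool.false_eq_true] at hQ
      push_cast at hQ
      obtain ⟨p5, p4, p3, p2, p1, p0, -⟩ := hQ
      exact H0 (by linarith) (by linarith) (by linarith) (by linarith) (by linarith) (by linarith)
    · simp only [r13, r12, r11, r10, l9, r8, l7, r6, r4, l3, l2, l1, r0, List.forall_mem_cons, hld, xv, evg_cons, evg_nil, List.map_cons,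
        List.map_nil, List.cons_append, List.nil_append, if_true, if_false, Bool.false_eq_true] at hQ
      push_cast at hQ
      obtain ⟨p12, p11, p10, p9, p8, p7, p6, p5, p4, p3, p2, p1, p0, -⟩ := hQ
      exact H1 (by linarith) (by linarith) (by linarith) (by linarith) (by linarith) (by linarith) (by linarith) (by linarith) (by linarith) (by linarith) (by linarith) (by linarith) (by linarith)
    · simp only [r18, r17, l16, l15, l14, r3, l2, l1, r0, List.forall_mem_cons, hld, xv, evg_cons, evg_nil, List.map_cons,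
        List.map_nil, List.cons_append, List.nil_append, if_true, if_false, Bool.false_eq_true] at hQ
      push_cast at hQ
      obtain ⟨p8, p7, p6, p5, p4, p3, p2, p1, p0, -⟩ := hQ
      exact H2 (by linarith) (by linarith) (by linarith) (by linarith) (by linarith) (by linarith) (by linarith) (by linarith) (by linarith)
  · simp only [base, List.forall_mem_cons, List.not_mem_nil, false_imp_iff, implies_true,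
      and_true, hld, xv, evg_cons, evg_nil, List.map_cons, List.map_nil, List.cons_append,
      List.nil_append, if_true, if_false, Bool.false_eq_true]
    push_cast
    refine ⟨?_, ?_, ?_, ?_, ?_, ?_, ?_, ?_, ?_, ?_, ?_, ?_, ?_, ?_, ?_, ?_, ?_, ?_, ?_, ?_, ?_, ?_, ?_, ?_⟩ <;> linarith

end Helper25.S1T.Zpp2Ca_r1
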